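import Pool.Agent.MP_05b4bd_ag.ex.Spec

/-! Small facts on universal polynomials and derivations, shared by the blocks. -/

namespace Pool.Agent.MP_05b4bd_ag.XO

open PowerSeries LaurentSeries HC
open ES hiding Gen Ob Inf
open RV (In)

section Rings
variable {A B T : Type} [CommRing A] [CommRing B] [CommRing T]

theorem map_e6 (φ : A →+* B) (g : U6) (y : Pa A) (p z : A) :
    φ (e6 g y p z) = e6 g (y.map φ) (φ p) (φ z) := by
  rw [e6, e6, MvPolynomial.eval₂_comp_left]
  congr 1
  · exact RingHom.ext_int _ _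
  · funext i
    fin_cases i <;> rfl

theorem Pa.map_map (φ : A →+* B) (ψ : B →+* T) (x : Pa A) :
    (x.map φ).map ψ = x.map (ψ.comp φ) := rfl

theorem map_l (φ : A →+* B) (y : Pa A) (u v : A) : φ (y.l u v) = (y.map φ).l (φ u) (φ v) := by
  simp only [Pa.l, Pa.map, map_add, map_mul, map_one, map_ofNat]

theorem map_el (φ : A →+* B) (y : Pa A) (u v : A) : φ (y.el u v) = (y.map φ).el (φ u) (φ v) := by
  simp only [Pa.el, Pa.map, map_add, map_mul, map_ofNat]

theorem map_ρ (φ : A →+* B) (b : ℕ) (y : Pa A) (u v : A) :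
    φ (y.ρ b u v) = (y.map φ).ρ b (φ u) (φ v) := by
  simp only [Pa.ρ, map_mul, map_pow, map_el]

theorem map_Λ (φ : A →+* B) (y : Pa A) (u v : A) : φ (y.Λ u v) = (y.map φ).Λ (φ u) (φ v) := by
  simp only [Pa.Λ, Pa.map, map_add, map_sub, map_mul, map_pow, map_one, map_ofNat]

theorem map_J (φ : A →+* B) (M : Mp) (b : ℕ) (y : Pa A) (u v : A) :
    φ (M.J b y u v) = M.J b (y.map φ) (φ u) (φ v) := by
  simp only [Mp.J, map_add, map_sub, map_mul, map_natCast, map_ofNat, map_e6, map_el]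
  rfl

theorem map_q4 (φ : A →+* B) (a : Fin 5 → A) (u v : A) :
    φ (q4 a u v) = q4 (fun i => φ (a i)) (φ u) (φ v) := by
  simp only [q4, map_add, map_mul, map_pow]

theorem map_gE (φ : A →+* B) (b : ℕ) (c m u v : A) :
    φ (gE b c m u v) = gE b (φ c) (φ m) (φ u) (φ v) := by
  simp only [gE, map_add, map_sub, map_mul, map_pow, map_sum, map_one, map_ofNat]

theorem map_t3 (φ : A →+* B) (b : ℕ) (z l : A) : φ (t3 b z l) = t3 b (φ z) (φ l) := by
  unfold t3
  split_ifs <;> simp only [map_add, map_sub, map_mul, map_pow, map_ofNat]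

theorem map_rz (φ : A →+* B) (b : ℕ) (p z m n : A) :
    φ (rz b p z m n) = rz b (φ p) (φ z) (φ m) (φ n) := by
  unfold rz
  split_ifs <;> simp only [map_add, map_sub, map_mul, map_pow, map_ofNat]

theorem map_Tz (φ : A →+* B) (b : ℕ) (a : Fin 5 → A) (S θ x1 x2 m n s z : A) :
    φ (Tz b a S θ x1 x2 m n s z) = Tz b (fun i => φ (a i)) (φ S) (φ θ) (φ x1) (φ x2) (φ m) (φ n)
      (φ s) (φ z) := by
  simp only [Tz, qu, qv, map_add, map_sub, map_mul, map_pow, map_one, map_ofNat, map_natCast,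
    map_t3, map_rz]

theorem q4_m4 (m n u v : A) : q4 (m4 m n) u v = (m * u + n * v) ^ 4 := by
  simp only [q4, m4, Matrix.cons_val]
  ring

/-- The chain rule. -/
theorem der_e6 {V : A →+ A} (hV : IsDer V) (g : U6) {y : Pa A} (hc : V y.c = 0) (hμ : V y.μ = 0)
    (hm : V y.m = 0) (hn : V y.n = 0) (p z : A) :
    V (e6 g y p z) = e6 (MvPolynomial.pderiv 0 g) y p z * V p +
      e6 (MvPolynomial.pderiv 1 g) y p z * V z := by
  unfold e6
  induction g using MvPolynomial.induction_on with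
  | C r =>
    rw [MvPolynomial.eval₂_C, MvPolynomial.pderiv_C, MvPolynomial.pderiv_C,
      MvPolynomial.eval₂_zero, zero_mul, zero_mul, add_zero]
    exact hV.intCast r
  | add a b ha hb =>
    simp only [map_add, MvPolynomial.eval₂_add, ha, hb]
    ring
  | mul_X a i ha =>
    rw [MvPolynomial.eval₂_mul, hV, ha]
    fin_cases i <;> simp [MvPolynomial.pderiv_X, hc, hμ, hm, hn] <;> ring

theorem e6_mem (S : Subring A) (g : U6) {y : Pa A} {p z : A} (hp : p ∈ S) (hz : z ∈ S)
    (hc : y.c ∈ S) (hμ : y.μ ∈ S) (hm : y.m ∈ S) (hn : y.n ∈ S) : e6 g y p z ∈ S := by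
  unfold e6
  induction g using MvPolynomial.induction_on with
  | C r => rw [MvPolynomial.eval₂_C]; exact intCast_mem S r
  | add a b ha hb => rw [MvPolynomial.eval₂_add]; exact add_mem ha hb
  | mul_X a i ha =>
    rw [MvPolynomial.eval₂_mul, MvPolynomial.eval₂_X]
    refine mul_mem ha ?_
    fin_cases i <;> assumption

/-- The series with coefficients in `S`. -/
theorem in_iff (S : Subring A) (u : A⟦X⟧) : In S u ↔ u ∈ (map S.subtype).range :=
  ⟨fun h => (exists_map_of_coeff (φ := S.subtype) fun n => ⟨⟨_, h n⟩, rfl⟩).imp fun _ e => e.symm,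
    fun ⟨g, e⟩ n => by rw [← e, coeff_map]; exact (coeff n g).2⟩

end Rings

section Fields
variable {k L : Type} [Field k] [Field L]

/-- The derivation `VT` as an additive map. -/
noncomputable def VA (D : L →+ L) (vb : TT L) : TT L →+ TT L :=
  cw (cwL D) - (AddMonoidHom.mulLeft vb).comp (cw (thL L))

theorem coe_VA (D : L →+ L) (vb : TT L) : ⇑(VA D vb) = VT D vb := rfl

theorem isDer_VA {D : L →+ L} (hD : IsDer D) (vb : TT L) : IsDer (VA D vb) :=
  hD.coefL.coefw.sub (isDer_thL.coefw.mulLeft vb)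

theorem VT_X {D : L →+ L} (hD : IsDer D) (vb : TT L) : VT D vb X = 0 := by
  rw [VT, cw_X hD.coefL.one, cw_X isDer_thL.one, mul_zero, sub_zero]

theorem cc_VT' (D : L →+ L) (vb u : TT L) :
    cc (VT D vb u) = cwL D (cc u) - cc vb * thL L (cc u) := by
  rw [VT, map_sub, map_mul, cc_cw, cc_cw]

theorem VT_cL (D : L →+ L) (vb : TT L) (r : L⟦X⟧) :
    VT D vb (map (cL L) r) = map (cL L) (cw D r) := by
  have e1 : cw (cwL D) (map (cL L) r) = map (cL L) (cw D r) := by
    ext1 n
    rw [coeff_cw, coeff_map, coeff_map, coeff_cw, cwL_cL]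
  have e2 : cw (thL L) (map (cL L) r) = 0 := by
    ext1 n
    rw [coeff_cw, coeff_map, thL_cL, map_zero]
  rw [VT, e1, e2, mul_zero, sub_zero]

theorem iK_eq (κ : k →+* L) (r : k⟦X⟧) : iK κ r = map (cL L) (map κ r) := by
  ext1 n
  simp [iK, coeff_map]

theorem VT_iK {κ : k →+* L} {D : L →+ L} (h : ∀ c, D (κ c) = 0) (vb : TT L) (r : k⟦X⟧) :
    VT D vb (iK κ r) = 0 := by
  have : cw D (map κ r) = 0 := by
    ext n
    rw [coeff_cw, coeff_map, h, map_zero]
  rw [iK_eq, VT_cL, this, map_zero]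

theorem cc_iK (κ : k →+* L) (r : k⟦X⟧) : cc (iK κ r) = cL L (κ (cc r)) := by
  rw [← coeff_zero_eq_constantCoeff_apply, iK, coeff_map, coeff_zero_eq_constantCoeff_apply]
  rfl

theorem iK_X (κ : k →+* L) : iK κ X = X := map_X _

theorem sD_apply (θ : L) (D : L →+ L) (c : L) : sD θ D c = θ * D c := rfl

theorem iX_inj : Function.Injective (iX L) := by
  rw [injective_iff_map_eq_zero]
  intro p hp
  ext n
  have h := congrArg (fun u : L⸨X⸩ => u.coeff (-(n : ℤ))) hp
  simp only [iX, Polynomial.coe_eval₂RingHom, Polynomial.eval₂_eq_sum_range, wL_pow,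
    HahnSeries.coeff_sum, coeff_cL_mul, coeff_wL, mul_neg, mul_one, neg_inj, Nat.cast_inj,
    mul_ite, mul_zero, Finset.sum_ite_eq, Finset.mem_range, HahnSeries.coeff_zero] at h
  split_ifs at h with hn
  · exact h
  · exact Polynomial.coeff_eq_zero_of_natDegree_lt (by omega)

end Fields

end Pool.Agent.MP_05b4bd_ag.XO
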