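import Pool.Agent.MP_05b4bd_ag.ex.Bas

/-! Singular points of the exceptional family over regular points of the quotient form are
centres. -/

namespace Pool.Agent.MP_05b4bd_ag.XO

open MvPolynomial HC Topology
open PC3 (Fm fm d1 DF sub2 pb mapF Van)

namespace Cenx

theorem mul_gE {A : Type} [CommRing A] (b : ℕ) (c m u v : A) :
    u * gE b c m u v = u ^ 4 + (u * v + c) ^ 2 - c ^ 2 * (1 + m * u) ^ b := by
  have h := mul_geom_sum (1 + m * u) b
  rw [gE]
  linear_combination -c ^ 2 * h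

theorem der_pow (i : Fin 2) (l : Poly) (b : ℕ) :
    l * pderiv i (l ^ b) = b * l ^ b * pderiv i l := by
  induction b with
  | zero => simp
  | succ b ih =>
    rw [pow_succ, pderiv_mul]
    push_cast
    linear_combination l * ih

theorem alg {u v c μ b l L G n u' v' l' L' G' : ℂ} (hu : u ≠ 0) (hl : l ≠ 0)
    (h1 : u * G = u ^ 4 + (u * v + c) ^ 2 - c ^ 2 * L)
    (h2 : u' * G + u * G' = 4 * u ^ 3 * u' + 2 * (u * v + c) * (u' * v + u * v') - c ^ 2 * L')
    (h3 : l * L' = b * L * l') :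
    n * (-(3 * (1 + ((u * v + c) * u⁻¹ ^ 2) ^ 2) + μ * ((u * v + c) * u⁻¹ ^ 2) +
        c ^ 2 * (L * u⁻¹ ^ 4)) * (L' * u⁻¹ ^ 4 - 4 * L * u' * u⁻¹ ^ 5) -
      -(8 * ((u * v + c) * u⁻¹ ^ 2) * (L * u⁻¹ ^ 4)) *
        ((u' * v + u * v') * u⁻¹ ^ 2 - 2 * (u * v + c) * u' * u⁻¹ ^ 3)) =
    n * L / (u ^ 7 * l) * (4 * l * G' - 3 * b * G * l' +
      μ * (u * v + c) * (4 * l * u' - b * u * l')) := by
  have e1 : G = (u ^ 4 + (u * v + c) ^ 2 - c ^ 2 * L) / u := by
    rw [eq_div_iff hu]; linear_combination h1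
  have e2 : G' =
      (4 * u ^ 3 * u' + 2 * (u * v + c) * (u' * v + u * v') - c ^ 2 * L' - u' * G) / u := by
    rw [eq_div_iff hu]; linear_combination h2
  have e3 : L' = b * L * l' / l := by
    rw [eq_div_iff hl]; linear_combination h3
  rw [e2, e1, e3]
  field_simp
  ring

end Cenx

open Cenx in
theorem cenxS (h1 : RV.FlowaStmt) (h2 : RV.CenaStmt) : CenxStmt := by
  intro b c m μ u v z hu hl reg e1 e2 e3
  obtain ⟨l, el⟩ : ∃ l : Poly, l = 1 + C m * u := ⟨_, rfl⟩
  obtain ⟨G, eG⟩ : ∃ G : Poly, G = gE b (C c) (C m) u v := ⟨_, rfl⟩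
  have aκ : AnalyticAt ℂ (fun w : Fin 2 → ℂ => (eval w u)⁻¹) z := (analyticAt_eval u z).inv hu
  have aΨ : AnalyticAt ℂ (fun (w : Fin 2 → ℂ) (i : Fin 2) =>
      eval w (![u * v + C c, l ^ b] i) * (eval w u)⁻¹ ^ (![2, 4] i : ℕ)) z :=
    analyticAt_pi_iff.2 fun i => (analyticAt_eval _ z).mul (aκ.pow _)
  rw [← el] at hl reg
  obtain ⟨I, ν, aI, aν, ν0, hI⟩ := h1 (-(3 * (1 + X 0 ^ 2) + C μ * X 0 + C c ^ 2 * X 1))
    (-(8 * X 0 * X 1))
    (fun i => eval z (![u * v + C c, l ^ b] i) * (eval z u)⁻¹ ^ (![2, 4] i : ℕ)) (by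
      refine Or.inl fun h => reg ?_
      simp only [map_neg, map_add, map_mul, map_pow, map_one, map_ofNat, eval_X, eval_C,
        Matrix.cons_val_zero, Matrix.cons_val_one] at h ⊢
      field_simp at h
      linear_combination -h)
  refine h2 _ z (fun w => I fun i =>
      eval w (![u * v + C c, l ^ b] i) * (eval w u)⁻¹ ^ (![2, 4] i : ℕ))
    (fun w => (ν fun i => eval w (![u * v + C c, l ^ b] i) * (eval w u)⁻¹ ^ (![2, 4] i : ℕ)) *
      eval w (l ^ b) / (eval w u ^ 7 * eval w l))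
    (aI.comp_of_eq aΨ rfl) (((aν.comp_of_eq aΨ rfl).mul (analyticAt_eval _ z)).div
      (((analyticAt_eval u z).pow 7).mul (analyticAt_eval l z)) (mul_ne_zero (pow_ne_zero _ hu) hl))
    (div_ne_zero (mul_ne_zero ν0 (by rw [map_pow]; exact pow_ne_zero _ hl))
      (mul_ne_zero (pow_ne_zero _ hu) hl)) ?_ e1 e2 e3
  filter_upwards [(analyticAt_eval u z).continuousAt.eventually_ne hu,
    (analyticAt_eval l z).continuousAt.eventually_ne hl, aΨ.continuousAt.eventually hI,
    aΨ.continuousAt.eventually aI.eventually_analyticAt] with w w0 w1 w3 w4 t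
  have dκ := (hasDerivAt_inv w0).comp_hasFDerivAt w (hasFDerivAt_eval u w)
  have dΨ := hasFDerivAt_pi.2 fun i : Fin 2 =>
    (hasFDerivAt_eval (![u * v + C c, l ^ b] i) w).mul (dκ.pow (![2, 4] i : ℕ))
  have dH := (w4.differentiableAt.hasFDerivAt.comp w dΨ).fderiv
  refine (DFunLike.congr_fun dH t).trans ?_
  have g1 : u * G = u ^ 4 + (u * v + C c) ^ 2 - C c ^ 2 * l ^ b := by
    rw [eG, el, mul_gE]
  have g2 : ∀ i : Fin 2, pderiv i u * G + u * pderiv i G = 4 * u ^ 3 * pderiv i u +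
      2 * (u * v + C c) * (pderiv i u * v + u * pderiv i v) - C c ^ 2 * pderiv i (l ^ b) :=
    fun i => by
      have h := congrArg (pderiv i) g1
      generalize l ^ b = L at h
      simp only [map_add, map_sub, pderiv_mul, pderiv_pow, pderiv_C] at h
      push_cast at h
      linear_combination h
  have k1 := congrArg (eval w) g1
  have k2 := fun i => congrArg (eval w) (g2 i)
  have k3 := fun i => congrArg (eval w) (der_pow i l b)
  rw [ContinuousLinearMap.comp_apply, w3, exF, ← eG, ← el]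
  generalize l ^ b = L at k1 k2 k3 ⊢
  simp only [map_add, map_sub, map_mul, map_pow, map_ofNat, map_natCast, eval_C] at k1 k2 k3
  have key := alg (μ := μ) (n := ν fun i =>
      eval w (![u * v + C c, L] i) * (eval w u)⁻¹ ^ (![2, 4] i : ℕ))
    (u' := eval w (pderiv 0 u) * t 0 + eval w (pderiv 1 u) * t 1)
    (v' := eval w (pderiv 0 v) * t 0 + eval w (pderiv 1 v) * t 1)
    (l' := eval w (pderiv 0 l) * t 0 + eval w (pderiv 1 l) * t 1)
    (L' := eval w (pderiv 0 L) * t 0 + eval w (pderiv 1 L) * t 1)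
    (G' := eval w (pderiv 0 G) * t 0 + eval w (pderiv 1 G) * t 1) (b := b) w0 w1 k1
    (by linear_combination t 0 * k2 0 + t 1 * k2 1) (by linear_combination t 0 * k3 0 + t 1 * k3 1)
  simp only [fm, Prod.fst_add, Prod.fst_sub, Prod.snd_add, Prod.snd_sub, Prod.smul_fst,
    Prod.smul_snd, ContinuousLinearMap.pi_apply, smul_apply,
    add_apply, ContinuousLinearMap.proj_apply, smul_eq_mul, map_mul, map_sub,
    map_add, map_neg, map_natCast, map_pow, map_one, map_ofNat, eval_X, eval_C, pderiv_mul,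
    pderiv_C, map_zero, Function.comp_apply, nsmul_eq_mul,
    Matrix.cons_val_zero, Matrix.cons_val_one]
  rw [← inv_pow]
  push_cast
  linear_combination key

end Pool.Agent.MP_05b4bd_ag.XO
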