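import Pool.Agent.MP_05b4bd_ag.ex.Bas

/-! The frame adapted to the model exists. -/

namespace Pool.Agent.MP_05b4bd_ag.XO

open PowerSeries LaurentSeries HC
open ES hiding Gen Ob Inf

theorem cfrS : CfrStmt := by
  intro b M k L _ _ _ κ D s z c x hX hS
  have : CharZero L := charZero_of_injective_ringHom κ.injective
  have hz : z ≠ 0 := by
    rintro rfl
    have h := hX.cub
    have h1 : D (s * s) = 0 := by
      rw [show s * s = κ (-1) by rw [map_neg, map_one]; linear_combination -h, hX.con]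
    rw [hX.der, hX.ds] at h1
    have h2 : s = 0 := by linear_combination (1 / 2 : L) * h1
    rw [h2] at h
    norm_num at h
  obtain ⟨ζ, h1, h2⟩ := hensel (up (⊥ : Ideal L)) (Polynomial.X ^ 3 +
      Polynomial.C (C (κ c ^ 2) * X ^ 4) * Polynomial.X ^ 4 - Polynomial.C (C (1 + s ^ 2)))
    (a := C z) (by simp [mem_up_bot, hX.cub]) (by
      rw [isUnit_iff_constantCoeff, Polynomial.derivative_sub, Polynomial.derivative_add,
        Polynomial.derivative_C, Polynomial.derivative_C_mul, Polynomial.derivative_X_pow,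
        Polynomial.derivative_X_pow]
      simp [hz, map_ofNat])
  have h3 : cc ζ = z := by simpa [mem_up_bot, sub_eq_zero] using h1
  obtain ⟨ζi, hi⟩ := (isUnit_iff_constantCoeff.2 (IsUnit.mk0 _ (h3 ▸ hz : cc ζ ≠ 0))).exists_right_inv
  obtain ⟨Z, hZ⟩ : ∃ Z : AA L, Z = X * map C ζ := ⟨_, rfl⟩
  have z0 : c00 Z = 0 := by simp [hZ, c00]
  have n0 : c00 (x.map (iA κ)).n = 0 := by
    obtain ⟨g, e⟩ := hS.n
    simp [Pa.map, iA, c00, e]
  have s0 : c00 (CC s : AA L) = s := by simp [c00, CC]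
  have ev : ∀ p : AA L, Polynomial.eval p (e6 M.S ((x.map (iA κ)).map Polynomial.C) Polynomial.X
      (Polynomial.C Z)) = e6 M.S (x.map (iA κ)) p Z := fun p => by
    have := map_e6 (Polynomial.evalRingHom p) M.S ((x.map (iA κ)).map Polynomial.C) Polynomial.X
      (Polynomial.C Z)
    simpa [Pa.map] using this
  obtain ⟨r, hr⟩ := M.sE ((x.map (iA κ)).map Polynomial.C) Polynomial.X (Polynomial.C Z)
  obtain ⟨y, hy⟩ : ∃ y, y = x.map (iA κ) := ⟨_, rfl⟩
  rw [← hy] at n0 ev hr
  obtain ⟨p, p1, p2⟩ := hensel (up (up (⊥ : Ideal L)))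
    (e6 M.S (y.map Polynomial.C) Polynomial.X (Polynomial.C Z) - Polynomial.C (CC s)) (a := CC s)
    (by rw [hr, mem_up2]; simp [Pa.map, z0, n0]) (by
      rw [isUnit_iff_constantCoeff, isUnit_iff_constantCoeff]
      refine IsUnit.mk0 (c00 _) ?_
      rw [hr]
      simp [Pa.map, n0, Polynomial.derivative_pow])
  refine ⟨p, ζ, ζi, ⟨h3, ?_⟩, hi, ?_, ?_⟩
  · simp only [Polynomial.eval_sub, Polynomial.eval_add, Polynomial.eval_mul, Polynomial.eval_pow,
      Polynomial.eval_X, Polynomial.eval_C] at h2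
    linear_combination h2
  · rw [mem_up2, map_sub, s0, Ideal.mem_bot, sub_eq_zero] at p1
    exact p1
  · rw [Polynomial.eval_sub, ev, Polynomial.eval_C, sub_eq_zero] at p2
    rw [← hZ, ← hy]
    exact p2

end Pool.Agent.MP_05b4bd_ag.XO
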