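import Pool.Agent.MP_05b4bd_ag.ex.Bas
import Pool.Agent.MP_05b4bd_ag.rr.Cors

/-! Removal of the normalisation of the coordinates, with the exceptional case. -/

namespace Pool.Agent.MP_05b4bd_ag.XO

open MvPolynomial HC
open ES hiding Gen Ob Inf
open ES.U (TM Cr hom)
open PC3 (Fm fm d1 DF sub2 pb mapF CenK)
open UM (Cors.det Cors.map_pb Cors.back)
open scoped PowerSeries LaurentSeries

theorem corxS (h1 : RV.PortStmt) (h2 : RigxStmt) (h3 : RV.RrcStmt) (h4 : VanxStmt) :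
    CorxStmt := by
  intro k _ _ _ d f w p hd tm hw hr hc
  obtain ⟨a, b, c, e, h, g⟩ := RV.Crs.shear (by omega) tm
  have hC := Cors.det h (PowerSeries.C : k →+* k⟦X⟧)
  have hL := Cors.det hC (coeL k)
  have H := UM.Cors.Ce.pb hL (w := mapF (coeL k) w) hc
  rw [← Cors.map_pb] at H
  rcases h1 k d _ _ _ hd g (hw.pb (PC3.DL_lf _ _) (PC3.DL_lf _ _)) (by
    rw [Cors.map_pb, hr, PC3.pb_d1, PC3.d1_sub, PC3.d1_C, sub_zero, PC3.sub2_lf]
    simp only [PowerSeries.constantCoeff_C]) H with H1 | ⟨o, e1, e2, e3, H1⟩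
  · refine .inl fun Ω _ _ _ ψ => ?_
    have := H1 Ω ψ
    rw [Cors.map_pb, Cors.map_pb] at this
    exact Cors.back (Cors.det hL ψ) this
  rw [← e1, ← e2, ← e3] at H1
  have := h2 k d o hd H1
  rw [e1, e2, e3] at this
  obtain ⟨s, t, hs, ht, -, -, -, -, h2⟩ := PC3.exists_inv (PC3.DL_lf (PowerSeries.C a)
    (PowerSeries.C b)) (PC3.DL_lf (PowerSeries.C c) (PowerSeries.C e)) (by
      rw [br, lf_x, lf_x, lf_y, lf_y]; exact Cors.det hC C)
  rcases this with ⟨m, n, m1, n1, cp, sy, r⟩ | ⟨d3, x, xc⟩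
  · exact .inr (.inl ⟨m, n, m1, n1, cp, RV.Crs.sym h _ sy, h2 w ▸ (h3 _ d m n _).2.1 s t hs ht r⟩)
  · exact .inr (.inr ⟨d3, RV.Crs.exo h _ x, h2 w ▸ h4.2.1 _ _ s t hs ht xc⟩)

end Pool.Agent.MP_05b4bd_ag.XO
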