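import Pool.Agent.MP_05b4bd_ag.rr.Defs

namespace Pool.Agent.MP_05b4bd_ag

open MvPolynomial

/-- Forms `4 l dG - 3 b G dl + μ (u v + c) (4 l du - b u dl)` with `deg u, deg v ≤ 1`,
`l = 1 + m u` and `G = u ^ 3 + u v ^ 2 + 2 c v - c ^ 2 m (1 + l + ⋯ + l ^ (b - 1))`. -/
def EX (b : ℕ) : Set Form :=
  {ω | ∃ (c m μ : ℂ) (u v l G : Poly), u.totalDegree ≤ 1 ∧ v.totalDegree ≤ 1 ∧ l = 1 + C m * u ∧
    G = u ^ 3 + u * v ^ 2 + 2 * C c * v - C (c ^ 2 * m) * ∑ i ∈ Finset.range b, l ^ i ∧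
    ω = (4 * l) • dform G - (3 * b * G) • dform l +
      (C μ * (u * v + C c)) • ((4 * l) • dform u - (b * u) • dform l)}

end Pool.Agent.MP_05b4bd_ag
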