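import Pool.Agent.MP_05b4bd_ag.ex.Bas

/-! Row DICT: from the frame at infinity to the affine coordinates. -/

namespace Pool.Agent.MP_05b4bd_ag.XO

open PowerSeries LaurentSeries HC
open ES hiding Gen Ob Inf
open ES.U (TM Cr hom)
open PC3 (Fm fm d1 DF sub2 pb mapF Van CenK)
open RV (fa fb Frm Good Rho Fac Dk In Cg ExoK SymK RRc Ob NoF)

namespace Dict

variable {R T : Type} [CommRing R] [CommRing T]

theorem hev_sub (φ : R →+* T) (d : ℕ) (τ : R) (p : R2 R) (x y W : T) :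
    hev φ d (sub2 (MvPolynomial.C τ * MvPolynomial.X 0) (MvPolynomial.C τ * MvPolynomial.X 1) p)
      x y W = hev φ d p (φ τ * x) (φ τ * y) W := by
  have e0 : (MvPolynomial.C τ * MvPolynomial.X 0 : R2 R) = HC.lf τ 0 := by simp [HC.lf]
  have e1 : (MvPolynomial.C τ * MvPolynomial.X 1 : R2 R) = HC.lf 0 τ := by simp [HC.lf]
  rw [e0, e1, PC3.sub2_lf, hev, hev]
  refine Finset.sum_congr rfl fun e _ => ?_
  rw [hc_lin]
  congr 1
  have h := k4_map (MvPolynomial.C : R →+* R2 R) (MvPolynomial.eval₂Hom φ ![x, y]) (hc e p)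
    (HC.lf τ 0) (HC.lf 0 τ)
  rw [MvPolynomial.eval₂Hom_comp_C] at h
  rw [lin, MvPolynomial.aeval_def, MvPolynomial.algebraMap_eq]
  simpa [HC.lf] using h

theorem hev_sc [IsDomain T] (φ : R →+* T) {τ : R} {p p' : R2 R} (hp : DL 4 p')
    (h : sub2 (MvPolynomial.C τ * MvPolynomial.X 0) (MvPolynomial.C τ * MvPolynomial.X 1) p' *
      MvPolynomial.C τ = MvPolynomial.C (τ ^ 3) * p) (ht : φ τ ≠ 0) (x y : T) {Wt Wi : T}
    (hW : Wt * Wi = 1) : hev φ 3 p x y (φ τ * Wt) =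
      φ τ * Wt ^ 3 * MvPolynomial.eval₂ φ ![x * Wi, y * Wi] p' := by
  have h1 := congrArg (fun u => hev φ 3 u x y (φ τ * Wt)) h
  rw [mul_comm _ (MvPolynomial.C τ : R2 R), hev_C_mul, hev_C_mul, hev_sub, hev_smul, map_pow] at h1
  have h2 := hev_eq φ 3 hp (x * Wi) (y * Wi) Wt
  rw [mul_left_comm Wt x, mul_left_comm Wt y, hW, mul_one, mul_one] at h2
  refine mul_left_cancel₀ (pow_ne_zero 3 ht) ?_
  rw [← h1, h2]
  ring

end Dict

theorem dictS : DictStmt := by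
  intro k L T _ _ _ _ κ D Θ φ V w w' τ x y Wt Wi hV _ hw' hpb hφ ht hVt hX hW ha hc hDX
  have eφ : Θ.comp ((C : L⟦X⟧ →+* AA L).comp (map κ)) = φ := RingHom.ext hφ
  have p1 := congrArg Prod.fst hpb
  have p2 := congrArg Prod.snd hpb
  simp only [pb, fm, Prod.fst_sub, Prod.snd_sub, Prod.smul_fst, Prod.smul_snd, smul_eq_mul,
    MvPolynomial.pderiv_C_mul, MvPolynomial.pderiv_X_self, mul_one,
    MvPolynomial.pderiv_X_of_ne (show (0 : Fin 2) ≠ 1 by decide),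
    MvPolynomial.pderiv_X_of_ne (show (1 : Fin 2) ≠ 0 by decide), mul_zero, sub_zero, neg_zero,
    zero_sub, neg_neg] at p1 p2
  have q1 := Dict.hev_sc φ hw'.1 p1 ht (Θ x) (Θ y) hW
  have q2 := Dict.hev_sc φ hw'.2 p2 ht (Θ x) (Θ y) hW
  have c0 := hc X
  have cx := hc x
  have cy := hc y
  have dX1 : dX L⟦X⟧ (X : AA L) = 1 := derivative_X
  rw [hDX, dX1] at c0
  simp only [map_sub, map_mul, mul_zero, mul_one, zero_sub, map_neg] at c0 cx cy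
  have ea : Θ (fa κ 3 w.1 w.2 x y) =
      hev φ 3 w.1 (Θ x) (Θ y) (Θ X) * (Θ X * Θ (dX _ y) - Θ y) -
      hev φ 3 w.2 (Θ x) (Θ y) (Θ X) * (Θ X * Θ (dX _ x) - Θ x) := by
    simp only [fa, aF, map_sub, map_mul, map_hev, eφ]
  have eb : Θ (fb κ D 3 w.1 w.2 x y) =
      hev φ 3 w.1 (Θ x) (Θ y) (Θ X) * Θ (cw (cw D) y) -
      hev φ 3 w.2 (Θ x) (Θ y) (Θ X) * Θ (cw (cw D) x) := by
    simp only [fb, bF, map_sub, map_mul, map_hev, eφ]
  have key : hev φ 3 w.1 (Θ x) (Θ y) (Θ X) * (Θ X * V (Θ y) - Θ y * V (Θ X)) =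
      hev φ 3 w.2 (Θ x) (Θ y) (Θ X) * (Θ X * V (Θ x) - Θ x * V (Θ X)) := by
    refine mul_left_cancel₀ ha ?_
    linear_combination hev φ 3 w.1 (Θ x) (Θ y) (Θ X) * (Θ X * cy - Θ y * c0) -
      hev φ 3 w.2 (Θ x) (Θ y) (Θ X) * (Θ X * cx - Θ x * c0) -
      Θ X * Θ (fa κ 3 w.1 w.2 x y) * eb + Θ X * Θ (fb κ D 3 w.1 w.2 x y) * ea
  have hWt : Wt ≠ 0 := left_ne_zero_of_mul_eq_one hW
  rw [hX, q1, q2, hV.const_mul hVt] at key
  rw [Fo, hV, hV, hV.inv hW]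
  refine mul_left_cancel₀ (mul_ne_zero (pow_ne_zero 2 ht) (pow_ne_zero 5 hWt)) ?_
  generalize MvPolynomial.eval₂ φ ![Θ x * Wi, Θ y * Wi] w'.1 = E1 at key ⊢
  generalize MvPolynomial.eval₂ φ ![Θ x * Wi, Θ y * Wi] w'.2 = E2 at key ⊢
  linear_combination key + φ τ ^ 2 * Wt ^ 3 *
    (E1 * (Wt * V (Θ y) - Θ y * V Wt * (Wt * Wi + 1)) -
      E2 * (Wt * V (Θ x) - Θ x * V Wt * (Wt * Wi + 1))) * hW

end Pool.Agent.MP_05b4bd_ag.XO
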