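import Pool.Agent.MP_05b4bd_ag.ex.Bas
import Pool.Agent.MP_05b4bd_ag.rr.Eta

/-! Row ETX: the rotation of the adapted frame. -/

namespace Pool.Agent.MP_05b4bd_ag.XO

open PowerSeries LaurentSeries HC
open ES hiding Gen Ob Inf
open ES.U (TM Cr hom)
open PC3 (Fm fm d1 DF sub2 pb mapF Van CenK)
open RV (fa fb Frm Good Rho Fac Dk In Cg ExoK SymK RRc Ob NoF)

namespace Etx

variable {k L : Type} [Field k] [Field L] {κ : k →+* L} {D : L →+ L} {s z : L}

/-- The leading form. -/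
noncomputable def F3 (k : Type) [Field k] : R2 k :=
  MvPolynomial.X 0 ^ 3 + MvPolynomial.X 0 * MvPolynomial.X 1 ^ 2

theorem F3_hom : (F3 k).IsHomogeneous (1 + 2) :=
  ((MvPolynomial.isHomogeneous_X k 0).pow 3).add
    ((MvPolynomial.isHomogeneous_X k 0).mul ((MvPolynomial.isHomogeneous_X k 1).pow 2))

theorem F3_0 : MvPolynomial.pderiv 0 (F3 k) =
    3 * MvPolynomial.X 0 ^ 2 + MvPolynomial.X 1 ^ 2 := by
  simp [F3, MvPolynomial.pderiv_X]

theorem F3_1 : MvPolynomial.pderiv 1 (F3 k) = 2 * MvPolynomial.X 0 * MvPolynomial.X 1 := by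
  simp [F3, MvPolynomial.pderiv_X]
  ring

theorem F3_ci [CharZero k] :
    CI (MvPolynomial.pderiv 0 (F3 k)) (MvPolynomial.pderiv 1 (F3 k)) := by
  have h6 : (MvPolynomial.C (6⁻¹ : k) : R2 k) * 6 = 1 := by
    rw [show (6 : R2 k) = MvPolynomial.C 6 from rfl, ← map_mul, inv_mul_cancel₀ (by norm_num),
      map_one]
  rw [F3_0, F3_1]
  refine ⟨3, Ideal.mem_span_pair.2 ⟨MvPolynomial.C 6⁻¹ * 2 * MvPolynomial.X 0,
    -(MvPolynomial.C 6⁻¹ * MvPolynomial.X 1), ?_⟩, Ideal.mem_span_pair.2 ⟨MvPolynomial.X 1,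
    -(MvPolynomial.C 6⁻¹ * 9 * MvPolynomial.X 0), ?_⟩⟩
  · linear_combination (MvPolynomial.X 0 ^ 3 : R2 k) * h6
  · linear_combination (-3 * MvPolynomial.X 0 ^ 2 * MvPolynomial.X 1 : R2 k) * h6

theorem curve (h : Xd κ D s z) (hz : z ≠ 0) :
    Curve κ (sD (-3 * z ^ 2) D) (F3 k) z⁻¹ (s * z⁻¹) := by
  have hi := mul_inv_cancel₀ hz
  have h1 : 3 * z ^ 2 * D z = 2 * s := by
    have := congrArg D h.cub
    rw [map_add, h.der.one, h.der.pow, h.der.pow, h.ds] at this
    simpa using this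
  have h2 := h.der.inv hi
  refine ⟨h.der.mulLeft _, fun c => ?_, ?_, ?_, ?_⟩
  · rw [sD_apply, h.con, mul_zero]
  · simp only [F3, evp, map_add, map_mul, map_pow, MvPolynomial.eval₂Hom_X', Matrix.cons_val]
    linear_combination (-z⁻¹ ^ 3) * h.cub + (z ^ 2 * z⁻¹ ^ 2 + z * z⁻¹ + 1) * hi
  · rw [sD_apply, h2, F3_1]
    simp only [evp, map_mul, map_ofNat, MvPolynomial.eval₂Hom_X', Matrix.cons_val]
    linear_combination z⁻¹ ^ 2 * h1
  · rw [sD_apply, h.der, h2, h.ds, F3_0]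
    simp only [evp, map_add, map_mul, map_pow, map_ofNat, MvPolynomial.eval₂Hom_X',
      Matrix.cons_val]
    linear_combination s * z⁻¹ ^ 2 * h1 - 3 * z⁻¹ ^ 2 * h.cub + 3 * z ^ 2 * z⁻¹ * hi

theorem gen (h : Xd κ D s z) (hz : z ≠ 0) : gf κ z⁻¹ (s * z⁻¹) = ⊤ := by
  refine top_unique (h.gb ▸ Subfield.closure_le.2 ?_)
  have a : z⁻¹ ∈ gf κ z⁻¹ (s * z⁻¹) := Subfield.subset_closure (by simp)
  have b : s * z⁻¹ ∈ gf κ z⁻¹ (s * z⁻¹) := Subfield.subset_closure (by simp)
  have c : z ∈ gf κ z⁻¹ (s * z⁻¹) := by simpa using inv_mem a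
  rintro _ (⟨r, rfl⟩ | rfl | rfl)
  · exact Subfield.subset_closure (Or.inl ⟨r, rfl⟩)
  · simpa [hz] using mul_mem b c
  · exact c

theorem uniq [CharZero L] {a q : L} {u v : L⟦X⟧} (hz : z ≠ 0) (u0 : cc u = z) (v0 : cc v = z)
    (hu : u ^ 3 = C q - C a * X ^ 4 * u ^ 4) (hv : v ^ 3 = C q - C a * X ^ 4 * v ^ 4) : u = v := by
  have e : (u - v) * (u ^ 2 + u * v + v ^ 2 + C a * X ^ 4 * ((u + v) * (u ^ 2 + v ^ 2))) = 0 := by
    linear_combination hu - hv
  refine sub_eq_zero.1 ((mul_eq_zero.1 e).resolve_right fun h => ?_)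
  have := congrArg cc h
  simp only [map_add, map_mul, map_pow, u0, v0, constantCoeff_X, map_zero] at this
  have h3 : 3 * z ^ 2 = 0 := by linear_combination this
  simp [hz] at h3

theorem inj {b : ℕ} (M : Mo b) (y : Pa (AA L)) (hn : c00 y.n = 0) {p p' w : AA L}
    (h : e6 M.S y p w = e6 M.S y p' w) : p = p' := by
  obtain ⟨r, hr⟩ := M.sE (y.map Polynomial.C) Polynomial.X (Polynomial.C w)
  have ev : ∀ q : AA L, e6 M.S y q w = q + y.c * (w ^ 2 + y.n * r.eval q) := fun q => by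
    have h1 := congrArg (Polynomial.evalRingHom q) hr
    rw [map_e6, Pa.map_map] at h1
    have e : y.map ((Polynomial.evalRingHom q).comp Polynomial.C) = y := by
      simp only [Pa.map, RingHom.comp_apply, Polynomial.coe_evalRingHom, Polynomial.eval_C]
    rw [e] at h1
    simpa [Pa.map] using h1
  obtain ⟨g, hg⟩ := Polynomial.sub_dvd_eval_sub p p' r
  have e : (p - p') * (1 + y.c * y.n * g) = 0 := by
    linear_combination h - ev p + ev p' - y.c * y.n * hg
  refine sub_eq_zero.1 ((mul_eq_zero.1 e).resolve_right fun h0 => ?_)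
  have := congrArg c00 h0
  simp [hn] at this

end Etx

theorem etxS : EtxStmt := by
  intro b M k L _ _ _ _ κ D s z c x p ζ ζi ξ hX hS hC hξ
  have : CharZero L := (RingHom.charZero_iff κ.injective).1 inferInstance
  have hz : z ≠ 0 := by
    have h := congrArg cc hC.inv
    rw [map_mul, hC.z0, map_one] at h
    exact left_ne_zero_of_mul_eq_one h
  have hs : κ ξ ^ (1 + 2) = 1 := by rw [← map_pow, hξ, map_one]
  have cv := Etx.curve hX hz
  obtain ⟨η, h0, hx, hy, hD⟩ := RV.Eta.exists_eta cv Etx.F3_hom Etx.F3_ci (Etx.gen hX hz) hs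
  refine ⟨η, h0, hD, fun w => ?_⟩
  have ez : κ ξ * η z = z := by
    have h1 : η z * η z⁻¹ = 1 := by rw [← map_mul, mul_inv_cancel₀ hz, map_one]
    rw [hx] at h1
    linear_combination z * h1 - κ ξ * η z * mul_inv_cancel₀ hz
  have es : η s = s := by
    have h1 : η s = η (s * z⁻¹) * η z := by
      rw [← map_mul, mul_assoc, inv_mul_cancel₀ hz, mul_one]
    rw [h1, hy]
    linear_combination s * z⁻¹ * ez + s * mul_inv_cancel₀ hz
  let T0 : L⟦X⟧ →+* L⟦X⟧ := (rescale (κ ξ)).comp (map η)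
  have c0 : ∀ r, T0 (C r) = C (η r) := fun r => by
    simp only [T0, RingHom.comp_apply, map_C, RV.Eta.resC]
  have x0 : T0 X = C (κ ξ) * X := by simp [T0, rescale_X]
  have hs' : (C (κ ξ) : L⟦X⟧) ^ 3 = 1 := by rw [← map_pow, hs, map_one]
  have eζ : C (κ ξ) * T0 ζ = ζ := by
    refine Etx.uniq (a := κ c ^ 2) (q := 1 + s ^ 2) hz ?_ hC.z0 ?_ hC.cu
    · rw [map_mul, constantCoeff_C, ← coeff_zero_eq_constantCoeff_apply]
      simp only [T0, RingHom.comp_apply, coeff_rescale, coeff_map, pow_zero, one_mul]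
      rw [coeff_zero_eq_constantCoeff_apply, hC.z0, ez]
    · have h1 := congrArg T0 hC.cu
      simp only [map_sub T0, map_mul T0, map_pow T0, c0, x0, map_add η, map_one η, map_pow η, es,
        h0] at h1
      linear_combination h1 + T0 ζ ^ 3 * hs'
  have ei : T0 ζi = C (κ ξ) * ζi := by
    have h1 := congrArg T0 hC.inv
    rw [map_mul, map_one] at h1
    linear_combination C (κ ξ) * ζi * h1 - T0 ζi * hC.inv - ζi * T0 ζi * eζ
  let T : AA L →+* AA L := (rescale (C (κ ξ))).comp (mA η)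
  have t0 : ∀ u : L⟦X⟧, T (map C u) = map C (T0 u) := fun u => by
    ext1 m
    simp only [T, T0, mA, RingHom.comp_apply, coeff_rescale, coeff_map, map_C, map_mul, map_pow]
  have mc : ∀ r : L, (map C (C r : L⟦X⟧) : AA L) = CC r := fun r => by
    simp only [CC, RingHom.comp_apply, map_C]
  have tx : T (map C ζi) = CC (κ ξ) * map C ζi := by rw [t0, ei, map_mul, mc]
  have t2 : T X = CC (κ ξ) * X := by simp [T, mA, CC, rescale_X]
  have t3 : T.comp (iA κ) = iA κ :=
    RingHom.ext fun c => by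
      have : map η (map κ c) = map κ c := by ext m; simp [h0]
      simp only [T, iA, mA, RingHom.comp_apply, map_C, RV.Eta.resC, this]
  have tz : T (X * map C ζ) = X * map C ζ := by
    rw [map_mul, t2, t0, ← mc, mul_right_comm, ← map_mul, eζ, mul_comm]
  have tp : T p = p := by
    refine Etx.inj M (x.map (iA κ)) ?_ (w := X * map C ζ) ?_
    · obtain ⟨r, hr⟩ := hS.n
      simp [Pa.map, hr, iA, c00]
    · have h1 := congrArg T hC.eq
      rw [map_e6, Pa.map_map, t3, tz, ← mc, t0, c0, es, mc] at h1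
      rw [h1, hC.eq]
  have ty : T (p * map C ζi) = CC (κ ξ) * (p * map C ζi) := by
    rw [map_mul, tp, tx]; ring
  have t4 : ∀ u, T (hev (iA κ) 3 u (map C ζi) (p * map C ζi) X) =
      hev (iA κ) 3 u (map C ζi) (p * map C ζi) X := fun u => by
    rw [map_hev, t3, t2, tx, ty, hev_smul, ← map_pow, hs, map_one, one_mul]
  have s0 : IsUnit (CC (κ ξ) : AA L) :=
    (IsUnit.of_pow_eq_one hs (by omega)).map CC
  have t5 : ∀ c, T c = CC (κ ξ) * c → T (dX _ c) = dX _ c := fun c hc => by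
    refine s0.mul_left_cancel ?_
    have h1 : dX _ (T c) = CC (κ ξ) * T (dX _ c) := by
      simp only [T, mA, CC, RingHom.comp_apply, dX_rescale, dX_map]
    rw [← h1, hc]
    ext1 m
    simp only [dX, CC, RingHom.comp_apply, LinearMap.toAddMonoidHom_coe, Derivation.coeFn_coe,
      coeff_derivative, coeff_C_mul, mul_assoc]
  generalize sD (-3 * z ^ 2) D = E at cv hD ⊢
  have t6 : ∀ c, T c = CC (κ ξ) * c →
      CC (κ ξ) * T (cw (cw E) c) = cw (cw E) c := fun c hc => by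
    refine s0.mul_left_cancel ?_
    have dc : ∀ u : L⟦X⟧, ∀ r, cw E (C (κ r) * u) = C (κ r) * cw E u := fun u r =>
      cv.1.coefw.const_mul (by rw [cw_C, cv.2.1, map_zero]) u
    ext1 m
    have h1 := congrArg (fun u => cw E (coeff m u)) hc
    simp only [T, mA, CC, RingHom.comp_apply, coeff_rescale, coeff_map, coeff_C_mul, ← map_pow,
      dc, cw_map hD] at h1
    have h2 : coeff m (cw (cw E) c) = cw E (coeff m c) := by simp [cw]
    simp only [T, mA, CC, RingHom.comp_apply, coeff_rescale, coeff_map, coeff_C_mul, h2, ← h1,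
      map_pow]
    ring
  constructor
  · change T (aF (iA κ) _ _ _ _ _) = _ * aF (iA κ) _ _ _ _ _
    simp only [aF, map_sub, map_mul T, t4, t2, t5 _ tx, t5 _ ty, tx, tp]
    ring
  · change _ * T (bF (iA κ) _ _ _ _ _ _) = bF (iA κ) _ _ _ _ _ _
    simp only [bF, map_sub, map_mul T, t4]
    linear_combination hev (iA κ) 3 w.1 (map C ζi) (p * map C ζi) X * t6 _ ty -
      hev (iA κ) 3 w.2 (map C ζi) (p * map C ζi) X * t6 _ tx

end Pool.Agent.MP_05b4bd_ag.XO
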