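import Pool.Agent.MP_05b4bd_ag.ex.Bas
import Pool.Agent.MP_05b4bd_ag.pc3.Lift

/-! The final identification: a logarithmic form or a member of the exceptional family. -/

namespace Pool.Agent.MP_05b4bd_ag.XO

namespace FinR

open MvPolynomial HC
open PC3 (Fm fm d1 DF sub2 pb mapF H2)

variable {A : Type} [CommRing A]

theorem dlC (c : A) : DL 1 (C c : R2 A) := DL.of_hom (isHomogeneous_C _ c)

theorem dlX (i : Fin 2) : DL 2 (X i : R2 A) := DL.of_hom (isHomogeneous_X A i)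

theorem dlN (n : ℕ) [n.AtLeastTwo] {j : ℕ} {u : R2 A} (hu : DL j u) :
    DL j ((OfNat.ofNat n : R2 A) * u) := by
  have := hu.C_mul (OfNat.ofNat n : A)
  rwa [map_ofNat] at this

theorem dl1 : DL 1 (1 : R2 A) := dlC 1

theorem dl_l (x : Pa A) : DL 2 ((x.map C).l (X 0) (X 1) : R2 A) := by
  have h := ((dl1.mono one_le_two).add ((dlX 0).C_mul x.m)).add (dlN 52 ((dlX 1).C_mul x.n))
  rw [← mul_assoc] at h
  exact h

theorem dl_t3 (b : ℕ) {l : R2 A} (hl : DL 2 l) : DL 4 (t3 b 1 l) := by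
  have h0 : DL 4 (1 : R2 A) := dl1.mono (by omega)
  have h1 : DL 4 l := hl.mono (by omega)
  have h2 : DL 4 (l ^ 2) := (hl.pow 2).mono (by omega)
  have h3 : DL 4 (l ^ 3) := hl.pow 3
  unfold t3
  split_ifs
  · have := (((dlN 60 h0).add (dlN 540 h1)).sub (dlN 108 h2)).add (dlN 20 h3)
    convert this using 1
    ring
  · have := (((dlN 20 h0).sub (dlN 108 h1)).add (dlN 540 h2)).add (dlN 60 h3)
    convert this using 1
    ring

theorem pdN (i : Fin 2) (n : ℕ) [n.AtLeastTwo] : pderiv i (ofNat(n) : R2 A) = 0 := by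
  rw [← map_ofNat (C : A →+* R2 A), pderiv_C]

theorem t3_d {b : ℕ} (hb : b = 1 ∨ b = 3) (l : R2 A) (i : Fin 2) :
    4 * l * pderiv i (t3 b 1 l) - 3 * b * t3 b 1 l * pderiv i l =
      180 * (l - 1) ^ 3 * pderiv i l := by
  rcases hb with rfl | rfl
  · simp only [t3, if_true, one_pow, mul_one, map_add, map_sub, Derivation.leibniz,
      Derivation.leibniz_pow, pdN, smul_eq_mul, nsmul_eq_mul]
    push_cast
    ring
  · simp only [t3, show (3 : ℕ) ≠ 1 by omega, if_false, one_pow, mul_one, map_add, map_sub,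
      Derivation.leibniz, Derivation.leibniz_pow, pdN, smul_eq_mul, nsmul_eq_mul]
    push_cast
    ring

theorem q_d (α : A) (l : R2 A) (i : Fin 2) :
    pderiv i (45 * C α * (l - 1) ^ 4) = C α * (180 * (l - 1) ^ 3 * pderiv i l) := by
  simp only [map_sub, Derivation.leibniz, Derivation.leibniz_pow, pdN, pderiv_C, smul_eq_mul,
    nsmul_eq_mul, Derivation.map_one_eq_zero]
  push_cast
  ring

theorem log_id {b : ℕ} (hb : b = 1 ∨ b = 3) (α γ : A) (hγ : 4 * γ = -(3 * b)) (l G : R2 A) :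
    fm (4 * l) G - fm (3 * (b : R2 A) * G) l + d1 (45 * C α * (l - 1) ^ 4) =
      (4 : R2 A) • (fm (C 1 * l) (G + C α * t3 b 1 l) + fm (C γ * (G + C α * t3 b 1 l)) l) := by
  have e : 4 * (C γ : R2 A) = -(3 * b) := by
    have := congrArg (C : A →+* R2 A) hγ
    simpa only [map_mul, map_neg, map_ofNat, map_natCast] using this
  refine Prod.ext ?_ ?_
  · simp only [fm, d1, Prod.fst_add, Prod.fst_sub, Prod.smul_fst, smul_eq_mul, q_d, map_add,
      pderiv_C_mul, map_one]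
    linear_combination (-C α) * t3_d hb l 1 - (G + C α * t3 b 1 l) * pderiv 1 l * e
  · simp only [fm, d1, Prod.snd_add, Prod.snd_sub, Prod.smul_snd, smul_eq_mul, q_d, map_add,
      pderiv_C_mul, map_one]
    linear_combination C α * t3_d hb l 0 + (G + C α * t3 b 1 l) * pderiv 0 l * e

theorem fm0 (h : R2 A) : fm 0 h = 0 := by rw [PC3.fm_eq, zero_smul]

/-- The logarithmic case. -/
theorem om_log {b : ℕ} (M : Mo b) (x : Pa A) (α γ : A) (hγ : 4 * γ = -(3 * b)) (h1 : x.μ = 0)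
    (h2 : x.ν = 0) (h3 : x.s0 = 0) (h4 : x.s2 = 0)
    (h5 : ∀ i, x.q i = 45 * α * m4 x.m (52 * x.n) i) :
    ∃ w, H2 1 3 w ∧ Om M x = (4 : R2 A) • w := by
  have hG : DL 4 (e6 M.G (x.map C) (X 0) (X 1) + C x.κ * X 0 ^ 2 + C x.g * X 0 : R2 A) :=
    ((M.dg x).1.add ((((dlX 0).pow 2).mono (by omega)).C_mul _)).add
      (((dlX 0).mono (by omega)).C_mul _)
  refine ⟨_, ⟨_, _, 1, γ, dl_l x, hG.add ((dl_t3 b (dl_l x)).C_mul α), rfl⟩, ?_⟩
  rw [← log_id M.hb α γ hγ]
  have e : q4 (x.map C).q (X 0) (X 1) =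
      (45 * C α * ((x.map C).l (X 0) (X 1) - 1) ^ 4 : R2 A) := by
    simp only [q4, Pa.map, Pa.l, h5, m4, Matrix.cons_val, map_mul, map_pow, map_ofNat]
    ring
  rw [Om, omF, e]
  simp only [Pa.map, h1, h2, h3, h4, map_zero, zero_mul, mul_zero, add_zero, fm0, sub_zero]

/-- The exceptional case. -/
theorem om_ex {b : ℕ} (M : Mo b) (x : Pa A) (h0 : x.n = 0) (h1 : x.κ = 0) (h1' : x.g = 0)
    (h2 : x.ν = 0) (h3 : x.s0 = 0) (h4 : x.s2 = 0) (h5 : ∀ i, x.q i = 0) :
    Om M x = exF b x.c x.m x.μ (X 0) (X 1) := by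
  obtain ⟨r1, r2, eG⟩ := M.gE (x.map (C : A →+* R2 A)) (X 0) (X 1)
  obtain ⟨⟨r3, eP⟩, r4, eQ⟩ := M.pE (x.map (C : A →+* R2 A)) (X 0) (X 1)
  have e : q4 (x.map C).q (X 0) (X 1) = (C 0 : R2 A) := by
    simp only [q4, Pa.map, h5, map_zero, zero_mul, add_zero]
  rw [Om, omF, e, eG, eP, eQ, PC3.d1_C, exF]
  simp only [Pa.map, Pa.l, h0, h1, h1', h2, h3, h4, map_zero, zero_mul, mul_zero, add_zero, fm0,
    sub_zero]
  congr 1
  simp only [PC3.fm_eq, PC3.d1_add, PC3.d1_C_mul, show d1 (1 : R2 A) = 0 from PC3.d1_C 1, zero_add,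
    smul_smul, ← sub_smul]
  congr 1
  ring

theorem gE_sc (b : ℕ) (c m m' t u v : A) (h : m = m' * t) :
    gE b (t ^ 2 * c) m' (t * u) (t * v) = t ^ 3 * gE b c m u v := by
  subst h
  simp only [gE, ← mul_assoc]
  ring

theorem ex_sc (b : ℕ) (c m m' μ t : A) (u v : R2 A) (h : m = m' * t) :
    exF b (t ^ 2 * c) m' μ (C t * u) (C t * v) = (C (t ^ 3) : R2 A) • exF b c m μ u v := by
  have h' : (C m : R2 A) = C m' * C t := by rw [h, map_mul]
  have e : (1 + C m' * (C t * u) : R2 A) = 1 + C m * u := by rw [h', mul_assoc]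
  have eG := gE_sc b (C c : R2 A) (C m) (C m') (C t) u v h'
  rw [exF, exF, e, map_mul, map_pow, eG, ← map_pow, ← map_pow]
  generalize gE b (C c : R2 A) (C m) u v = G
  generalize (1 + C m * u : R2 A) = l
  refine Prod.ext ?_ ?_
  · simp only [fm, Prod.fst_add, Prod.fst_sub, Prod.smul_fst, smul_eq_mul, pderiv_C_mul]
    simp only [map_pow]
    ring
  · simp only [fm, Prod.snd_add, Prod.snd_sub, Prod.smul_snd, smul_eq_mul, pderiv_C_mul]
    simp only [map_pow]
    ring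

theorem map_exF {B : Type} [CommRing B] (φ : A →+* B) (b : ℕ) (c m μ : A) (u v : R2 A) :
    mapF φ (exF b c m μ u v) = exF b (φ c) (φ m) (φ μ) (map φ u) (map φ v) := by
  simp only [exF, PC3.mapF_add, PC3.mapF_sub, PC3.mapF_smul, PC3.mapF_fm, map_gE, map_add, map_mul,
    map_one, map_ofNat, map_natCast, map_C]

end FinR

open PowerSeries LaurentSeries HC
open ES hiding Gen Ob Inf
open ES.U (TM Cr hom)
open PC3 (Fm fm d1 DF sub2 pb mapF Van CenK)
open RV (fa fb Frm Good Rho Fac Dk In Cg ExoK SymK RRc Ob NoF)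

theorem finS (h : OmStmt) : FinStmt := by
  intro b M k _ _ _ c x y ax a' w e hc hS hT hP hw hj
  have z : ∀ {r : k⟦X⟧}, (∀ j, X ^ j ∣ r) → r = 0 := fun hr => haus_dvd X hr
  have z1 : x.μ * ax = 0 := hT.μ ▸ z fun j => (hj j).1.1
  have z2 : x.s2 = 0 := by rw [hT.s2, z fun j => (hj j).1.2.2.1, mul_zero]
  have z3 : ∀ i, a' i = 0 := fun i => z fun j => (hj j).1.2.2.2.1 i
  have z4 : y.μ * y.c ^ 3 * y.n ^ 7 = 0 := z fun j => (hj j).1.2.2.2.2
  have z5 : x.μ * x.κ = 0 := z fun j => (hj j).2.1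
  have z6 : x.μ * x.g = 0 := z fun j => (hj j).2.2.1
  have z7 : x.ν = 0 := z fun j => (hj j).2.2.2.1
  have z8 : x.s0 = 0 := z fun j => (hj j).2.2.2.2
  have hX : (X : k⟦X⟧) ^ e ≠ 0 := pow_ne_zero _ X_ne_zero
  have : CharZero k⸨X⸩ := ((coeL k).comp C).charZero_iff ((coeL k).comp C).injective |>.1 ‹_›
  have four : ∀ {K : Type} [Field K] [CharZero K] {u v : Fm K},
      (4 : R2 K) • u = (4 : R2 K) • v → u = v := fun huv =>
    smul_right_injective _ (by norm_num) huv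
  have hw' : (4 : R2 k⸨X⸩) • mapF (coeL k) w = Om M (x.map (coeL k)) := by
    rw [← (h b M _).1, ← hw, PC3.mapF_smul, map_ofNat]
  refine ⟨k⸨X⸩, inferInstance, coeL k, coeL_inj, ?_⟩
  by_cases hμ : x.μ = 0
  · have hτ : coeL k (X ^ e) ≠ 0 := (map_ne_zero_iff _ coeL_inj).2 hX
    obtain ⟨w', h1, h2⟩ := FinR.om_log M (x.map (coeL k)) (coeL k ax / coeL k (X ^ e) ^ 3)
      (-(3 * b) / 4) (by ring) (by simp only [Pa.map, hμ, map_zero])
      (by simp only [Pa.map, z7, map_zero]) (by simp only [Pa.map, z8, map_zero])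
      (by simp only [Pa.map, z2, map_zero]) fun i => by
        have e1 : (X ^ e) ^ 3 * x.q i = 45 * ax * m4 x.m (52 * x.n) i := by
          rw [hT.q, hP, z3, hT.m, hT.n]
          fin_cases i <;> simp [m4] <;> ring
        have e2 : coeL k (m4 x.m (52 * x.n) i) =
            m4 (x.map (coeL k)).m (52 * (x.map (coeL k)).n) i := by
          fin_cases i <;> simp [m4, Pa.map, map_ofNat]
        have e3 := congrArg (coeL k) e1
        rw [map_mul, map_mul, map_mul, map_pow, e2, map_ofNat] at e3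
        show coeL k (x.q i) = _
        field_simp
        linear_combination e3
    exact Or.inl (four (hw'.trans h2) ▸ h1)
  · have y1 : ax = 0 := (mul_eq_zero.1 z1).resolve_left hμ
    have y2 : y.c ≠ 0 := by
      rw [hT.c]
      exact mul_ne_zero (pow_ne_zero _ hX) fun h0 => hc (by rw [← hS.c, h0, map_zero])
    have y3 : x.n = 0 := by
      have := (mul_eq_zero.1 z4).resolve_left (mul_ne_zero (hT.μ ▸ hμ) (pow_ne_zero _ y2))
      rw [hT.n, pow_eq_zero_iff (by omega) |>.1 this, mul_zero]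
    have y4 := FinR.om_ex M x y3 ((mul_eq_zero.1 z5).resolve_left hμ)
      ((mul_eq_zero.1 z6).resolve_left hμ) z7 z8 z2 fun i => by
        rw [hT.q, hP, z3, y1]
        ring
    obtain ⟨t, ht⟩ := IsAlgClosed.exists_pow_nat_eq (4⁻¹ : k) (show 0 < 3 by omega)
    have t0 : t ≠ 0 := by
      rintro rfl
      norm_num at ht
    have e4 : (4 : R2 k⟦X⟧) * MvPolynomial.C (C t ^ 3) = 1 := by
      rw [← map_pow, ht, ← map_ofNat (MvPolynomial.C : k⟦X⟧ →+* R2 k⟦X⟧),
        ← map_ofNat (C : k →+* k⟦X⟧), ← map_mul, ← map_mul, mul_inv_cancel₀ (by norm_num),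
        map_one, map_one]
    have e5 : w = exF b (C t ^ 2 * x.c) (x.m * C t⁻¹) x.μ
        (MvPolynomial.C (C t) * MvPolynomial.X 0) (MvPolynomial.C (C t) * MvPolynomial.X 1) := by
      rw [FinR.ex_sc b x.c x.m, ← y4, ← hw, smul_smul, mul_comm, e4, one_smul]
      rw [mul_assoc, ← map_mul, inv_mul_cancel₀ t0, map_one, mul_one]
    have e6 : HX b (mapF (coeL k) w) := by
      refine ⟨coeL k (C t ^ 2 * x.c), coeL k (x.m * C t⁻¹), coeL k x.μ,
        MvPolynomial.map (coeL k) (MvPolynomial.C (C t) * MvPolynomial.X 0),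
        MvPolynomial.map (coeL k) (MvPolynomial.C (C t) * MvPolynomial.X 1),
        ((FinR.dlX 0).C_mul _).map _, ((FinR.dlX 1).C_mul _).map _, ?_⟩
      rw [e5, FinR.map_exF]
    rcases M.hb with rfl | rfl
    · exact Or.inr (Or.inl e6)
    · exact Or.inr (Or.inr e6)

end Pool.Agent.MP_05b4bd_ag.XO
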