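import Pool.Agent.MP_05b4bd_ag.ex.Bas
import Pool.Agent.MP_05b4bd_ag.rr.F2a

/-! The leading terms of the form at infinity, read from the fold and the invariant curve. -/

namespace Pool.Agent.MP_05b4bd_ag.XO

open PowerSeries LaurentSeries HC
open ES hiding Gen Ob Inf
open ES.U (TM Cr hom)
open PC3 (Fm fm d1 DF sub2 pb mapF Van CenK)
open RV (fa fb Frm Good Rho Fac Dk In Cg ExoK SymK RRc Ob NoF)
open RV.F2a (ew ew_C ew_X cc_ew ew_dvd inv_curve)

namespace Fold
variable {L : Type} [Field L]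

theorem unit_of {f : L⟦X⟧} (h : cc f ≠ 0) : IsUnit f :=
  isUnit_iff_constantCoeff.2 (Ne.isUnit h)

/-- The equation of the fold. -/
theorem fold {ρ u : AA L} {w w0 : L⟦X⟧} {α β : ℕ} (F : Fac ρ u w α β) (h0 : cc w0 = 0)
    (n0 : w0 ≠ 0) (n1 : w0 ≠ w) (hf : ew w0 (dX _ ρ) = 0) :
    (((α + β : ℕ) : L⟦X⟧) * ew w0 u + ew w0 (dX _ u) * (w0 - w)) * w0 =
      (α : L⟦X⟧) * ew w0 u * w := by
  obtain ⟨a, rfl⟩ := Nat.exists_eq_add_of_le' F.a1
  obtain ⟨b, rfl⟩ := Nat.exists_eq_add_of_le' F.b1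
  rw [F.eq, isDer_dX, isDer_dX, isDer_dX.pow, isDer_dX.pow, map_sub, dX_X, dX_C] at hf
  simp only [map_add, map_mul, map_pow, map_sub, map_natCast, map_one, map_zero, ew_X h0,
    ew_C h0, Nat.add_sub_cancel] at hf
  refine mul_left_cancel₀
    (mul_ne_zero (pow_ne_zero a n0) (pow_ne_zero b (sub_ne_zero.2 n1))) ?_
  push_cast at hf ⊢
  linear_combination hf

end Fold

open Fold in
theorem foldS : FoldStmt := by
  intro L _ _ D a b ρ B u w α β hD hs nd ra rb H F
  have hd : IsUnit (-((3 : ℕ) : L⟦X⟧)) := by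
    refine unit_of ?_
    rw [map_neg, map_natCast, neg_ne_zero]
    exact Nat.cast_ne_zero.2 (by omega)
  obtain ⟨w0, u0, h0, hu0, ha⟩ := exists_w0 hd (by rw [ra, neg_mul])
  have h1 := F.w0
  have a0 : ew w0 a = 0 := (ew_dvd h0).1 ⟨u0, ha⟩
  have b0 : w0 * ew w0 b ≠ 0 := fun z => nd (by
    rw [ha, hu0.mul_right_dvd, ew_dvd h0, map_mul, ew_X h0, z])
  have r0 : ew w0 (dX _ ρ) = 0 := by
    have := congrArg (ew w0) H.eq
    simp only [map_mul, map_sub, a0, zero_mul, zero_sub, neg_eq_zero, ew_X h0] at this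
    exact (mul_eq_zero.1 this).resolve_left b0
  have ic := inv_curve hD H F
  have n0 : w0 ≠ 0 := left_ne_zero_of_mul b0
  have n1 : w0 ≠ w := fun z => by
    subst z
    rw [a0, zero_mul, zero_add] at ic
    exact b0 ic
  have hf := fold F h0 n0 n1 r0
  have c0 : c00 u0 = -3 := by
    have := ra
    rw [ha, map_mul, map_sub, red_X, red_C, h0, map_zero, sub_zero, ← neg_mul, mul_comm _ X] at this
    rw [← cc_red, mul_left_cancel₀ X_ne_zero this, map_neg, map_natCast, Nat.cast_ofNat]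
  obtain ⟨e, he⟩ := exists_ordIs F.wn
  obtain ⟨w', hw, cw'⟩ := he.fac
  have nw : cc w' ≠ 0 := cw' ▸ he.1
  have e1 : 1 ≤ e := by
    rcases Nat.eq_zero_or_pos e with z | z
    · subst z
      exact absurd (by simpa using h1) he.1
    · exact z
  have nX : (X ^ e : L⟦X⟧) ≠ 0 := pow_ne_zero _ X_ne_zero
  have nU : cc (ew w0 u) ≠ 0 := ((F.unit.map (ew w0)).map cc).ne_zero
  rw [hs] at hf
  have cE : cc (((4 : ℕ) : L⟦X⟧) * ew w0 u + ew w0 (dX _ u) * (w0 - w)) = 4 * cc (ew w0 u) := by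
    rw [map_add, map_mul, map_mul, map_natCast, map_sub, h0, h1, sub_zero, mul_zero, add_zero,
      Nat.cast_ofNat]
  obtain ⟨v, hv⟩ : X ^ e ∣ w0 := by
    refine (IsUnit.dvd_mul_left (unit_of (cE ▸ mul_ne_zero (by norm_num) nU))).1 ?_
    rw [hf, hw]
    exact (dvd_mul_right _ _).mul_left _
  have k1 : 4 * cc v = α * cc w' := by
    have : (((4 : ℕ) : L⟦X⟧) * ew w0 u + ew w0 (dX _ u) * (w0 - w)) * v =
        (α : L⟦X⟧) * ew w0 u * w' := by
      refine mul_left_cancel₀ nX ?_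
      generalize ((4 : ℕ) : L⟦X⟧) * ew w0 u + ew w0 (dX _ u) * (w0 - w) = E at hf
      generalize ew w0 u = U at hf
      rw [hv, hw] at hf
      linear_combination hf
    have := congrArg cc this
    rw [map_mul, cE, map_mul, map_mul, map_natCast] at this
    refine mul_left_cancel₀ nU ?_
    linear_combination this
  have ca : cc a = X ^ e * -(v * cc u0) := by
    rw [ha, map_mul, map_sub, constantCoeff_X, constantCoeff_C, hv]
    ring
  obtain ⟨b1, hb⟩ := eq_C_add_X_mul b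
  have g0 : cc (ew w b1) = 0 := by
    have := congrArg red hb
    rw [rb, map_add, map_mul, red_C, red_X] at this
    have := congrArg (coeff 1) this
    rw [map_zero, map_add, coeff_succ_X_mul, coeff_C, if_neg one_ne_zero, zero_add,
      coeff_zero_eq_constantCoeff_apply] at this
    rw [cc_ew h1, ← cc_red, ← this]
  have eb : ew w b = cc b + w * ew w b1 := by
    conv_lhs => rw [hb]
    rw [map_add, map_mul, ew_C h1, ew_X h1]
  have ea : ew w a = (w - w0) * ew w u0 := by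
    rw [ha, map_mul, map_sub, ew_C h1, ew_X h1]
  have cU : cc (ew w u0) = -3 := by rw [cc_ew h1, c0]
  rw [ea, eb] at ic
  generalize ew w u0 = U0 at ic cU
  generalize ew w b1 = g at ic g0
  have k2 : w' * cc b = X ^ e * -((w' - v) * U0 * cw D w' + w' * w' * g) := by
    refine mul_left_cancel₀ nX ?_
    rw [hw, cw_X_pow_mul, hv] at ic
    linear_combination ic
  obtain ⟨b2, hb2⟩ : X ^ e ∣ cc b := (IsUnit.dvd_mul_left (unit_of nw)).1 ⟨_, k2⟩
  have k3 : w' * b2 = -((w' - v) * U0 * cw D w' + w' * w' * g) := by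
    refine mul_left_cancel₀ nX ?_
    rw [← k2, hb2]
    ring
  have k4 := congrArg cc k3
  simp only [map_mul, map_neg, map_add, map_sub, g0, cU, cc_cw, mul_zero, add_zero] at k4
  have hs' : (α : L) + β = 4 := by exact_mod_cast hs
  refine ⟨e, e1, he, ⟨_, ca⟩, ⟨_, hb2⟩, ?_, ?_⟩
  · rw [ca, coeff_X_pow_mul_self, ← cw', map_neg, map_mul, ← c00_apply, c0]
    linear_combination 3 * k1
  · rw [hb2, coeff_X_pow_mul_self, ← cw']
    refine mul_left_cancel₀ nw ?_
    linear_combination 4 * k4 - 3 * D (cc w') * k1 - 3 * cc w' * D (cc w') * hs'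

end Pool.Agent.MP_05b4bd_ag.XO
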