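import Pool.Agent.MP_05b4bd_ag.ex.Bas

/-! The equation of the normal form in the chart at infinity. -/

namespace Pool.Agent.MP_05b4bd_ag.XO

open HC
open ES hiding Gen Ob Inf
open PC3 (Fm fm d1)

namespace Form

variable {R T : Type} [CommRing R] [CommRing T]

/-- The value of a form on the tangent vector of a curve. -/
noncomputable def ev (φ : R →+* T) (V : T →+ T) (u v : T) (w : Fm R) : T :=
  MvPolynomial.eval₂Hom φ ![u, v] w.1 * V v - MvPolynomial.eval₂Hom φ ![u, v] w.2 * V u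

variable {φ : R →+* T} {V : T →+ T} {u v : T}

theorem ev_add (w w' : Fm R) : ev φ V u v (w + w') = ev φ V u v w + ev φ V u v w' := by
  simp only [ev, Prod.fst_add, Prod.snd_add, map_add]
  ring

theorem ev_sub (w w' : Fm R) : ev φ V u v (w - w') = ev φ V u v w - ev φ V u v w' := by
  simp only [ev, Prod.fst_sub, Prod.snd_sub, map_sub]
  ring

theorem ev_d1 (hV : IsDer V) (h0 : ∀ r, V (φ r) = 0) (h : R2 R) :
    ev φ V u v (d1 h) = V (MvPolynomial.eval₂Hom φ ![u, v] h) := by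
  have := hV.eval₂ φ h0 u v h
  simp only [ev, d1, map_neg, MvPolynomial.coe_eval₂Hom]
  rw [this]
  ring

theorem ev_fm (hV : IsDer V) (h0 : ∀ r, V (φ r) = 0) (g h : R2 R) :
    ev φ V u v (fm g h) =
      MvPolynomial.eval₂Hom φ ![u, v] g * V (MvPolynomial.eval₂Hom φ ![u, v] h) := by
  rw [← ev_d1 hV h0]
  simp only [ev, d1, fm, map_neg, map_mul]
  ring

theorem ev_Om {b : ℕ} (M : Mo b) (x : Pa R) (hV : IsDer V) (h0 : ∀ r, V (φ r) = 0) :
    ev φ V u v (Om M x) =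
      4 * (x.map φ).l u v * V (e6 M.G (x.map φ) u v + φ x.κ * u ^ 2 + φ x.g * u) -
        3 * b * (e6 M.G (x.map φ) u v + φ x.κ * u ^ 2 + φ x.g * u) * V ((x.map φ).l u v) +
        φ x.μ * e6 M.P (x.map φ) u v * V u + φ x.μ * e6 M.Q (x.map φ) u v * V v +
        φ x.ν * b * u * v ^ 2 * V ((x.map φ).l u v) - 4 * φ x.ν * (x.map φ).l u v * v ^ 2 * V u +
        (φ x.s0 * u + φ x.s2 * u ^ 3) * V v + V (q4 (x.map φ).q u v) := by
  have e : (x.map MvPolynomial.C).map (MvPolynomial.eval₂Hom φ ![u, v]) = x.map φ := by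
    rw [Pa.map_map, MvPolynomial.eval₂Hom_comp_C]
  have e0 : MvPolynomial.eval₂Hom φ ![u, v] (MvPolynomial.X 0 : R2 R) = u := by
    rw [MvPolynomial.eval₂Hom_X']
    rfl
  have e1 : MvPolynomial.eval₂Hom φ ![u, v] (MvPolynomial.X 1 : R2 R) = v := by
    rw [MvPolynomial.eval₂Hom_X']
    rfl
  simp only [Om, omF, ev_add, ev_sub, ev_fm hV h0, ev_d1 hV h0, map_add (MvPolynomial.eval₂Hom _ _),
    map_mul (MvPolynomial.eval₂Hom _ _), map_pow, map_ofNat, map_natCast, map_e6, map_l, map_q4, e,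
    e0, e1]
  simp only [Pa.map, MvPolynomial.eval₂Hom_C]

end Form

theorem formS : FormStmt := by
  intro b M R T _ _ φ V x a' p z zi Ξ d hV h0 hz hF h2 h3
  have E : Form.ev φ V zi (p * zi) (Om M x) = 0 := sub_eq_zero.2 hF
  rw [Form.ev_Om M x hV h0] at E
  have hu : V zi = -(zi ^ 2 * V z) := hV.inv hz
  have hv : V (p * zi) = V p * zi - p * (zi ^ 2 * V z) := by
    rw [hV, hu]
    ring
  have hel : (x.map φ).el p z = z * (x.map φ).l zi (p * zi) := by
    simp only [Pa.el, Pa.l]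
    linear_combination (-(x.map φ).m - 52 * (x.map φ).n * p) * hz
  have hH : z ^ 3 * e6 M.G (x.map φ) zi (p * zi) + (φ x.κ * z + φ x.g * z ^ 2 + z ^ 3 * Ξ) =
      z ^ 3 * (e6 M.G (x.map φ) zi (p * zi) + φ x.κ * zi ^ 2 + φ x.g * zi + Ξ) := by
    linear_combination (-(φ x.κ * z * (z * zi + 1)) - φ x.g * z ^ 2) * hz
  have h3z : V (z ^ 3) = 3 * z ^ 2 * V z := by
    rw [hV.pow]
    norm_num
  have a1 : z ^ 5 * V zi = -(z ^ 3 * V z) := by
    rw [hu]
    linear_combination (-(z ^ 3 * V z * (z * zi + 1))) * hz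
  have a2 : z ^ 5 * V (p * zi) = z ^ 4 * V p - p * z ^ 3 * V z := by
    rw [hv]
    linear_combination (z ^ 4 * V p - p * z ^ 3 * V z * (z * zi + 1)) * hz
  have a3 : z ^ 5 * (zi * (p * zi) ^ 2) = z ^ 2 * p ^ 2 := by
    linear_combination (z ^ 2 * p ^ 2 * (z ^ 2 * zi ^ 2 + z * zi + 1)) * hz
  have a4 : z ^ 3 * (p * zi) ^ 2 = z * p ^ 2 := by
    linear_combination (z * p ^ 2 * (z * zi + 1)) * hz
  have hμ : (x.map φ).μ = φ x.μ := rfl
  have hν : (x.map φ).ν = φ x.ν := rfl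
  rw [HS, hH, hel, hV (z ^ 3), hV z, h3z, map_add V _ Ξ, hμ, hν]
  rw [map_sub] at h2
  generalize V (e6 M.G (x.map φ) zi (p * zi) + φ x.κ * zi ^ 2 + φ x.g * zi) = VG at *
  generalize e6 M.G (x.map φ) zi (p * zi) + φ x.κ * zi ^ 2 + φ x.g * zi = G at *
  generalize V ((x.map φ).l zi (p * zi)) = Vl at *
  generalize (x.map φ).l zi (p * zi) = l at *
  generalize e6 M.P (x.map φ) zi (p * zi) = P at *
  generalize e6 M.Q (x.map φ) zi (p * zi) = Q at *
  linear_combination z ^ 5 * E + z ^ 5 * h2 + z ^ 2 * h3 -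
    (φ x.μ * P - 4 * φ x.ν * l * (p * zi) ^ 2) * a1 - φ x.μ * Q * a2 - φ x.ν * b * Vl * a3 -
    4 * φ x.ν * l * V z * a4

end Pool.Agent.MP_05b4bd_ag.XO
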