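import Pool.Agent.MP_05b4bd_ag.ex.Bas

/-! Least first integrals do not depend on the frame. -/

namespace Pool.Agent.MP_05b4bd_ag.XO

open PowerSeries LaurentSeries HC
open ES hiding Gen Ob Inf
open PC3 (Fm fm d1 DF sub2 pb mapF)
open RV (fa fb Good thC)

namespace Frm2

variable {k L : Type} [Field k] [Field L] (κ : k →+* L) {D : L →+ L}

theorem cw_κ (hκ : ∀ c, D (κ c) = 0) (r : k⟦X⟧) : cw D (map κ r) = 0 := by
  ext n
  rw [coeff_cw, coeff_map, hκ, map_zero]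

theorem red_hev {e : ℕ} {P : R2 k⟦X⟧} (h : DL (e + 1) (MvPolynomial.map cc P)) (x y : AA L) :
    ∃ g, red (hev ((C : L⟦X⟧ →+* AA L).comp (map κ)) (e + 1) P x y X) = X * g ∧
      cc g = evp κ (c00 x) (c00 y) (hc e (MvPolynomial.map cc P)) := by
  have e1 : (red : AA L →+* L⟦X⟧).comp ((C : L⟦X⟧ →+* AA L).comp (map κ)) =
      ((C : L →+* L⟦X⟧).comp κ).comp cc := RingHom.ext fun c => by
    simp only [RingHom.comp_apply, red_C]
    rfl
  have e2 : (cc : L⟦X⟧ →+* L).comp ((C : L →+* L⟦X⟧).comp κ) = κ := RingHom.ext fun c => by simp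
  refine ⟨_, by rw [map_hev, e1, ← hev_map, red_X, hev_succ _ _ h], ?_⟩
  rw [map_hev, constantCoeff_X, hev_zero, e2, cc_red, cc_red]
  rfl

variable {κ} [CharZero k] {e : ℕ} {f : R2 k} {P Q : R2 k⟦X⟧}

theorem std (hf : DL (e + 1 + 1) f) (rP : MvPolynomial.map cc P = MvPolynomial.pderiv 1 f)
    (rQ : MvPolynomial.map cc Q = -MvPolynomial.pderiv 0 f) {x y : AA L}
    (h : Curve κ D (hc (e + 1) f) (c00 x) (c00 y)) :
    RV.Std (fa κ (e + 1) P Q x y) (fb κ D (e + 1) P Q x y) := by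
  have : CharZero L := charZero_of_injective_ringHom κ.injective
  obtain ⟨p, p1, p2⟩ := red_hev κ (e := e) (P := P) (rP ▸ hf.pderiv 1) x y
  obtain ⟨q, q1, q2⟩ := red_hev κ (e := e) (P := Q) (rQ ▸ (hf.pderiv 0).neg) x y
  rw [rP, hc_pderiv] at p2
  rw [rQ, hc_neg, hc_pderiv, map_neg] at q2
  have ea : red (fa κ (e + 1) P Q x y) =
      X * (p * red (X * dX _ y - y) - q * red (X * dX _ x - x)) := by
    rw [fa, aF, map_sub, map_mul, map_mul, p1, q1]
    ring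
  have eu := congrArg (evp κ (c00 x) (c00 y)) (euler (hc_hom (e + 1) f))
  have ex : evp κ (c00 x) (c00 y) (MvPolynomial.X 0) = c00 x := by simp [evp]
  have ey : evp κ (c00 x) (c00 y) (MvPolynomial.X 1) = c00 y := by simp [evp]
  rw [map_add, map_mul, map_mul, map_mul, map_natCast, h.2.2.1, ex, ey] at eu
  refine ⟨by rw [← cc_red, ea]; simp, fun z => ?_, ?_⟩
  · rw [co2, coeff_zero_eq_constantCoeff_apply, ← coeff_red, ea, coeff_succ_X_mul,
      coeff_zero_eq_constantCoeff_apply] at z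
    simp only [map_sub, map_mul, red_X, constantCoeff_X, cc_red, p2, q2] at z
    exact (Nat.cast_ne_zero (R := L)).2 e.succ_ne_zero (by linear_combination -z - eu)
  · rw [← cc_red, fb, bF, map_sub, map_mul, map_mul, p1, q1]
    simp

theorem chg (h1 : RV.ChgaStmt) (h2 : RV.ChgbStmt) (h3 : RV.TrfStmt) (hf : DL (e + 1 + 1) f)
    (rP : MvPolynomial.map cc P = MvPolynomial.pderiv 1 f)
    (rQ : MvPolynomial.map cc Q = -MvPolynomial.pderiv 0 f) {x y : AA L} (n α : ℕ)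
    (h : Curve κ D (hc (e + 1) f) (c00 x) (c00 y)) :
    Good κ D (fa κ (e + 1) P Q (CC (c00 x)) (CC (c00 y)))
      (fb κ D (e + 1) P Q (CC (c00 x)) (CC (c00 y))) n α ↔
    Good κ D (fa κ (e + 1) P Q x y) (fb κ D (e + 1) P Q x y) n α := by
  have : CharZero L := charZero_of_injective_ringHom κ.injective
  obtain ⟨τ, t1, t2, -⟩ := exists_tayl h.1 (RingHom.id L)
  obtain ⟨η, υ, e0, u1, hx, hy⟩ := h2 k L κ D (e + 1) _ x y τ (by omega) (hc_hom _ _) h ⟨t1, t2⟩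
  have hA := h1 L D τ η υ h.1 ⟨t1, t2⟩ e0 u1
  generalize thC τ η υ = Θ at hx hy hA
  have hΘ := hA.1
  have c0 : ∀ r : L, c00 (CC r : AA L) = r := fun r => by simp [c00, CC]
  have d0 : ∀ r : L, dX _ (CC r : AA L) = 0 := fun r => dX_C _
  have e1 : Θ.comp ((C : L⟦X⟧ →+* AA L).comp (map κ)) = (C : L⟦X⟧ →+* AA L).comp (map κ) :=
    RingHom.ext fun c => hΘ.fix _ (cw_κ κ h.2.1 c)
  have e2 : ∀ T, Θ (hev ((C : L⟦X⟧ →+* AA L).comp (map κ)) (e + 1) T (CC (c00 x)) (CC (c00 y)) X) =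
      υ ^ (e + 1) * hev ((C : L⟦X⟧ →+* AA L).comp (map κ)) (e + 1) T x y X := fun T => by
    rw [map_hev, e1, hx, hy, hΘ.w, mul_comm X, hev_smul]
  have sx := hΘ.ds (CC (c00 x))
  have sy := hΘ.ds (CC (c00 y))
  have wx := hΘ.dw (CC (c00 x))
  have wy := hΘ.dw (CC (c00 y))
  rw [hx, d0, map_zero, h.1.coefw.coefw] at sx
  rw [hy, d0, map_zero, h.1.coefw.coefw] at sy
  rw [hx, d0, map_zero, isDer_dX] at wx
  rw [hy, d0, map_zero, isDer_dX] at wy
  have hu : IsUnit υ := isUnit_iff_constantCoeff.2 (isUnit_iff_constantCoeff.2 (by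
    rw [← c00_apply, u1]
    exact isUnit_one))
  refine h3 k L κ D η υ (υ ^ (e + 3)) _ _ _ _ Θ n α h.1 hA (hu.pow _) ?_ ?_
    (std hf rP rQ (by rwa [c0, c0])) (std hf rP rQ h)
  all_goals simp only [fa, fb, aF, bF, d0, map_sub, map_mul, map_zero, e2, hx, hy, hΘ.w]
  all_goals generalize hev ((C : L⟦X⟧ →+* AA L).comp (map κ)) (e + 1) P x y X = p
  all_goals generalize hev ((C : L⟦X⟧ →+* AA L).comp (map κ)) (e + 1) Q x y X = q
  · linear_combination υ ^ (e + 2) * X * (p * wy - q * wx)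
  · linear_combination υ ^ (e + 2) * X * (p * sy - q * sx)

end Frm2

theorem frm2S (h1 : RV.ChgaStmt) (h2 : RV.ChgbStmt) (h3 : RV.TrfStmt) : Frm2Stmt := by
  intro k L _ _ _ d f w κ D x y x' y' n α hd hf hw h hx hy hG
  obtain ⟨e, rfl⟩ : ∃ e, d = e + 1 := ⟨d - 1, by omega⟩
  have rP : MvPolynomial.map cc w.1 = MvPolynomial.pderiv 1 f := congrArg Prod.fst hw
  have rQ : MvPolynomial.map cc w.2 = -MvPolynomial.pderiv 0 f := congrArg Prod.snd hw
  refine (Frm2.chg h1 h2 h3 hf rP rQ (x := x') (y := y') n α (by rwa [hx, hy])).1 ?_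
  rw [hx, hy]
  exact (Frm2.chg h1 h2 h3 hf rP rQ n α h).2 hG

end Pool.Agent.MP_05b4bd_ag.XO
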