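import Pool.Agent.MP_05b4bd_ag.ex.Bas

/-! The formal implicit function theorem for families of forms. -/

namespace Pool.Agent.MP_05b4bd_ag.XO

open PowerSeries LaurentSeries HC
open ES hiding Gen Ob Inf
open ES.U (TM Cr hom)
open PC3 (Fm fm d1 DF sub2 pb mapF Van CenK)
open RV (fa fb Frm Good Rho Fac Dk In Cg ExoK SymK RRc Ob NoF)

noncomputable section

namespace Ift

variable {k σ : Type} [Field k]

/-- Evaluation at a family of series. -/
abbrev E (x : σ → k⟦X⟧) : MvPolynomial σ k →+* k⟦X⟧ := MvPolynomial.eval₂Hom C x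

theorem E_C (x : σ → k⟦X⟧) (a : k) : E x (MvPolynomial.C a) = C a := MvPolynomial.eval₂Hom_C _ _ _

theorem E_X (x : σ → k⟦X⟧) (i : σ) : E x (MvPolynomial.X i) = x i := MvPolynomial.eval₂Hom_X' _ _ _

theorem E_dvd (t : k⟦X⟧) {x y : σ → k⟦X⟧} (h : ∀ i, t ∣ x i - y i) (g : MvPolynomial σ k) :
    t ∣ E x g - E y g := by
  induction g using MvPolynomial.induction_on with
  | C a => rw [E_C, E_C, sub_self]; exact dvd_zero _
  | add p q hp hq =>
    rw [map_add, map_add, add_sub_add_comm]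
    exact dvd_add hp hq
  | mul_X p i hp =>
    rw [map_mul, map_mul, E_X, E_X,
      show E x p * x i - E y p * y i = (E x p - E y p) * x i + E y p * (x i - y i) by ring]
    exact dvd_add (hp.mul_right _) ((h i).mul_left _)

theorem E_const (x0 : σ → k) (g : MvPolynomial σ k) :
    E (fun i => C (x0 i)) g = C (MvPolynomial.eval x0 g) := by
  induction g using MvPolynomial.induction_on with
  | C a => rw [E_C, MvPolynomial.eval_C]
  | add p q hp hq => rw [map_add, map_add, map_add, hp, hq]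
  | mul_X p i hp => rw [map_mul, map_mul, map_mul, hp, E_X, MvPolynomial.eval_X]

theorem X_dvd (q : k⟦X⟧) : X ∣ q - C (cc q) := by
  rw [X_dvd_iff, map_sub, constantCoeff_C, sub_self]

/-- First variation, the same at every order. -/
theorem var (x0 h : σ → k) (g : MvPolynomial σ k) : ∃ δ : k, ∀ (n : ℕ) (x : σ → k⟦X⟧),
    (∀ i, cc (x i) = x0 i) →
    X ^ (n + 2) ∣ E (fun i => x i + X ^ (n + 1) * C (h i)) g - E x g - X ^ (n + 1) * C δ := by
  induction g using MvPolynomial.induction_on with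
  | C a => exact ⟨0, fun n x _ => by rw [E_C, E_C, map_zero, mul_zero, sub_self, sub_self]; simp⟩
  | add p q hp hq =>
    obtain ⟨a, ha⟩ := hp
    obtain ⟨b, hb⟩ := hq
    refine ⟨a + b, fun n x hx => ?_⟩
    have := dvd_add (ha n x hx) (hb n x hx)
    rw [map_add, map_add, map_add]
    convert this using 1
    ring
  | mul_X p i hp =>
    obtain ⟨a, ha⟩ := hp
    refine ⟨MvPolynomial.eval x0 p * h i + a * x0 i, fun n x hx => ?_⟩
    obtain ⟨r, hr⟩ := ha n x hx
    have hd : ∀ j, X ∣ x j - C (x0 j) := fun j => hx j ▸ X_dvd (x j)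
    obtain ⟨s, hs⟩ := hd i
    obtain ⟨u, hu⟩ := E_dvd X (y := fun j => C (x0 j)) hd p
    rw [E_const] at hu
    rw [map_mul, map_mul, E_X, E_X, map_add, map_mul, map_mul]
    refine ⟨u * C (h i) + C a * s + C a * X ^ n * C (h i) + r * (x i + X ^ (n + 1) * C (h i)), ?_⟩
    linear_combination (x i + X ^ (n + 1) * C (h i)) * hr + X ^ (n + 1) * C (h i) * hu +
      X ^ (n + 1) * C a * hs

theorem step {x0 h : σ → k} {n : ℕ} {x : σ → k⟦X⟧} (hx : ∀ i, cc (x i) = x0 i)
    {U : R2 (MvPolynomial σ k)} {w q : R2 k⟦X⟧}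
    (hq : w - MvPolynomial.map (E x) U = MvPolynomial.C (X ^ (n + 1)) * q)
    (hc : MvPolynomial.C (X ^ 2) ∣ MvPolynomial.map (E fun i => C (x0 i) + X * C (h i)) U -
      (MvPolynomial.map C (MvPolynomial.map (MvPolynomial.eval x0) U) +
        MvPolynomial.C X * MvPolynomial.map C (MvPolynomial.map cc q))) :
    MvPolynomial.C (X ^ (n + 1 + 1)) ∣
      w - MvPolynomial.map (E fun i => x i + X ^ (n + 1) * C (h i)) U := by
  rw [MvPolynomial.C_dvd_iff_dvd_coeff] at hc ⊢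
  intro m
  have h1 := hc m
  have h2 := congrArg (MvPolynomial.coeff m) hq
  simp only [MvPolynomial.coeff_sub, MvPolynomial.coeff_add, MvPolynomial.coeff_C_mul,
    MvPolynomial.coeff_map] at h1 h2 ⊢
  obtain ⟨δ, hδ⟩ := var x0 h (MvPolynomial.coeff m U)
  obtain ⟨a, ha⟩ := hδ 0 (fun i => C (x0 i)) fun i => constantCoeff_C _
  obtain ⟨b, hb⟩ := hδ n x hx
  obtain ⟨c, hc⟩ := h1
  obtain ⟨e, he⟩ := X_dvd (MvPolynomial.coeff m q)
  simp only [zero_add, pow_one, E_const] at ha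
  refine ⟨e - b + (a - c), ?_⟩
  linear_combination h2 - hb + X ^ (n + 1) * he + X ^ n * ha - X ^ n * hc

theorem dl {d n : ℕ} {φ : MvPolynomial σ k →+* k⟦X⟧} {U : R2 (MvPolynomial σ k)}
    {w q : R2 k⟦X⟧} (hU : DL d U) (hw : DL d w)
    (hq : w - MvPolynomial.map φ U = MvPolynomial.C (X ^ n) * q) :
    DL d (MvPolynomial.map cc q) := fun m hm => by
  have h2 := congrArg (MvPolynomial.coeff m) hq
  rw [MvPolynomial.coeff_sub, MvPolynomial.coeff_C_mul, MvPolynomial.coeff_map, hU m hm, hw m hm,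
    map_zero, sub_self] at h2
  rw [MvPolynomial.coeff_map, (mul_eq_zero.1 h2.symm).resolve_left (pow_ne_zero _ X_ne_zero),
    map_zero]

theorem base {x0 : σ → k} {U : R2 (MvPolynomial σ k)} {w : R2 k⟦X⟧}
    (h : MvPolynomial.map cc w = MvPolynomial.map (MvPolynomial.eval x0) U) :
    MvPolynomial.C (X ^ (0 + 1)) ∣ w - MvPolynomial.map (E fun i => C (x0 i)) U := by
  rw [MvPolynomial.C_dvd_iff_dvd_coeff]
  intro m
  have h2 := congrArg (MvPolynomial.coeff m) h
  rw [MvPolynomial.coeff_map, MvPolynomial.coeff_map] at h2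
  rw [MvPolynomial.coeff_sub, MvPolynomial.coeff_map, E_const, ← h2, zero_add, pow_one]
  exact X_dvd _

theorem fin {f : ℕ → σ → k⟦X⟧} {l : σ → k⟦X⟧} (hl : ∀ i n, X ^ n ∣ l i - f n i)
    {U : R2 (MvPolynomial σ k)} {w : R2 k⟦X⟧}
    (h : ∀ n, MvPolynomial.C (X ^ (n + 1)) ∣ w - MvPolynomial.map (E (f n)) U) :
    w = MvPolynomial.map (E l) U := by
  refine MvPolynomial.ext _ _ fun m => sub_eq_zero.1 (haus_dvd (X : k⟦X⟧) fun n => ?_)
  have h1 := (MvPolynomial.C_dvd_iff_dvd_coeff _ _).1 (h n) m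
  rw [MvPolynomial.coeff_sub, MvPolynomial.coeff_map] at h1
  have h2 := E_dvd (X ^ n) (x := l) (y := f n) (fun i => hl i n) (MvPolynomial.coeff m U)
  have h3 := dvd_sub ((pow_dvd_pow X n.le_succ).trans h1) h2
  rw [MvPolynomial.coeff_map]
  rwa [sub_sub_sub_cancel_right] at h3

end Ift

open Ift in
theorem iftS : IftStmt := by
  intro k σ _ d U x0 w hU hw h0 hJ
  have hJ' : ∀ a b : R2 k, DL d a → DL d b → ∃ h : σ → k,
      MvPolynomial.C (X ^ 2) ∣ MvPolynomial.map (Ift.E fun i => C (x0 i) + X * C (h i)) U.1 -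
        (MvPolynomial.map C (MvPolynomial.map (MvPolynomial.eval x0) U.1) +
          MvPolynomial.C X * MvPolynomial.map C a) ∧
      MvPolynomial.C (X ^ 2) ∣ MvPolynomial.map (Ift.E fun i => C (x0 i) + X * C (h i)) U.2 -
        (MvPolynomial.map C (MvPolynomial.map (MvPolynomial.eval x0) U.2) +
          MvPolynomial.C X * MvPolynomial.map C b) := fun a b ha hb => hJ (a, b) ⟨ha, hb⟩
  let P : ℕ → (σ → k⟦X⟧) → Prop := fun n x =>
    (∀ i, cc (x i) = x0 i) ∧ Cg (n + 1) w (mapF (Ift.E x) U)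
  have st : ∀ n x, P n x → ∃ y, P (n + 1) y ∧ ∀ i, X ^ n ∣ y i - x i := by
    rintro n x ⟨hx, ⟨q1, h1⟩, q2, h2⟩
    replace h1 : w.1 - MvPolynomial.map (Ift.E x) U.1 = MvPolynomial.C (X ^ (n + 1)) * q1 := h1
    replace h2 : w.2 - MvPolynomial.map (Ift.E x) U.2 = MvPolynomial.C (X ^ (n + 1)) * q2 := h2
    have d1 := dl hU.1 hw.1 h1
    have d2 := dl hU.2 hw.2 h2
    obtain ⟨h, c1, c2⟩ := hJ' _ _ d1 d2
    have s1 := step hx h1 c1
    have s2 := step hx h2 c2
    refine ⟨fun i => x i + X ^ (n + 1) * C (h i), ⟨fun i => ?_, And.intro s1 s2⟩,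
      fun i => ⟨X * C (h i), by ring⟩⟩
    rw [map_add, map_mul, map_pow, constantCoeff_X, hx, zero_pow n.succ_ne_zero, zero_mul,
      add_zero]
  choose F hF using st
  have b1 := base (x0 := x0) (U := U.1) (w := w.1) (congrArg Prod.fst h0)
  have b2 := base (x0 := x0) (U := U.2) (w := w.2) (congrArg Prod.snd h0)
  have b : P 0 fun i => C (x0 i) := ⟨fun i => constantCoeff_C _, And.intro b1 b2⟩
  let f : (n : ℕ) → {x // P n x} := fun n =>
    Nat.rec ⟨_, b⟩ (fun n x => ⟨F n x.1 x.2, (hF n x.1 x.2).1⟩) n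
  choose l hl using fun i => lim_dvd (X : k⟦X⟧) (f := fun n => (f n).1 i) fun n =>
    (hF n (f n).1 (f n).2).2 i
  have e1 := fin (f := fun n => (f n).1) (U := U.1) (w := w.1) hl fun n => (f n).2.2.1
  have e2 := fin (f := fun n => (f n).1) (U := U.2) (w := w.2) hl fun n => (f n).2.2.2
  refine ⟨l, fun i => ?_, Prod.ext e1 e2⟩
  have h1 := hl i 1
  rw [pow_one, X_dvd_iff, map_sub, sub_eq_zero] at h1
  exact h1.trans ((f 1).2.1 i)

end

end Pool.Agent.MP_05b4bd_ag.XO
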