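import Pool.Agent.MP_05b4bd_ag.ex.Bas

/-! The differential of the family with twenty parameters is onto. -/

namespace Pool.Agent.MP_05b4bd_ag.XO

open HC
open PC3 (Fm fm d1 DF sub2 pb mapF)
open RV (Cg)

namespace Jac
open MvPolynomial

noncomputable section

variable {A B : Type} [CommRing A] [CommRing B] {b : ℕ}

theorem map_omF (M : Mo b) (φ : A →+* B) (y : Pa (R2 A)) (u v : R2 A) :
    mapF φ (omF M y u v) = omF M (y.map (map φ)) (map φ u) (map φ v) := by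
  simp only [omF, PC3.mapF_add, PC3.mapF_sub, PC3.mapF_fm, PC3.mapF_d1, map_add, map_mul, map_pow,
    map_natCast, map_ofNat, map_e6, map_l, map_q4]
  rfl

theorem pb_omF (M : Mo b) (s t : R2 A) (y : Pa (R2 A)) (u v : R2 A) :
    pb s t (omF M y u v) =
      omF M (y.map (sub2 s t : R2 A →+* R2 A)) (sub2 s t u) (sub2 s t v) := by
  have e1 := map_e6 (sub2 s t : R2 A →+* R2 A)
  have e2 := map_l (sub2 s t : R2 A →+* R2 A)
  have e3 := map_q4 (sub2 s t : R2 A →+* R2 A)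
  simp only [RingHom.coe_coe] at e1 e2 e3
  simp only [omF, PC3.pb_add, PC3.pb_sub, PC3.pb_fm, PC3.pb_d1, map_add, map_mul, map_pow,
    map_natCast, map_ofNat, e1, e2, e3]
  rfl

theorem uO_eq (M : Mo b) (y : Fin 20 → A) :
    uO M y = omF M ((pa y).map C) (af (y 0) (y 1) (y 2)) (af (y 3) (y 4) (y 5)) := by
  rw [uO, Om, pb_omF, PC3.sub2_X0, PC3.sub2_X1, Pa.map_map]
  congr 2
  ext1 r
  exact PC3.sub2_C r

theorem map_uO (M : Mo b) (φ : A →+* B) (y : Fin 20 → A) :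
    mapF φ (uO M y) = uO M fun i => φ (y i) := by
  rw [uO_eq, uO_eq, map_omF]
  simp only [af, map_add, map_mul, map_C, map_X, Pa.map, pa]
  congr 2
  funext i
  fin_cases i <;> rfl

/-- Parameters that are close to those of the normal form. -/
def sc (T c : A) (z : Pa A) : Pa A :=
  ⟨c + T * z.c, T * z.μ, T * z.m, T * z.n, T * z.κ, T * z.g, T * z.ν, T * z.s0, T * z.s2,
    fun i => T * z.q i⟩

theorem sum_first {T : A} (hT : T * T = 0) (w : A) (n : ℕ) :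
    T * ∑ i ∈ Finset.range n, (1 + T * w) ^ i = T * n := by
  have h : ∀ i : ℕ, T * (1 + T * w) ^ i = T := fun i => by
    induction i with
    | zero => simp
    | succ i ih => linear_combination (1 + T * w) * ih + w * hT
  rw [Finset.mul_sum, Finset.sum_congr rfl fun i _ => h i]
  simp [mul_comm]

/-- The first variation of the cubic. -/
def G1 (b : ℕ) (c : A) (z : Pa A) (u v a e : A) : A :=
  (3 * u ^ 2 + v ^ 2) * a + (2 * u * v + 2 * c) * e + 2 * z.c * v - b * c ^ 2 * z.m +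
    52 * b * c * z.n * v ^ 2 + z.κ * u ^ 2 + z.g * u

theorem G_first (M : Mo b) {T : A} (hT : T * T = 0) (c : A) (z : Pa A) (u v a e : A) :
    e6 M.G (sc T c z) (u + T * a) (v + T * e) + (sc T c z).κ * (u + T * a) ^ 2 +
      (sc T c z).g * (u + T * a) = u ^ 3 + u * v ^ 2 + 2 * c * v + T * G1 b c z u v a e := by
  obtain ⟨r1, r2, h⟩ := M.gE (sc T c z) (u + T * a) (v + T * e)
  have hs := sum_first hT (z.m * (u + T * a)) b
  rw [h, gE, G1]
  simp only [sc, mul_assoc T]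
  linear_combination (3 * u * a ^ 2 + T * a ^ 3 + u * e ^ 2 + 2 * v * a * e + T * a * e ^ 2 +
    2 * z.c * e - b * z.m * (2 * c * z.c + T * z.c ^ 2) +
    52 * b * z.n * (z.c * (v + T * e) ^ 2 + c * (2 * v * e + T * e ^ 2)) + z.n * z.m * r1 +
    z.n ^ 2 * r2 + z.κ * (2 * u * a + T * a ^ 2) + z.g * a) * hT - (c + T * z.c) ^ 2 * z.m * hs

theorem P_first (M : Mo b) {T : A} (hT : T * T = 0) (c : A) (z : Pa A) (u v a e : A) :
    (sc T c z).μ * e6 M.P (sc T c z) (u + T * a) (v + T * e) =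
      0 + T * (4 * z.μ * (u * v + c)) := by
  obtain ⟨⟨r, h⟩, -⟩ := M.pE (sc T c z) (u + T * a) (v + T * e)
  rw [h]
  simp only [sc]
  linear_combination (z.μ * (4 * (u * e + v * a + T * a * e + z.c) +
    ((u + T * a) * (v + T * e) + (c + T * z.c)) * (4 - b) * z.m * (u + T * a) + z.n * r)) * hT

theorem Q_first (M : Mo b) {T : A} (hT : T * T = 0) (c : A) (z : Pa A) (u v : A) :
    (sc T c z).μ * e6 M.Q (sc T c z) u v = 0 + T * 0 := by
  obtain ⟨-, r, h⟩ := M.pE (sc T c z) u v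
  rw [h]
  simp only [sc]
  linear_combination (z.μ * z.n * r) * hT

theorem fm_first {τ : A} (h : (C τ * C τ : R2 A) = 0) (g0 g1 h0 h1 : R2 A) :
    fm (g0 + C τ * g1) (h0 + C τ * h1) = fm g0 h0 + (C τ : R2 A) • (fm g1 h0 + fm g0 h1) := by
  refine Prod.ext ?_ ?_ <;>
    simp only [fm, map_add, pderiv_C_mul, Prod.fst_add, Prod.snd_add, Prod.smul_fst, Prod.smul_snd,
      smul_eq_mul]
  · linear_combination g1 * pderiv 1 h1 * h
  · linear_combination -g1 * pderiv 0 h1 * h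

theorem q_first {T : A} (h : T * T = 0) (c : A) (z : Pa A) (u v a e : A) :
    q4 (sc T c z).q (u + T * a) (v + T * e) = T * q4 z.q u v := by
  have p : ∀ (u w : A) (n : ℕ), ∃ r, (u + T * w) ^ n = u ^ n + T * r := fun u w n => by
    have h1 := sub_dvd_pow_sub_pow (u + T * w) u n
    rw [add_sub_cancel_left] at h1
    obtain ⟨r, hr⟩ := (dvd_mul_right T w).trans h1
    exact ⟨r, by linear_combination hr⟩
  obtain ⟨a2, ha2⟩ := p u a 2
  obtain ⟨a3, ha3⟩ := p u a 3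
  obtain ⟨a4, ha4⟩ := p u a 4
  obtain ⟨b2, hb2⟩ := p v e 2
  obtain ⟨b3, hb3⟩ := p v e 3
  obtain ⟨b4, hb4⟩ := p v e 4
  simp only [sc, q4, ha2, ha3, ha4, hb2, hb3, hb4]
  linear_combination (z.q 0 * a4 + z.q 1 * (u ^ 3 * e + a3 * (v + T * e)) +
    z.q 2 * (u ^ 2 * b2 + a2 * (v ^ 2 + T * b2)) + z.q 3 * (u * b3 + a * (v ^ 3 + T * b3)) +
    z.q 4 * b4) * h

theorem low_first {T : A} (h : T * T = 0) (c : A) (z : Pa A) (u v a e β : A) :
    (sc T c z).l (u + T * a) (v + T * e) = 1 + T * (z.m * u + 52 * z.n * v) ∧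
    (∀ l : A, 4 * (1 + T * l) = 4 + T * (4 * l)) ∧
    (∀ f g : A, 3 * β * (f + T * g) = 3 * β * f + T * (3 * β * g)) ∧
    (sc T c z).ν * β * (u + T * a) * (v + T * e) ^ 2 =
      0 + T * (z.ν * β * (u + T * a) * (v + T * e) ^ 2) ∧
    (∀ l : A, 4 * (sc T c z).ν * (1 + T * l) * (v + T * e) ^ 2 = 0 + T * (4 * z.ν * v ^ 2)) ∧
    (sc T c z).s0 * (u + T * a) + (sc T c z).s2 * (u + T * a) ^ 3 =
      0 + T * (z.s0 * u + z.s2 * u ^ 3) := by
  simp only [sc, Pa.l]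
  refine ⟨?_, fun l => by ring, fun f g => by ring, by ring, fun l => ?_, ?_⟩
  · linear_combination (z.m * a + 52 * z.n * e) * h
  · linear_combination (4 * z.ν * (l * (v + T * e) ^ 2 + 2 * v * e + T * e ^ 2)) * h
  · linear_combination (z.s0 * a + z.s2 * a * (3 * u ^ 2 + 3 * u * T * a + T ^ 2 * a ^ 2)) * h

theorem omF_first (M : Mo b) {τ : A} (h : (C τ * C τ : R2 A) = 0) (c : A) (z : Pa (R2 A))
    (a e : R2 A) :
    omF M (sc (C τ) (C c) z) (X 0 + C τ * a) (X 1 + C τ * e) = (4 : R2 A) • d1 (f0 c) +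
      (C τ : R2 A) • (fm (4 * (z.m * X 0 + 52 * z.n * X 1)) (f0 c) +
        fm 4 (G1 b (C c) z (X 0) (X 1) a e) -
        fm (3 * (b : R2 A) * f0 c) (z.m * X 0 + 52 * z.n * X 1) +
        fm (4 * z.μ * (X 0 * X 1 + C c)) (X 0) -
        fm (4 * z.ν * X 1 ^ 2) (X 0) + fm (z.s0 * X 0 + z.s2 * X 0 ^ 3) (X 1) +
        d1 (q4 z.q (X 0) (X 1))) := by
  obtain ⟨e1, e2, e3, e4, e5, e6⟩ := low_first h (C c) z (X 0) (X 1) a e b
  rw [omF, G_first M h, P_first M h, Q_first M h, e4, e1, e2, e3, e5, e6, q_first h, PC3.d1_C_mul]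
  simp only [fm_first h]
  rw [show X 0 ^ 3 + X 0 * X 1 ^ 2 + 2 * C c * X 1 = f0 c from rfl]
  refine Prod.ext ?_ ?_ <;>
    simp only [fm, d1, Prod.fst_add, Prod.snd_add, Prod.fst_sub, Prod.snd_sub, Prod.smul_fst,
      Prod.smul_snd, smul_eq_mul, pderiv_one] <;> ring

/-- The general cubic. -/
def cub (a0 a1 a2 a3 a4 a5 a6 a7 a8 a9 : A) : R2 A :=
  C a0 + C a1 * X 0 + C a2 * X 1 + C a3 * X 0 ^ 2 + C a4 * (X 0 * X 1) + C a5 * X 1 ^ 2 +
    C a6 * X 0 ^ 3 + C a7 * (X 0 ^ 2 * X 1) + C a8 * (X 0 * X 1 ^ 2) + C a9 * X 1 ^ 3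

/-- The differential. -/
def Lf (b : ℕ) (c : A) (h : Fin 20 → A) : Fm A :=
  (cub (8 * h 6 + 8 * c * h 5) (h 13 + 8 * c * h 8 + 8 * h 3)
      (8 * h 0 + (8 + 2 * b) * c * (52 * h 9)) (8 * h 4 + 12 * h 2) (16 * h 5 + 8 * h 1) (12 * h 2)
      (h 14 + h 16 - 3 * b * (52 * h 9)) (2 * h 17 + 8 * h 8)
      (3 * h 18 + (8 - 3 * b) * (52 * h 9)) (4 * h 19),
    -cub (4 * h 11 + 8 * c * h 4 + 4 * h 7 * c) (8 * h 10 + 24 * h 0) (8 * h 3 - 6 * b * c * h 8)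
      (36 * h 1) (4 * h 7 + 24 * h 2 + 16 * h 4) (4 * h 1 + 8 * h 5 - 4 * h 12)
      (4 * h 15 + (12 - 3 * b) * h 8) (3 * h 16 + 12 * (52 * h 9))
      (2 * h 17 + (4 - 3 * b) * h 8) (h 18 + 4 * (52 * h 9)))

theorem map_Lf (φ : A →+* B) (c : A) (h : Fin 20 → A) :
    mapF φ (Lf b c h) = Lf b (φ c) fun i => φ (h i) := by
  simp only [Lf, mapF, cub, map_neg, map_add, map_sub, map_mul, map_pow, map_C, map_X, map_ofNat,
    map_natCast]

theorem dn (i : Fin 2) (n : ℕ) [n.AtLeastTwo] : pderiv i (ofNat(n) : R2 A) = 0 :=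
  (pderiv i).map_natCast n

theorem first (M : Mo b) {τ : A} (hτ : τ * τ = 0) (c : A) (h : Fin 20 → A) :
    (uO M fun i => y0 c i + τ * h i) = (4 : R2 A) • d1 (f0 c) + (C τ : R2 A) • Lf b c h := by
  have e1 : (pa fun i => y0 c i + τ * h i).map C = sc (C τ : R2 A) (C c) ((pa h).map C) := by
    simp only [pa, Pa.map, sc, y0]
    congr 1 <;> try simp
    funext i
    fin_cases i <;> simp
  have e2 : af (y0 c 0 + τ * h 0) (y0 c 1 + τ * h 1) (y0 c 2 + τ * h 2) =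
      X 0 + C τ * af (h 0) (h 1) (h 2) := by
    simp [af, y0]
    ring
  have e3 : af (y0 c 3 + τ * h 3) (y0 c 4 + τ * h 4) (y0 c 5 + τ * h 5) =
      X 1 + C τ * af (h 3) (h 4) (h 5) := by
    simp [af, y0]
    ring
  rw [uO_eq, e1, e2, e3, omF_first M (by rw [← map_mul, hτ, map_zero])]
  congr 2
  refine Prod.ext ?_ ?_ <;>
    simp [fm, d1, Lf, cub, G1, f0, q4, af, pa, Pa.map, pderiv_X, dn, map_ofNat] <;> ring

theorem cub_ex {k : Type} [Field k] {u : R2 k} (hu : DL 4 u) :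
    ∃ a0 a1 a2 a3 a4 a5 a6 a7 a8 a9, u = cub a0 a1 a2 a3 a4 a5 a6 a7 a8 a9 := by
  have h1 := PC3.DL3_eq hu.sub_hc
  have h2 := hom3_eq (hc_hom 3 u)
  rw [HC.lf] at h1
  refine ⟨coeff 0 (u - hc 3 u), HC.co 1 0 (u - hc 3 u), HC.co 0 1 (u - hc 3 u),
    HC.co 2 0 (u - hc 3 u), HC.co 1 1 (u - hc 3 u), HC.co 0 2 (u - hc 3 u), HC.co 3 0 (hc 3 u),
    HC.co 2 1 (hc 3 u), HC.co 1 2 (hc 3 u), HC.co 0 3 (hc 3 u), ?_⟩
  rw [cub]
  linear_combination h1 + h2

theorem onto {k : Type} [Field k] [CharZero k] (c : k) {r : Fm k} (hr : DF 4 r) :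
    ∃ h, Lf b c h = r := by
  obtain ⟨P, Q⟩ := r
  obtain ⟨p0, p1, p2, p3, p4, p5, p6, p7, p8, p9, rfl⟩ := cub_ex (u := P) hr.1
  obtain ⟨w0, w1, w2, w3, w4, w5, w6, w7, w8, w9, e⟩ := cub_ex (u := -Q) (DL.neg hr.2)
  obtain rfl := neg_eq_iff_eq_neg.1 e
  have s : ∀ a p e : k, a ≠ 0 → ∃ z, p = a * z + e := fun a p e ha =>
    ⟨(p - e) / a, by field_simp; ring⟩
  have hb : (4 + 3 * b : k) ≠ 0 := by exact_mod_cast (by omega : 4 + 3 * b ≠ 0)
  obtain ⟨h2, e2⟩ := s 12 p5 0 (by norm_num)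
  obtain ⟨h4, e4⟩ := s 8 p3 (12 * h2) (by norm_num)
  obtain ⟨h1, e1⟩ := s 36 w3 0 (by norm_num)
  obtain ⟨h5, e5⟩ := s 16 p4 (8 * h1) (by norm_num)
  obtain ⟨h6, e6⟩ := s 8 p0 (8 * c * h5) (by norm_num)
  obtain ⟨h7, e7⟩ := s 4 w4 (24 * h2 + 16 * h4) (by norm_num)
  obtain ⟨h12, e12⟩ := s (-4) w5 (4 * h1 + 8 * h5) (by norm_num)
  obtain ⟨h19, e19⟩ := s 4 p9 0 (by norm_num)
  obtain ⟨h8, e8⟩ := s _ p7 w8 hb
  obtain ⟨h17, e17⟩ := s 2 p7 (8 * h8) (by norm_num)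
  obtain ⟨h15, e15⟩ := s 4 w6 ((12 - 3 * b) * h8) (by norm_num)
  obtain ⟨h9, e9⟩ := s _ (3 * w9) p8 (mul_ne_zero hb (by norm_num : (52 : k) ≠ 0))
  obtain ⟨h18, e18⟩ := s 1 w9 (4 * (52 * h9)) (by norm_num)
  obtain ⟨h16, e16⟩ := s 3 w7 (12 * (52 * h9)) (by norm_num)
  obtain ⟨h14, e14⟩ := s 1 p6 (h16 - 3 * b * (52 * h9)) (by norm_num)
  obtain ⟨h3, e3⟩ := s 8 w2 (-(6 * b * c * h8)) (by norm_num)
  obtain ⟨h13, e13⟩ := s 1 p1 (8 * c * h8 + 8 * h3) (by norm_num)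
  obtain ⟨h0, e0⟩ := s 8 p2 ((8 + 2 * b) * c * (52 * h9)) (by norm_num)
  obtain ⟨h10, e10⟩ := s 8 w1 (24 * h0) (by norm_num)
  obtain ⟨h11, e11⟩ := s 4 w0 (8 * c * h4 + 4 * h7 * c) (by norm_num)
  refine ⟨![h0, h1, h2, h3, h4, h5, h6, h7, h8, h9, h10, h11, h12, h13, h14, h15, h16, h17, h18,
    h19], ?_⟩
  simp only [Lf, Matrix.cons_val]
  congr 2
  · exact e6.symm
  · linear_combination -e13
  · exact e0.symm
  · exact e4.symm
  · exact e5.symm
  · linear_combination -e2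
  · linear_combination -e14
  · exact e17.symm
  · linear_combination e9 - 3 * e18
  · linear_combination -e19
  · congr 1
    · linear_combination -e11
    · exact e10.symm
    · linear_combination -e3
    · linear_combination -e1
    · linear_combination -e7
    · linear_combination -e12
    · exact e15.symm
    · exact e16.symm
    · linear_combination e8 - e17
    · linear_combination -e18

theorem map_y0 (φ : A →+* B) (c : A) (i : Fin 20) : φ (y0 c i) = y0 (φ c) i := by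
  unfold y0
  split_ifs <;> simp

theorem cg_of {n : ℕ} {w w' : Fm (PowerSeries A)}
    (h : mapF (Ideal.Quotient.mk (Ideal.span {PowerSeries.X ^ n})) w =
      mapF (Ideal.Quotient.mk (Ideal.span {PowerSeries.X ^ n})) w') : Cg n w w' := by
  have H : ∀ u v : R2 (PowerSeries A), map (Ideal.Quotient.mk (Ideal.span {PowerSeries.X ^ n})) u =
      map (Ideal.Quotient.mk (Ideal.span {PowerSeries.X ^ n})) v →
      C (PowerSeries.X ^ n) ∣ u - v := fun u v e => (C_dvd_iff_dvd_coeff _ _).2 fun i => by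
    rw [← Ideal.mem_span_singleton, ← Ideal.Quotient.eq_zero_iff_mem, ← coeff_map, map_sub, e,
      sub_self, coeff_zero]
  exact ⟨H _ _ (congrArg Prod.fst h), H _ _ (congrArg Prod.snd h)⟩

end

end Jac

open PowerSeries in
theorem jacS : JacStmt := by
  intro b M k _ _ c r hr
  obtain ⟨h, rfl⟩ := Jac.onto (b := b) c hr
  refine ⟨h, Jac.cg_of ?_⟩
  generalize hπ : Ideal.Quotient.mk (Ideal.span {(X : k⟦X⟧) ^ 2}) = π
  have h2 : π X * π X = 0 := by
    rw [← map_mul, ← sq, ← hπ, Ideal.Quotient.eq_zero_iff_mem]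
    exact Ideal.mem_span_singleton_self _
  simp only [Jac.map_uO, PC3.mapF_add, PC3.mapF_smul, PC3.mapF_d1, Jac.map_Lf, map_add, map_mul,
    Jac.map_y0, Jac.first M h2, MvPolynomial.map_C, map_ofNat, f0, map_pow, MvPolynomial.map_X]

end Pool.Agent.MP_05b4bd_ag.XO
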