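import Pool.Agent.MP_05b4bd_ag.ex.Bas

/-! The leading coefficients of the parameters along the second branch. -/

section
namespace Pool.Agent.MP_05b4bd_ag.XO.Lead

open MvPolynomial HC
open PC3 (Fm fm d1 mapF mapF_add mapF_sub mapF_fm mapF_d1)

variable {A B : Type} [CommRing A] [CommRing B]

/-- The cubic part of the coefficient of `dv`. -/
def e1 (b : ℕ) (m n S : A) (q : Fin 5 → A) (u v : A) : A :=
  4 * (m * u + 52 * n * v) * (2 * u * v) - 3 * b * (u ^ 3 + u * v ^ 2) * (52 * n) + S * u ^ 3 +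
    (q 1 * u ^ 3 + 2 * q 2 * u ^ 2 * v + 3 * q 3 * u * v ^ 2 + 4 * q 4 * v ^ 3)

/-- The cubic part of the coefficient of `du`. -/
def e0 (b : ℕ) (m n : A) (q : Fin 5 → A) (u v : A) : A :=
  4 * (m * u + 52 * n * v) * (3 * u ^ 2 + v ^ 2) - 3 * b * (u ^ 3 + u * v ^ 2) * m +
    (4 * q 0 * u ^ 3 + 3 * q 1 * u ^ 2 * v + 2 * q 2 * u * v ^ 2 + q 3 * v ^ 3)

theorem map_e1 (φ : A →+* B) (b : ℕ) (m n S : A) (q : Fin 5 → A) (u v : A) :
    φ (e1 b m n S q u v) = e1 b (φ m) (φ n) (φ S) (fun i => φ (q i)) (φ u) (φ v) := by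
  simp only [e1, map_add, map_sub, map_mul, map_pow, map_ofNat, map_natCast]

theorem map_e0 (φ : A →+* B) (b : ℕ) (m n : A) (q : Fin 5 → A) (u v : A) :
    φ (e0 b m n q u v) = e0 b (φ m) (φ n) (fun i => φ (q i)) (φ u) (φ v) := by
  simp only [e0, map_add, map_sub, map_mul, map_pow, map_ofNat, map_natCast]

theorem hc3 (a0 a1 a2 a3 b0 b1 b2 b3 b4 b5 : A) :
    hc 3 (C a0 * X 0 ^ 3 + C a1 * (X 0 ^ 2 * X 1) + C a2 * (X 0 * X 1 ^ 2) + C a3 * X 1 ^ 3 +
      (C b0 + C b1 * X 0 + C b2 * X 1 + C b3 * X 0 ^ 2 + C b4 * (X 0 * X 1) + C b5 * X 1 ^ 2) :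
        R2 A) =
    C a0 * X 0 ^ 3 + C a1 * (X 0 ^ 2 * X 1) + C a2 * (X 0 * X 1 ^ 2) + C a3 * X 1 ^ 3 := by
  have x0 := isHomogeneous_X A (0 : Fin 2)
  have x1 := isHomogeneous_X A (1 : Fin 2)
  rw [hc_add, hc_self, DL.hc_eq (n := 3) _ le_rfl, add_zero]
  · exact ((((((DL_C b0).mono (by omega)).add (((DL_X 0).mono (by omega)).C_mul b1)).add
      (((DL_X 1).mono (by omega)).C_mul b2)).add ((DL.of_hom (x0.pow 2)).C_mul b3)).add
      ((DL.of_hom (x0.mul x1)).C_mul b4)).add ((DL.of_hom (x1.pow 2)).C_mul b5)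
  · exact ((((x0.pow 3).C_mul a0).add (((x0.pow 2).mul x1).C_mul a1)).add
      ((x0.mul (x1.pow 2)).C_mul a2)).add ((x1.pow 3).C_mul a3)

theorem core {b : ℕ} (M : Mo b) (x : Pa A) (mm : x.m * x.m = 0) (mn : x.n * x.m = 0)
    (nn : x.n * x.n = 0) (μm : x.μ * x.m = 0) (μn : x.μ * x.n = 0) (νm : x.ν * x.m = 0)
    (νn : x.ν * x.n = 0) :
    hc 3 (Om M x).1 = e1 b (C x.m) (C x.n) (C x.s2) (fun i => C (x.q i)) (X 0) (X 1) ∧
    hc 3 (Om M x).2 = -e0 b (C x.m) (C x.n) (fun i => C (x.q i)) (X 0) (X 1) := by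
  have up : ∀ {s t : A}, s * t = 0 → (C s * C t : R2 A) = 0 := fun h => by
    rw [← map_mul, h, map_zero]
  have mm := up mm
  have mn := up mn
  have nn := up nn
  have μm := up μm
  have μn := up μn
  have νm := up νm
  have νn := up νn
  have hG : e6 M.G (x.map C) (X 0) (X 1 : R2 A) = X 0 ^ 3 + X 0 * X 1 ^ 2 + C (2 * x.c) * X 1 -
      C (b * x.c ^ 2 * x.m) + C (52 * b * x.c * x.n) * X 1 ^ 2 := by
    obtain ⟨r1, r2, h⟩ := M.gE (x.map C) (X 0) (X 1 : R2 A)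
    rw [h]
    simp only [Pa.map, gE, map_mul, map_pow, map_ofNat, map_natCast]
    have hb := M.hb
    rcases hb with rfl | rfl
    · simp only [Finset.sum_range_succ, Finset.sum_range_zero]
      push_cast
      linear_combination r1 * mn + r2 * nn
    · simp only [Finset.sum_range_succ, Finset.sum_range_zero]
      push_cast
      linear_combination r1 * mn + r2 * nn -
        C x.c ^ 2 * (3 * X 0 + C x.m * X 0 ^ 2) * mm
  obtain ⟨⟨r1, hP⟩, r2, hQ⟩ := M.pE (x.map C) (X 0) (X 1 : R2 A)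
  have p00 : pderiv 0 (X 0 : R2 A) = 1 := by simp
  have p01 : pderiv 0 (X 1 : R2 A) = 0 := by simp
  have p10 : pderiv 1 (X 0 : R2 A) = 0 := by simp
  have p11 : pderiv 1 (X 1 : R2 A) = 1 := by simp
  have q52 : ∀ i, pderiv i (52 : R2 A) = 0 := fun i => pderiv_C (a := 52)
  have q2 : ∀ i, pderiv i (2 : R2 A) = 0 := fun i => pderiv_C (a := 2)
  have qb : ∀ i, pderiv i (b : R2 A) = 0 := fun i => Derivation.map_natCast _ b
  constructor
  · have e : (Om M x).1 = C (x.s2 + x.q 1 - 156 * b * x.n) * X 0 ^ 3 +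
        C (8 * x.m + 2 * x.q 2) * (X 0 ^ 2 * X 1) +
        C (416 * x.n - 156 * b * x.n + 3 * x.q 3) * (X 0 * X 1 ^ 2) + C (4 * x.q 4) * X 1 ^ 3 +
        (C (8 * x.c) + C (8 * x.c * x.m - 156 * b * x.n * x.g + x.s0) * X 0 +
          C (416 * b * x.c * x.n + 416 * x.c * x.n - 312 * b * x.c * x.n) * X 1 +
          C (-156 * b * x.n * x.κ) * X 0 ^ 2 + C 8 * (X 0 * X 1) + C 0 * X 1 ^ 2) := by
      simp only [Om, omF, hG, hP, hQ, fm, d1, Prod.fst_add, Prod.fst_sub, Pa.l, q4]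
      simp only [Pa.map, map_add, map_sub, Derivation.leibniz, Derivation.leibniz_pow, pderiv_C,
        p10, p11, q52, q2, qb, Derivation.map_one_eq_zero, smul_eq_mul, nsmul_eq_mul, map_mul, map_pow,
        map_ofNat, map_natCast, map_neg, map_zero]
      linear_combination (416 * b * C x.c * X 0 * X 1 + 156 * b ^ 2 * C x.c ^ 2) * mn +
        (21632 * b - 8112 * b ^ 2) * C x.c * X 1 ^ 2 * nn + r2 * μn + 52 * b * X 0 * X 1 ^ 2 * νn
    rw [e, hc3]
    simp only [e1, map_add, map_sub, map_mul, map_ofNat, map_natCast]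
    ring
  · have e : (Om M x).2 = C (3 * b * x.m - 12 * x.m - 4 * x.q 0) * X 0 ^ 3 +
        C (-624 * x.n - 3 * x.q 1) * (X 0 ^ 2 * X 1) +
        C (3 * b * x.m - 4 * x.m - 2 * x.q 2) * (X 0 * X 1 ^ 2) +
        C (-208 * x.n - x.q 3) * X 1 ^ 3 +
        (C (-4 * x.g - 4 * x.μ * x.c) + C (3 * b * x.g * x.m - 8 * x.κ - 4 * x.g * x.m) * X 0 +
          C (6 * b * x.c * x.m - 208 * x.n * x.g) * X 1 +
          C (3 * b * x.κ * x.m - 12 - 8 * x.κ * x.m) * X 0 ^ 2 +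
          C (-416 * x.n * x.κ - 4 * x.μ) * (X 0 * X 1) + C (4 * x.ν - 4) * X 1 ^ 2) := by
      simp only [Om, omF, hG, hP, hQ, fm, d1, Prod.snd_add, Prod.snd_sub, Pa.l, q4]
      simp only [Pa.map, map_add, map_sub, Derivation.leibniz, Derivation.leibniz_pow, pderiv_C,
        p00, p01, q52, q2, qb, Derivation.map_one_eq_zero, smul_eq_mul, nsmul_eq_mul, map_mul, map_pow,
        map_ofNat, map_natCast, map_neg]
      linear_combination -3 * b ^ 2 * C x.c ^ 2 * mm + 156 * b ^ 2 * C x.c * X 1 ^ 2 * mn -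
        (X 0 * X 1 + C x.c) * (4 - b) * X 0 * μm - r1 * μn + (4 - b) * X 0 * X 1 ^ 2 * νm +
        208 * X 1 ^ 3 * νn
    rw [e, hc3]
    simp only [e0, map_sub, map_mul, map_ofNat, map_natCast, map_neg]
    ring

theorem map_Om {b : ℕ} (M : Mo b) (φ : A →+* B) (x : Pa A) :
    mapF φ (Om M x) = Om M (x.map φ) := by
  simp only [Om, omF, mapF_add, mapF_sub, mapF_fm, mapF_d1, map_add, map_mul, map_pow, map_e6,
    map_l, map_q4, map_ofNat, map_natCast, map_X, Pa.map, map_C]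

theorem hc_Om {b : ℕ} (M : Mo b) (x : Pa A) (N : A) (mm : N ∣ x.m * x.m) (mn : N ∣ x.n * x.m)
    (nn : N ∣ x.n * x.n) (μm : N ∣ x.μ * x.m) (μn : N ∣ x.μ * x.n) (νm : N ∣ x.ν * x.m)
    (νn : N ∣ x.ν * x.n) :
    C N ∣ hc 3 (Om M x).1 - e1 b (C x.m) (C x.n) (C x.s2) (fun i => C (x.q i)) (X 0) (X 1) ∧
    C N ∣ hc 3 (Om M x).2 + e0 b (C x.m) (C x.n) (fun i => C (x.q i)) (X 0) (X 1) := by
  let π := Ideal.Quotient.mk (Ideal.span {N})
  have hπ : ∀ r, π r = 0 ↔ N ∣ r := fun r => by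
    rw [Ideal.Quotient.eq_zero_iff_mem, Ideal.mem_span_singleton]
  have z : ∀ {s t : A}, N ∣ s * t → π s * π t = 0 := fun h => by
    rw [← map_mul]
    exact (hπ _).2 h
  obtain ⟨h1, h2⟩ := core M (x.map π) (z mm) (z mn) (z nn) (z μm) (z μn) (z νm) (z νn)
  rw [← map_Om] at h1 h2
  rw [C_dvd_iff_map_hom_eq_zero π N hπ, C_dvd_iff_map_hom_eq_zero π N hπ, map_sub, map_add,
    ← hc_map, ← hc_map, map_e1, map_e0]
  simp only [map_C, map_X]
  exact ⟨sub_eq_zero.2 h1, eq_neg_iff_add_eq_zero.1 h2⟩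

/-- The value of the cubic part, up to a multiple of `N`. -/
theorem ev_Om {b : ℕ} (M : Mo b) (x : Pa A) (N : A) (w : Fm A) (hw : (4 : R2 A) • w = Om M x)
    (mm : N ∣ x.m * x.m) (mn : N ∣ x.n * x.m) (nn : N ∣ x.n * x.n) (μm : N ∣ x.μ * x.m)
    (μn : N ∣ x.μ * x.n) (νm : N ∣ x.ν * x.m) (νn : N ∣ x.ν * x.n) (φ : A →+* B) (u v : B) :
    ∃ r1 r2, 4 * eval₂ φ ![u, v] (hc 3 w.1) =
        e1 b (φ x.m) (φ x.n) (φ x.s2) (fun i => φ (x.q i)) u v + φ N * r1 ∧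
      4 * eval₂ φ ![u, v] (hc 3 w.2) =
        -e0 b (φ x.m) (φ x.n) (fun i => φ (x.q i)) u v + φ N * r2 := by
  obtain ⟨⟨r1, h1⟩, r2, h2⟩ := hc_Om M x N mm mn nn μm μn νm νn
  have a1 : (Om M x).1 = C 4 * w.1 := by rw [← hw]; rfl
  have a2 : (Om M x).2 = C 4 * w.2 := by rw [← hw]; rfl
  rw [a1, hc_C_mul] at h1
  rw [a2, hc_C_mul] at h2
  have b1 := congrArg (eval₂Hom φ ![u, v]) h1
  have b2 := congrArg (eval₂Hom φ ![u, v]) h2
  simp only [map_sub, map_add, map_mul, map_e1, map_e0, eval₂Hom_C, eval₂Hom_X', map_ofNat,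
    Matrix.cons_val_zero, Matrix.cons_val_one] at b1 b2
  simp only [coe_eval₂Hom] at b1 b2
  exact ⟨_, _, eq_add_of_sub_eq' b1, by rw [← b2]; ring⟩

end Pool.Agent.MP_05b4bd_ag.XO.Lead
end

section
namespace Pool.Agent.MP_05b4bd_ag.XO

open PowerSeries LaurentSeries HC
open ES hiding Gen Ob Inf
open PC3 (Fm)
open RV (fa fb)

namespace Lead

variable {k L : Type} [Field k] [Field L]

theorem cc_ab (κ : k →+* L) (D : L →+ L) (w : Fm k⟦X⟧) (x y : AA L) :
    cc (fa κ 3 w.1 w.2 x y) =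
      -(MvPolynomial.eval₂ (map κ) ![cc x, cc y] (hc 3 w.1) * cc y -
        MvPolynomial.eval₂ (map κ) ![cc x, cc y] (hc 3 w.2) * cc x) ∧
    cc (fb κ D 3 w.1 w.2 x y) =
      MvPolynomial.eval₂ (map κ) ![cc x, cc y] (hc 3 w.1) * cw D (cc y) -
        MvPolynomial.eval₂ (map κ) ![cc x, cc y] (hc 3 w.2) * cw D (cc x) := by
  have e : (cc : AA L →+* L⟦X⟧).comp ((C : L⟦X⟧ →+* AA L).comp (map κ)) = map κ := by
    ext1 r
    simp
  simp only [fa, fb, aF, bF, map_sub, map_mul, map_hev, e, constantCoeff_X, hev_zero, cc_cw]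
  constructor
  · ring
  · trivial

theorem co_eq {i : ℕ} {f g r : L⟦X⟧} (h : 4 * f = X ^ i * (g + X * r)) :
    4 * coeff i f = cc g := by
  have h1 : coeff i (4 * f) = 4 * coeff i f := coeff_C_mul i f 4
  have h2 := coeff_X_pow_mul (g + X * r) i 0
  rw [zero_add] at h2
  rw [← h1, h, h2]
  simp

theorem fac {i : ℕ} {f : k⟦X⟧} (h : X ^ i ∣ f) : ∃ g, f = X ^ i * g ∧ cc g = coeff i f := by
  obtain ⟨g, rfl⟩ := h
  have h2 := coeff_X_pow_mul g i 0
  rw [zero_add] at h2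
  exact ⟨g, rfl, by rw [h2, coeff_zero_eq_constantCoeff_apply]⟩

theorem succ_dvd {i : ℕ} {f : k⟦X⟧} (h : X ^ i ∣ f) (h0 : coeff i f = 0) : X ^ (i + 1) ∣ f := by
  rw [X_pow_dvd_iff] at h ⊢
  intro j hj
  rcases Nat.lt_succ_iff_lt_or_eq.1 hj with a | rfl
  · exact h j a
  · exact h0

/-- The coefficients of order `i`. -/
theorem coef {b : ℕ} (M : Mo b) (κ : k →+* L) (D : L →+ L) {c : k} {x : Pa k⟦X⟧} (hx : Sm c x)
    {w : Fm k⟦X⟧} (hw : (4 : R2 k⟦X⟧) • w = Om M x) (X0 Y0 : AA L) {i : ℕ} (hm : X ^ i ∣ x.m)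
    (hn : X ^ i ∣ x.n) (hs : X ^ i ∣ x.s2) (hq : ∀ j, X ^ i ∣ x.q j) :
    4 * coeff i (cc (fa κ 3 w.1 w.2 X0 Y0)) =
      -(e1 b (κ (coeff i x.m)) (κ (coeff i x.n)) (κ (coeff i x.s2)) (fun j => κ (coeff i (x.q j)))
          (c00 X0) (c00 Y0) * c00 Y0 +
        e0 b (κ (coeff i x.m)) (κ (coeff i x.n)) (fun j => κ (coeff i (x.q j))) (c00 X0) (c00 Y0) *
          c00 X0) ∧
    4 * coeff i (cc (fb κ D 3 w.1 w.2 X0 Y0)) =
      e1 b (κ (coeff i x.m)) (κ (coeff i x.n)) (κ (coeff i x.s2)) (fun j => κ (coeff i (x.q j)))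
          (c00 X0) (c00 Y0) * D (c00 Y0) +
        e0 b (κ (coeff i x.m)) (κ (coeff i x.n)) (fun j => κ (coeff i (x.q j))) (c00 X0) (c00 Y0) *
          D (c00 X0) := by
  have d : ∀ {s t : k⟦X⟧}, X ∣ s → X ^ i ∣ t → X ^ (i + 1) ∣ s * t := fun a b => by
    rw [pow_succ']
    exact mul_dvd_mul a b
  obtain ⟨r1, r2, h1, h2⟩ := ev_Om M x (X ^ (i + 1)) w hw (d hx.m hm) (d hx.n hm) (d hx.n hn)
    (d hx.μ hm) (d hx.μ hn) (d hx.ν hm) (d hx.ν hn) (map κ) (cc X0) (cc Y0)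
  obtain ⟨m, em, cm⟩ := fac hm
  obtain ⟨n, en, cn⟩ := fac hn
  obtain ⟨S, eS, cS⟩ := fac hs
  choose q eq cq using fun j => fac (hq j)
  have f1 : e1 b (map κ x.m) (map κ x.n) (map κ x.s2) (fun j => map κ (x.q j)) (cc X0) (cc Y0) =
      X ^ i * e1 b (map κ m) (map κ n) (map κ S) (fun j => map κ (q j)) (cc X0) (cc Y0) := by
    rw [em, en, eS]
    simp only [e1, eq, map_mul, map_pow, map_X]
    ring
  have f0 : e0 b (map κ x.m) (map κ x.n) (fun j => map κ (x.q j)) (cc X0) (cc Y0) =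
      X ^ i * e0 b (map κ m) (map κ n) (fun j => map κ (q j)) (cc X0) (cc Y0) := by
    rw [em, en]
    simp only [e0, eq, map_mul, map_pow, map_X]
    ring
  rw [f1, map_pow, map_X] at h1
  rw [f0, map_pow, map_X] at h2
  obtain ⟨ha, hb⟩ := cc_ab κ D w X0 Y0
  have cm' : ∀ r : k⟦X⟧, cc (map κ r) = κ (cc r) := fun r => by
    rw [← coeff_zero_eq_constantCoeff_apply, coeff_map, coeff_zero_eq_constantCoeff_apply]
  constructor
  · rw [co_eq (g := -(e1 b (map κ m) (map κ n) (map κ S) (fun j => map κ (q j)) (cc X0) (cc Y0) *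
      cc Y0 + e0 b (map κ m) (map κ n) (fun j => map κ (q j)) (cc X0) (cc Y0) * cc X0))
      (r := r2 * cc X0 - r1 * cc Y0) (by rw [ha]; linear_combination cc X0 * h2 - cc Y0 * h1)]
    simp only [map_neg, map_add, map_mul, map_e1, map_e0, cm', cm, cn, cS, cq]
    rfl
  · rw [co_eq (g := e1 b (map κ m) (map κ n) (map κ S) (fun j => map κ (q j)) (cc X0) (cc Y0) *
      cw D (cc Y0) + e0 b (map κ m) (map κ n) (fun j => map κ (q j)) (cc X0) (cc Y0) *
        cw D (cc X0)) (r := r1 * cw D (cc Y0) - r2 * cw D (cc X0))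
      (by rw [hb]; linear_combination cw D (cc Y0) * h1 - cw D (cc X0) * h2)]
    simp only [map_add, map_mul, map_e1, map_e0, cm', cm, cn, cS, cq, cc_cw]
    rfl

/-- The equations in the function field. -/
theorem fld [CharZero k] [IsAlgClosed k] (h1 : LstStmt) (h2 : NexStmt) {b : ℕ}
    (hb : b = 1 ∨ b = 3) {κ : k →+* L} {D : L →+ L} {s z : L} (hX : Xd κ D s z) (m n S : k)
    (q : Fin 5 → k) (ω : L)
    (ha : -(e1 b (κ m) (κ n) (κ S) (fun j => κ (q j)) z⁻¹ (s * z⁻¹) * (s * z⁻¹) +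
      e0 b (κ m) (κ n) (fun j => κ (q j)) z⁻¹ (s * z⁻¹) * z⁻¹) = 3 * ((4 - b : ℕ) : L) * ω)
    (hd : e1 b (κ m) (κ n) (κ S) (fun j => κ (q j)) z⁻¹ (s * z⁻¹) * D (s * z⁻¹) +
      e0 b (κ m) (κ n) (fun j => κ (q j)) z⁻¹ (s * z⁻¹) * D z⁻¹ = 3 * b * D ω) :
    S = 0 ∧ (∀ j, q j = 0) ∧ -ω * z = κ m + κ (52 * n) * s := by
  have : CharZero L := charZero_of_injective_ringHom κ.injective
  obtain ⟨z0, dz, hN, -⟩ := h2 k L κ D s z hX
  obtain ⟨hL, -⟩ := h1 k L κ D s z hX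
  have hD := hX.der
  set u := z⁻¹ with hu
  have zu : z * u = 1 := mul_inv_cancel₀ z0
  have cub : (1 + s ^ 2) * u ^ 3 = 1 := by
    rw [← hX.cub, ← mul_pow, zu, one_pow]
  have du : 3 * D u = -(2 * s * u ^ 4) := by
    rw [hD.inv zu, dz, hu]
    field_simp
  have a4 : ((4 - b : ℕ) : L) = 4 - b := by rcases hb with rfl | rfl <;> norm_num
  rw [a4] at ha
  have dc : ∀ (r : k) (y : L), D (κ r * y) = κ r * D y := fun r y => hD.const_mul (hX.con r) y
  have dn : ∀ (r : ℕ) (y : L), D (r * y) = r * D y := fun r y => hD.const_mul (hD.natCast r) y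
  have dv : D (s * u) = u + s * D u := by rw [hD, hX.ds, one_mul]
  set A := q4 (fun j => κ (q j)) u (s * u) with hA
  have dA : D A = (4 * κ (q 0) * u ^ 3 + 3 * κ (q 1) * u ^ 2 * (s * u) +
      2 * κ (q 2) * u * (s * u) ^ 2 + κ (q 3) * (s * u) ^ 3) * D u +
      (κ (q 1) * u ^ 3 + 2 * κ (q 2) * u ^ 2 * (s * u) + 3 * κ (q 3) * u * (s * u) ^ 2 +
        4 * κ (q 4) * (s * u) ^ 3) * D (s * u) := by
    rw [hA]
    generalize s * u = v
    simp only [q4, map_add, mul_assoc, dc]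
    simp only [hD _ _, hD.pow]
    push_cast
    ring
  set N := κ m * u + κ (52 * n) * (s * u) with hNn
  have dN : D N = κ m * D u + 52 * κ n * D (s * u) := by
    rw [hNn, map_add, dc, dc, map_mul, map_ofNat]
  have d4 : D (s * u ^ 4) = u ^ 4 + 4 * s * u ^ 3 * D u := by
    rw [hD, hX.ds, hD.pow]
    push_cast
    ring
  have E1 : 3 * (4 - b) * (ω + N) + κ S * (s * u ^ 4) + 4 * A = 0 := by
    simp only [e1, e0] at ha
    rw [hNn, hA, q4, map_mul, map_ofNat]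
    linear_combination -ha - 3 * (4 - b) * (κ m * u + 52 * κ n * (s * u)) * cub
  have E2 : 3 * b * (D ω + D N) = κ S * u ^ 3 * D (s * u) + D A := by
    simp only [e1, e0] at hd
    rw [dA, dN]
    rw [dv] at hd ⊢
    linear_combination -hd - 3 * b * (κ m * D u + 52 * κ n * (u + s * D u)) * cub +
      4 * (κ m * u + 52 * κ n * (s * u)) * u ^ 2 * (1 + s ^ 2) * du -
      8 * (κ m * u + 52 * κ n * (s * u)) * s * u ^ 3 * cub
  have E3 : 3 * (4 - b) * (D ω + D N) + κ S * D (s * u ^ 4) + 4 * D A = 0 := by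
    have e := congrArg D E1
    have c1 : D (3 * (4 - b) * (ω + N)) = 3 * (4 - b) * D (ω + N) := by
      rw [← a4]
      exact_mod_cast dn (3 * (4 - b)) (ω + N)
    have c2 : D (4 * A) = 4 * D A := by exact_mod_cast dn 4 A
    rwa [map_add, map_add, c1, c2, dc, map_add, map_zero] at e
  have E4 : 8 * (4 + 3 * b) * D A + (8 + 6 * b) * κ S * D (s * u ^ 4) +
      9 * (4 - b) * κ S * D (s * u) = 3 * (4 - b) * κ S * u := by
    rw [d4] at E3 ⊢
    rw [dv] at E2 ⊢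
    linear_combination 8 * b * E3 - 8 * (4 - b) * E2 +
      (4 - b) * κ S * (3 * s * du - 6 * u * cub)
  have hS : S = 0 := by
    have := (hN 0 (3 * (4 - b) * S) 0 0 ⟨κ (8 * (4 + 3 * b)) * A +
      κ ((8 + 6 * b) * S) * (s * u ^ 4) + κ (9 * (4 - b) * S) * (s * u), by
        rw [map_add, map_add, dc, dc, dc, div_eq_mul_inv _ z, ← hu]
        simp only [map_add, map_sub, map_mul, map_ofNat, map_natCast, map_zero]
        linear_combination E4⟩).2.1
    rcases hb with rfl | rfl <;> simpa [show (4 : k) - 1 ≠ 0 by norm_num,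
      show (4 : k) - 3 ≠ 0 by norm_num] using this
  subst hS
  have hb' : (8 * (4 + 3 * b) : L) ≠ 0 := by exact_mod_cast (by omega : 8 * (4 + 3 * b) ≠ 0)
  have dA0 : D A = 0 := by
    apply mul_left_cancel₀ hb'
    rw [map_zero] at E4
    linear_combination E4
  obtain ⟨γ, hγ⟩ := hX.cst A dA0
  have hq := (hL (Polynomial.C (q 0) + Polynomial.C (q 1) * Polynomial.X +
      Polynomial.C (q 2) * Polynomial.X ^ 2 + Polynomial.C (q 3) * Polynomial.X ^ 3 +
      Polynomial.C (q 4) * Polynomial.X ^ 4) (Polynomial.C (-γ) * (1 + Polynomial.X ^ 2)) 0 (by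
    simp only [Polynomial.eval₂_add, Polynomial.eval₂_mul, Polynomial.eval₂_C, Polynomial.eval₂_X,
      Polynomial.eval₂_X_pow, Polynomial.eval₂_one, Polynomial.eval₂_zero]
    rw [map_neg, ← hγ, hA, q4, ← hX.cub]
    linear_combination -(κ (q 0) + κ (q 1) * s + κ (q 2) * s ^ 2 + κ (q 3) * s ^ 3 +
      κ (q 4) * s ^ 4) * (1 + z * u + (z * u) ^ 2 + (z * u) ^ 3) * zu)).1
  have hq' : ∀ j, q j = 0 := fun j => by
    have := congrArg (fun P : Polynomial k => P.coeff j) hq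
    fin_cases j <;> simpa [Polynomial.coeff_X, Polynomial.coeff_C] using this
  refine ⟨rfl, hq', ?_⟩
  have A0 : A = 0 := by simp [hA, q4, hq']
  have hb4 : (3 * (4 - b) : L) ≠ 0 := by rcases hb with rfl | rfl <;> norm_num
  have : ω + N = 0 := by
    apply mul_left_cancel₀ hb4
    rw [A0, map_zero] at E1
    linear_combination E1
  rw [hNn] at this
  linear_combination -z * this + (κ m + κ (52 * n) * s) * zu

end Lead

open Lead in
theorem leadS (h1 : LstStmt) (h2 : NexStmt) : LeadStmt := by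
  intro b M k L _ _ _ _ κ D s z c x p ζ ζi w w1 e hX hx hC hw hF
  have z0 := (h2 k L κ D s z hX).1
  have ci : cc ζi = z⁻¹ := by
    have := congrArg cc hC.inv
    rw [map_mul, map_one, hC.z0] at this
    exact eq_inv_of_mul_eq_one_right this
  have c1 : c00 (map C ζi : AA L) = z⁻¹ := by
    rw [← ci, c00, RingHom.comp_apply, ← coeff_zero_eq_constantCoeff_apply (map C ζi), coeff_map,
      constantCoeff_C, coeff_zero_eq_constantCoeff_apply]
  have c2 : c00 (p * map C ζi) = s * z⁻¹ := by rw [map_mul, c1, hC.p0]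
  have step : ∀ i ≤ e, X ^ i ∣ x.m → X ^ i ∣ x.n → X ^ i ∣ x.s2 → (∀ j, X ^ i ∣ x.q j) →
      X ^ (i + 1) ∣ x.s2 ∧ (∀ j, X ^ (i + 1) ∣ x.q j) ∧
        -coeff i w1 * z = κ (coeff i x.m) + κ (52 * coeff i x.n) * s := by
    intro i hi hm hn hs hq
    obtain ⟨ha, hb⟩ := coef M κ D hx hw (map C ζi) (p * map C ζi) hm hn hs hq
    rw [c1, c2] at ha hb
    have f : 4 * coeff i (cc (ca κ w p ζi)) = 3 * ((4 - b : ℕ) : L) * coeff i w1 ∧
        4 * coeff i (cc (cb κ D w p ζi)) = 3 * b * D (coeff i w1) := by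
      rcases hi.lt_or_eq with a | rfl
      · rw [hF.ord.2 i a, X_pow_dvd_iff.1 hF.da i a, X_pow_dvd_iff.1 hF.db i a]
        simp
      · exact ⟨hF.ea, hF.eb⟩
    obtain ⟨a1, a2, a3⟩ := fld h1 h2 M.hb hX _ _ _ (fun j => coeff i (x.q j)) _
      (ha.symm.trans f.1) (hb.symm.trans f.2)
    exact ⟨succ_dvd hs a1, fun j => succ_dvd (hq j) (a2 j), a3⟩
  have all : ∀ i ≤ e, X ^ i ∣ x.m ∧ X ^ i ∣ x.n ∧ X ^ i ∣ x.s2 ∧ ∀ j, X ^ i ∣ x.q j := by
    intro i
    induction i with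
    | zero => simp
    | succ i ih =>
      intro hi
      obtain ⟨hm, hn, hs, hq⟩ := ih (by omega)
      obtain ⟨a1, a2, a3⟩ := step i (by omega) hm hn hs hq
      rw [hF.ord.2 i hi] at a3
      have h0 := ((h1 k L κ D s z hX).1 (Polynomial.C (coeff i x.m) +
        Polynomial.C (52 * coeff i x.n) * Polynomial.X) 0 0 (by
          simp only [Polynomial.eval₂_add, Polynomial.eval₂_mul, Polynomial.eval₂_C,
            Polynomial.eval₂_X, Polynomial.eval₂_zero]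
          linear_combination -a3)).1
      have k0 := congrArg (fun P : Polynomial k => P.coeff 0) h0
      have k1 := congrArg (fun P : Polynomial k => P.coeff 1) h0
      simp only [Polynomial.coeff_add, Polynomial.coeff_C_mul, Polynomial.coeff_C_zero,
        Polynomial.coeff_X_zero, Polynomial.coeff_X_one, Polynomial.coeff_zero, mul_zero, add_zero,
        mul_one, Polynomial.coeff_C_succ, zero_add, mul_eq_zero, OfNat.ofNat_ne_zero,
        false_or] at k0 k1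
      exact ⟨succ_dvd hm k0, succ_dvd hn k1, a1, a2⟩
  obtain ⟨hm, hn, hs, hq⟩ := all e le_rfl
  exact ⟨hm, hn, step e le_rfl hm hn hs hq⟩

end Pool.Agent.MP_05b4bd_ag.XO
end
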