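import Pool.Agent.MP_05b4bd_ag.ex.Bas

/-! The function field of the cubic curve has the basis `1, z, z ^ 2` over the rational
functions in `s`. -/

namespace Pool.Agent.MP_05b4bd_ag.XO

open PowerSeries LaurentSeries HC
open ES hiding Gen Ob Inf
open ES.U (TM Cr hom)
open PC3 (Fm fm d1 DF sub2 pb mapF Van CenK)
open RV (fa fb Frm Good Rho Fac Dk In Cg ExoK SymK RRc Ob NoF)

namespace Lst

variable {k L : Type} [Field k] [CharZero k] [Field L] {κ : k →+* L} {D : L →+ L} {s z : L}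

omit [CharZero k] in
theorem der_ev (h : Xd κ D s z) (p : Polynomial k) :
    D (p.eval₂ κ s) = p.derivative.eval₂ κ s := by
  induction p using Polynomial.induction_on' with
  | add p q hp hq => simp only [Polynomial.eval₂_add, map_add, hp, hq]
  | monomial n a =>
    rw [Polynomial.derivative_monomial, Polynomial.eval₂_monomial, Polynomial.eval₂_monomial,
      h.der.const_mul (h.con a), h.der.pow, h.ds, map_mul, map_natCast]
    ring

theorem trans (h : Xd κ D s z) (n : ℕ) :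
    ∀ p : Polynomial k, p.natDegree ≤ n → p.eval₂ κ s = 0 → p = 0 := by
  have c0 : ∀ p : Polynomial k, p.natDegree = 0 → p.eval₂ κ s = 0 → p = 0 := fun p a e => by
    rw [Polynomial.eq_C_of_natDegree_eq_zero a] at e ⊢
    rw [Polynomial.eval₂_C, _root_.map_eq_zero] at e
    rw [e, map_zero]
  induction n with
  | zero => exact fun p a e => c0 p (by omega) e
  | succ n ih =>
    intro p a e
    refine c0 p (Polynomial.derivative_eq_zero.1 (ih _ ?_ ?_)) e
    · have := Polynomial.natDegree_derivative_le p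
      omega
    · rw [← der_ev h, e, map_zero]

omit [CharZero k] in
theorem key {a b c r : Polynomial k} (ha : a ≠ 0) (hb : b = 0 ∨ b.natDegree < a.natDegree)
    (hc : c = 0 ∨ c.natDegree < a.natDegree) (hr : r = 0 ∨ r.natDegree < a.natDegree) :
    a + b + c - r ≠ 0 := by
  have z : ∀ q : Polynomial k, q = 0 ∨ q.natDegree < a.natDegree → q.coeff a.natDegree = 0 := by
    rintro q (rfl | h)
    · simp
    · exact Polynomial.coeff_eq_zero_of_natDegree_lt h
  intro e
  have := congrArg (fun q : Polynomial k => q.coeff a.natDegree) e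
  simp only [Polynomial.coeff_sub, Polynomial.coeff_add, z b hb, z c hc, z r hr, add_zero,
    sub_zero, Polynomial.coeff_zero] at this
  exact ha (Polynomial.leadingCoeff_eq_zero.1 this)

/-- The norm form. -/
noncomputable def nm (A0 A1 A2 : Polynomial k) : Polynomial k :=
  A0 ^ 3 + A1 ^ 3 * (Polynomial.X ^ 2 + 1) + A2 ^ 3 * (Polynomial.X ^ 2 + 1) ^ 2 -
    3 * A0 * A1 * A2 * (Polynomial.X ^ 2 + 1)

omit [CharZero k] in
theorem nm_zero {A0 A1 A2 : Polynomial k} (e : nm A0 A1 A2 = 0) : A0 = 0 ∧ A1 = 0 ∧ A2 = 0 := by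
  unfold nm at e
  have hq : (Polynomial.X ^ 2 + 1 : Polynomial k).natDegree = 2 := by
    simpa using Polynomial.natDegree_X_pow_add_C (R := k) (n := 2) (r := 1)
  generalize (Polynomial.X ^ 2 + 1 : Polynomial k) = Q at e hq
  have q0 : Q ≠ 0 := fun a => by simp [a] at hq
  have d0 : (A0 ^ 3).natDegree = 3 * A0.natDegree := Polynomial.natDegree_pow _ _
  have d1 : A1 ≠ 0 → (A1 ^ 3 * Q).natDegree = 3 * A1.natDegree + 2 := fun a => by
    rw [Polynomial.natDegree_mul (pow_ne_zero _ a) q0, Polynomial.natDegree_pow, hq]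
  have d2 : A2 ≠ 0 → (A2 ^ 3 * Q ^ 2).natDegree = 3 * A2.natDegree + 4 := fun a => by
    rw [Polynomial.natDegree_mul (pow_ne_zero _ a) (pow_ne_zero _ q0), Polynomial.natDegree_pow,
      Polynomial.natDegree_pow, hq]
  have d3 : (3 * A0 * A1 * A2 * Q).natDegree ≤ A0.natDegree + A1.natDegree + A2.natDegree + 2 := by
    have a1 := Polynomial.natDegree_mul_le (p := 3 * A0 * A1 * A2) (q := Q)
    have a2 := Polynomial.natDegree_mul_le (p := 3 * A0 * A1) (q := A2)
    have a3 := Polynomial.natDegree_mul_le (p := 3 * A0) (q := A1)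
    have a4 := Polynomial.natDegree_mul_le (p := (3 : Polynomial k)) (q := A0)
    have a5 : (3 : Polynomial k).natDegree = 0 := Polynomial.natDegree_ofNat 3
    omega
  have n0 : A0 ≠ 0 → A0 ^ 3 ≠ 0 := pow_ne_zero _
  have n1 : A1 ≠ 0 → A1 ^ 3 * Q ≠ 0 := fun a => mul_ne_zero (pow_ne_zero _ a) q0
  have n2 : A2 ≠ 0 → A2 ^ 3 * Q ^ 2 ≠ 0 := fun a =>
    mul_ne_zero (pow_ne_zero _ a) (pow_ne_zero _ q0)
  have z0 : A0 = 0 → A0 ^ 3 = 0 ∧ 3 * A0 * A1 * A2 * Q = 0 := fun a => by simp [a]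
  have z1 : A1 = 0 → A1 ^ 3 * Q = 0 ∧ 3 * A0 * A1 * A2 * Q = 0 := fun a => by simp [a]
  have z2 : A2 = 0 → A2 ^ 3 * Q ^ 2 = 0 ∧ 3 * A0 * A1 * A2 * Q = 0 := fun a => by simp [a]
  generalize A0 ^ 3 = a at *
  generalize A1 ^ 3 * Q = b at *
  generalize A2 ^ 3 * Q ^ 2 = c at *
  generalize 3 * A0 * A1 * A2 * Q = r at *
  have e1 : b + a + c - r = 0 := by rw [← e]; ring
  have e2 : c + a + b - r = 0 := by rw [← e]; ring
  by_cases h0 : A0 = 0 <;> by_cases h1 : A1 = 0 <;> by_cases h2 : A2 = 0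
  · exact ⟨h0, h1, h2⟩
  all_goals exfalso
  · exact key (n2 h2) (.inl (z0 h0).1) (.inl (z1 h1).1) (.inl (z0 h0).2) e2
  · exact key (n1 h1) (.inl (z0 h0).1) (.inl (z2 h2).1) (.inl (z0 h0).2) e1
  · have := d1 h1
    have := d2 h2
    rcases lt_or_ge b.natDegree c.natDegree with g | g
    · exact key (n2 h2) (.inl (z0 h0).1) (.inr g) (.inl (z0 h0).2) e2
    · exact key (n1 h1) (.inl (z0 h0).1) (.inr (by omega)) (.inl (z0 h0).2) e1
  · exact key (n0 h0) (.inl (z1 h1).1) (.inl (z2 h2).1) (.inl (z1 h1).2) e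
  · have := d2 h2
    rcases lt_or_ge a.natDegree c.natDegree with g | g
    · exact key (n2 h2) (.inr g) (.inl (z1 h1).1) (.inl (z1 h1).2) e2
    · exact key (n0 h0) (.inl (z1 h1).1) (.inr (by omega)) (.inl (z1 h1).2) e
  · have := d1 h1
    rcases lt_or_ge a.natDegree b.natDegree with g | g
    · exact key (n1 h1) (.inr g) (.inl (z2 h2).1) (.inl (z2 h2).2) e1
    · exact key (n0 h0) (.inr (by omega)) (.inl (z2 h2).1) (.inl (z2 h2).2) e
  · have := d1 h1
    have := d2 h2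
    by_cases g : b.natDegree < a.natDegree ∧ c.natDegree < a.natDegree
    · exact key (n0 h0) (.inr g.1) (.inr g.2) (.inr (by omega)) e
    · rcases lt_or_ge b.natDegree c.natDegree with g' | g'
      · exact key (n2 h2) (.inr (by omega)) (.inr g') (.inr (by omega)) e2
      · exact key (n1 h1) (.inr (by omega)) (.inr (by omega)) (.inr (by omega)) e1

omit [CharZero k] in
theorem nm_ev (h : Xd κ D s z) (A0 A1 A2 : Polynomial k) :
    Polynomial.eval₂RingHom κ s (nm A0 A1 A2) =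
      (A0.eval₂ κ s + A1.eval₂ κ s * z + A2.eval₂ κ s * z ^ 2) *
        ((A0.eval₂ κ s ^ 2 - A1.eval₂ κ s * A2.eval₂ κ s * (s ^ 2 + 1)) +
          (A2.eval₂ κ s ^ 2 * (s ^ 2 + 1) - A0.eval₂ κ s * A1.eval₂ κ s) * z +
          (A1.eval₂ κ s ^ 2 - A0.eval₂ κ s * A2.eval₂ κ s) * z ^ 2) := by
  have c : s ^ 2 + 1 = z ^ 3 := by rw [h.cub]; ring
  simp only [nm, map_add, map_sub, map_mul, map_pow, map_one, map_ofNat,
    Polynomial.coe_eval₂RingHom, Polynomial.eval₂_X, c]
  ring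

theorem ind (h : Xd κ D s z) {A0 A1 A2 : Polynomial k}
    (e : A0.eval₂ κ s + A1.eval₂ κ s * z + A2.eval₂ κ s * z ^ 2 = 0) :
    A0 = 0 ∧ A1 = 0 ∧ A2 = 0 := by
  refine nm_zero (trans h _ _ le_rfl ?_)
  have := nm_ev h A0 A1 A2
  rwa [e, zero_mul] at this

/-- The elements that have the normal form. -/
def Nf (κ : k →+* L) (s z u : L) : Prop := ∃ B A0 A1 A2 : Polynomial k, B ≠ 0 ∧
  Polynomial.eval₂RingHom κ s B * u = Polynomial.eval₂RingHom κ s A0 +
    Polynomial.eval₂RingHom κ s A1 * z + Polynomial.eval₂RingHom κ s A2 * z ^ 2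

theorem all (h : Xd κ D s z) (u : L) : Nf κ s z u := by
  have hu : u ∈ gf κ s z := by rw [h.gb]; trivial
  have c : s ^ 2 + 1 = z ^ 3 := by rw [h.cub]; ring
  have eX : Polynomial.eval₂RingHom κ s Polynomial.X = s := Polynomial.eval₂_X _ _
  induction hu using Subfield.closure_induction with
  | mem x hx =>
    rcases hx with ⟨a, rfl⟩ | rfl | rfl
    · exact ⟨1, Polynomial.C a, 0, 0, one_ne_zero, by simp⟩
    · exact ⟨1, Polynomial.X, 0, 0, one_ne_zero, by simp⟩
    · exact ⟨1, 0, 1, 0, one_ne_zero, by simp⟩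
  | one => exact ⟨1, 1, 0, 0, one_ne_zero, by simp⟩
  | add x y _ _ hx hy =>
    obtain ⟨B, A0, A1, A2, b, e⟩ := hx
    obtain ⟨B', A0', A1', A2', b', e'⟩ := hy
    refine ⟨B * B', A0 * B' + A0' * B, A1 * B' + A1' * B, A2 * B' + A2' * B, mul_ne_zero b b', ?_⟩
    simp only [map_add, map_mul]
    linear_combination Polynomial.eval₂RingHom κ s B' * e + Polynomial.eval₂RingHom κ s B * e'
  | neg x _ hx =>
    obtain ⟨B, A0, A1, A2, b, e⟩ := hx
    refine ⟨B, -A0, -A1, -A2, b, ?_⟩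
    simp only [map_neg]
    linear_combination -e
  | inv x _ hx =>
    obtain ⟨B, A0, A1, A2, b, e⟩ := hx
    rcases eq_or_ne x 0 with rfl | x0
    · exact ⟨1, 0, 0, 0, one_ne_zero, by simp⟩
    have n := nm_ev h A0 A1 A2
    simp only [← Polynomial.coe_eval₂RingHom] at n
    rw [← e] at n
    refine ⟨nm A0 A1 A2, B * (A0 ^ 2 - A1 * A2 * (Polynomial.X ^ 2 + 1)),
      B * (A2 ^ 2 * (Polynomial.X ^ 2 + 1) - A0 * A1), B * (A1 ^ 2 - A0 * A2), fun a => ?_, ?_⟩
    · obtain ⟨rfl, rfl, rfl⟩ := nm_zero a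
      simp only [map_zero, zero_mul, add_zero, mul_eq_zero] at e
      exact b (trans h _ _ le_rfl (e.resolve_right x0))
    · simp only [map_add, map_sub, map_mul, map_pow, map_one, eX]
      rw [n]
      field_simp
  | mul x y _ _ hx hy =>
    obtain ⟨B, A0, A1, A2, b, e⟩ := hx
    obtain ⟨B', A0', A1', A2', b', e'⟩ := hy
    refine ⟨B * B', A0 * A0' + (Polynomial.X ^ 2 + 1) * (A1 * A2' + A2 * A1'),
      A0 * A1' + A1 * A0' + (Polynomial.X ^ 2 + 1) * (A2 * A2'), A0 * A2' + A1 * A1' + A2 * A0',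
      mul_ne_zero b b', ?_⟩
    simp only [map_add, map_mul, map_pow, map_one, eX, c]
    rw [mul_mul_mul_comm, e, e']
    ring

end Lst

theorem lstS : LstStmt := fun _ _ _ _ _ _ _ _ _ h =>
  ⟨fun _ _ _ e => Lst.ind h e, fun u => Lst.all h u⟩

end Pool.Agent.MP_05b4bd_ag.XO
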