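import Pool.Agent.MP_05b4bd_ag.ex.Bas

/-! From minimal primes to the components through `df`, with the exceptional case. -/

namespace Pool.Agent.MP_05b4bd_ag.XO

open MvPolynomial HC
open ES.U (TM Cr hom)
open PC3 (Fm fm d1 DF mapF)

theorem mainX (h : MinxStmt) (hW : UM.MemStmt) (hne : UM.SepStmt) (m1 : RV.MemrStmt)
    (m2 : RV.IrrrStmt) (s1 : RV.Sep1Stmt) (s2 : RV.Sep2Stmt) (s3 : RV.Sep3Stmt) (ad : RV.AdmStmt)
    (sy : RV.SymdStmt) (x1 : MexStmt) (x2 : UnxStmt) (y1 : Sx1Stmt) (y2 : Sx2Stmt) (y3 : Sx3Stmt)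
    {d : ℕ} (hd : 3 ≤ d) {f : Poly} (t : TM d f) {Z : Set Form}
    (hZ : dform f ∈ Z) : IsComponent (M d) Z ↔ ∃ W ∈ Wx d f, Z = zcl W := by
  have key : ∀ Y, Y ⊆ M d ∧ Irred Y → dform f ∈ Y → ∃ W ∈ Wx d f, Y ⊆ zcl W := fun Y hY hm => by
    obtain ⟨q, hq, k1⟩ := ES.Top.exists_min hY.1 hY.2
    exact (h d f hd t q hq fun R hR => k1 R hR _ hm).imp
      fun W k => ⟨k.1, fun ω hω => mem_zcl.2 fun R hR => k1 R (k.2 R hR) ω hω⟩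
  have cs : ∀ W ∈ Wx d f, W ∈ UM.Wl d ∨ (∃ a b, 1 ≤ a ∧ 1 ≤ b ∧ a.Coprime b ∧
      RV.Adm d (a + b) ∧ W = RR d a b) ∨ d = 3 ∧ ∃ b, (b = 1 ∨ b = 3) ∧ W = EX b := by
    rintro W ((k | ⟨a, b, ha, hb, cp, r, e⟩) | ⟨d3, -, e | e⟩)
    exacts [.inl k, .inr (.inl ⟨a, b, ha, hb, cp, (ad ℂ d f hd t).1 _ (by omega)
      (((sy d f hd t).1 _ (by omega)).2 r), e⟩), .inr (.inr ⟨d3, 1, .inl rfl, e⟩),
      .inr (.inr ⟨d3, 3, .inr rfl, e⟩)]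
  have one : ∀ a b, 1 ≤ a → 1 ≤ b → RV.Adm 3 (a + b) → a = 1 ∧ b = 1 := by
    rintro a b ha hb ⟨-, k | ⟨k, -⟩⟩ <;> have := Nat.le_of_dvd (by norm_num) k <;> omega
  have p : ∀ W ∈ Wx d f, zcl W ⊆ M d ∧ Irred (zcl W) := fun W hw => by
    rcases cs W hw with k | ⟨a, b, ha, hb, -, -, rfl⟩ | ⟨rfl, b, hb, rfl⟩
    · exact ⟨zcl_subset (hW d hd W k).1, (hW d hd W k).2.zcl⟩
    · exact ⟨zcl_subset (m1 d a b hd ha hb), (m2 d a b).zcl⟩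
    · exact ⟨zcl_subset (x1 b hb), (x2 b).2.2.2.2.1.zcl⟩
  have sp : ∀ W ∈ Wx d f, ∀ W' ∈ Wx d f, W ⊆ zcl W' → W = W' := fun W hw W' hw' hs => by
    rcases cs W hw with k | ⟨a, b, ha, hb, cp, r, rfl⟩ | ⟨d3, b, hb, rfl⟩ <;>
      rcases cs W' hw' with k' | ⟨a', b', ha', hb', cp', r', rfl⟩ | ⟨d3', b', hb', rfl⟩
    · exact hne d hd W k W' k' hs
    · obtain ⟨⟨n1, n2, n3, n4⟩, -⟩ := s2 d a' b' hd ha' hb'
      rcases k with rfl | rfl | rfl | rfl | ⟨n, h1, -, rfl⟩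
      exacts [(n1 hs).elim, (n2 hs).elim, (n3 hs).elim, (n4 hs).elim,
        (s3 d a' b' n hd ha' hb' h1 hs).elim]
    · subst d3'
      exact ((y1 b' hb').1 W k hs).elim
    · exact (s1 d a b hd r W' k' hs).elim
    · have e := (s2 d a' b' hd ha' hb').2 a b ha hb hs
      have e1 : a = a' := Nat.dvd_antisymm (cp.dvd_of_dvd_mul_right ⟨b', by rw [e]⟩)
        (cp'.dvd_of_dvd_mul_right ⟨b, e.symm ▸ rfl⟩)
      subst e1
      rw [Nat.eq_of_mul_eq_mul_left ha e]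
    · subst d3'
      obtain ⟨rfl, rfl⟩ := one a b ha hb r
      exact ((y1 b' hb').2.1 hs).elim
    · subst d3
      exact (y2 b hb W' k' hs).elim
    · subst d3
      obtain ⟨rfl, rfl⟩ := one a' b' ha' hb' r'
      exact (y3 b hb hs).elim
    · rcases hb with rfl | rfl <;> rcases hb' with rfl | rfl
      exacts [rfl, ((y1 3 (.inr rfl)).2.2 hs).elim, ((y1 1 (.inl rfl)).2.2 hs).elim, rfl]
  constructor
  · intro hY
    exact (key Z hY.1 hZ).imp fun W k => ⟨k.1, k.2.antisymm (hY.2 (p W k.1) k.2)⟩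
  · rintro ⟨W, k, rfl⟩
    refine ⟨p W k, fun Y hY hle => ?_⟩
    obtain ⟨W', k', hs⟩ := key Y hY (hle hZ)
    rwa [sp W k W' k' (((subset_zcl _).trans hle).trans hs)]

end Pool.Agent.MP_05b4bd_ag.XO
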