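import Pool.Agent.MP_05b4bd_ag.ex.Bas
import Pool.Agent.MP_05b4bd_ag.rr.Memr

/-! The exceptional family lies in the centre variety. -/

namespace Pool.Agent.MP_05b4bd_ag.XO

open MvPolynomial HC Topology
open PC3 (Fm fm d1 DF sub2 pb mapF H2 Van)

namespace Mex

theorem pc_gE (b : ℕ) {c m u v : ℂ → Poly} (hc : PC c) (hm : PC m) (hu : PC u) (hv : PC v) :
    PC fun τ => gE b (c τ) (m τ) (u τ) (v τ) :=
  (((hu.pow 3).add (hu.mul (hv.pow 2))).add (((PC.const 2).mul hc).mul hv)).sub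
    (((hc.pow 2).mul hm).mul (PC.sum _ fun i _ => ((PC.const 1).add (hm.mul hu)).pow i))

theorem pf_ex (b : ℕ) {c m μ : ℂ → ℂ} {u v : ℂ → Poly} (hc : PS c) (hm : PS m) (hμ : PS μ)
    (hu : PC u) (hv : PC v) : PF fun τ => exF b (c τ) (m τ) (μ τ) (u τ) (v τ) := by
  have hl : PC fun τ => 1 + C (m τ) * u τ := (PC.const 1).add (hm.toC.mul hu)
  have hG := pc_gE b hc.toC hm.toC hu hv
  exact ((RV.Memr.pf_fm ((PC.const 4).mul hl) hG).sub
    (RV.Memr.pf_fm ((PC.const (3 * (b : Poly))).mul hG) hl)).add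
    (PF.psmul (hμ.toC.mul ((hu.mul hv).add hc.toC))
      ((RV.Memr.pf_fm ((PC.const 4).mul hl) hu).sub
        (RV.Memr.pf_fm ((PC.const (b : Poly)).mul hu) hl)))

noncomputable def bP : Poly := C 8 * (1 + X 0) * X 0 * X 1
noncomputable def bQ (b : ℕ) : Poly :=
  -(C 12 * X 0 ^ 2 + C 4 * X 1 ^ 2 + C (12 - 3 * (b : ℂ)) * X 0 ^ 3 +
    C (4 - 3 * (b : ℂ)) * X 0 * X 1 ^ 2)

theorem base (b : ℕ) : exF b (0 : ℂ) 1 0 (X 0) (X 1) = (bP, bQ b) := by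
  have e8 : (C 8 : Poly) = 8 := map_ofNat C 8
  have e4 : (C 4 : Poly) = 4 := map_ofNat C 4
  have e3 : (C 3 : Poly) = 3 := map_ofNat C 3
  have e12 : (C 12 : Poly) = 12 := map_ofNat C 12
  simp only [exF, gE, fm, bP, bQ, map_sub, map_mul, map_natCast, e8, e4, e3, e12]
  refine Prod.ext ?_ ?_ <;> simp <;> ring

theorem base_fol {b : ℕ} (hb : b = 1 ∨ b = 3) (hV : ((bP, bQ b) : Form) ∈ V 3) :
    ((bP, bQ b) : Form) ∈ Fol 3 := by
  have n0 : (8 : ℂ) ≠ 0 := by norm_num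
  have c0 : (C 8 : Poly) ≠ 0 := by rwa [Ne, C_eq_zero]
  have l1 : (1 + X 0 : Poly).totalDegree ≠ 0 := fun h => by
    simpa using pderiv_eq_zero_of_dg h.le 0
  have l0 : (1 + X 0 : Poly) ≠ 0 := fun h => l1 (by rw [h, totalDegree_zero])
  constructor
  · refine (((n0.isUnit.map C).isRelPrime_left.mul_left ?_).mul_left ?_).mul_left ?_
    · refine RV.Memr.rel (dg_add (by simp) (dg_X 0)) l0 ![-1, 0] (by simp) ?_
      rcases hb with rfl | rfl <;> simp [bQ] <;> norm_num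
    · refine RV.Memr.rel (dg_X 0) (X_ne_zero 0) ![0, 1] (by simp) ?_
      simp [bQ]
    · refine RV.Memr.rel (dg_X 1) (X_ne_zero 1) ![1, 0] (by simp) ?_
      rcases hb with rfl | rfl <;> simp [bQ] <;> norm_num
  · refine le_antisymm (max_le hV.1 hV.2) (le_max_of_le_left ?_)
    change _ ≤ bP.totalDegree
    rw [bP, totalDegree_mul_of_isDomain (mul_ne_zero (mul_ne_zero c0 l0) (X_ne_zero 0))
      (X_ne_zero 1), totalDegree_mul_of_isDomain (mul_ne_zero c0 l0) (X_ne_zero 0),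
      totalDegree_mul_of_isDomain c0 l0, totalDegree_X, totalDegree_X]
    omega

end Mex

open Mex in
theorem mexS (h1 : CenxStmt) (h2 : UnxStmt) : MexStmt := by
  intro b hb ω hω
  obtain ⟨k1, -, -, k3, -⟩ := h2 b
  obtain ⟨c, m, μ, u, v, hu, hv, rfl⟩ := (k1 ω).1 hω
  have b3 : b ≤ 3 := by omega
  let U : ℂ → Poly := fun τ => X 0 + τ • (u - X 0)
  let W : ℂ → Poly := fun τ => X 1 + τ • (v - X 1)
  let cc : ℂ → ℂ := fun τ => 0 + τ * (c - 0)
  let mm : ℂ → ℂ := fun τ => 1 + τ * (m - 1)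
  let nn : ℂ → ℂ := fun τ => 0 + τ * (μ - 0)
  let γ : ℂ → Form := fun τ => exF b (cc τ) (mm τ) (nn τ) (U τ) (W τ)
  have hU : PC U := PC.line _ _
  have hW : PC W := PC.line _ _
  have hc : PS cc := PS.line _ _
  have hm : PS mm := PS.line _ _
  have hn : PS nn := PS.line _ _
  have hl : PC fun τ => 1 + C (mm τ) * U τ := (PC.const 1).add (hm.toC.mul hU)
  have hγ : PF γ := pf_ex b hc hm hn hU hW
  have hV : ∀ τ, γ τ ∈ V (2 + 1) := fun τ => by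
    have k := k3 ℂ (γ τ) b3 ⟨_, _, _, U τ, W τ,
      DL_iff.2 (dg_line (dg_X 0) (DL_iff.1 hu) τ), DL_iff.2 (dg_line (dg_X 1) (DL_iff.1 hv) τ),
      rfl⟩
    exact ⟨DL_iff.1 k.1, DL_iff.1 k.2⟩
  have U0 : U 0 = X 0 := by simp [U]
  have W0 : W 0 = X 1 := by simp [W]
  have c0' : cc 0 = 0 := by simp [cc]
  have m0 : mm 0 = 1 := by simp [mm]
  have n0 : nn 0 = 0 := by simp [nn]
  have g0 : γ 0 = (bP, bQ b) := by
    rw [← base]
    simp only [γ, U0, W0, c0', m0, n0]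
  have g1 : γ 1 = exF b c m μ u v := by
    simp [γ, U, W, cc, mm, nn]
  obtain ⟨x, hx, x0, x1⟩ : ∃ x : ℂ, (12 - 3 * (b : ℂ)) * x = -12 ∧ x ≠ 0 ∧ 1 + x ≠ 0 := by
    rcases hb with rfl | rfl
    · exact ⟨-4 / 3, by norm_num, by norm_num, by norm_num⟩
    · exact ⟨-4, by norm_num, by norm_num, by norm_num⟩
  have h0 : γ 0 ∈ Fol (2 + 1) := by
    have k := hV 0
    rw [g0] at k ⊢
    exact base_fol hb k
  have s1 : eval ![x, 0] (γ 0).1 = 0 := by simp [g0, bP]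
  have s2 : eval ![x, 0] (γ 0).2 = 0 := by
    simp only [g0, bQ, map_neg, map_add, map_mul, map_pow, eval_C, eval_X, Matrix.cons_val_zero,
      Matrix.cons_val_one]
    linear_combination (-x ^ 2) * hx
  have hj : eval ![x, 0] (jac (γ 0)) ≠ 0 := by
    have : eval ![x, 0] (jac (γ 0)) = -96 * (1 + x) * x ^ 2 := by
      simp [g0, jac, bP, bQ]
      linear_combination (-24 * (1 + x) * x ^ 2) * hx
    rw [this]
    exact mul_ne_zero (mul_ne_zero (by norm_num) x1) (pow_ne_zero _ x0)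
  obtain ⟨R, hR0, hR⟩ := exists_sep (2 + 1) (lamFol 2) (hV 0) (inj_of_fol h0)
  have a0 : ∀ᶠ y in 𝓝 ((0 : ℂ), ![x, 0]), eval y.2 (U y.1) ≠ 0 :=
    hU.contDiff.continuous.continuousAt.eventually_ne (by simpa [U0] using x0)
  have a1 : ∀ᶠ y in 𝓝 ((0 : ℂ), ![x, 0]), eval y.2 (1 + C (mm y.1) * U y.1) ≠ 0 :=
    hl.contDiff.continuous.continuousAt.eventually_ne (by simpa [U0, m0] using x1)
  have hs : PC fun τ => U τ * W τ + C (cc τ) := (hU.mul hW).add hc.toC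
  have a2 : ∀ᶠ y in 𝓝 ((0 : ℂ), ![x, 0]), eval y.2
      (3 * (U y.1 ^ 4 + (U y.1 * W y.1 + C (cc y.1)) ^ 2) +
        C (nn y.1) * (U y.1 * W y.1 + C (cc y.1)) * U y.1 ^ 2 +
        C (cc y.1) ^ 2 * (1 + C (mm y.1) * U y.1) ^ b) ≠ 0 :=
    ((((PC.const 3).mul ((hU.pow 4).add (hs.pow 2))).add ((hn.toC.mul hs).mul (hU.pow 2))).add
      ((hc.toC.pow 2).mul (hl.pow b))).contDiff.continuous.continuousAt.eventually_ne (by
        simp [U0, W0, c0', n0, x0])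
  have c2 : ∀ᶠ y in 𝓝 ((0 : ℂ), ![x, 0]), eval y.2 (jac (γ y.1)) ≠ 0 :=
    hγ.jac.contDiff.continuous.continuousAt.eventually_ne hj
  have c3 := eventually_sing hγ s1 s2 hj (a0.and (a1.and (a2.and c2)))
  have c5 := (hγ.ev R).continuous.continuousAt.eventually_ne hR0
  rw [← g1]
  refine hγ.mem_zcl (infinite_of_nhdsNE (mem_nhdsWithin_of_mem_nhds ?_)) 1
  filter_upwards [c3, c5] with t ⟨z, hz, e1, e2⟩ h5
  exact subset_zcl _ ⟨fol_of_inj (hV t) (hR _ (hV t) h5), z,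
    h1 b _ _ _ _ _ z hz.1 hz.2.1 hz.2.2.1 e1 e2 hz.2.2.2⟩

end Pool.Agent.MP_05b4bd_ag.XO
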