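import Pool.Agent.MP_05b4bd_ag.ex.Bas

/-! Row MOD: the form is a pull-back up to an explicit error. -/

namespace Pool.Agent.MP_05b4bd_ag.XO

open PowerSeries LaurentSeries HC
open ES hiding Gen Ob Inf
open RV (In)

namespace Mod

section Pure
variable {A Q : Type} [CommRing A] [CommRing Q]

/-- The congruences, in the quotient ring. -/
theorem core {s μ ν r q L L0 Li ψ g g' ε gt x Vx ki rd rd1 d d1 dd δ ht e3 e4 e5 w u Vu χ χi Vχ
    d2 cr : Q} (hL : L = q + r) (hL0 : L0 = L + ν * s ^ 2) (hLi : L0 * Li = 1)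
    (hχi : (1 + χ) * χi = 1) (hw : 3 * w = 1)
    (hg : g' = ε * gt + g - ν * s ^ 2 * ψ) (hd1 : d1 = d + ν * δ * rd + μ * ε * ht)
    (hdd : dd = (1 + x) ^ 3 * d1 + 4 * w * μ * (3 * (1 + x) ^ 3 * ψ - ((1 + x) ^ 3 - 1)) +
      8 * w * ν * s * ((1 + x) ^ 3 - 1))
    (hn : L * (3 * (1 + x) ^ 3 * ψ - ((1 + x) ^ 3 - 1)) =
      3 * g' + 6 * r * ψ ^ 2 + e3 * ψ ^ 3 + e4 * ψ * g' + e5 * g' ^ 2)
    (hr : r * ψ ^ 2 = ε * cr) (hrd : rd1 = rd + 4 * Vx * ki)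
    (h8 : 8 * s - (q + r * (1 + x) ^ 4) * rd1 + dd = 0) (hχ : χ = μ * ε * u * Li)
    (hVχ : Vχ = μ * ε * (Vu * Li - u * (6 * s + μ + r * rd) * Li ^ 2))
    (hd2 : d2 = dd + r * (1 + x) ^ 4 * χ * rd1 + (q + r * (1 + x) ^ 4 * (1 + χ)) * Vχ * χi)
    (z1 : μ * ε * ψ = 0) (z2 : μ * ε * ε = 0) (z3 : ν * ε = 0) (z4 : ν * ψ = 0)
    (z5 : d * (μ * ε) = 0) (z6 : μ * ψ ^ 3 = 0) (z7 : μ * g * ψ = 0) (z8 : μ * g * g' = 0)
    (z9 : ν * g * g' = 0) (z10 : μ * ε * g' = 0) (z11 : μ * ε * x = 0) (z12 : μ * ε * Vx = 0)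
    (z13 : ν * δ * x = 0) (z14 : ν * δ * Vx = 0) (z15 : ν * δ * d = 0) (z16 : ν * δ * μ = 0)
    (z17 : ν * δ * ν = 0) (z18 : d * x = 0) :
    L * (d2 - d) - 8 * s * ν * δ - 4 * (μ - 2 * ν * s) * g =
      μ * ε * (L0 * ht + 4 * (gt + 2 * cr) + L0 * Vu - u * (6 * s + μ)) ∧
    μ * ε * (8 * s - L0 * rd) = 0 := by
  have x1 : x * d1 = 0 := by rw [hd1]; linear_combination z18 + rd * z13 + ht * z11
  have b1 : (1 + x) ^ 3 * d1 = d1 := by linear_combination (3 + 3 * x + x ^ 2) * x1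
  have m1 : μ * g' = μ * ε * gt + μ * g := by rw [hg]; linear_combination (-μ * s ^ 2) * z4
  have m2 : μ * ψ * g' = 0 := by linear_combination ψ * m1 + gt * z1 + z7
  have m3 : μ * g' ^ 2 = 0 := by linear_combination g' * m1 + gt * z10 + z8
  have b2 : μ * (L * (3 * (1 + x) ^ 3 * ψ - ((1 + x) ^ 3 - 1))) =
      3 * (μ * g) + 3 * (μ * ε * (gt + 2 * cr)) := by
    rw [hn]; linear_combination 3 * m1 + 6 * μ * hr + e3 * z6 + e4 * m2 + e5 * m3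
  have n1 : ν * g' = ν * g := by rw [hg]; linear_combination gt * z3 - ν * s ^ 2 * z4
  have b3 : ν * (L * ((1 + x) ^ 3 - 1)) = -3 * (ν * g) := by
    linear_combination -ν * hn + (3 * L * (1 + x) ^ 3 - 6 * r * ψ - e3 * ψ ^ 2 - e4 * g') * z4 -
      (3 + e5 * g') * n1 - e5 * z9
  have b4 : L * dd = L * d1 + 4 * (μ * g) + 4 * (μ * ε * (gt + 2 * cr)) - 8 * s * (ν * g) := by
    rw [hdd]
    linear_combination L * b1 + 4 * w * b2 + 8 * w * s * b3 +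
      (4 * (μ * g) + 4 * (μ * ε * (gt + 2 * cr)) - 8 * s * (ν * g)) * hw
  have e1 : μ * ε * d1 = 0 := by rw [hd1]; linear_combination z5 + μ * δ * rd * z3 + μ * ht * z2
  have b5 : μ * ε * dd = 0 := by
    rw [hdd]
    linear_combination (1 + x) ^ 3 * e1 + 12 * w * μ * (1 + x) ^ 3 * z1 +
      (8 * w * ν * s - 4 * w * μ) * (3 + 3 * x + x ^ 2) * z11
  have r1 : μ * ε * rd1 = μ * ε * rd := by rw [hrd]; linear_combination 4 * ki * z12
  have l1 : μ * ε * L = μ * ε * L0 := by rw [hL0]; linear_combination (-μ * s ^ 2) * z3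
  have q1 : μ * ε * (q + r * (1 + x) ^ 4) = μ * ε * L0 := by
    rw [← l1, hL]; linear_combination r * (4 + 6 * x + 4 * x ^ 2 + x ^ 3) * z11
  have b6 : μ * ε * (8 * s - L0 * rd) = 0 := by
    linear_combination μ * ε * h8 - b5 + rd1 * q1 + L0 * r1
  have f1 : ν * δ * d1 = 0 := by rw [hd1]; linear_combination z15 + δ * rd * z17 + ε * ht * z16
  have f2 : ν * δ * dd = 0 := by
    rw [hdd]
    linear_combination (1 + x) ^ 3 * f1 + 4 * w * (3 * (1 + x) ^ 3 * ψ - ((1 + x) ^ 3 - 1)) * z16 +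
      8 * w * s * ((1 + x) ^ 3 - 1) * z17
  have f3 : ν * δ * rd1 = ν * δ * rd := by rw [hrd]; linear_combination 4 * ki * z14
  have b7 : ν * δ * (L * rd) = 8 * s * (ν * δ) := by
    rw [hL]
    linear_combination -(ν * δ) * h8 + f2 - (q + r) * f3 -
      r * rd1 * (4 + 6 * x + 4 * x ^ 2 + x ^ 3) * z13
  have c1 : μ * ε * χ = 0 := by rw [hχ]; linear_combination μ * u * Li * z2
  have c2 : μ * ε * χi = μ * ε := by linear_combination μ * ε * hχi - χi * c1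
  have c3 : r * (1 + x) ^ 4 * χ * rd1 = μ * ε * (u * Li * r * rd) := by
    rw [hχ]
    linear_combination r * u * Li * r1 +
      r * u * Li * rd1 * (4 + 6 * x + 4 * x ^ 2 + x ^ 3) * z11
  have c4 : μ * ε * (q + r * (1 + x) ^ 4 * (1 + χ)) = μ * ε * L0 := by
    linear_combination q1 + r * (1 + x) ^ 4 * c1
  have c5 : (q + r * (1 + x) ^ 4 * (1 + χ)) * Vχ * χi =
      μ * ε * (Vu - u * (6 * s + μ + r * rd) * Li) := by
    rw [hVχ]
    linear_combination (Vu * Li - u * (6 * s + μ + r * rd) * Li ^ 2) * (χi * c4 + L0 * c2) +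
      μ * ε * (Vu - u * (6 * s + μ + r * rd) * Li) * hLi
  refine ⟨?_, b6⟩
  rw [hd2, c3, c5]
  linear_combination b4 + L * hd1 + b7 + (ht + Vu - u * (6 * s + μ) * Li) * l1 -
    μ * ε * u * (6 * s + μ) * hLi

/-- The second order term is the remainder `W`. -/
theorem rem {s μ c n p z zi el eli a b L0 Sp Sz Vp Vz rd ht u Vu gt cr At Bt N Np Nz J op oz : A}
    (hz : z * zi = 1) (he : el * eli = 1) (hS : Sp * Vp + Sz * Vz = 1)
    (hrd : z * el * rd = a * el * Vz + b * z * (Vz + 52 * n * Vp))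
    (hht : z * el * ht = Bt * z * Vp - (At + p * Bt) * Vz) (hu : u = N * eli)
    (hVu : Vu = (Np * Vp + Nz * Vz) * eli - N * (eli ^ 2 * (Vz + 52 * n * Vp)))
    (hJ : J = Sp * (a * el + b * z) - Sz * (b * z * (52 * n)))
    (hop : op = 8 * s * el * Sp - L0 * (b * (52 * n)))
    (hoz : oz = 8 * s * z * el * Sz - L0 * (a * el + b * z)) :
    ∃ κ, el ^ 2 * J * (L0 * ht + 4 * (gt + 2 * (c * cr)) + L0 * Vu - u * (6 * s + μ)) =
      -((el * Np - N * (52 * n)) * oz - (el * Nz - N) * z * op +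
        el * (N * (6 * s + μ) - 4 * el * (gt + 2 * c * cr)) * J +
        el * (Bt * oz + (At + p * Bt) * op)) + (8 * s - L0 * rd) * κ := by
  have k0 : op * z * Vp + oz * Vz = z * el * (8 * s - L0 * rd) := by
    rw [hop, hoz]; linear_combination 8 * s * z * el * hS + L0 * hrd
  have k1 : oz * Sp - z * op * Sz = -(L0 * J) := by rw [hop, hoz, hJ]; ring
  have kp : L0 * J * Vp = -oz + Sz * (z * el * (8 * s - L0 * rd)) := by
    linear_combination Vp * k1 - oz * hS + Sz * k0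
  have kz : L0 * J * Vz = z * op - Sp * (z * el * (8 * s - L0 * rd)) := by
    linear_combination Vz * k1 + z * op * hS - Sp * k0
  have h1 : el * ht = Bt * Vp - zi * (At + p * Bt) * Vz := by
    linear_combination zi * hht + (Bt * Vp - el * ht) * hz
  have h2 : el ^ 2 * Vu = (el * Np - N * (52 * n)) * Vp + (el * Nz - N) * Vz := by
    rw [hVu]
    linear_combination (el * (Np * Vp + Nz * Vz) - N * (Vz + 52 * n * Vp) * (1 + el * eli)) * he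
  have h3 : el * u = N := by rw [hu]; linear_combination N * he
  refine ⟨z * el * ((el * Bt + (el * Np - N * (52 * n))) * Sz -
    ((el * Nz - N) - el * zi * (At + p * Bt)) * Sp), ?_⟩
  linear_combination el * J * L0 * h1 + J * L0 * h2 - el * J * (6 * s + μ) * h3 +
    (el * Bt + (el * Np - N * (52 * n))) * kp + ((el * Nz - N) - el * zi * (At + p * Bt)) * kz -
    el * (At + p * Bt) * op * hz

/-- The equation of the form divided by `z * el`. -/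
theorem stepA {s μ ν m n p z zi el eli a b Sp Sz Vp Vz rd ht ψ ε At Bt G VG P Q d : A}
    (hz : z * zi = 1) (he : el * eli = 1) (hel : el = z + m + 52 * n * p) (ha : a = 4 - b)
    (hS : Sp * Vp + Sz * Vz = 1)
    (hrd : z * el * rd = a * el * Vz + b * z * (Vz + 52 * n * Vp))
    (hht : z * el * ht = Bt * z * Vp - (At + p * Bt) * Vz)
    (iP : P = s * (4 * el - b * m) - 4 * el * ψ * (p * Sp + z * Sz) + ε * At)
    (iQ : Q = 4 * el * ψ * Sp - b * (52 * n) * s + ε * Bt)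
    (H : 4 * z * el * VG - 3 * G * (a * el * Vz + b * z * (Vz + 52 * n * Vp)) +
      μ * (Q * z * Vp - (P + p * Q) * Vz) +
      ν * p ^ 2 * (a * el * Vz + b * z * (Vz + 52 * n * Vp)) + z * el * d = 0) :
    4 * VG - 3 * G * rd + μ * (4 * ψ - s * rd + ε * ht) + ν * p ^ 2 * rd + d = 0 := by
  have k : Q * z * Vp - (P + p * Q) * Vz = z * el * (4 * ψ - s * rd + ε * ht) := by
    have hm : m = el - z - 52 * n * p := by rw [hel]; ring
    rw [iP, iQ, hm]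
    linear_combination 4 * el * z * ψ * hS + s * hrd - ε * hht + s * el * Vz * ha
  have k2 : z * el * (4 * VG - 3 * G * rd + μ * (4 * ψ - s * rd + ε * ht) + ν * p ^ 2 * rd + d) =
      0 := by
    linear_combination H - μ * k + (ν * p ^ 2 - 3 * G) * hrd
  have k3 : zi * eli * (z * el) = 1 := by linear_combination el * eli * hz + he
  linear_combination zi * eli * k2 -
    (4 * VG - 3 * G * rd + μ * (4 * ψ - s * rd + ε * ht) + ν * p ^ 2 * rd + d) * k3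

/-- The equation of the corrected first integral. -/
theorem stepB {s μ ν r q ψ x Vx ki rd d1 w B VB : A} (hki : (1 + x) * ki = 1) (hw : 3 * w = 1)
    (hA : 4 * VB - 3 * B * rd - 4 * (μ - 2 * ν * s) + 12 * μ * ψ + 3 * d1 = 0)
    (hk : (1 + x) ^ 3 * B + 3 * r * (1 + x) ^ 4 = q)
    (hV : 3 * (1 + x) ^ 2 * Vx * B + (1 + x) ^ 3 * VB + 3 * (r * rd) * (1 + x) ^ 4 +
      12 * r * (1 + x) ^ 3 * Vx = 6 * s + μ - 2 * ν * s) :
    8 * s - (q + r * (1 + x) ^ 4) * (rd + 4 * Vx * ki) +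
      ((1 + x) ^ 3 * d1 + 4 * w * μ * (3 * (1 + x) ^ 3 * ψ - ((1 + x) ^ 3 - 1)) +
        8 * w * ν * s * ((1 + x) ^ 3 - 1)) = 0 := by
  generalize 1 + x = k at *
  have h1 : 3 * (q + r * k ^ 4) * (k * rd + 4 * Vx) =
      4 * k * (6 * s + μ - 2 * ν * s) - k ^ 4 * (4 * (μ - 2 * ν * s) - 12 * μ * ψ - 3 * d1) := by
    linear_combination 4 * k * hV - k ^ 4 * hA - (12 * Vx + 3 * k * rd) * hk
  have h2 : 3 * (q + r * k ^ 4) * (rd + 4 * Vx * ki) =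
      4 * (6 * s + μ - 2 * ν * s) - k ^ 3 * (4 * (μ - 2 * ν * s) - 12 * μ * ψ - 3 * d1) := by
    linear_combination ki * h1 + (4 * (6 * s + μ - 2 * ν * s) -
      k ^ 3 * (4 * (μ - 2 * ν * s) - 12 * μ * ψ - 3 * d1) - 3 * (q + r * k ^ 4) * rd) * hki
  linear_combination -w * h2 -
    (8 * s - (q + r * k ^ 4) * (rd + 4 * Vx * ki) + k ^ 3 * d1) * hw

theorem zz {t a b e : A} {j : ℕ} (ha : t ^ j ∣ a) (hb : t ∣ b) (c : A) (h : e = a * b * c) :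
    t ^ (j + 1) ∣ e := by
  rw [h, pow_succ]
  exact (mul_dvd_mul ha hb).mul_right c

/-- The whole computation in a ring with a derivation. -/
theorem main {V : A →+ A} (hV : IsDer V) {t : A} (hVt : V t = 0) {j : ℕ} (hj : 1 ≤ j)
    {s μ ν c m n p z zi el eli a b ρ Li w Sp Sz ψ1 gt At Bt N Np Nz G P Q g d x e1 e2 e3 e4 e5 J
      op oz : A} (hu : ∀ y, t ∣ y → ∃ yi, (1 + y) * yi = 1)
    (hc : V c = 0) (hμ : V μ = 0) (hm : V m = 0) (hn : V n = 0) (hν : V ν = 0) (hs : V s = 1)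
    (hz : z * zi = 1) (he : el * eli = 1) (hw : 3 * w = 1)
    (hLi : (3 * (1 + s ^ 2) + μ * s + c ^ 2 * ρ) * Li = 1)
    (hel : el = z + m + 52 * n * p) (ha : a = 4 - b)
    (hρ : z * el * V ρ = ρ * (a * el * V z + b * z * V el))
    (hS : Sp * V p + Sz * V z = 1) (hN : V N = Np * V p + Nz * V z)
    (iG : G = 1 + s ^ 2 - c ^ 2 * ρ - (3 * (1 + s ^ 2) + μ * s + c ^ 2 * ρ) * (c ^ 2 * n ^ 3 * ψ1) +
      c ^ 3 * n ^ 6 * gt)
    (iP : P = s * (4 * el - b * m) - 4 * el * (c ^ 2 * n ^ 3 * ψ1) * (p * Sp + z * Sz) +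
      c ^ 3 * n ^ 6 * At)
    (iQ : Q = 4 * el * (c ^ 2 * n ^ 3 * ψ1) * Sp - b * (52 * n) * s + c ^ 3 * n ^ 6 * Bt)
    (H : 4 * z * el * V (G + g) - 3 * (G + g) * (a * el * V z + b * z * V el) +
      μ * (Q * z * V p - (P + p * Q) * V z) +
      ν * p ^ 2 * (a * el * V z + b * z * V el) + z * el * d = 0)
    (hJ : J = Sp * (a * el + b * z) - Sz * (b * z * (52 * n)))
    (hop : op = 8 * s * el * Sp - (3 * (1 + s ^ 2) + μ * s + c ^ 2 * ρ) * (b * (52 * n)))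
    (hoz : oz = 8 * s * z * el * Sz - (3 * (1 + s ^ 2) + μ * s + c ^ 2 * ρ) * (a * el + b * z))
    (t1 : t ∣ c * n) (t2 : t ∣ μ) (t3 : t ∣ ν) (t4 : t ∣ g) (j1 : t ^ j ∣ d) (j2 : t ^ j ∣ μ * g)
    (j3 : t ^ j ∣ ν * g) (j4 : t ^ j ∣ ν * c) (j5 : t ^ j ∣ μ * c ^ 3 * n ^ 7)
    (j6 : t ^ j ∣ ν * (p ^ 2 - s ^ 2)) {q r ψ g' : A}
    (hq : q = 3 * (1 + s ^ 2) + μ * s - ν * s ^ 2) (hr : r = c ^ 2 * ρ)
    (hψ : ψ = c ^ 2 * n ^ 3 * ψ1) (hg : g' = c ^ 3 * n ^ 6 * gt + g - ν * s ^ 2 * ψ)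
    (hk : (1 + x) ^ 3 * (q - 3 * r + 3 * (g' - (q + r) * ψ)) + 3 * r * (1 + x) ^ 4 = q)
    (hx : x = e1 * ψ + e2 * g')
    (hnr : (q + r) * (3 * (1 + x) ^ 3 * ψ - ((1 + x) ^ 3 - 1)) =
      3 * g' + 6 * r * ψ ^ 2 + e3 * ψ ^ 3 + e4 * ψ * g' + e5 * g' ^ 2) {ρ2 : A}
    (hρ2 : ρ2 = ρ * (1 + x) ^ 4 * (1 + μ * (c ^ 3 * n ^ 6) * (N * eli) * Li)) :
    t ∣ ρ2 - ρ ∧ ∃ d2, 8 * s * ρ2 - (q + c ^ 2 * ρ2) * V ρ2 + d2 * ρ2 = 0 ∧
      t ^ (j + 1) ∣ el ^ 2 * J * ((q + r) * (d2 - d) - 8 * s * ν * (p ^ 2 - s ^ 2) -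
        4 * (μ - 2 * ν * s) * g) + μ * (c ^ 3 * n ^ 6) *
        ((el * Np - N * (52 * n)) * oz - (el * Nz - N) * z * op +
          el * (N * (6 * s + μ) - 4 * el * (gt + 2 * c ^ 3 * ρ * ψ1 ^ 2)) * J +
          el * (Bt * oz + (At + p * Bt) * op)) := by
  have v3 : V 3 = 0 := by simpa using hV.natCast 3
  have v52 : V 52 = 0 := by simpa using hV.natCast 52
  have vp : ∀ (y : A) (k : ℕ), V y = 0 → V (y ^ k) = 0 := fun y k h => by
    rw [hV.pow, h, mul_zero]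
  have vel : V el = V z + 52 * n * V p := by
    rw [hel, map_add, map_add, hm, hV.const_mul (by rw [hV.const_mul v52, hn, mul_zero]),
      add_zero]
  rw [vel] at hρ H
  have k3 : z * el * (zi * eli) = 1 := by linear_combination el * eli * hz + he
  obtain ⟨rd, hrd⟩ : ∃ rd, z * el * rd = a * el * V z + b * z * (V z + 52 * n * V p) :=
    ⟨zi * eli * _, by rw [← mul_assoc, k3, one_mul]⟩
  obtain ⟨ht, hht⟩ : ∃ ht, z * el * ht = Bt * z * V p - (At + p * Bt) * V z :=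
    ⟨zi * eli * _, by rw [← mul_assoc, k3, one_mul]⟩
  have vρ : V ρ = ρ * rd := by
    linear_combination zi * eli * hρ - zi * eli * ρ * hrd + (ρ * rd - V ρ) * k3
  have vr : V r = r * rd := by rw [hr, hV.const_mul (vp c 2 hc), vρ, mul_assoc]
  obtain ⟨ε, hε⟩ : ∃ ε, ε = c ^ 3 * n ^ 6 := ⟨_, rfl⟩
  obtain ⟨L0, hL0⟩ : ∃ L0, L0 = 3 * (1 + s ^ 2) + μ * s + c ^ 2 * ρ := ⟨_, rfl⟩
  rw [← hψ] at iG iP iQ
  rw [← hε] at iG iP iQ hg hρ2 ⊢
  rw [← hL0] at iG hLi hop hoz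
  have vε : V ε = 0 := by rw [hε, hV.const_mul (vp c 3 hc), vp n 6 hn, mul_zero]
  have vE : V (μ * ε) = 0 := by rw [hV.const_mul hμ, vε, mul_zero]
  have vs2 : V (s ^ 2) = 2 * s := by rw [hV.pow, hs]; simp
  have vq : V q = 6 * s + μ - 2 * ν * s := by
    rw [hq, map_sub, map_add, hV.const_mul v3, hV.const_mul hμ, hV.const_mul hν, map_add, hV.one,
      vs2, hs]
    ring
  have eL : L0 = q + r + ν * s ^ 2 := by rw [hL0, hq, hr]; ring
  have vL : V L0 = 6 * s + μ + r * rd := by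
    rw [eL, map_add, map_add, hV.const_mul hν, vq, vr, vs2]; ring
  have tψ : t ∣ ψ := by rw [hψ]; exact t1.trans ⟨c * n ^ 2 * ψ1, by ring⟩
  have tε : t ∣ ε := by rw [hε]; exact t1.trans ⟨c ^ 2 * n ^ 5, by ring⟩
  have tg : t ∣ g' := by
    rw [hg]; exact dvd_sub (dvd_add (tε.mul_right _) t4) (tψ.mul_left _)
  have tx : t ∣ x := by rw [hx]; exact dvd_add (tψ.mul_left _) (tg.mul_left _)
  have tV : t ∣ V x := by simpa using hV.dvd hVt (n := 1) (a := x) (by simpa using tx)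
  have td : t ∣ d := (dvd_pow_self t (by omega)).trans j1
  obtain ⟨χ, hχ⟩ : ∃ χ, χ = μ * ε * (N * eli) * Li := ⟨_, rfl⟩
  rw [← hχ] at hρ2
  have tχ : t ∣ χ := by rw [hχ]; exact ((t2.mul_right _).mul_right _).mul_right _
  obtain ⟨ki, hki⟩ := hu x tx
  obtain ⟨χi, hχi⟩ := hu χ tχ
  have s1 := stepA hz he hel ha hS hrd hht iP iQ H
  have eB : q - 3 * r + 3 * (g' - (q + r) * ψ) = 3 * (G + g) + μ * s - ν * s ^ 2 := by
    rw [iG, hg, eL, hq, hr]; ring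
  obtain ⟨B, hB⟩ : ∃ B, B = 3 * (G + g) + μ * s - ν * s ^ 2 := ⟨_, rfl⟩
  rw [eB, ← hB] at hk
  have vB : V B = 3 * V (G + g) + μ - 2 * ν * s := by
    rw [hB, map_sub, map_add, hV.const_mul v3, hV.const_mul hμ, hV.const_mul hν, vs2, hs]; ring
  obtain ⟨d1, hd1⟩ : ∃ d1, d1 = d + ν * (p ^ 2 - s ^ 2) * rd + μ * ε * ht := ⟨_, rfl⟩
  have hA : 4 * V B - 3 * B * rd - 4 * (μ - 2 * ν * s) + 12 * μ * ψ + 3 * d1 = 0 := by
    rw [vB, hB, hd1]; linear_combination 3 * s1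
  have vk : ∀ k : ℕ, V ((1 + x) ^ k) = k * (1 + x) ^ (k - 1) * V x := fun k => by
    rw [hV.pow, map_add, hV.one, zero_add]
  have hVk : 3 * (1 + x) ^ 2 * V x * B + (1 + x) ^ 3 * V B + 3 * (r * rd) * (1 + x) ^ 4 +
      12 * r * (1 + x) ^ 3 * V x = 6 * s + μ - 2 * ν * s := by
    have := congrArg V hk
    rw [map_add, hV, hV (3 * r), hV.const_mul v3, vk, vk, vq, vr] at this
    push_cast at this
    linear_combination this
  have h8 := stepB hki hw hA hk hVk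
  obtain ⟨rd1, hrd1⟩ : ∃ rd1, rd1 = rd + 4 * V x * ki := ⟨_, rfl⟩
  obtain ⟨dd, hdd⟩ : ∃ dd, dd = (1 + x) ^ 3 * d1 +
    4 * w * μ * (3 * (1 + x) ^ 3 * ψ - ((1 + x) ^ 3 - 1)) + 8 * w * ν * s * ((1 + x) ^ 3 - 1) :=
    ⟨_, rfl⟩
  rw [← hrd1, ← hdd] at h8
  have v1 : V (ρ * (1 + x) ^ 4) = ρ * (1 + x) ^ 4 * rd1 := by
    rw [hV, vk, vρ, hrd1]
    push_cast
    linear_combination (-4 * ρ * (1 + x) ^ 3 * V x) * hki
  have v2 : V ρ2 = ρ * (1 + x) ^ 4 * (rd1 * (1 + χ) + V χ) := by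
    rw [hρ2, hV, v1, map_add, hV.one]; ring
  obtain ⟨u, hu'⟩ : ∃ u, u = N * eli := ⟨_, rfl⟩
  rw [← hu'] at hχ
  have vu : V u = (Np * V p + Nz * V z) * eli - N * (eli ^ 2 * (V z + 52 * n * V p)) := by
    rw [hu', hV, hN, hV.inv he, vel]; ring
  have vχ : V χ = μ * ε * (V u * Li - u * (6 * s + μ + r * rd) * Li ^ 2) := by
    rw [hχ, mul_assoc (μ * ε), hV.const_mul vE, hV, hV.inv hLi, vL]; ring
  obtain ⟨d2, hd2⟩ : ∃ d2, d2 = dd + r * (1 + x) ^ 4 * χ * rd1 +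
    (q + r * (1 + x) ^ 4 * (1 + χ)) * V χ * χi := ⟨_, rfl⟩
  refine ⟨?_, d2, ?_, ?_⟩
  · obtain ⟨x', rfl⟩ := tx
    obtain ⟨χ', rfl⟩ := tχ
    exact ⟨ρ * (x' * (4 + 6 * (t * x') + 4 * (t * x') ^ 2 + (t * x') ^ 3) +
      (1 + t * x') ^ 4 * χ'), by rw [hρ2]; ring⟩
  · rw [v2, hρ2, hd2]
    subst hr
    linear_combination ρ * (1 + x) ^ 4 * (1 + χ) * h8 +
      ρ * (1 + x) ^ 4 * (q + c ^ 2 * ρ * (1 + x) ^ 4 * (1 + χ)) * V χ * hχi
  have z1 : t ^ (j + 1) ∣ μ * ε * ψ := zz j5 t1 (c * n * ψ1) (by rw [hε, hψ]; ring)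
  have z2 : t ^ (j + 1) ∣ μ * ε * ε := zz j5 t1 (c ^ 2 * n ^ 4) (by rw [hε]; ring)
  have z3 : t ^ (j + 1) ∣ ν * ε := zz j4 t1 (c * n ^ 5) (by rw [hε]; ring)
  have z4 : t ^ (j + 1) ∣ ν * ψ := zz j4 t1 (n ^ 2 * ψ1) (by rw [hψ]; ring)
  have z5 : t ^ (j + 1) ∣ d * (μ * ε) := zz j1 t2 ε (by ring)
  have z6 : t ^ (j + 1) ∣ μ * ψ ^ 3 := zz j5 t1 (c ^ 2 * n * ψ1 ^ 3) (by rw [hψ]; ring)
  have z7 : t ^ (j + 1) ∣ μ * g * ψ := zz j2 tψ 1 (by ring)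
  have z8 : t ^ (j + 1) ∣ μ * g * g' := zz j2 tg 1 (by ring)
  have z9 : t ^ (j + 1) ∣ ν * g * g' := zz j3 tg 1 (by ring)
  have z10 : t ^ (j + 1) ∣ μ * ε * g' := by
    have : μ * ε * g' = μ * ε * ε * gt + μ * g * ε * 1 - μ * ε * ψ * (ν * s ^ 2) := by
      rw [hg]; ring
    rw [this]
    exact dvd_sub (dvd_add (z2.mul_right _) (zz j2 tε 1 rfl)) (z1.mul_right _)
  have z11 : t ^ (j + 1) ∣ μ * ε * x := by
    have : μ * ε * x = μ * ε * ψ * e1 + μ * ε * g' * e2 := by rw [hx]; ring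
    rw [this]
    exact dvd_add (z1.mul_right _) (z10.mul_right _)
  have z12 : t ^ (j + 1) ∣ μ * ε * V x := by
    rw [← hV.const_mul vE]; exact hV.dvd hVt z11
  have z13 : t ^ (j + 1) ∣ ν * (p ^ 2 - s ^ 2) * x := zz j6 tx 1 (by ring)
  have z14 : t ^ (j + 1) ∣ ν * (p ^ 2 - s ^ 2) * V x := zz j6 tV 1 (by ring)
  have z15 : t ^ (j + 1) ∣ ν * (p ^ 2 - s ^ 2) * d := zz j6 td 1 (by ring)
  have z16 : t ^ (j + 1) ∣ ν * (p ^ 2 - s ^ 2) * μ := zz j6 t2 1 (by ring)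
  have z17 : t ^ (j + 1) ∣ ν * (p ^ 2 - s ^ 2) * ν := zz j6 t3 1 (by ring)
  have z18 : t ^ (j + 1) ∣ d * x := zz j1 tx 1 (by ring)
  have hcr : r * ψ ^ 2 = ε * (c ^ 3 * (ρ * ψ1 ^ 2)) := by rw [hr, hψ, hε]; ring
  obtain ⟨κ, hκ⟩ := rem (μ := μ) (c := c ^ 3) (gt := gt) (cr := ρ * ψ1 ^ 2) hz he hS hrd hht hu' vu
    hJ hop hoz
  have hW : el ^ 2 * J * (μ * ε * (L0 * ht + 4 * (gt + 2 * (c ^ 3 * (ρ * ψ1 ^ 2))) + L0 * V u -
      u * (6 * s + μ))) + μ * ε * ((el * Np - N * (52 * n)) * oz - (el * Nz - N) * z * op +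
        el * (N * (6 * s + μ) - 4 * el * (gt + 2 * c ^ 3 * ρ * ψ1 ^ 2)) * J +
        el * (Bt * oz + (At + p * Bt) * op)) = μ * ε * (8 * s - L0 * rd) * κ := by
    linear_combination μ * ε * hκ
  generalize (el * Np - N * (52 * n)) * oz - (el * Nz - N) * z * op +
    el * (N * (6 * s + μ) - 4 * el * (gt + 2 * c ^ 3 * ρ * ψ1 ^ 2)) * J +
    el * (Bt * oz + (At + p * Bt) * op) = W at hW ⊢
  generalize c ^ 3 * (ρ * ψ1 ^ 2) = cr at hW hcr
  generalize p ^ 2 - s ^ 2 = δ at *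
  generalize V x = Vx at *
  generalize V u = Vu at *
  generalize V χ = Vχ at *
  rw [← Ideal.Quotient.eq_zero_iff_dvd]
    at z1 z2 z3 z4 z5 z6 z7 z8 z9 z10 z11 z12 z13 z14 z15 z16 z17 z18 ⊢
  generalize Ideal.Quotient.mk (Ideal.span {t ^ (j + 1)}) = π at *
  replace eL := congrArg π eL
  replace hLi := congrArg π hLi
  replace hχi := congrArg π hχi
  replace hw := congrArg π hw
  replace hg := congrArg π hg
  replace hd1 := congrArg π hd1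
  replace hdd := congrArg π hdd
  replace hnr := congrArg π hnr
  replace hcr := congrArg π hcr
  replace hrd1 := congrArg π hrd1
  replace h8 := congrArg π h8
  replace hχ := congrArg π hχ
  replace vχ := congrArg π vχ
  replace hd2 := congrArg π hd2
  replace hW := congrArg π hW
  simp only [map_add, map_sub, map_mul, map_pow, map_one, map_ofNat, map_zero]
    at eL hLi hχi hw hg hd1 hdd hnr hcr hrd1 h8 hχ vχ hd2 hW ⊢
  simp only [map_mul, map_pow]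
    at z1 z2 z3 z4 z5 z6 z7 z8 z9 z10 z11 z12 z13 z14 z15 z16 z17 z18
  obtain ⟨c1, c2⟩ := core rfl eL hLi hχi hw hg hd1 hdd hnr hcr hrd1 h8 hχ vχ hd2 z1 z2 z3 z4 z5 z6
    z7 z8 z9 z10 z11 z12 z13 z14 z15 z16 z17 z18
  rw [c1, hW, c2, zero_mul]

end Pure

section Series
variable {K : Type} [Field K]

theorem unit_of {u : K⟦X⟧} (h : cc u ≠ 0) : IsUnit u :=
  isUnit_iff_constantCoeff.2 (isUnit_iff_ne_zero.2 h)

theorem inv_in (S : Subring K) {u : K⟦X⟧} (hu : In S u) (h0 : cc u ≠ 0) (h1 : (cc u)⁻¹ ∈ S) :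
    ∃ v, In S v ∧ u * v = 1 := by
  obtain ⟨f, rfl⟩ := (in_iff S u).1 hu
  have e : cc (map S.subtype f) = (cc f : S) := by
    rw [← coeff_zero_eq_constantCoeff_apply, coeff_map, coeff_zero_eq_constantCoeff_apply]; rfl
  rw [e] at h0 h1
  have : IsUnit f := isUnit_iff_constantCoeff.2
    (IsUnit.of_mul_eq_one ⟨_, h1⟩ (Subtype.ext (mul_inv_cancel₀ h0)))
  obtain ⟨v, hv⟩ := this.exists_right_inv
  exact ⟨map S.subtype v, (in_iff S _).2 ⟨v, rfl⟩, by rw [← map_mul, hv, map_one]⟩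

end Series

end Mod

theorem modS (h : NrmStmt) : ModStmt := by
  intro b M K _ _ S V y p z zi s g d j hV hX hc hμ hm hn hν hz hs hs1 hel hJ hΛ H t1 t2 t3 t4 hj
    j1 j2 j3 j4 j5 hQ ip iz ic iμ im i_n iν ig iΛ
  have hu : ∀ u : K⟦X⟧, X ∣ u → ∃ ui, (1 + u) * ui = 1 := fun u hu =>
    (Mod.unit_of (by rw [map_add, map_one, X_dvd_iff.1 hu]; simp)).exists_right_inv
  obtain ⟨eli, he⟩ := (Mod.unit_of hel).exists_right_inv
  have hw : (3 : K⟦X⟧) * C (3⁻¹ : K) = 1 := by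
    rw [← map_ofNat (C : K →+* K⟦X⟧) 3, ← map_mul, mul_inv_cancel₀ three_ne_zero, map_one]
  rw [in_iff] at ip iz ic iμ im i_n iν ig
  have i6 : ∀ f : U6, e6 f y p z ∈ (map S.subtype).range := fun f => e6_mem _ f ip iz ic iμ im i_n
  have is : s ∈ (map S.subtype).range := hs ▸ i6 _
  have iel : y.el p z ∈ (map S.subtype).range :=
    add_mem (add_mem iz im) (mul_mem (mul_mem (ofNat_mem _ 52) i_n) ip)
  have iρ : y.ρ b p z ∈ (map S.subtype).range := mul_mem (pow_mem iz _) (pow_mem iel _)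
  have i3 : 3 * (1 + s ^ 2) + y.μ * s ∈ (map S.subtype).range :=
    add_mem (mul_mem (ofNat_mem _ 3) (add_mem (one_mem _) (pow_mem is _))) (mul_mem iμ is)
  have ir : y.c ^ 2 * y.ρ b p z ∈ (map S.subtype).range := mul_mem (pow_mem ic _) iρ
  have iq := sub_mem i3 (mul_mem iν (pow_mem is 2))
  have iψ : y.c ^ 2 * y.n ^ 3 * e6 M.ψ y p z ∈ (map S.subtype).range :=
    mul_mem (mul_mem (pow_mem ic _) (pow_mem i_n _)) (i6 _)
  have iε : y.c ^ 3 * y.n ^ 6 ∈ (map S.subtype).range := mul_mem (pow_mem ic _) (pow_mem i_n _)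
  have ig' := sub_mem (add_mem (mul_mem iε (i6 M.gt)) ig) (mul_mem (mul_mem iν (pow_mem is 2)) iψ)
  have c0 : cc (3 * (1 + s ^ 2) + y.μ * s + y.c ^ 2 * y.ρ b p z) = cc (y.Λ s (y.ρ b p z)) := by
    simp only [Pa.Λ, map_add, map_sub, map_mul, X_dvd_iff.1 t3, zero_mul, sub_zero]
  obtain ⟨Li, iLi, hLi⟩ := Mod.inv_in S ((in_iff S _).2 (add_mem i3 ir)) (c0 ▸ hΛ) (c0 ▸ iΛ)
  have tψ : X ∣ y.c ^ 2 * y.n ^ 3 * e6 M.ψ y p z :=
    t1.trans ⟨y.c * y.n ^ 2 * e6 M.ψ y p z, by ring⟩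
  have tε : X ∣ y.c ^ 3 * y.n ^ 6 := t1.trans ⟨y.c ^ 2 * y.n ^ 5, by ring⟩
  obtain ⟨x, e1, e2, e3, e4, e5, ix, hk, hx, hnr⟩ := h K S _ _ _ _ hQ ((in_iff S _).2 iq)
    ((in_iff S _).2 ir) ((in_iff S _).2 iψ) ((in_iff S _).2 ig') hΛ iΛ tψ
    (dvd_sub (dvd_add (tε.mul_right _) t4) (tψ.mul_left _))
  have hS := der_e6 hV M.S hc hμ hm hn p z
  rw [hs, hs1] at hS
  have hρ : z * y.el p z * V (y.ρ b p z) =
      y.ρ b p z * ((4 - b) * y.el p z * V z + b * z * V (y.el p z)) := by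
    rw [Pa.ρ, hV, hV.pow, hV.pow]
    rcases M.hb with e | e <;> rw [e] <;> push_cast <;> ring
  have j6 : X ^ j ∣ y.ν * (p ^ 2 - s ^ 2) := by
    obtain ⟨r, e⟩ := M.sE y p z
    exact j4.trans ⟨-((z ^ 2 + y.n * r) * (p + s)), by
      rw [hs] at e
      linear_combination (-y.ν * (p + s)) * e⟩
  have iG := M.iG y p z zi hz
  have iP := M.iP y p z zi hz
  have iQ := M.iQ y p z zi hz
  rw [hs] at iG iP iQ
  obtain ⟨r1, r2, iW⟩ := M.iW y p z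
  obtain ⟨a1, d2, a2, a3⟩ := Mod.main hV hX hj hu hc hμ hm hn hν hs1 hz he hw hLi rfl rfl hρ hS.symm
    (der_e6 hV M.N hc hμ hm hn p z) iG iP iQ H (J := M.J b y p z) (op := M.op b y p z)
    (oz := M.oz b y p z) rfl (by rw [Mp.op, hs]; rfl) (by rw [Mp.oz, hs]; rfl) t1 t2 t3 t4 j1 j2 j3
    j4 j5 j6 rfl rfl rfl rfl hk hx hnr rfl
  rw [Mp.W, hs] at iW
  rw [iW] at a3
  have a4 : X ^ (j + 1) ∣ y.el p z ^ 2 * M.J b y p z * (y.Λ s (y.ρ b p z) * (d2 - d) -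
      8 * s * y.ν * (p ^ 2 - s ^ 2) - 4 * (y.μ - 2 * y.ν * s) * g) +
      y.μ * y.c ^ 3 * y.n ^ 7 * (16 * 13 ^ 7 * rz b p z y.m (52 * y.n) + y.c * r1) := by
    have := dvd_sub a3 (Mod.zz j5 t2 r2 rfl)
    convert this using 1
    rw [Pa.Λ]
    ring
  have a5 : X ^ j ∣ d2 := by
    have u1 : IsUnit (y.el p z ^ 2 * M.J b y p z) :=
      ((Mod.unit_of hel).pow 2).mul (Mod.unit_of hJ)
    have b1 := u1.dvd_mul_left.1 ((dvd_add_left (j5.mul_right _)).1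
      ((pow_dvd_pow X (Nat.le_succ j)).trans a4))
    have b2 : X ^ j ∣ y.Λ s (y.ρ b p z) * (d2 - d) := by
      have := dvd_add (dvd_add b1 (j6.mul_left (8 * s)))
        (dvd_sub (j2.mul_left 4) (j3.mul_left (8 * s)))
      convert this using 1
      ring
    simpa using dvd_add ((Mod.unit_of hΛ).dvd_mul_left.1 b2) j1
  obtain ⟨d', rfl⟩ := a5
  refine ⟨_, d', r1, ?_, a1, a2, a4⟩
  have e : y.ρ b p z * (1 + x) ^ 4 * (1 + y.μ * (y.c ^ 3 * y.n ^ 6) * (e6 M.N y p z * eli) * Li) =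
      (1 + x) ^ 4 * (z ^ (4 - b) * y.el p z ^ (b - 1)) *
        (y.el p z + y.μ * (y.c ^ 3 * y.n ^ 6) * e6 M.N y p z * Li) := by
    have : y.el p z ^ b = y.el p z ^ (b - 1) * y.el p z := by
      rw [← pow_succ]; congr 1; rcases M.hb with e | e <;> omega
    rw [Pa.ρ, this]
    linear_combination (1 + x) ^ 4 * (z ^ (4 - b) * y.el p z ^ (b - 1)) *
      (y.μ * (y.c ^ 3 * y.n ^ 6) * e6 M.N y p z * Li) * he
  rw [e, in_iff]
  rw [in_iff] at ix iLi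
  exact mul_mem (mul_mem (pow_mem (add_mem (one_mem _) ix) _)
    (mul_mem (pow_mem iz _) (pow_mem iel _)))
    (add_mem iel (mul_mem (mul_mem (mul_mem iμ iε) (i6 _)) iLi))

end Pool.Agent.MP_05b4bd_ag.XO
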