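import Pool.Agent.MP_05b4bd_ag.ex.Bas

/-! Four independent classes on the cubic curve. -/

namespace Pool.Agent.MP_05b4bd_ag.XO

open PowerSeries LaurentSeries HC
open ES hiding Gen Ob Inf
open ES.U (TM Cr hom)
open PC3 (Fm fm d1 DF sub2 pb mapF Van CenK)
open RV (fa fb Frm Good Rho Fac Dk In Cg ExoK SymK RRc Ob NoF)

namespace Nex

variable {k L : Type} [Field k] [CharZero k] [Field L] {κ : k →+* L} {D : L →+ L} {s z : L}

omit [CharZero k] in
theorem der_ev (h : Xd κ D s z) (p : Polynomial k) :
    D (Polynomial.eval₂RingHom κ s p) = Polynomial.eval₂RingHom κ s p.derivative := by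
  simp only [Polynomial.coe_eval₂RingHom]
  induction p using Polynomial.induction_on' with
  | add p q hp hq => simp only [Polynomial.eval₂_add, map_add, hp, hq]
  | monomial n a =>
    rw [Polynomial.derivative_monomial, Polynomial.eval₂_monomial, Polynomial.eval₂_monomial,
      h.der.const_mul (h.con a), h.der.pow, h.ds, map_mul, map_natCast]
    ring

omit [CharZero k] in
theorem dz (h : Xd κ D s z) : 3 * z ^ 2 * D z = 2 * s := by
  have := congrArg D h.cub
  rw [map_add, h.der.one, h.der.pow, h.der.pow, h.ds] at this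
  push_cast at this
  linear_combination this

/-- The numerator of the derivative of one component. -/
noncomputable def nu (A B : Polynomial k) (i : ℕ) : Polynomial k :=
  3 * (1 + Polynomial.X ^ 2) * (A.derivative * B - A * B.derivative) +
    2 * (i : Polynomial k) * Polynomial.X * A * B

end Nex

open Nex in
theorem nexS (h1 : LstStmt) (h2 : RatStmt) : NexStmt := by
  intro k L _ _ _ _ κ D s z h
  obtain ⟨ind, nf⟩ := h1 k L κ D s z h
  have : CharZero L := κ.charZero_iff κ.injective |>.1 inferInstance
  have z0 : z ≠ 0 := fun e =>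
    one_ne_zero (ind 0 1 0 (by simp [e])).2.1
  have hz := dz h
  have eX : Polynomial.eval₂RingHom κ s Polynomial.X = s := Polynomial.eval₂_X _ _
  have eC : ∀ a, Polynomial.eval₂RingHom κ s (Polynomial.C a) = κ a := fun a =>
    Polynomial.eval₂_C _ _
  refine ⟨z0, by field_simp; linear_combination hz, fun α β γ δ ⟨u, hu⟩ => ?_,
    fun m m1 n n0 e d => ?_⟩
  · obtain ⟨B, A0, A1, A2, b, e⟩ := nf u
    simp only [← Polynomial.coe_eval₂RingHom] at e ind
    have e' := congrArg D e
    rw [map_add, map_add, h.der, h.der, h.der, h.der.pow, der_ev h, der_ev h, der_ev h,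
      der_ev h] at e'
    have hu' : z ^ 3 * D u = κ α * z + κ β * z ^ 2 + (κ γ + κ δ * s) := by
      rw [hu]
      field_simp
    have := ind
      (nu A0 B 0 - (Polynomial.C (3 * γ) + Polynomial.C (3 * δ) * Polynomial.X) * B ^ 2)
      (nu A1 B 1 - (Polynomial.C (3 * α) + Polynomial.C 0 * Polynomial.X) * B ^ 2)
      (nu A2 B 2 - (Polynomial.C (3 * β) + Polynomial.C 0 * Polynomial.X) * B ^ 2) (by
        simp only [nu, map_add, map_sub, map_mul, map_pow, map_one, map_ofNat, map_natCast, eX,
          eC, map_zero, ← h.cub]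
        push_cast at e' ⊢
        generalize Polynomial.eval₂RingHom κ s = ev at *
        linear_combination (-3 * z ^ 3 * ev B) * e' + 3 * z ^ 3 * ev B.derivative * e +
          3 * ev B ^ 2 * hu' - ev B * (ev A1 * z + 2 * ev A2 * z ^ 2) * hz)
    have a0 := h2 k A0 B 0 _ _ b (by norm_num) (fun a => absurd rfl a) (sub_eq_zero.1 this.1)
    have a1 := h2 k A1 B 1 _ _ b (by norm_num) (fun _ => rfl) (sub_eq_zero.1 this.2.1)
    have a2 := h2 k A2 B 2 _ _ b (by norm_num) (fun _ => rfl) (sub_eq_zero.1 this.2.2)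
    have t : (3 : k) ≠ 0 := by norm_num
    exact ⟨(mul_eq_zero.1 a1.1).resolve_left t, (mul_eq_zero.1 a2.1).resolve_left t,
      (mul_eq_zero.1 a0.1).resolve_left t, (mul_eq_zero.1 a0.2).resolve_left t⟩
  · obtain ⟨γ, rfl⟩ := h.cst n d
    have := (ind (-(Polynomial.C m + Polynomial.C m1 * Polynomial.X)) (Polynomial.C γ) 0 (by
      simp only [← Polynomial.coe_eval₂RingHom, map_neg, map_add, map_mul, eX, eC, map_zero]
      linear_combination e)).2.1
    rw [Polynomial.C_eq_zero] at this
    exact n0 (by rw [this, map_zero])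

end Pool.Agent.MP_05b4bd_ag.XO
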