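import Pool.Agent.MP_05b4bd_ag.ex.Bas

/-! Normalisation of the first integral by a unit: a quartic equation solved by Hensel's lemma. -/

namespace Pool.Agent.MP_05b4bd_ag.XO

open PowerSeries LaurentSeries HC
open ES hiding Gen Ob Inf
open RV (In)

namespace Nrm

theorem expand {A : Type} [CommRing A] (r ψ g x e1 e2 h : A) (hx : x = e1 * ψ + e2 * g)
    (he : e1 = 1 + x * h) : ∃ e3 e4 e5 : A,
    3 * (1 + x) ^ 3 * g + r * x ^ 2 * (6 + 8 * x + 3 * x ^ 2) =
      3 * g + 6 * r * ψ ^ 2 + e3 * ψ ^ 3 + e4 * ψ * g + e5 * g ^ 2 := by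
  have x3 : x ^ 3 = (e1 * ψ + e2 * g) ^ 3 := by rw [← hx]
  have x2 : x ^ 2 = (e1 * ψ + e2 * g) ^ 2 := by rw [← hx]
  have e12 : e1 ^ 2 = 1 + (e1 * ψ + e2 * g) * h * (2 + x * h) := by
    rw [← hx]
    linear_combination (e1 + 1 + x * h) * he
  refine ⟨r * (8 + 3 * x) * e1 ^ 3 + 6 * r * h * (2 + x * h) * e1,
    3 * (3 + 3 * x + x ^ 2) * e1 + r * (8 + 3 * x) * (3 * e1 ^ 2 * e2 * ψ + 3 * e1 * e2 ^ 2 * g) +
      12 * r * e1 * e2 + 6 * r * h * (2 + x * h) * e2 * ψ,
    3 * (3 + 3 * x + x ^ 2) * e2 + r * (8 + 3 * x) * e2 ^ 3 * g + 6 * r * e2 ^ 2, ?_⟩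
  linear_combination (3 * g * (3 + 3 * x + x ^ 2)) * hx + r * (8 + 3 * x) * x3 + 6 * r * x2 +
    6 * r * ψ ^ 2 * e12

theorem root {A : Type} [CommRing A] (q r f : A⟦X⟧) (hu : IsUnit (3 * cc (q + r)))
    (hf : cc f = 0) : ∃ x : A⟦X⟧, cc x = 0 ∧
      (1 + x) ^ 3 * (q - 3 * r + 3 * f) + 3 * r * (1 + x) ^ 4 = q := by
  obtain ⟨z, h1, h2⟩ := hensel (K3.JX A)
    (Polynomial.C (q - 3 * r + 3 * f) * Polynomial.X ^ 3 + Polynomial.C (3 * r) * Polynomial.X ^ 4 -
      Polynomial.C q) (a := 1)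
    (K3.mem_JX' (by
      simp only [Polynomial.eval_sub, Polynomial.eval_add, Polynomial.eval_mul, Polynomial.eval_C,
        Polynomial.eval_pow, Polynomial.eval_X, one_pow, mul_one]
      rw [show q - 3 * r + 3 * f + 3 * r - q = 3 * f by ring, map_mul, hf, mul_zero]))
    (by
      simp only [Polynomial.derivative_sub, Polynomial.derivative_add, Polynomial.derivative_C_mul,
        Polynomial.derivative_X_pow, Polynomial.derivative_C, Polynomial.eval_sub,
        Polynomial.eval_add, Polynomial.eval_mul, Polynomial.eval_C, Polynomial.eval_pow,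
        Polynomial.eval_X, Polynomial.eval_zero, one_pow, mul_one, Nat.cast_ofNat]
      rw [isUnit_iff_constantCoeff,
        show (q - 3 * r + 3 * f) * 3 + 3 * r * 4 - 0 = 3 * (q + r) + 9 * f by ring, map_add,
        map_mul, map_mul, map_ofNat]
      rw [show constantCoeff f = 0 from hf, mul_zero, add_zero]
      exact hu)
  refine ⟨z - 1, X_dvd_iff.1 (Ideal.mem_span_singleton.1 h1), ?_⟩
  simp only [Polynomial.eval_sub, Polynomial.eval_add, Polynomial.eval_mul, Polynomial.eval_C,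
    Polynomial.eval_pow, Polynomial.eval_X] at h2
  linear_combination h2

end Nrm

theorem nrmS : NrmStmt := by
  intro K _ _ S q r ψ g hQ hq hr hψ hg h0 hi dψ dg
  obtain ⟨q', rfl⟩ := (in_iff S q).1 hq
  obtain ⟨r', rfl⟩ := (in_iff S r).1 hr
  obtain ⟨ψ', rfl⟩ := (in_iff S ψ).1 hψ
  obtain ⟨g', rfl⟩ := (in_iff S g).1 hg
  have z : ∀ u : S⟦X⟧, X ∣ map S.subtype u → cc u = 0 := fun u h =>
    Subtype.ext (X_dvd_iff.1 h)
  have hu : IsUnit (3 * cc (q' + r')) := by
    refine IsUnit.of_mul_eq_one (⟨_, hQ (1 / 3)⟩ * ⟨_, hi⟩) (Subtype.ext ?_)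
    have e : cc (map S.subtype q' + map S.subtype r') = ((cc (q' + r') : S) : K) := by
      rw [← map_add]
      rfl
    rw [e] at h0
    have e3 : ((3 : S) : K) = 3 := rfl
    simp only [Subring.coe_mul, e, e3, Subring.coe_one]
    push_cast
    field_simp
  obtain ⟨x', hx0, hx⟩ := Nrm.root q' r' (g' - (q' + r') * ψ') hu (by
    rw [map_sub, map_mul, z _ dψ, z _ dg, mul_zero, sub_zero])
  have hU : IsUnit (q' * (3 + 3 * x' + x' ^ 2) + 3 * r' * (1 + x') ^ 3) := by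
    rw [isUnit_iff_constantCoeff]
    convert hu using 1
    have hx1 : constantCoeff x' = 0 := hx0
    simp only [map_add, map_mul, map_pow, map_ofNat, map_one, hx1]
    ring
  obtain ⟨v, hv⟩ := hU.exists_right_inv
  have h1 : x' = 3 * (1 + x') ^ 3 * v * (q' + r') * ψ' + -(3 * (1 + x') ^ 3 * v) * g' := by
    linear_combination v * hx - x' * hv
  obtain ⟨e3, e4, e5, h2⟩ := Nrm.expand r' ψ' g' x' _ _ (v * q' * (6 + 8 * x' + 3 * x' ^ 2)) h1
    (by linear_combination hv)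
  have h3 : (q' + r') * (3 * (1 + x') ^ 3 * ψ' - ((1 + x') ^ 3 - 1)) =
      3 * g' + 6 * r' * ψ' ^ 2 + e3 * ψ' ^ 3 + e4 * ψ' * g' + e5 * g' ^ 2 := by
    linear_combination h2 - hx
  refine ⟨map S.subtype x', map S.subtype (3 * (1 + x') ^ 3 * v * (q' + r')),
    map S.subtype (-(3 * (1 + x') ^ 3 * v)), map S.subtype e3, map S.subtype e4, map S.subtype e5,
    (in_iff S _).2 ⟨x', rfl⟩, ?_, ?_, ?_⟩
  · simpa only [map_add, map_sub, map_mul, map_pow, map_ofNat, map_one] using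
      congrArg (map S.subtype) hx
  · rw [← map_mul, ← map_mul, ← map_add, ← h1]
  · simpa only [map_add, map_sub, map_mul, map_pow, map_ofNat, map_one] using
      congrArg (map S.subtype) h3

end Pool.Agent.MP_05b4bd_ag.XO
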