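import Pool.Agent.MP_05b4bd_ag.ex.Bas

/-! The first comparison in the annulus. -/

namespace Pool.Agent.MP_05b4bd_ag.XO

open PowerSeries LaurentSeries HC
open ES hiding Gen Ob Inf

namespace O0

section Abs
variable {k F : Type} [Field k] [CharZero k] [Field F] [CharZero F]

/-- The variation modulo exact terms. -/
theorem split (θ : k →+* F) {δ : F →+ F} (hδ : IsDer δ) (hθ : ∀ a, δ (θ a) = 0) {s Z Zi m den : F}
    (hs : δ s = 1) (hZ : Z * Zi = 1) (c S ν : k) :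
    (m - 3 / 4 * (θ S * Z ^ 2 * δ ((s - θ c * Z ^ 2) / Z) +
      4 * θ ν * ((s - θ c * Z ^ 2) ^ 2 - s ^ 2) * δ Z / Z + 4 * (0 * Z + 0 * Z ^ 2) / den)) / Z ^ 3 =
    (m * Zi ^ 3 + θ (-3 / 8 * S) * Zi ^ 2 + θ (6 * ν * c) * Zi + θ (3 / 4 * S * c) * (δ Z * Zi)) +
      δ (θ (-3 / 8 * S) * (s * (Zi * Zi)) + θ (-6 * ν * c) * (s * Zi) + θ (-3 * ν * c ^ 2) * Z) := by
  have h0 : Z ≠ 0 := left_ne_zero_of_mul_eq_one hZ
  have hi : Zi = Z⁻¹ := eq_inv_of_mul_eq_one_right hZ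
  have e1 : (s - θ c * Z ^ 2) / Z = s * Zi - θ c * Z := by rw [hi]; field_simp
  have d1 : δ Zi = -(Zi ^ 2 * δ Z) := hδ.inv hZ
  rw [e1]
  simp only [map_add, map_sub, hδ.const_mul (hθ _), hδ s, hδ Zi, hs, d1]
  simp only [map_mul, map_div₀, map_neg, map_ofNat, map_pow, hi]
  field_simp
  ring

theorem drop {δ : F →+ F} (hδ : IsDer δ) (φ : F →+* F) (hφ : ∀ r, δ (φ r) = φ (δ r)) {w h a E : F}
    (hw : δ w = 0) (hh : δ h = 0) (H : Ex δ (w * φ (a + δ E) - h * (a + δ E))) :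
    Ex δ (w * φ a - h * a) := by
  obtain ⟨v, hv⟩ := H
  refine ⟨v - (w * φ E - h * E), ?_⟩
  rw [map_sub, map_sub, hδ.const_mul hw, hδ.const_mul hh, hφ, hv, map_add]
  ring

end Abs

variable {k L : Type} [Field k] [Field L]

theorem cc_map (κ : k →+* L) (f : k⟦X⟧) : cc (map κ f) = κ (cc f) := by
  rw [← coeff_zero_eq_constantCoeff_apply, coeff_map, coeff_zero_eq_constantCoeff_apply]

theorem ex_coeff {D : L →+ L} {T : L⟦X⟧} (h : Ex (cwL D) (wL L (-3) * coeL L T)) (n : ℕ) :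
    Ex D (coeff n T) := by
  obtain ⟨v, hv⟩ := h
  refine ⟨v.coeff (n - 3), ?_⟩
  rw [← coeff_cwL, hv, coeff_wL_mul, show (n : ℤ) - 3 - -3 = n by ring, coeff_coeL]

theorem dh_eq [CharZero L] (v : L⟦X⟧) :
    dh 3 (wL L (-3) * coeL L v) = coeL L (v - C 3⁻¹ * thP L v) := by
  have h := wL_mul_neg (R := L) 3
  have h3 : cL L 3⁻¹ * 3 = 1 := by
    rw [← map_ofNat (cL L) 3, ← map_mul, inv_mul_cancel₀ (by norm_num), map_one]
  rw [dh, thL_wL_mul, thL_coeL, map_sub, map_mul, coeL_C]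
  push_cast
  linear_combination (coeL L v * cL L 3⁻¹ * 3 - cL L 3⁻¹ * coeL L (thP L v)) * h + coeL L v * h3

/-- The coefficient that is used twice. -/
theorem coef {σ1 v g : L⟦X⟧} (hv : cc v = 1) (a : L) (j : ℕ) :
    coeff j (v * sb (X * σ1) (C a + X ^ j * g) - (v - C 3⁻¹ * thP L v) * (C a + X ^ j * g)) =
      (cc σ1 ^ j - 1) * cc g + 3⁻¹ * (j * coeff j v) * a := by
  have h0 : cc (X * σ1) = 0 := by simp
  have e : v * sb (X * σ1) (C a + X ^ j * g) - (v - C 3⁻¹ * thP L v) * (C a + X ^ j * g) =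
      X ^ j * (v * (σ1 ^ j * sb (X * σ1) g - g) + C 3⁻¹ * thP L v * g) +
        C 3⁻¹ * thP L v * C a := by
    rw [map_add, map_mul, map_pow, sb_C h0, sb_X h0]
    ring
  have t0 : cc (thP L v) = 0 := by rw [thP_apply]; simp
  rw [e, map_add, coeff_X_pow_mul_self, coeff_mul_C, coeff_C_mul, coeff_thP]
  simp only [map_add, map_mul, map_sub, map_pow, cc_sb h0, hv, t0]
  ring

theorem inv_sb [CharZero L] {ζ : L⟦X⟧} {z q e w : L} (hz : z ≠ 0) (z0 : cc ζ = z)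
    (cu : ζ ^ 3 = C q - C e * X ^ 4 * ζ ^ 4) (hw : w ^ 4 = 1) : sb (C w * X) ζ = ζ := by
  have h0 : cc (C w * X : L⟦X⟧) = 0 := by simp
  have c1 := congrArg (sb (C w * X)) cu
  have hw' : (C w : L⟦X⟧) ^ 4 = 1 := by rw [← map_pow, hw, map_one]
  simp only [map_sub, map_mul, map_pow, sb_C h0, sb_X h0] at c1
  have z1 : cc (sb (C w * X) ζ) = z := (cc_sb h0 ζ).trans z0
  generalize sb (C w * X) ζ = y at c1 z1
  have p : (y - ζ) * (y ^ 2 + y * ζ + ζ ^ 2 +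
      C e * X ^ 4 * (y ^ 3 + y ^ 2 * ζ + y * ζ ^ 2 + ζ ^ 3)) = 0 := by
    linear_combination c1 - cu - C e * X ^ 4 * y ^ 4 * hw'
  refine sub_eq_zero.1 ((mul_eq_zero.1 p).resolve_right fun h => hz ?_)
  have := congrArg cc h
  simp only [map_add, map_mul, map_pow, z0, z1, constantCoeff_X, map_zero] at this
  have h3 : 3 * z ^ 2 = 0 := by linear_combination this
  simpa using h3

end O0

open O0 in
theorem o0S (h : NexStmt) : O0Stmt := by
  intro k L _ _ _ _ κ D s z c ω μ S ν ζ σ φ Ξ hX hc hn hω s0 s1 hφ hD hΞ H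
  obtain ⟨hz, -, ind, -⟩ := h k L κ D s z hX
  have : CharZero L := charZero_of_injective_ringHom κ.injective
  have : CharZero L⸨X⸩ := K3.charL
  have ω4 : ω ^ 4 = 1 := hω.pow_eq_one
  have ω0 : ω ≠ 0 := hω.ne_zero (by norm_num)
  have ω1 : ω ^ 1 ≠ 1 := hω.pow_ne_one_of_pos_of_lt (by norm_num) (by norm_num)
  have ω2 : ω ^ 2 ≠ 1 := hω.pow_ne_one_of_pos_of_lt (by norm_num) (by norm_num)
  obtain ⟨ζi, hζ⟩ : ∃ ζi, ζ * ζi = 1 :=
    (isUnit_iff_constantCoeff.2 (by rw [show constantCoeff ζ = z from hn.z0]; exact hz.isUnit)).exists_right_inv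
  have zi0 : cc ζi = z⁻¹ := by
    have := congrArg cc hζ
    rw [map_mul, hn.z0, map_one] at this
    exact eq_inv_of_mul_eq_one_right this
  obtain ⟨σ1, rfl⟩ := X_dvd_iff.2 s0
  have σ0 : cc σ1 = ω := by rw [← s1, ← pow_one X, coeff_X_pow_mul_self]
  obtain ⟨τ, hτ⟩ : ∃ τ, σ1 * τ = 1 :=
    (isUnit_iff_constantCoeff.2 (by rw [show constantCoeff σ1 = ω from σ0]; exact ω0.isUnit)).exists_right_inv
  have u0 : cc (C ω * τ) = 1 := by
    have := congrArg cc hτ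
    rwa [map_mul, σ0, map_one, ← constantCoeff_C ω, ← map_mul] at this
  have pq : wL L 1 * wL L (-1) = 1 := wL_mul_neg 1
  have q3 : wL L (-3) = wL L (-1) ^ 3 := by rw [wL_pow]; rfl
  have hδ := hX.der.coefL
  set θ : k →+* L⸨X⸩ := (cL L).comp κ with hθ
  have θ1 : ∀ a, cL L (κ a) = θ a := fun _ => rfl
  have θ0 : ∀ a, cwL D (θ a) = 0 := fun a => by rw [← θ1, cwL_cL, hX.con, map_zero]
  have mσ : map κ (X * σ1) = X * map κ σ1 := by rw [map_mul, map_X]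
  have c0 : cc (X * map κ σ1) = 0 := by simp
  rw [mσ] at hφ
  have hZ : coeL L (X * ζ) * (wL L (-1) * coeL L ζi) = 1 := by
    have := congrArg (coeL L) hζ
    rw [map_mul, map_one] at this
    rw [map_mul, coeL_X]
    linear_combination coeL L ζ * coeL L ζi * pq + this
  have φ3 : θ ω⁻¹ * φ (wL L (-3)) = wL L (-3) * coeL L (map κ ((C ω * τ) ^ 3)) := by
    have a1 : φ (wL L 1) = wL L 1 * coeL L (map κ σ1) := by
      rw [← coeL_X, hφ, sb_X c0, map_mul]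
    have a2 := congrArg φ pq
    have a3 := congrArg (fun u => coeL L (map κ u)) hτ
    simp only [map_mul, map_one] at a2 a3
    rw [a1] at a2
    have a4 : φ (wL L (-1)) = wL L (-1) * coeL L (map κ τ) := by
      linear_combination (wL L (-1) * coeL L (map κ τ)) * a2 -
        φ (wL L (-1)) * (coeL L (map κ σ1) * coeL L (map κ τ)) * pq - φ (wL L (-1)) * a3
    have a5 : ω⁻¹ = ω ^ 3 := by field_simp; exact ω4.symm
    rw [q3, a5]
    simp only [map_pow, map_mul, a4, map_C, coeL_C, θ1]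
    ring
  have v1 : cc (map κ ((C ω * τ) ^ 3)) = 1 := by rw [cc_map, map_pow, u0, one_pow, map_one]
  have hh : cwL D (dh 3 (θ ω⁻¹ * φ (wL L (-3)))) = 0 := by
    have : cw D (map κ ((C ω * τ) ^ 3) - C 3⁻¹ * thP L (map κ ((C ω * τ) ^ 3))) = 0 := by
      ext n
      rw [coeff_cw, map_sub, coeff_C_mul, coeff_thP, coeff_map, map_zero, ← hX.con
        (coeff n ((C ω * τ) ^ 3) - 3⁻¹ * (n * coeff n ((C ω * τ) ^ 3)))]
      simp only [map_sub, map_mul, map_inv₀, map_ofNat, map_natCast]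
    rw [φ3, dh_eq, cwL_coeL, this, map_zero]
  have ds : cwL D (cL L s) = 1 := by rw [cwL_cL, hX.ds, map_one]
  rw [dO, map_zero] at hΞ
  simp only [θ1] at hΞ H
  rw [split θ hδ θ0 ds hZ] at hΞ
  rw [hΞ] at H
  have H1 := drop hδ φ hD (θ0 _) hh H
  have eξ : cL L (κ μ - 2 * κ ν * s) * (wL L (-1) * coeL L ζi) ^ 3 +
      θ (-3 / 8 * S) * (wL L (-1) * coeL L ζi) ^ 2 + θ (6 * ν * c) * (wL L (-1) * coeL L ζi) +
      θ (3 / 4 * S * c) * (cwL D (coeL L (X * ζ)) * (wL L (-1) * coeL L ζi)) =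
      wL L (-3) * coeL L (C (κ μ - 2 * κ ν * s) * ζi ^ 3 + C (κ (-3 / 8 * S)) * X * ζi ^ 2 +
        C (κ (6 * ν * c)) * X ^ 2 * ζi + C (κ (3 / 4 * S * c)) * X ^ 3 * (cw D ζ * ζi)) := by
    rw [map_mul (coeL L) X, coeL_X, cwL_wL_mul, cwL_coeL, q3]
    simp only [map_add (coeL L), map_mul (coeL L), map_pow (coeL L), coeL_C, coeL_X, θ1]
    linear_combination -(θ (-3 / 8 * S) * (wL L (-1) * coeL L ζi) ^ 2 +
      θ (6 * ν * c) * (wL L (-1) * coeL L ζi) * (wL L 1 * wL L (-1) + 1) +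
      θ (3 / 4 * S * c) * (coeL L (cw D ζ) * coeL L ζi) * (wL L 1 * wL L (-1)) *
        (wL L 1 * wL L (-1) + 1)) * pq
  rw [eξ] at H1
  generalize hξ : C (κ μ - 2 * κ ν * s) * ζi ^ 3 + C (κ (-3 / 8 * S)) * X * ζi ^ 2 +
    C (κ (6 * ν * c)) * X ^ 2 * ζi + C (κ (3 / 4 * S * c)) * X ^ 3 * (cw D ζ * ζi) = ξ at H1
  generalize hv : (C ω * τ) ^ 3 = v at φ3 v1
  have H2 : ∀ n, Ex D (coeff n (map κ v * sb (X * map κ σ1) ξ -
      (map κ v - C 3⁻¹ * thP L (map κ v)) * ξ)) := by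
    refine ex_coeff ?_
    rw [map_mul φ, ← mul_assoc, φ3, dh_eq, hφ] at H1
    rw [map_sub (coeL L), map_mul (coeL L), map_mul (coeL L)]
    obtain ⟨y, hy⟩ := H1
    exact ⟨y, hy.trans (by ring)⟩
  have z3 : ζi ^ 3 = C (z⁻¹ ^ 3) + X ^ 4 * (C (z⁻¹ ^ 3) * C (κ c ^ 2) * ζ) := by
    have a1 := hn.cu
    have a2 : (C (z⁻¹ ^ 3) : L⟦X⟧) * C (1 + s ^ 2) = 1 := by
      rw [← map_mul, ← hX.cub, ← mul_pow, inv_mul_cancel₀ hz, one_pow, map_one]
    linear_combination -(C (z⁻¹ ^ 3) * ζi ^ 3) * a1 - ζi ^ 3 * a2 +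
      C (z⁻¹ ^ 3) * (1 + C (κ c ^ 2) * X ^ 4 * ζ) * ((ζ * ζi) ^ 2 + ζ * ζi + 1) * hζ
  have key : ∀ (j : ℕ) (g : L⟦X⟧), ξ = C ((κ μ - 2 * κ ν * s) * z⁻¹ ^ 3) + X ^ j * g →
      Ex D ((κ ω ^ j - 1) * cc g + (κ (3⁻¹ * (j * coeff j v) * μ) +
        κ (3⁻¹ * (j * coeff j v) * (-2 * ν)) * s) / z ^ 3) := fun j g e => by
    have := H2 j
    rw [e, coef v1, cc_map, σ0, coeff_map] at this
    convert this using 2
    simp only [map_mul, map_inv₀, map_ofNat, map_natCast, map_neg]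
    field_simp
    ring
  have hS : S = 0 := by
    have := key 1 (C (κ (-3 / 8 * S)) * ζi ^ 2 + X * (C (κ (6 * ν * c)) * ζi +
      C (κ (3 / 4 * S * c)) * X * (cw D ζ * ζi) +
      C (κ μ - 2 * κ ν * s) * X ^ 2 * (C (z⁻¹ ^ 3) * C (κ c ^ 2) * ζ)))
      (by rw [← hξ, z3, map_mul C]; ring)
    have a := (ind ((ω ^ 1 - 1) * (-3 / 8 * S)) 0 _ _ (by
      convert this using 2
      simp only [map_add, map_mul, map_pow, map_sub, map_one, map_zero, constantCoeff_C,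
        constantCoeff_X, zi0]
      field_simp
      ring)).1
    have := (mul_eq_zero.1 a).resolve_left (sub_ne_zero.2 ω1)
    linear_combination -8 / 3 * this
  subst hS
  have hν : ν = 0 := by
    have := key 2 (C (κ (6 * ν * c)) * ζi + X *
      (C (κ μ - 2 * κ ν * s) * X * (C (z⁻¹ ^ 3) * C (κ c ^ 2) * ζ)))
      (by rw [← hξ, z3, map_mul C]; simp only [mul_zero, zero_mul, map_zero]; ring)
    have a := (ind 0 ((ω ^ 2 - 1) * (6 * ν * c)) _ _ (by
      convert this using 2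
      simp only [map_add, map_mul, map_pow, map_sub, map_one, map_zero, constantCoeff_C,
        constantCoeff_X, zi0]
      field_simp
      ring)).2.1
    have := (mul_eq_zero.1 ((mul_eq_zero.1 a).resolve_left (sub_ne_zero.2 ω2))).resolve_right hc
    linear_combination 1 / 6 * this
  subst hν
  refine ⟨rfl, rfl, fun hμ => ?_⟩
  have fin : ∀ r : ℕ, X ^ r ∣ v - 1 → X ^ (r + 1) ∣ X * σ1 - C ω * X := fun r hr => by
    have un : IsUnit ((C ω * τ) ^ 2 + C ω * τ + 1) := isUnit_iff_constantCoeff.2 (by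
      rw [map_add, map_add, map_pow, show constantCoeff (C ω * τ) = 1 from u0, map_one]
      exact isUnit_iff_ne_zero.2 (by norm_num))
    rw [← hv, show (C ω * τ) ^ 3 - 1 = (C ω * τ - 1) * ((C ω * τ) ^ 2 + C ω * τ + 1) by ring,
      un.dvd_mul_right] at hr
    obtain ⟨g, hg⟩ := hr
    exact ⟨-(σ1 * g), by linear_combination -(X * σ1) * hg + X * C ω * hτ⟩
  by_cases hv1 : v - 1 = 0
  · refine sub_eq_zero.1 (PowerSeries.ext fun n => ?_)
    rw [map_zero]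
    exact X_pow_dvd_iff.1 (fin n (hv1 ▸ dvd_zero _)) n (Nat.lt_succ_self n)
  obtain ⟨r, hr⟩ := exists_ordIs hv1
  obtain ⟨g, hg, g0⟩ := hr.fac
  have r0 : r ≠ 0 := by
    rintro rfl
    refine hr.1 ?_
    rw [coeff_zero_eq_constantCoeff_apply, map_sub, ← hv, map_pow,
      show constantCoeff (C ω * τ) = 1 from u0, map_one, one_pow, sub_self]
  obtain ⟨e, he⟩ := fin r ⟨g, hg⟩
  have w0 : cc (C (κ ω) * X : L⟦X⟧) = 0 := by simp
  have iζ : sb (C (κ ω) * X) ζi = ζi := by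
    have a := congrArg (sb (C (κ ω) * X)) hζ
    rw [map_mul, map_one, inv_sb hz hn.z0 hn.cu (by rw [← map_pow, ω4, map_one])] at a
    linear_combination ζi * a - sb (C (κ ω) * X) ζi * hζ
  obtain ⟨e', he'⟩ := ev_sub (up (⊥ : Ideal L)) (φ := C) (mem_up_bot.2 c0) (mem_up_bot.2 w0) ζi
  change sb _ _ - sb _ _ = _ at he'
  have he2 := congrArg (map κ) he
  have hg2 := congrArg (fun u => thP k u) hg
  simp only [map_sub, map_mul, map_pow, map_X, map_C] at he2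
  rw [iζ, he2] at he'
  have eξ2 : ξ = C (κ μ) * ζi ^ 3 := by rw [← hξ]; simp
  have H3 := H2 r
  obtain ⟨t, ht⟩ : X ^ r ∣ thP L (map κ v) := X_pow_dvd_iff.2 fun m hm => by
    have := hr.2 m hm
    rw [map_sub, coeff_one] at this
    rw [coeff_thP, coeff_map]
    split_ifs at this with h0
    · simp [h0]
    · rw [sub_zero] at this
      rw [this, map_zero, mul_zero]
  have t0 : cc t = r * κ (coeff r v) := by
    rw [← coeff_X_pow_mul_self r, ← ht, coeff_thP, coeff_map]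
  have eT : map κ v * sb (X * map κ σ1) ξ - (map κ v - C 3⁻¹ * thP L (map κ v)) * ξ =
      X ^ r * (X * (map κ v * C (κ μ) * map κ e * e' * (sb (X * map κ σ1) ζi ^ 2 +
        sb (X * map κ σ1) ζi * ζi + ζi ^ 2)) + C 3⁻¹ * t * C (κ μ) * ζi ^ 3) := by
    rw [eξ2, ht, map_mul, map_pow, sb_C c0]
    linear_combination map κ v * C (κ μ) * (sb (X * map κ σ1) ζi ^ 2 +
      sb (X * map κ σ1) ζi * ζi + ζi ^ 2) * he'
  rw [eT, coeff_X_pow_mul_self] at H3
  have a := (ind 0 0 (3⁻¹ * (r * coeff r v) * μ) 0 (by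
    convert H3 using 1
    simp only [map_add, map_mul, map_pow, map_zero, constantCoeff_C, constantCoeff_X, zi0, t0,
      map_inv₀, map_ofNat, map_natCast]
    field_simp
    ring)).2.2.1
  have b := hr.1
  rw [map_sub, coeff_one, if_neg r0, sub_zero] at b
  simp [r0, b, hμ] at a

end Pool.Agent.MP_05b4bd_ag.XO
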