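import Pool.Agent.MP_05b4bd_ag.ex.Bas

/-! The second comparison in the annulus. -/

namespace Pool.Agent.MP_05b4bd_ag.XO

open PowerSeries LaurentSeries HC
open ES hiding Gen Ob Inf
open ES.U (TM Cr hom)
open PC3 (Fm fm d1 DF sub2 pb mapF Van CenK)
open RV (fa fb Frm Good Rho Fac Dk In Cg ExoK SymK RRc Ob NoF)

namespace O1

variable {L : Type} [Field L]

/-- A series in `W ^ 4` up to order twelve. -/
def Ap (g : L⟦X⟧) (a b c : L) : Prop :=
  ∃ h, g = C a + C b * X ^ 4 + C c * X ^ 8 + X ^ 12 * h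

theorem Ap.congr {g : L⟦X⟧} {a b c a' b' c' : L} (h : Ap g a b c) (ha : a = a') (hb : b = b')
    (hc : c = c') : Ap g a' b' c' := ha ▸ hb ▸ hc ▸ h

theorem Ap.mul {g g' : L⟦X⟧} {a b c a' b' c' : L} (h : Ap g a b c) (h' : Ap g' a' b' c') :
    Ap (g * g') (a * a') (a * b' + b * a') (a * c' + b * b' + c * a') := by
  obtain ⟨u, rfl⟩ := h
  obtain ⟨v, rfl⟩ := h'
  refine ⟨C b * C c' + C c * C b' + C c * C c' * X ^ 4 +
    u * (C a' + C b' * X ^ 4 + C c' * X ^ 8 + X ^ 12 * v) +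
    (C a + C b * X ^ 4 + C c * X ^ 8) * v, ?_⟩
  simp only [map_add, map_mul]
  ring

theorem Ap.inv {g g' : L⟦X⟧} {a b c a' b' c' : L} (e : g * g' = 1) (h : Ap g a b c)
    (h0 : a * a' = 1) (h1 : a * b' + b * a' = 0) (h2 : a * c' + b * b' + c * a' = 0) :
    Ap g' a' b' c' := by
  have p : Ap (C a' + C b' * X ^ 4 + C c' * X ^ 8) a' b' c' := ⟨0, by ring⟩
  obtain ⟨u, hu⟩ := (h.mul p).congr h0 h1 h2
  refine ⟨-(g' * u), ?_⟩
  simp only [map_one, map_zero] at hu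
  linear_combination (C a' + C b' * X ^ 4 + C c' * X ^ 8) * e - g' * hu

theorem Ap.coeff {g : L⟦X⟧} {a b c : L} (h : Ap g a b c) (f : L⸨X⸩) {m r : ℤ}
    (hm : ∀ n < m, f.coeff n = 0) (hr : r < m + 12) :
    (coeL L g * f).coeff r = a * f.coeff r + b * f.coeff (r - 4) + c * f.coeff (r - 8) := by
  obtain ⟨u, rfl⟩ := h
  have e : (coeL L u * f).coeff (r - 12) = 0 := by
    obtain ⟨g', rfl⟩ := exists_wL_mul_of_low hm
    rw [mul_left_comm, ← map_mul, coeff_wL_mul]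
    exact coeff_coeL_neg _ (by omega)
  simp only [map_add, map_mul, coeL_C, coeL_X_pow, add_mul, mul_assoc, HahnSeries.coeff_add,
    coeff_cL_mul, coeff_wL_mul, Nat.cast_ofNat, e, add_zero]

theorem Ap.mono {g : L⟦X⟧} {a b c : L} (h : Ap g a b c) (m : ℤ) {r : ℤ} (hr : r < m + 12) :
    (coeL L g * wL L m).coeff r =
      if r = m then a else if r = m + 4 then b else if r = m + 8 then c else 0 := by
  rw [h.coeff (wL L m) (m := m) (fun n hn => by rw [coeff_wL, if_neg hn.ne]) hr]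
  simp only [coeff_wL]
  split_ifs <;> first | omega | ring

theorem low (g : L⟦X⟧) (m : ℤ) {r : ℤ} (hr : r < m) : (coeL L g * wL L m).coeff r = 0 := by
  rw [mul_comm, coeff_wL_mul]
  exact coeff_coeL_neg _ (by omega)

/-- Two solutions of the equation of the curve. -/
theorem diff {q e z : L} {ζ ζ' d : L⟦X⟧} (h3 : 3 * z ^ 2 ≠ 0) (h0 : cc ζ = z) (h0' : cc ζ' = z)
    (h : ζ ^ 3 = C q - C e * X ^ 4 * ζ ^ 4) (h' : ζ' ^ 3 = C q - C e * X ^ 4 * ζ' ^ 4 + d) :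
    ∃ v, ζ = ζ' + d * v := by
  have hu : IsUnit (ζ ^ 2 + ζ * ζ' + ζ' ^ 2 + C e * X ^ 4 * (ζ + ζ') * (ζ ^ 2 + ζ' ^ 2)) := by
    rw [isUnit_iff_constantCoeff]
    refine IsUnit.mk0 _ ?_
    simp only [map_add, map_mul, map_pow, h0, h0', constantCoeff_X]
    convert h3 using 1
    ring
  obtain ⟨v, hv⟩ := hu.exists_right_inv
  exact ⟨-v, by linear_combination (ζ' - ζ) * hv + v * h - v * h'⟩

theorem key {F : Type} [Field F] [CharZero F] {D : F →+ F} (h : IsDer D)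
    {s c w Z S ν K G : F} (hs : D s = 1) (hc : D c = 0) (h0 : D w = 0) (hS : D S = 0)
    (hν : D ν = 0) (hw : w ^ 2 = -1) (hZ : Z ≠ 0) :
    (S * (w * Z) ^ 2 * D ((s - c * (w * Z) ^ 2) / (w * Z)) +
      4 * ν * ((s - c * (w * Z) ^ 2) ^ 2 - s ^ 2) * D (w * Z) / (w * Z) +
      4 * (K * (w * Z) + G * (w * Z) ^ 2) / (3 * (1 + s ^ 2) + c ^ 2 * (w * Z) ^ 4) -
      (S * Z ^ 2 * D ((s - c * Z ^ 2) / Z) + 4 * ν * ((s - c * Z ^ 2) ^ 2 - s ^ 2) * D Z / Z +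
      4 * (K * Z + G * Z ^ 2) / (3 * (1 + s ^ 2) + c ^ 2 * Z ^ 4))) / Z ^ 3 =
    S * (w - 1) / 2 * Z⁻¹ ^ 2 + S * c * (w + 1) * (D Z * Z⁻¹) + 16 * ν * c * Z⁻¹ +
      4 * K * (w - 1) * (Z⁻¹ ^ 2 * (3 * (1 + s ^ 2) + c ^ 2 * Z ^ 4)⁻¹) -
      8 * G * (Z⁻¹ * (3 * (1 + s ^ 2) + c ^ 2 * Z ^ 4)⁻¹) +
      D (S * (w - 1) * 2⁻¹ * (s * (Z⁻¹ * Z⁻¹)) - 16 * ν * c * (s * Z⁻¹)) := by
  have w0 : w ≠ 0 := by
    rintro rfl
    norm_num at hw
  have i : D Z⁻¹ = -(Z⁻¹ ^ 2 * D Z) := h.inv (mul_inv_cancel₀ hZ)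
  have n2 : D (2⁻¹ : F) = 0 := by
    rw [h.inv (mul_inv_cancel₀ (two_ne_zero (α := F))), show D (2 : F) = 0 from h.natCast 2]
    simp
  have n16 : D (16 : F) = 0 := h.natCast 16
  have e1 : (s - c * (w * Z) ^ 2) / (w * Z) = -w * (s * Z⁻¹) - c * (w * Z) := by
    field_simp
    linear_combination s * hw
  have e2 : (s - c * Z ^ 2) / Z = s * Z⁻¹ - c * Z := by field_simp
  have e3 : (w * Z) ^ 4 = Z ^ 4 := by linear_combination Z ^ 4 * (w ^ 2 - 1) * hw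
  have e4 : (w * Z) ^ 2 = -Z ^ 2 := by linear_combination Z ^ 2 * hw
  rw [e1, e2, e3, e4]
  generalize 3 * (1 + s ^ 2) + c ^ 2 * Z ^ 4 = Λ
  simp only [map_sub, map_neg, h _ _, hs, hc, h0, hS, hν, i, n2, n16, h.one, div_eq_mul_inv,
    mul_inv]
  generalize Λ⁻¹ = Λi
  field_simp
  ring

variable {k : Type} [Field k] {κ : k →+* L} {D : L →+ L} {s z : L} {c : k} {ζ : L⟦X⟧}

theorem Ap.C_mul {g : L⟦X⟧} {a b c : L} (h : Ap g a b c) (r : L) :
    Ap (C r * g) (r * a) (r * b) (r * c) := by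
  have p : Ap (C r) r 0 0 := ⟨0, by simp⟩
  exact (p.mul h).congr rfl (by ring) (by ring)

/-- The expansions along the curve. -/
theorem series [CharZero L] (hq : z ^ 3 = 1 + s ^ 2) (hz : z ≠ 0) (H : Cn κ s z c ζ) :
    ∃ ζi Λi : L⟦X⟧, ζ * ζi = 1 ∧ (3 * (1 + C s ^ 2) + C (κ c) ^ 2 * (X * ζ) ^ 4) * Λi = 1 ∧
      Ap ζi z⁻¹ (κ c ^ 2 / 3) (-(2 / 9) * κ c ^ 4 * z) ∧
      Ap Λi (1 / (3 * z ^ 3)) (-κ c ^ 2 / (9 * z ^ 2)) (5 * κ c ^ 4 / (27 * z)) := by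
  have h3 : 3 * z ^ 2 ≠ 0 := by simp [hz]
  have ht' : (3 : L⟦X⟧) * C (3⁻¹ : L) = 1 := by
    rw [← map_ofNat (C : L →+* L⟦X⟧) 3, ← map_mul, mul_inv_cancel₀ three_ne_zero, map_one]
  have hq' : (C (1 + s ^ 2) : L⟦X⟧) = C z ^ 3 := by rw [← map_pow, hq]
  have a1 : Ap ζ z (-(κ c ^ 2 * z ^ 2) * 3⁻¹) (κ c ^ 4 * z ^ 3 * 3⁻¹) := by
    obtain ⟨Y, hY⟩ : ∃ Y : L⟦X⟧, Y = C (κ c ^ 2) * C z * X ^ 4 := ⟨_, rfl⟩
    generalize hT : (C (3⁻¹ : L) : L⟦X⟧) = T at ht'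
    obtain ⟨v, hv⟩ := diff (ζ' := C z * (1 + T * (Y ^ 2 - Y))) (d := C z ^ 3 * Y ^ 3 * (T ^ 4 *
      (105 - 84 * Y + 82 * Y ^ 2 - 37 * Y ^ 3 + 18 * Y ^ 4 - 4 * Y ^ 5 + Y ^ 6))) h3 H.z0
      (by simp [hY]) H.cu (by
        rw [hq']
        linear_combination (-C z ^ 3 * (Y * (1 + 3 * T + 9 * T ^ 2 + 27 * T ^ 3) +
          T * (Y ^ 2 - Y) * (3 + 4 * Y) * (1 + 3 * T + 9 * T ^ 2) +
          T ^ 2 * (Y ^ 2 - Y) ^ 2 * (3 + 6 * Y) * (1 + 3 * T) +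
          T ^ 3 * (Y ^ 2 - Y) ^ 3 * (1 + 4 * Y))) * ht' -
          C z ^ 3 * (1 + T * (Y ^ 2 - Y)) ^ 4 * hY)
    refine ⟨C z ^ 3 * (C (κ c ^ 2) * C z) ^ 3 * (T ^ 4 *
      (105 - 84 * Y + 82 * Y ^ 2 - 37 * Y ^ 3 + 18 * Y ^ 4 - 4 * Y ^ 5 + Y ^ 6)) * v, ?_⟩
    rw [hv]
    generalize T ^ 4 *
      (105 - 84 * Y + 82 * Y ^ 2 - 37 * Y ^ 3 + 18 * Y ^ 4 - 4 * Y ^ 5 + Y ^ 6) = R
    simp only [map_mul, map_neg, map_pow, hT, hY]
    ring
  have a2 : Ap (3 * (1 + C s ^ 2) + C (κ c) ^ 2 * (X * ζ) ^ 4) (3 * z ^ 3) (κ c ^ 2 * z ^ 4)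
      (-(4 / 3) * κ c ^ 4 * z ^ 5) := by
    obtain ⟨e, u, hu⟩ : ∃ e, Ap (C (κ c ^ 2) * (ζ * ζ * (ζ * ζ))) (κ c ^ 2 * z ^ 4)
        (-(4 / 3) * κ c ^ 4 * z ^ 5) e :=
      ⟨_, (((a1.mul a1).mul (a1.mul a1)).C_mul (κ c ^ 2)).congr (by ring) (by ring) rfl⟩
    refine ⟨C e + X ^ 4 * u, ?_⟩
    rw [hq, map_mul (C : L →+* L⟦X⟧) 3, map_ofNat, map_add, map_one, map_pow]
    rw [map_pow] at hu
    linear_combination X ^ 4 * hu
  have u1 : IsUnit ζ := by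
    rw [isUnit_iff_constantCoeff]
    exact IsUnit.mk0 _ (H.z0 ▸ hz)
  have u2 : IsUnit (3 * (1 + C s ^ 2) + C (κ c) ^ 2 * (X * ζ) ^ 4 : L⟦X⟧) := by
    rw [isUnit_iff_constantCoeff]
    refine IsUnit.mk0 _ ?_
    simp [← hq, hz, map_ofNat]
  obtain ⟨ζi, h1⟩ := u1.exists_right_inv
  obtain ⟨Λi, h2⟩ := u2.exists_right_inv
  exact ⟨ζi, Λi, h1, h2,
    a1.inv h1 (by field_simp) (by field_simp; ring) (by field_simp; ring),
    a2.inv h2 (by field_simp) (by field_simp; ring) (by field_simp; ring)⟩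

/-- The deck map multiplies the coordinate by the root of unity. -/
theorem deck [CharZero L] (hz : z ≠ 0) (H : Cn κ s z c ζ) {w : L} (hw : w ^ 4 = 1) :
    sb (C w * X) (X * ζ) = C w * (X * ζ) := by
  have h0 : cc (C w * X : L⟦X⟧) = 0 := by simp
  have h4 : (C w : L⟦X⟧) ^ 4 = 1 := by rw [← map_pow, hw, map_one]
  have e := congrArg (sb (C w * X)) H.cu
  simp only [map_sub, map_mul (sb (C w * X)), map_pow (sb (C w * X)), sb_C h0, sb_X h0] at e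
  obtain ⟨v, hv⟩ := diff (q := 1 + s ^ 2) (e := κ c ^ 2) (ζ := sb (C w * X) ζ) (d := 0)
    (show 3 * z ^ 2 ≠ 0 by simp [hz]) (by rw [cc_sb h0, H.z0]) H.z0
    (by rw [e, mul_pow, h4, one_mul]) (by rw [add_zero]; exact H.cu)
  rw [map_mul, sb_X h0, hv]
  ring

/-- The equation for the coefficients. -/
theorem eqn [CharZero L] (hD : IsDer D) (hs : D s = 1) (hz : z ≠ 0) (H : Cn κ s z c ζ)
    {w μ S ν K G : L} (hc : D (κ c) = 0) (h0 : D w = 0) (hS : D S = 0) (hν : D ν = 0)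
    (hw : w ^ 2 = -1) {φ : L⸨X⸩ →+* L⸨X⸩} (h1 : ∀ r, φ (coeL L r) = coeL L (sb (C w * X) r))
    (h2 : ∀ r, cwL D (φ r) = φ (cwL D r)) {η : L⸨X⸩} {ζi Λi : L⟦X⟧} (i1 : ζ * ζi = 1)
    (i2 : (3 * (1 + C s ^ 2) + C (κ c) ^ 2 * (X * ζ) ^ 4) * Λi = 1)
    (hE : Ex (cwL D) (cL L μ * (η / (3 * (1 + cL L s ^ 2) + cL L (κ c) ^ 2 * coeL L (X * ζ) ^ 4) -
      dh 3 η / (3 * coeL L (X * ζ) ^ 3)) -
    3 / 4 * (φ (dO D s (κ c) (coeL L (X * ζ)) S ν K G) -
      dO D s (κ c) (coeL L (X * ζ)) S ν K G) / coeL L (X * ζ) ^ 3)) (r : ℤ) :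
    ∃ v, D v = μ * ((coeL L Λi * η).coeff r + 1 / 9 * (coeL L (ζi * ζi * ζi) * thL L η).coeff r) -
      (3 / 8 * S * (w - 1) * (coeL L (ζi * ζi) * wL L (-2)).coeff r +
        3 / 4 * S * κ c * (w + 1) * (coeL L (cw D ζ * ζi)).coeff r +
        12 * ν * κ c * (coeL L ζi * wL L (-1)).coeff r +
        3 * K * (w - 1) * (coeL L (ζi * ζi * Λi) * wL L (-2)).coeff r -
        6 * G * (coeL L (ζi * Λi) * wL L (-1)).coeff r) := by
  have : CharZero L⸨X⸩ := K3.charL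
  have x0 : cc (C w * X : L⟦X⟧) = 0 := by simp
  have p1 : ∀ a, φ (cL L a) = cL L a := fun a => by rw [← coeL_C, h1, sb_C x0]
  have p2 : φ (coeL L (X * ζ)) = cL L w * coeL L (X * ζ) := by
    rw [h1, deck hz H (by linear_combination (w ^ 2 - 1) * hw), map_mul, coeL_C]
  have hA : wL L 1 ≠ 0 := (isUnit_wL 1).ne_zero
  have a1 : wL L (-1) = (wL L 1)⁻¹ := eq_inv_of_mul_eq_one_right (wL_mul_neg 1)
  have a2 : wL L (-2) = (wL L 1)⁻¹ ^ 2 := by rw [← a1, wL_pow]; rfl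
  have a3 : wL L ((3 : ℕ) : ℤ) = wL L 1 ^ 3 := by rw [wL_pow]; rfl
  have j1 : coeL L ζ * coeL L ζi = 1 := by rw [← map_mul, i1, map_one]
  have hY : coeL L ζ ≠ 0 := left_ne_zero_of_mul_eq_one j1
  have y1 : coeL L ζi = (coeL L ζ)⁻¹ := eq_inv_of_mul_eq_one_right j1
  have eZ : coeL L (X * ζ) = wL L 1 * coeL L ζ := by rw [map_mul, coeL_X]
  have y2 : coeL L Λi = (3 * (1 + cL L s ^ 2) + cL L (κ c) ^ 2 * coeL L (X * ζ) ^ 4)⁻¹ := by
    refine eq_inv_of_mul_eq_one_right ?_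
    have := congrArg (coeL L) i2
    simpa only [map_mul (coeL L) _ Λi, map_mul (coeL L) 3, map_mul (coeL L) (C (κ c) ^ 2), map_add,
      map_pow, map_one, map_ofNat, coeL_C] using this
  have dZ : cwL D (coeL L (X * ζ)) = wL L 1 * coeL L (cw D ζ) := by
    rw [eZ, cwL_wL_mul, cwL_coeL]
  have hk := key (D := cwL D) hD.coefL (s := cL L s) (c := cL L (κ c)) (w := cL L w)
    (Z := coeL L (X * ζ)) (S := cL L S) (ν := cL L ν) (K := cL L K) (G := cL L G)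
    (by rw [cwL_cL, hs, map_one]) (by rw [cwL_cL, hc, map_zero]) (by rw [cwL_cL, h0, map_zero])
    (by rw [cwL_cL, hS, map_zero]) (by rw [cwL_cL, hν, map_zero])
    (by rw [← map_pow, hw, map_neg, map_one]) (by rw [eZ]; exact mul_ne_zero hA hY)
  obtain ⟨V, hV⟩ := hE
  simp only [dO, map_add, map_mul φ, map_sub φ, map_div₀ φ, map_pow φ, map_ofNat φ, map_one φ, p1,
    p2, ← h2] at hV
  rw [mul_div_assoc _ _ (_ ^ 3), hk] at hV
  generalize cL L S * (cL L w - 1) * 2⁻¹ * _ - _ = T at hV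
  have hT : cwL D (V + cL L (3 / 4) * T) = cL L μ * (coeL L Λi * η + cL L (1 / 9) *
      (coeL L (ζi * ζi * ζi) * thL L η)) -
      (cL L (3 / 8 * S * (w - 1)) * (coeL L (ζi * ζi) * wL L (-2)) +
        cL L (3 / 4 * S * κ c * (w + 1)) * coeL L (cw D ζ * ζi) +
        cL L (12 * ν * κ c) * (coeL L ζi * wL L (-1)) +
        cL L (3 * K * (w - 1)) * (coeL L (ζi * ζi * Λi) * wL L (-2)) -
        cL L (6 * G) * (coeL L (ζi * Λi) * wL L (-1))) := by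
    have n : D (3 / 4 : L) = 0 := by
      have := hD (3 / 4) 4
      rw [show (3 / 4 * 4 : L) = 3 by norm_num, show D (3 : L) = 0 from hD.natCast 3,
        show D (4 : L) = 0 from hD.natCast 4] at this
      linear_combination -this / 4
    rw [map_add, hD.coefL, cwL_cL, n, map_zero, hV, dZ, div_eq_mul_inv η, ← y2, dh, a3, a1, a2, eZ]
    simp only [map_mul, map_add, map_sub, map_div₀, map_inv₀, map_ofNat, map_one, y1,
      Nat.cast_ofNat]
    field_simp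
    ring
  refine ⟨(V + cL L (3 / 4) * T).coeff r, ?_⟩
  rw [← coeff_cwL, hT]
  simp only [HahnSeries.coeff_add, HahnSeries.coeff_sub, coeff_cL_mul]

end O1

open O1 in
theorem o1S (h : NexStmt) : O1Stmt := by
  intro k L _ _ _ _ κ D s z c ω μ S ν K G ζ φ η hX hc hμ H hω h1 h2 hη hE
  have : CharZero L := charZero_of_injective_ringHom κ.injective
  obtain ⟨hz, dz, N, -⟩ := h k L κ D s z hX
  have hD := hX.der
  have hw : ω ^ 2 = -1 := (hω.pow (by norm_num) (show 4 = 2 * 2 by norm_num)).eq_neg_one_of_two_right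
  have w1 : ω - 1 ≠ 0 := fun e => by
    rw [sub_eq_zero.1 e] at hw
    norm_num at hw
  have w2 : ω + 1 ≠ 0 := fun e => by
    rw [eq_neg_of_add_eq_zero_left e] at hw
    norm_num at hw
  obtain ⟨ζi, Λi, i1, i2, A1, A2⟩ := series hX.cub hz H
  have E := eqn hD hX.ds hz H (hX.con c) (hX.con ω) (hX.con S) (hX.con ν)
    (by rw [← map_pow, hw, map_neg, map_one])
    (by simpa only [map_mul, map_C, map_X] using h1) h2 i1 i2 hE
  choose e he using fun r : ℤ => hX.cst (η.coeff r) (by rw [← coeff_cwL, hη]; rfl)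
  -- the left part
  have hL : ∀ m r : ℤ, (∀ n < m, e n = 0) → r < m + 12 →
      κ μ * ((coeL L Λi * η).coeff r + 1 / 9 * (coeL L (ζi * ζi * ζi) * thL L η).coeff r) =
      κ (μ * c ^ 2 * (r - 5) / 9 * e (r - 4)) / z ^ 2 + κ (μ * c ^ 4 * (13 - r) / 27 * e (r - 8)) / z +
        κ (μ * (3 + r) / 9 * e r) / z ^ 3 := by
    intro m r hm hr
    rw [A2.coeff η (m := m) (fun n hn => by rw [he, hm n hn, map_zero]) hr,
      ((A1.mul A1).mul A1).coeff _ (m := m)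
        (fun n hn => by rw [coeff_thL, he, hm n hn, map_zero, mul_zero]) hr]
    simp only [coeff_thL, he, map_mul, map_div₀, map_pow, map_sub, map_add, map_ofNat, map_intCast]
    push_cast
    field_simp
    ring
  have q : s ^ 2 = z ^ 3 - 1 := by rw [hX.cub]; ring
  have iz : D z⁻¹ = -(z⁻¹ ^ 2 * D z) := hD.inv (mul_inv_cancel₀ hz)
  have d1 : D (s * z⁻¹) = 1 / 3 / z + 2 / 3 / z ^ 4 := by
    rw [hD, iz, dz, hX.ds]
    field_simp
    linear_combination (-2) * q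
  have d2 : D (s * (z⁻¹ * z⁻¹)) = -1 / 3 / z ^ 2 + 4 / 3 / z ^ 5 := by
    rw [hD, hD, iz, dz, hX.ds]
    field_simp
    linear_combination (-4) * q
  have d3 : D (s * z) = 5 / 3 * z - 2 / 3 / z ^ 2 := by
    rw [hD, dz, hX.ds]
    field_simp
    linear_combination 2 * q
  -- independence of the four classes, with a correction
  have M : ∀ (α β γ δ t : k) (v u y u' : L), D v = u → D y = u' →
      u + κ t * u' = κ α / z ^ 2 + κ β / z + (κ γ + κ δ * s) / z ^ 3 →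
      α = 0 ∧ β = 0 ∧ γ = 0 ∧ δ = 0 := fun α β γ δ t v u y u' e1 e2 e3 =>
    N α β γ δ ⟨v + κ t * y, by rw [map_add, hD, hX.con, e1, e2, ← e3]; ring⟩
  -- the least order
  have lo : ∀ m : ℤ, m ≠ -3 → (∀ n < m, e n = 0) → (∃ v, D v = κ μ * ((coeL L Λi * η).coeff m +
      1 / 9 * (coeL L (ζi * ζi * ζi) * thL L η).coeff m)) → e m = 0 := by
    rintro m hm h0 ⟨v, hv⟩
    rw [hL m m h0 (by omega), h0 (m - 4) (by omega), h0 (m - 8) (by omega)] at hv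
    have h3 : (3 + m : k) ≠ 0 := by exact_mod_cast (show (3 + m : ℤ) ≠ 0 by omega)
    have := (N 0 0 (μ * (3 + m) / 9 * e m) 0 ⟨v, by rw [hv]; simp⟩).2.2.1
    simpa [hμ, h3] using this
  have ord : η ≠ 0 → e η.order ≠ 0 ∧ ∀ n < η.order, e n = 0 := fun h0 =>
    ⟨fun e0 => HahnSeries.coeff_order_eq_zero.not.2 h0 (by rw [he, e0, map_zero]),
      fun n hn => κ.injective (by rw [← he, map_zero, HahnSeries.coeff_eq_zero_of_lt_order hn])⟩
  have l3 : ∀ n < -3, e n = 0 := by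
    intro n hn
    by_cases h0 : η = 0
    · exact κ.injective (by rw [← he, map_zero, h0]; rfl)
    obtain ⟨o1, o2⟩ := ord h0
    by_contra hn0
    have hle : η.order ≤ n := not_lt.1 fun hlt => hn0 (o2 n hlt)
    refine o1 (lo _ (by omega) o2 ?_)
    obtain ⟨v, hv⟩ := E η.order
    rw [low _ _ (by omega), low _ _ (by omega), low _ _ (by omega), low _ _ (by omega),
      coeff_coeL_neg _ (by omega)] at hv
    exact ⟨v, by rw [hv]; ring⟩
  have B2 := A1.mul A1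
  have B3 := B2.mul A2
  have B4 := A1.mul A2
  have hS : S = 0 := by
    obtain ⟨v, hv⟩ := E 0
    have c0 : (coeL L (cw D ζ * ζi)).coeff 0 = 2 * s / (3 * z ^ 3) := by
      have e1 := congrArg cc i1
      rw [map_mul, H.z0, map_one] at e1
      rw [show (0 : ℤ) = (0 : ℕ) from rfl, coeff_coeL, coeff_zero_eq_constantCoeff_apply, map_mul,
        cc_cw, H.z0, dz, eq_inv_of_mul_eq_one_right e1]
      field_simp
    rw [hL (-3) 0 l3 (by omega), B2.mono _ (by omega), A1.mono _ (by omega), B3.mono _ (by omega),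
      B4.mono _ (by omega), c0, l3 _ (by omega), l3 (0 - 8) (by omega)] at hv
    have := (N 0 0 (μ / 3 * e 0) (-(S * c * (ω + 1) / 2)) ⟨v, by
      rw [hv]
      simp only [map_mul, map_div₀, map_neg, map_add, map_ofNat, map_one, map_zero]
      norm_num
      field_simp
      ring⟩).2.2.2
    simpa [hc, w2] using this
  subst hS
  have hK : K = 0 := by
    obtain ⟨v, hv⟩ := E (-2)
    rw [hL (-3) (-2) l3 (by omega), A1.mono _ (by omega), B3.mono _ (by omega),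
      B4.mono _ (by omega), l3 _ (by omega), l3 (-2 - 8) (by omega)] at hv
    have := (M (-(K * (ω - 1) / 4)) 0 (μ / 9 * e (-2)) 0 (3 / 4 * K * (ω - 1)) _ _ _ _ hv d2 (by
      simp only [map_mul, map_div₀, map_neg, map_sub, map_add, map_ofNat, map_one, map_zero,
        map_intCast]
      norm_num
      field_simp
      ring)).1
    simpa [w1] using this
  subst hK
  have g1 : 12 * ν * c + G = 0 ∧ e (-1) = 0 := by
    obtain ⟨v, hv⟩ := E (-1)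
    rw [hL (-3) (-1) l3 (by omega), A1.mono _ (by omega),
      B4.mono _ (by omega), l3 _ (by omega), l3 (-1 - 8) (by omega)] at hv
    have := M 0 (-(12 * ν * c + G)) (μ * 2 / 9 * e (-1)) 0 (-3 * G) _ _ _ _ hv d1 (by
      simp only [map_mul, map_div₀, map_neg, map_sub, map_add, map_ofNat, map_zero, map_intCast]
      norm_num
      field_simp
      ring)
    exact ⟨neg_eq_zero.1 this.2.1, by simpa [hμ] using this.2.2.1⟩
  have g3 : e 3 = 0 := by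
    obtain ⟨v, hv⟩ := E 3
    rw [hL (-3) 3 l3 (by omega), A1.mono _ (by omega), B4.mono _ (by omega),
      show (3 - 4 : ℤ) = -1 from rfl, g1.2, l3 (3 - 8) (by omega)] at hv
    have := M 0 0 (μ * 2 / 3 * e 3) 0 (4 * ν * c ^ 3) _ _ _ _ hv hX.ds (by
      simp only [map_mul, map_div₀, map_sub, map_add, map_ofNat, map_zero, map_pow, map_intCast]
      norm_num
      field_simp
      ring)
    simpa [hμ] using this.2.2.1
  have g7 : 16 / 15 * ν * c ^ 5 + 4 / 9 * G * c ^ 4 = 0 := by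
    obtain ⟨v, hv⟩ := E 7
    rw [hL (-3) 7 l3 (by omega), A1.mono _ (by omega), B4.mono _ (by omega),
      show (7 - 4 : ℤ) = 3 from rfl, g3, show (7 - 8 : ℤ) = -1 from rfl, g1.2] at hv
    exact (M _ 0 (μ * 10 / 9 * e 7) 0 (-(8 / 5 * ν * c ^ 5)) _ _ _ _ hv d3 (by
      simp only [map_mul, map_div₀, map_neg, map_sub, map_add, map_ofNat, map_zero, map_pow,
        map_intCast]
      norm_num
      field_simp
      ring)).1
  have hν : ν = 0 := by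
    have : ν * c ^ 5 = 0 := by linear_combination (-15 / 64) * g7 + 5 / 48 * c ^ 4 * g1.1
    simpa [hc] using this
  subst hν
  have hG : G = 0 := by simpa using g1.1
  subst hG
  simp only [map_zero, mul_zero, zero_mul, add_zero, sub_zero] at E
  have g4 : e (-3) = 0 := by
    obtain ⟨v, hv⟩ := E 1
    rw [hL (-3) 1 l3 (by omega), l3 (1 - 8) (by omega), show (1 - 4 : ℤ) = -3 from rfl] at hv
    have := (N (μ * c ^ 2 * (((1 : ℤ) : k) - 5) / 9 * e (-3)) 0 (μ * (3 + ((1 : ℤ) : k)) / 9 * e 1) 0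
      ⟨v, by rw [hv, mul_zero, map_zero, zero_mul, add_zero]⟩).1
    norm_num [hμ, hc] at this
    exact this
  refine ⟨rfl, rfl, rfl, rfl, by_contra fun h0 => ?_⟩
  obtain ⟨o1, o2⟩ := ord h0
  exact o1 (lo _ (fun e3 => o1 (e3 ▸ g4)) o2 (E _))

end Pool.Agent.MP_05b4bd_ag.XO
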