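import Pool.Agent.MP_05b4bd_ag.ex.Bas

/-! The comparison of the first integral with its deck image in the annulus. -/

namespace Pool.Agent.MP_05b4bd_ag.XO

open PowerSeries LaurentSeries HC
open ES hiding Gen Ob Inf

namespace Oind

section Alg
variable {T : Type} [CommRing T] {V : T →+ T}

theorem vh (hV : IsDer V) {s m n c z zi e : T} (hs : V s = 1) (hm : V m = 0) (hn : V n = 0)
    (hc : V c = 0) (hz : z * zi = 1)
    (he : 8 * s * z - 4 * (3 * (1 + s ^ 2) + m * s - n * s ^ 2 + c ^ 2 * z ^ 4) * V z +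
      e * z = 0) :
    4 * V ((3 * (1 + s ^ 2) + m * s - n * s ^ 2) * zi ^ 3 - 3 * c ^ 2 * z) =
      zi ^ 3 * (4 * m - 8 * n * s - 3 * e) := by
  have h3 : V 3 = 0 := by simpa using hV.natCast 3
  have a1 : V ((3 * (1 + s ^ 2) + m * s - n * s ^ 2) * zi ^ 3 - 3 * c ^ 2 * z) =
      (6 * s + m - 2 * n * s) * zi ^ 3 -
        (3 * (1 + s ^ 2) + m * s - n * s ^ 2) * (3 * zi ^ 4 * V z) - 3 * c ^ 2 * V z := by
    simp only [map_sub, map_add, hV _ _, hV.pow, hV.inv hz, hV.one, h3, hs, hm, hn, hc]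
    push_cast
    ring
  linear_combination 4 * a1 + 3 * zi ^ 4 * he - (24 * s * zi ^ 3 + 3 * e * zi ^ 3 -
    12 * c ^ 2 * V z * (1 + z * zi + (z * zi) ^ 2 + (z * zi) ^ 3)) * hz

theorem stp [IsDomain T] (hV : IsDer V) {t s m n c z zi y yi d e γ q A : T} {N i r : ℕ}
    (t0 : t ≠ 0) (ht : V t = 0) (hs : V s = 1) (hm : V m = 0) (hn : V n = 0) (hc : V c = 0)
    (hz : z * zi = 1) (hy : y * yi = 1)
    (h1 : 8 * s * z - 4 * (3 * (1 + s ^ 2) + t ^ N * m * s - t ^ (N + i + r) * n * s ^ 2 +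
      c ^ 2 * z ^ 4) * V z + t ^ (N + i + r) * d * z = 0)
    (h2 : 8 * s * y - 4 * (3 * (1 + s ^ 2) + t ^ N * m * s - t ^ (N + i + r) * n * s ^ 2 +
      c ^ 2 * y ^ 4) * V y + t ^ (N + i + r) * e * y = 0)
    (hg : y = z + t ^ i * γ)
    (hq : q = 3 * (1 + s ^ 2) + t ^ N * m * s - t ^ (N + i + r) * n * s ^ 2)
    (hA : A = (z ^ 2 + z * y + y ^ 2) * zi ^ 3 * yi ^ 3) :
    4 * V (-(γ * (q * A + 3 * c ^ 2))) = t ^ N * (-(γ * A * (4 * m - 8 * t ^ (i + r) * n * s)) -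
      3 * t ^ r * (yi ^ 3 * e - zi ^ 3 * d)) := by
  have tp : ∀ a, V (t ^ a) = 0 := fun a => by rw [hV.pow, ht, mul_zero]
  have m' : V (t ^ N * m) = 0 := by rw [hV.const_mul (tp _), hm, mul_zero]
  have n' : V (t ^ (N + i + r) * n) = 0 := by rw [hV.const_mul (tp _), hn, mul_zero]
  have b1 := vh hV hs m' n' hc hz h1
  have b2 := vh hV hs m' n' hc hy h2
  have z3 : (z * zi) ^ 3 = 1 := by rw [hz, one_pow]
  have y3 : (y * yi) ^ 3 = 1 := by rw [hy, one_pow]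
  have kk : yi ^ 3 = zi ^ 3 - t ^ i * γ * A := by
    rw [hA]
    linear_combination (-yi ^ 3) * z3 + zi ^ 3 * y3 -
      (z ^ 2 + z * y + y ^ 2) * zi ^ 3 * yi ^ 3 * hg
  have e1 : q * yi ^ 3 - 3 * c ^ 2 * y =
      (q * zi ^ 3 - 3 * c ^ 2 * z) + t ^ i * -(γ * (q * A + 3 * c ^ 2)) := by
    linear_combination q * kk - 3 * c ^ 2 * hg
  rw [← hq] at b1 b2
  rw [e1, map_add, hV.const_mul (tp i)] at b2
  refine mul_left_cancel₀ (pow_ne_zero i t0) ?_
  simp only [pow_add] at b1 b2 ⊢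
  linear_combination b2 - b1 + (4 * (t ^ N * m) - 8 * (t ^ N * t ^ i * t ^ r * n) * s) * kk

end Alg

variable {k L : Type} [Field k] [Field L]

theorem mapL_id (c : L⸨X⸩) : mapL (RingHom.id L) c = c := by
  ext n
  rfl

theorem mT_id (c : TT L) : mT (RingHom.id L) c = c := by
  ext1 n
  rw [mT, coeff_map, mapL_id]

theorem cmp (h3 : ES.CmpStmt) [CharZero L] {D : L →+ L} (hD : IsDer D) {n : ℕ} (hn : 1 ≤ n)
    {vb h Xi S U : TT L} (v0 : cc vb = 0) (hh : cc h = wL L (-3)) (e1 : VT D vb h = X ^ n * Xi)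
    (e2 : VT D vb S = X ^ n * U) :
    cwL D (cc S) = 0 ∧ Ex (cwL D) (cc U - dh 3 (cc S) * cc Xi) := by
  obtain ⟨-, S', -, a, w⟩ := h3 L L D D (RingHom.id L) 3 n vb h Xi S U (by norm_num) hn
    ⟨hD, fun _ => rfl⟩ (fun c _ => ⟨c, rfl⟩) v0 hh e1 (by rw [mT_id, e2])
  rw [mapL_id] at w
  exact ⟨a, _, w⟩

theorem rot [CharZero L] {a c w : L} {ζ : L⟦X⟧} (z0 : cc ζ ≠ 0) (hw : w ^ 4 = 1)
    (cu : ζ ^ 3 = C a - C c * X ^ 4 * ζ ^ 4) : sb (C w * X) ζ = ζ := by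
  have h0 : cc (C w * X : L⟦X⟧) = 0 := by simp
  have e := congrArg (sb (C w * X)) cu
  have w4 : (C w : L⟦X⟧) ^ 4 = 1 := by rw [← map_pow, hw, map_one]
  simp only [map_sub, map_mul, map_pow, sb_C h0, sb_X h0] at e
  have c1 := cc_sb h0 ζ
  generalize sb (C w * X) ζ = y at e c1
  have ne : y ^ 2 + y * ζ + ζ ^ 2 + C c * X ^ 4 * (y + ζ) * (y ^ 2 + ζ ^ 2) ≠ 0 := by
    intro h
    have := congrArg cc h
    simp only [map_add, map_mul, map_pow, c1, constantCoeff_X, map_zero] at this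
    have : 3 * cc ζ ^ 2 = 0 := by linear_combination this
    exact mul_ne_zero three_ne_zero (pow_ne_zero 2 z0) this
  refine sub_eq_zero.1 ((mul_eq_zero.1 ?_).resolve_right ne)
  linear_combination e - cu - C c * X ^ 4 * y ^ 4 * w4

theorem dO_zero (D : L →+ L) (κ : k →+* L) (s c : L) (z : L⸨X⸩) :
    dO D s c z (κ 0) (κ 0) (κ 0) (κ 0) = 0 := by
  simp [dO]

end Oind

open Oind in
theorem oindS (h1 : O0Stmt) (h2 : O1Stmt) (h3 : ES.CmpStmt) : OindStmt := by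
  intro k L _ _ _ _ κ D s z c0 ω S K G ζ σ μ ν c φ vb z' d j hX hc0 hC hD hc hμ hj hν hz he hd hKG
  have cL' : CharZero L := charZero_of_injective_ringHom κ.injective
  have cLL : CharZero L⸨X⸩ := charZero_of_injective_ringHom (cL_inj (R := L))
  have Q0 : 1 + s ^ 2 ≠ 0 := fun e => by
    have e1 := congrArg D e
    rw [map_add, hX.der.one, hX.der.pow, hX.ds, map_zero] at e1
    have : s = 0 := by simpa using e1
    simp [this] at e
  have z0 : cc ζ ≠ 0 := fun e => Q0 (by rw [← hX.cub, ← hC.z0, e]; norm_num)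
  have w4 : ω ^ 4 = 1 := hD.prim.pow_eq_one
  have w0 : ω ≠ 0 := hD.prim.ne_zero (by norm_num)
  obtain ⟨Z, hZ⟩ : ∃ Z, Z = coeL L (X * ζ) := ⟨_, rfl⟩
  have Z0 : Z ≠ 0 := by
    rw [hZ, map_ne_zero_iff _ coeL_inj]
    exact mul_ne_zero X_ne_zero fun e => z0 (by rw [e, map_zero])
  have hW : wL L (-3) * Z ^ 3 = 1 + cL L s ^ 2 - cL L (κ c0) ^ 2 * Z ^ 4 := by
    have e := congrArg (coeL L) hC.cu
    have e2 : coeL L X ^ 3 * wL L (-3) = 1 := by
      rw [coeL_X, wL_pow]; exact wL_mul_neg _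
    simp only [map_sub, map_mul, map_pow, map_add, map_one, coeL_C] at e
    rw [hZ, map_mul]
    linear_combination e + coeL L ζ ^ 3 * e2
  have L0 : 3 * (1 + cL L s ^ 2) + cL L (κ c0) ^ 2 * Z ^ 4 ≠ 0 := by
    have : 3 * (1 + cL L s ^ 2) + cL L (κ c0) ^ 2 * Z ^ 4 =
        coeL L (C (3 * (1 + s ^ 2)) + C (κ c0) ^ 2 * (X * ζ) ^ 4) := by
      simp only [hZ, map_add (coeL L), map_mul (coeL L) (_ ^ 2), map_pow (coeL L), coeL_C,
        map_mul (cL L), map_add (cL L), map_pow (cL L), map_one, map_ofNat]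
    rw [this, map_ne_zero_iff _ coeL_inj]
    intro e
    have e1 := congrArg cc e
    simp only [map_add cc, map_mul cc, map_pow cc, constantCoeff_C, constantCoeff_X,
      map_zero] at e1
    exact mul_ne_zero three_ne_zero Q0 (by linear_combination e1)
  rw [← hZ] at hz
  obtain ⟨zi, hzi⟩ : ∃ zi, z' * zi = 1 := ⟨_, PowerSeries.mul_inv_cancel z' (hz ▸ Z0)⟩
  have ci : ∀ {a b : TT L}, a * b = 1 → cc a = Z → cc b = Z⁻¹ := fun e e' =>
    eq_inv_of_mul_eq_one_right (by rw [← e', ← map_mul, e, map_one])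
  have hV := isDer_VA hX.der vb
  have vc : ∀ a, VT D vb (C (cL L a)) = C (cL L (D a)) := fun a => by
    rw [← map_C, VT_cL, cw_C, map_C]
  have vs : VA D vb (C (cL L s)) = 1 := by rw [coe_VA, vc, hX.ds, map_one, map_one]
  have vk : ∀ r, VA D vb (iK κ r) = 0 := VT_iK hX.con vb
  have vx : VA D vb X = 0 := VT_X hX.der vb
  have fc : ∀ a, hat φ (C (cL L a)) = C (cL L a) := fun a => by rw [← map_C, hD.fix]
  have fk : ∀ r, hat φ (iK κ r) = iK κ r := fun r => by rw [iK_eq, hD.fix]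
  obtain ⟨u, hu⟩ : ∃ u : TT L, u = C (cL L 12⁻¹) := ⟨_, rfl⟩
  have u12 : 12 * u = 1 := by
    rw [hu, ← map_ofNat (C : L⸨X⸩ →+* TT L), ← map_ofNat (cL L), ← map_mul, ← map_mul,
      mul_inv_cancel₀ (by norm_num), map_one, map_one]
  have cu : cc u = 12⁻¹ := by rw [hu, constantCoeff_C, map_inv₀, map_ofNat]
  have vu : ∀ a, VA D vb (u * a) = u * VA D vb a := hV.const_mul (by
    rw [hV.inv u12, show VA D vb 12 = 0 by simpa using hV.natCast 12, mul_zero, neg_zero])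
  obtain ⟨wi, hwi⟩ : ∃ wi : TT L, wi = C (cL L (κ ω⁻¹)) := ⟨_, rfl⟩
  have vw : ∀ a, VT D vb (wi * a) = wi * VT D vb a := hV.const_mul (by
    rw [hwi, coe_VA, vc, hX.con, map_zero, map_zero])
  obtain ⟨ν1, rfl⟩ := hν
  rw [coeff_X_pow_mul_self] at hd ⊢
  have b1 := vh hV vs (vk μ) (vk (X ^ j * ν1)) (vk c) hzi he
  obtain ⟨H, hH⟩ : ∃ H, H = (3 * (1 + C (cL L s) ^ 2) + iK κ μ * C (cL L s) -
    iK κ (X ^ j * ν1) * C (cL L s) ^ 2) * zi ^ 3 - 3 * iK κ c ^ 2 * z' := ⟨_, rfl⟩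
  rw [← hH] at b1
  have m0 : cc μ = 0 := X_dvd_iff.1 hμ
  have xj : cc (X ^ j * ν1) = 0 := by rw [map_mul, cc_X_pow hj, zero_mul]
  have ch : cc (u * (4 * H)) = wL L (-3) := by
    generalize X ^ j * ν1 = ν at hH xj
    simp only [hH, map_sub, map_add, map_mul cc, map_pow cc, map_ofNat, map_one, cc_iK, cu, m0, xj,
      constantCoeff_C, hz, ci hzi hz, hc, map_zero, zero_mul]
    field_simp
    linear_combination (-12) * hW
  have key : ∀ (n : ℕ) (Xi : TT L) (m S ν : k), 1 ≤ n → VT D vb (u * (4 * H)) = X ^ n * Xi →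
      3 * cc Xi = (cL L (κ m - 2 * κ ν * s) - 3 / 4 * dO D s (κ c0) (coeL L (X * ζ)) (κ S) (κ ν)
        0 0) / coeL L (X * ζ) ^ 3 → S = 0 ∧ ν = 0 ∧ (m ≠ 0 → σ = C ω * X) := by
    intro n Xi m S ν hn e1 e2
    obtain ⟨-, v, hv⟩ := cmp h3 hX.der hn hD.v0 ch e1 (S := wi * hat φ (u * (4 * H)))
      (U := wi * hat φ Xi) (by rw [vw, hD.vt, e1, map_mul, map_pow, hat_X]; ring)
    refine h1 k L κ D s z c0 ω m S ν ζ σ (cc.comp φ) _ hX hc0 hC hD.prim hD.s0 hD.s1 hD.red hD.der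
      e2 ⟨3 * v, ?_⟩
    rw [hX.der.coefL.const_mul (by simpa using hX.der.coefL.natCast 3), hv]
    simp only [map_mul cc wi, cc_hat, ch]
    simp only [hwi, constantCoeff_C, RingHom.comp_apply, map_mul φ, map_ofNat, map_mul cc 3]
    ring
  have v4 : VT D vb (u * (4 * H)) =
      u * (zi ^ 3 * (4 * iK κ μ - 8 * iK κ (X ^ j * ν1) * C (cL L s) - 3 * (X ^ j * d))) := by
    rw [← coe_VA, vu, hV.const_mul (by simpa using hV.natCast 4), b1]
  by_cases hm : X ^ j ∣ μ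
  · obtain ⟨rfl, rfl⟩ := hKG hm
    obtain ⟨μ1, rfl⟩ := hm
    obtain ⟨a1, a2, -⟩ := key j (u * (zi ^ 3 * (4 * iK κ μ1 - 8 * iK κ ν1 * C (cL L s) - 3 * d)))
      (cc μ1) S (cc ν1) hj (by
        rw [v4]; simp only [map_mul (iK κ), map_pow, iK_X]; ring) (by
        rw [map_zero] at hd
        rw [← hd]
        simp only [← hZ, map_sub, map_mul, map_pow, map_ofNat, cc_iK, cu, ci hzi hz,
          constantCoeff_C]
        field_simp
        ring)
    exact ⟨a1, a2, rfl, rfl⟩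
  obtain ⟨N, hN⟩ := exists_ordIs (f := μ) fun e => hm (e ▸ dvd_zero _)
  obtain ⟨μ1, rfl, hμ1⟩ := hN.fac
  have mu0 : cc μ1 ≠ 0 := hμ1 ▸ hN.1
  have N1 : 1 ≤ N := Nat.pos_of_ne_zero fun e => mu0 (by simpa [e] using m0)
  obtain ⟨M, rfl⟩ : ∃ M, j = N + 1 + M := Nat.exists_eq_add_of_le (Nat.succ_le_of_lt
    (lt_of_not_ge fun e => hm ((pow_dvd_pow _ e).mul_right _)))
  obtain ⟨Xi, hXi⟩ : ∃ Xi : TT L, Xi = u * (zi ^ 3 * (4 * iK κ μ1 -
    X ^ (1 + M) * (8 * iK κ ν1 * C (cL L s) + 3 * d))) := ⟨_, rfl⟩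
  have e1 : VT D vb (u * (4 * H)) = X ^ N * Xi := by
    rw [v4, hXi]; simp only [map_mul (iK κ), map_pow, iK_X]; ring
  have cX : cc Xi = cL L (κ (cc μ1)) / (3 * Z ^ 3) := by
    simp only [hXi, map_sub, map_mul, map_pow cc zi, map_ofNat, cc_iK, cu, ci hzi hz,
      cc_X_pow (Nat.le_add_right 1 M), zero_mul]
    field_simp
    ring
  obtain ⟨-, -, hσ⟩ := key N Xi (cc μ1) 0 0 N1 e1 (by
    have := dO_zero D κ s (κ c0) Z
    rw [map_zero] at this
    rw [cX, ← hZ, map_zero, this]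
    field_simp
    simp)
  have hσ := hσ mu0
  have red := hD.red
  rw [hσ] at red
  have fZ : cc (φ Z) = cL L (κ ω) * Z := by
    have e : map κ (C ω * X) = C (κ ω) * X := by rw [map_mul, map_C, map_X]
    have h0 : cc (C (κ ω) * X : L⟦X⟧) = 0 := by simp
    rw [hZ, red, e, map_mul (sb _), sb_X h0, rot z0 (by rw [← map_pow, w4, map_one]) hC.cu,
      mul_assoc, map_mul (coeL L), coeL_C]
  obtain ⟨w, hw⟩ : ∃ w : TT L, w = C (cL L (κ ω)) := ⟨_, rfl⟩
  have ww : wi * w = 1 := by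
    rw [hw, hwi, ← map_mul, ← map_mul, ← map_mul, inv_mul_cancel₀ w0, map_one, map_one, map_one]
  have i4 : wi ^ 4 = 1 := by
    rw [hwi, ← map_pow, ← map_pow, ← map_pow, inv_pow, w4, inv_one, map_one, map_one, map_one]
  obtain ⟨y, hy⟩ : ∃ y, y = wi * hat φ z' := ⟨_, rfl⟩
  obtain ⟨yj, yi⟩ : ∃ yj, y * yj = 1 := ⟨w * hat φ zi, by
    have := congrArg (hat φ) hzi
    rw [map_mul, map_one] at this
    rw [hy]
    linear_combination ww + wi * w * this⟩
  have cy : cc y = Z := by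
    rw [hy, map_mul, cc_hat, hz, fZ, hwi, constantCoeff_C, ← mul_assoc, ← map_mul, ← map_mul,
      inv_mul_cancel₀ w0, map_one, map_one, one_mul]
  have he2 := congrArg (fun a => wi * hat φ a) he
  simp only [map_add, map_sub, map_mul, map_pow, map_ofNat, map_one, fc, fk, hat_X, iK_X, ← hD.vt,
    map_zero, mul_zero] at he he2
  have vy : VT D vb y = wi * VT D vb (hat φ z') := by rw [hy, vw]
  have step : ∀ (i r : ℕ) (γ : TT L), 1 ≤ i → 1 + M = i + r → y = z' + X ^ i * γ →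
      ∃ η, η = -3 * (3 * (1 + cL L s ^ 2) + cL L (κ c0) ^ 2 * Z ^ 4) * cc γ / Z ^ 4 ∧
        cwL D η = 0 ∧ Ex (cwL D) (cL L (κ (cc μ1)) *
          (η / (3 * (1 + cL L s ^ 2) + cL L (κ c0) ^ 2 * Z ^ 4) - dh 3 η / (3 * Z ^ 3)) -
          3 / 4 * (0 ^ r * (cc (φ (cc d)) - cc d)) / Z ^ 3) := by
    intro i r γ i1 ir hg
    have ej : N + 1 + M = N + i + r := by omega
    have b := stp hV X_ne_zero vx vs (vk μ1) (vk ν1) (vk c) hzi yi (N := N) (i := i) (r := r)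
      (d := d) (e := hat φ d) (by rw [← ej, coe_VA]; exact he) (by
        rw [← ej, coe_VA, vy, hy]
        linear_combination he2 - 4 * iK κ c ^ 2 * hat φ z' ^ 4 * wi * VT D vb (hat φ z') * i4)
      hg rfl rfl
    have b' := congrArg (fun a => 3 * u * a) b
    simp only [← mul_assoc (3 * u), show 3 * u * 4 = 1 by linear_combination u12, one_mul,
      mul_comm (3 * u) (X ^ N), mul_assoc (X ^ N), coe_VA] at b'
    obtain ⟨a1, a2⟩ := cmp h3 hX.der N1 hD.v0 ch e1 b'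
    refine ⟨_, ?_, a1, ?_⟩
    · simp only [map_neg, map_sub, map_add, map_mul cc, map_pow cc, map_ofNat, map_one, cc_iK,
        constantCoeff_C, constantCoeff_X, hz, cy, ci hzi hz, ci yi cy, hc,
        zero_pow (by omega : N ≠ 0), zero_pow (by omega : N + i + r ≠ 0), zero_mul]
      field_simp
      ring
    · convert a2 using 1
      have := mul_inv_cancel₀ L0
      rw [div_eq_mul_inv _ (_ + _)]
      generalize dh (L := L) 3 _ = e
      generalize (3 * (1 + cL L s ^ 2) + cL L (κ c0) ^ 2 * Z ^ 4)⁻¹ = l at this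
      simp only [map_neg, map_sub, map_add, map_mul cc, map_pow cc, map_ofNat, map_one, cc_iK,
        constantCoeff_C, constantCoeff_X, hz, cy, ci hzi hz, ci yi cy, hc, cX, cu, cc_hat,
        zero_pow (by omega : N ≠ 0), zero_pow (by omega : N + i + r ≠ 0), zero_mul,
        zero_pow (by omega : i + r ≠ 0)]
      field_simp
      linear_combination (-432 * cL L (κ (cc μ1)) * cc γ) * this
  have ind : ∀ i, i ≤ M → X ^ (i + 1) ∣ y - z' := by
    intro i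
    induction i with
    | zero => intro _; rw [zero_add, pow_one, X_dvd_iff, map_sub, cy, hz, sub_self]
    | succ i ih =>
      intro hi
      obtain ⟨γ, hγ⟩ := ih (by omega)
      obtain ⟨η, a1, a2, a3⟩ := step (i + 1) (M - i) γ (by omega) (by omega)
        (by linear_combination hγ)
      obtain ⟨-, -, -, -, a4⟩ := h2 k L κ D s z c0 ω (cc μ1) 0 0 0 0 ζ (cc.comp φ) η hX hc0 mu0 hC
        hD.prim red hD.der a2 (by
          rw [dO_zero, ← hZ, map_zero, sub_zero]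
          rwa [zero_pow (by omega), zero_mul] at a3)
      have : cc γ = 0 := by
        rw [a4, eq_div_iff (pow_ne_zero 4 Z0), zero_mul] at a1
        exact (mul_eq_zero.1 a1.symm).resolve_left (mul_ne_zero (by norm_num) L0)
      rw [hγ, pow_succ _ (i + 1)]
      exact mul_dvd_mul_left _ (X_dvd_iff.2 this)
  obtain ⟨γ, hγ⟩ := ind M le_rfl
  obtain ⟨η, -, a2, a3⟩ := step (M + 1) 0 γ (by omega) (by omega) (by linear_combination hγ)
  obtain ⟨b1, b2, b3, b4, -⟩ := h2 k L κ D s z c0 ω (cc μ1) S (cc ν1) K G ζ (cc.comp φ) η hX hc0 mu0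
    hC hD.prim red hD.der a2 (by
      rw [← hd, ← hZ]
      rwa [pow_zero, one_mul] at a3)
  exact ⟨b1, b2, b3, b4⟩

end Pool.Agent.MP_05b4bd_ag.XO
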