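import Pool.Agent.MP_05b4bd_ag.ex.Bas
import Pool.Agent.MP_05b4bd_ag.pc3.Lift

/-! Row OM: functoriality, degree, base point and weights of the normal form. -/

namespace Pool.Agent.MP_05b4bd_ag.XO

open MvPolynomial HC
open PC3

namespace OmR

variable {A B : Type} [CommRing A] [CommRing B] {b : ℕ} (M : Mo b)

theorem map_omF (φ : A →+* B) (y : Pa (R2 A)) (u v : R2 A) :
    mapF φ (omF M y u v) = omF M (y.map (map φ)) (map φ u) (map φ v) := by
  simp only [omF, mapF_add, mapF_sub, mapF_fm, mapF_d1, map_add, map_mul, map_pow, map_ofNat,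
    map_natCast, map_e6, map_l, map_q4]
  rfl

theorem pb_omF (s t : R2 A) (y : Pa (R2 A)) (u v : R2 A) :
    pb s t (omF M y u v) =
      omF M (y.map (sub2 s t : R2 A →+* R2 A)) (sub2 s t u) (sub2 s t v) := by
  have e : ∀ g, sub2 s t g = (sub2 s t : R2 A →+* R2 A) g := fun _ => rfl
  simp only [omF, pb_add, pb_sub, pb_fm, pb_d1, e, map_add, map_mul, map_pow, map_ofNat,
    map_natCast, map_e6, map_l, map_q4]
  rfl

theorem DL_nat (n : ℕ) : DL 1 (n : R2 A) := by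
  rw [← map_natCast (C : A →+* R2 A)]
  exact DL_C _

theorem k_mul {n : ℕ} {g : R2 A} (m : ℕ) (h : DL n g) : DL n ((m : R2 A) * g) := by
  simpa using DL.mul (a := 0) (DL_nat m) h

theorem X_pow (i : Fin 2) (n : ℕ) : DL (n + 1) (X i ^ n : R2 A) :=
  DL.of_hom (isHomogeneous_X_pow i n)

theorem om_DF (x : Pa A) : DF 4 (Om M x) := by
  obtain ⟨hG, hP, hQ⟩ := M.dg x
  have hu : DL 2 (X 0 : R2 A) := DL_X 0
  have hv : DL 2 (X 1 : R2 A) := DL_X 1
  have hl : DL 2 ((x.map C).l (X 0) (X 1) : R2 A) := by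
    refine (((DL_C (1 : A)).mono (by omega)).add (hu.C_mul x.m)).add ?_
    rw [mul_assoc]
    exact k_mul 52 (hv.C_mul x.n)
  have hG' : DL 4 (e6 M.G (x.map C) (X 0) (X 1) + (x.map C).κ * X 0 ^ 2 + (x.map C).g * X 0 :
      R2 A) :=
    (hG.add (((X_pow 0 2).C_mul x.κ).mono (by omega))).add ((hu.C_mul x.g).mono (by omega))
  have f : ∀ {g h : R2 A}, DL 4 g → DL 2 h → DF 4 (fm g h) := fun hg hh =>
    DF.fm (a := 3) (n := 1) hg hh
  refine (((((((DF.fm (a := 1) (n := 3) (k_mul 4 hl) hG').sub (f ?_ hl)).add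
    (f (hP.C_mul x.μ) hu)).add (f (hQ.C_mul x.μ) hv)).add (f ?_ hl)).sub (f ?_ hu)).add
    (f ?_ hv)).add (DF.d1 ?_)
  · rw [mul_assoc]
    exact k_mul 3 (k_mul b hG')
  · rw [mul_assoc, mul_assoc]
    exact (k_mul b (DL.mul (a := 1) hu (X_pow 1 2))).C_mul x.ν
  · rw [mul_assoc, mul_assoc]
    exact k_mul 4 ((DL.mul (a := 1) hl (X_pow 1 2)).C_mul x.ν)
  · exact ((hu.C_mul x.s0).mono (by omega)).add ((X_pow 0 3).C_mul x.s2)
  · refine (((((X_pow 0 4).C_mul (x.q 0)).add ?_).add ?_).add ?_).add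
      ((X_pow 1 4).C_mul (x.q 4))
    · exact DL.mul (a := 3) ((X_pow 0 3).C_mul (x.q 1)) hv
    · exact DL.mul (a := 2) ((X_pow 0 2).C_mul (x.q 2)) (X_pow 1 2)
    · exact DL.mul (a := 1) (hu.C_mul (x.q 3)) (X_pow 1 3)

theorem om_base (c : A) :
    Om M ⟨c, 0, 0, 0, 0, 0, 0, 0, 0, fun _ => 0⟩ = (4 : R2 A) • d1 (f0 c) := by
  obtain ⟨r1, r2, h⟩ := M.gE
    ((⟨c, 0, 0, 0, 0, 0, 0, 0, 0, fun _ => 0⟩ : Pa A).map (C : A →+* R2 A)) (X 0) (X 1)
  rw [Om, omF, h]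
  have e1 : d1 (1 : R2 A) = 0 := d1_C 1
  have e0 : d1 (0 : R2 A) = 0 := by simpa using d1_C (0 : A)
  simp [Pa.map, Pa.l, gE, f0, q4, fm_eq, e1, e0]

theorem fm_sc {g g' h h' : R2 A} {t : A} (a c : A) (hg : g' = C a * g) (hh : h' = C c * h)
    (e : t = a * c) : fm g' h' = (C t : R2 A) • fm g h := by
  rw [hg, hh, e, fm_eq, fm_eq, d1_C_mul, smul_smul, smul_smul, map_mul]
  congr 1
  ring

theorem om_sc (τ : A) (x y : Pa A) (h : Sc τ x y) :
    pb (C τ * X 0) (C τ * X 1) (Om M y) = (C (τ ^ 3) : R2 A) • Om M x := by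
  have e : (y.map (C : A →+* R2 A)).map (sub2 (C τ * X 0) (C τ * X 1) : R2 A →+* R2 A) =
      y.map C := by
    rw [Pa.map_map]
    exact congrArg (fun ψ => y.map ψ) (RingHom.ext fun r => sub2_C r)
  have s : Sc (C τ : R2 A) (x.map C) (y.map C) :=
    ⟨by simp [Pa.map, h.c], by simp [Pa.map, h.μ], by simp [Pa.map, h.m], by simp [Pa.map, h.n],
      by simp [Pa.map, h.κ], by simp [Pa.map, h.g], by simp [Pa.map, h.ν],
      by simp [Pa.map, h.s0], by simp [Pa.map, h.s2], fun i => by simp [Pa.map, h.q i]⟩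
  rw [Om, pb_omF, e, sub2_X0, sub2_X1, Om]
  obtain ⟨hG, hP, hQ, -⟩ := M.wt (C τ : R2 A) _ _ (X 0) (X 1) s
  have hl : (y.map C).l (C τ * X 0) (C τ * X 1) = ((x.map C).l (X 0) (X 1) : R2 A) := by
    rw [Pa.l, Pa.l, s.m, s.n]
    ring
  have hq : q4 (y.map C).q (C τ * X 0) (C τ * X 1) =
      (C (τ ^ 3) * q4 (x.map C).q (X 0) (X 1) : R2 A) := by
    simp only [q4, s.q, map_pow]
    ring
  rw [omF, omF, hG, hP, hQ, hl, hq, d1_C_mul, s.κ, s.g, s.μ, s.ν, s.s0, s.s2]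
  simp only [smul_add, smul_sub]
  refine congrArg₂ (· + ·) (congrArg₂ (· + ·) (congrArg₂ (· - ·) (congrArg₂ (· + ·)
    (congrArg₂ (· + ·) (congrArg₂ (· + ·) (congrArg₂ (· - ·) ?_ ?_) ?_) ?_) ?_) ?_) ?_) rfl
  · exact fm_sc 1 (τ ^ 3) (by rw [map_one, one_mul]) (by rw [map_pow]; ring) (by ring)
  · exact fm_sc (τ ^ 3) 1 (by rw [map_pow]; ring) (by rw [map_one, one_mul]) (by ring)
  · exact fm_sc (τ ^ 2) τ (by rw [map_pow]; ring) rfl (by ring)
  · exact fm_sc (τ ^ 2) τ (by rw [map_pow]; ring) rfl (by ring)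
  · exact fm_sc (τ ^ 3) 1 (by rw [map_pow]; ring) (by rw [map_one, one_mul]) (by ring)
  · exact fm_sc (τ ^ 2) τ (by rw [map_pow]; ring) rfl (by ring)
  · exact fm_sc (τ ^ 2) τ (by rw [map_pow]; ring) rfl (by ring)

end OmR

theorem omS : OmStmt := by
  intro b M A _
  refine ⟨fun B _ φ x => ?_, OmR.om_DF M, OmR.om_base M, OmR.om_sc M⟩
  rw [Om, OmR.map_omF, map_X, map_X, Om, Pa.map_map, Pa.map_map]
  exact congrArg (fun ψ => omF M (x.map ψ) (X 0) (X 1)) (RingHom.ext fun r => map_C φ r)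

end Pool.Agent.MP_05b4bd_ag.XO
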