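import Pool.Agent.MP_05b4bd_ag.ex.Bas

/-! The step in the annulus. -/

namespace Pool.Agent.MP_05b4bd_ag.XO

open PowerSeries LaurentSeries HC
open ES hiding Gen Ob Inf
open RV (In)

namespace Omain

variable {k K L : Type} [Field k] [Field K] [Field L]

theorem m4_map {A B : Type} [CommRing A] [CommRing B] (φ : A →+* B) (m n : A) (i : Fin 5) :
    φ (m4 m n i) = m4 (φ m) (φ n) i := by
  fin_cases i <;> simp [m4, map_ofNat]

theorem root [CharZero K] {ρ : K⟦X⟧} {Z : K} (hZ : Z ≠ 0) (h : cc ρ = Z ^ 4) :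
    ∃ z : K⟦X⟧, cc z = Z ∧ z ^ 4 = ρ := by
  obtain ⟨r, h1, h2⟩ := nth_root (K3.JX K) (s := C (Z ^ 4)⁻¹ * ρ) (n := 4) (by norm_num)
    (K3.mem_JX' (by simp [h, hZ]))
  have h3 : cc r = 1 := by
    have := X_dvd_iff.1 (Ideal.mem_span_singleton.1 h1)
    rw [map_sub, map_one] at this
    exact sub_eq_zero.1 this
  refine ⟨C Z * r, by simp [h3], ?_⟩
  rw [mul_pow, h2, ← mul_assoc, ← map_pow, ← map_mul, mul_inv_cancel₀ (pow_ne_zero 4 hZ), map_one,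
    one_mul]

theorem up {j : ℕ} {r r0 : k⟦X⟧} (h : r = X ^ j * r0) (h0 : cc r0 = 0) : X ^ (j + 1) ∣ r := by
  rw [h, pow_succ]
  exact mul_dvd_mul_left _ (X_dvd_iff.2 h0)

theorem co {j : ℕ} {r r0 : k⟦X⟧} (h : r = X ^ j * r0) : coeff j r = cc r0 := by
  have := coeff_X_pow_mul r0 j 0
  rw [zero_add, coeff_zero_eq_constantCoeff_apply] at this
  rw [h, this]

/-- The equation of the fourth root and the first variation, over any field of coefficients. -/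
theorem core [CharZero K] (h1 : XiStmt) (h2 : FormStmt) (h3 : ModStmt) {b : ℕ} (M : Mo b)
    (i : k⟦X⟧ →+* K⟦X⟧) (κ : k →+* K) (V : K⟦X⟧ →+ K⟦X⟧) (δ : K →+ K) (s Z : K) {c : k}
    {x y : Pa k⟦X⟧} {ax : k⟦X⟧} {a' : Fin 5 → k⟦X⟧} {p zi : K⟦X⟧} {e j : ℕ} (hV : IsDer V)
    (hi : ∀ r, V (i r) = 0) (hX : i X = X) (ic : ∀ r, cc (i r) = κ (cc r))
    (hδ : ∀ u, cc (V u) = δ (cc u)) (hs : V (C s) = 1) (inv : C Z * zi = 1)
    (eq : e6 M.S (x.map i) p (C Z) = C s) (fo : Fo i (Om M x) V zi (p * zi))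
    (hΛ : 3 * (1 + s ^ 2) + κ c ^ 2 * Z ^ 4 ≠ 0)
    (hZ : (3 * (1 + s ^ 2) + κ c ^ 2 * Z ^ 4) * δ Z = 2 * s * Z) (sm : Sm c x) (he : 1 ≤ e)
    (sc : Sc (X ^ e) x y) (sp : Sp y ax a') (hj : 1 ≤ j) (zl : Zl j y ax a')
    {K0 G0 ν0 S0 : k⟦X⟧} (hK : x.μ * x.κ = X ^ j * K0) (hG : x.μ * x.g = X ^ j * G0)
    (hν : x.ν = X ^ j * ν0) (hS : x.s0 = X ^ j * S0) :
    ∃ z' d' : K⟦X⟧, cc z' = Z ∧
      8 * C s * z' - 4 * (3 * (1 + C s ^ 2) + i x.μ * C s - i x.ν * C s ^ 2 +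
        i x.c ^ 2 * z' ^ 4) * V z' + X ^ j * d' * z' = 0 ∧
      cc d' = κ (cc S0) * Z ^ 2 * δ ((s - κ c * Z ^ 2) / Z) +
        4 * κ (cc ν0) * ((s - κ c * Z ^ 2) ^ 2 - s ^ 2) * δ Z / Z +
        4 * (κ (cc K0) * Z + κ (cc G0) * Z ^ 2) / (3 * (1 + s ^ 2) + κ c ^ 2 * Z ^ 4) := by
  obtain ⟨⟨m0, hm0⟩, -, ⟨s2, hs2⟩, hA, ⟨n7, hn7⟩⟩ := zl
  choose A hA using hA
  have hz : ∀ r : k⟦X⟧, X ∣ r → cc (i r) = 0 := fun r h => by rw [ic, X_dvd_iff.1 h, map_zero]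
  have ip : ∀ n : ℕ, i (X ^ n) = X ^ n := fun n => by rw [map_pow, hX]
  have Vp : ∀ n : ℕ, V (X ^ n) = 0 := fun n => by rw [← ip, hi]
  have cτ : cc (X ^ e : K⟦X⟧) = 0 := X_dvd_iff.1 (dvd_pow_self X (by omega))
  have zi1 : Z * cc zi = 1 := by simpa using congrArg cc inv
  have Z0 : Z ≠ 0 := left_ne_zero_of_mul_eq_one zi1
  have czi : cc zi = Z⁻¹ := eq_inv_of_mul_eq_one_right zi1
  have cc0 : cc (i x.c) = κ c := by rw [ic, sm.c]
  have cμ := hz _ sm.μ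
  have cm := hz _ sm.m
  have cn := hz _ sm.n
  have cκ := hz _ sm.κ
  have cg := hz _ sm.g
  have cν := hz _ sm.ν
  obtain ⟨yy, hyy⟩ : ∃ yy, yy = i y.m * zi + 52 * i y.n * (p * zi) := ⟨_, rfl⟩
  have el : (x.map i).l zi (p * zi) = 1 + X ^ e * yy := by
    simp only [Pa.l, Pa.map, sc.m, sc.n, map_mul, ip, hyy]
    ring
  obtain ⟨Ξ, hΞ⟩ := h1 K V (X ^ e) yy b hV (dvd_pow_self X (by omega)) (Vp e)
  obtain ⟨w, hw⟩ : ∃ w, w = 45 * X ^ e * i ax := ⟨_, rfl⟩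
  have Vw : V w = 0 := by
    rw [hw, ← hi (45 * X ^ e * ax), map_mul i, map_mul i, ip, map_ofNat i]
  have q1 : q4 (x.map i).q zi (p * zi) - q4 (fun n => X ^ e * X ^ j * i (A n)) zi (p * zi) =
      w * yy ^ 4 := by
    have e1 : ∀ n, (x.map i).q n = X ^ e * X ^ j * i (A n) + w * m4 (i y.m) (52 * i y.n) n :=
      fun n => by
        simp only [Pa.map, sc.q, sp n, hA, map_mul, map_add, ip, m4_map, map_ofNat, hw]
        ring
    rw [hyy, ← q4_m4]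
    simp only [q4, e1]
    ring
  have q2 : q4 (fun n => X ^ e * X ^ j * i (A n)) zi (p * zi) =
      X ^ (e + j) * q4 (fun n => i (A n)) zi (p * zi) := by
    simp only [q4]
    ring
  obtain ⟨li, hli⟩ : ∃ li, (1 + X ^ e * yy) * li = 1 :=
    (isUnit_iff_constantCoeff.2 (by rw [map_add, map_mul, cτ]; simp)).exists_right_inv
  have cli : cc li = 1 := by
    have := congrArg cc hli
    rw [map_mul, map_add, map_mul, cτ] at this
    simpa using this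
  obtain ⟨d0, hd0⟩ : ∃ d0, d0 = C Z ^ 3 * ((i S0 * zi + X ^ e * i s2 * zi ^ 3) * V (p * zi) +
    X ^ e * V (q4 (fun n => i (A n)) zi (p * zi))) * li := ⟨_, rfl⟩
  have hH := h2 b M _ _ i V x (fun n => X ^ e * X ^ j * i (A n)) p (C Z) zi (w * Ξ) (X ^ j * d0) hV
    hi inv fo
    (by
      rw [q1, el, hV.const_mul Vw, hV.const_mul Vw, ← hΞ]
      ring)
    (by
      rw [q2, el, hV.const_mul (Vp _), hS, sc.s2, hs2, map_mul, map_mul, map_mul, ip, ip, hd0]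
      linear_combination X ^ j * C Z ^ 3 * ((i S0 * zi + X ^ e * i s2 * zi ^ 3) * V (p * zi) +
        X ^ e * V (q4 (fun n => i (A n)) zi (p * zi))) * hli)
  obtain ⟨g, hg⟩ : ∃ g, g = i x.κ * C Z + i x.g * C Z ^ 2 + C Z ^ 3 * (w * Ξ) := ⟨_, rfl⟩
  rw [← hg] at hH
  have cg0 : cc g = 0 := by
    simp only [hg, hw, map_add, map_mul, cκ, cg, cτ, zero_mul, mul_zero, add_zero]
  obtain ⟨g1, hg1⟩ : ∃ g1, g1 = i K0 * C Z + i G0 * C Z ^ 2 +
    C Z ^ 3 * (45 * X ^ e * i m0 * Ξ) := ⟨_, rfl⟩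
  have eg : i x.μ * g = X ^ j * g1 := by
    have a1 := congrArg i hK
    have a2 := congrArg i hG
    have a3 := congrArg i hm0
    rw [map_mul, map_mul, ip] at a1 a2 a3
    rw [sc.μ] at a3
    rw [hg, hg1, hw]
    linear_combination C Z * a1 + C Z ^ 2 * a2 + C Z ^ 3 * 45 * X ^ e * Ξ * a3
  have eν : i x.ν = X ^ j * i ν0 := by rw [hν, map_mul, ip]
  have e7 : i x.μ * i x.c ^ 3 * i x.n ^ 7 = X ^ j * X ^ e * i n7 := by
    have a1 := congrArg i hn7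
    rw [sc.μ, sc.c] at a1
    simp only [map_mul, map_pow, hX] at a1
    rw [sc.n, map_mul, ip]
    linear_combination X ^ e * a1
  have cel : cc ((x.map i).el p (C Z)) = Z := by
    simp only [Pa.el, Pa.map, map_add, map_mul, cm, cn, constantCoeff_C, mul_zero, zero_mul,
      add_zero]
  have cρ : cc ((x.map i).ρ b p (C Z)) = Z ^ 4 := by
    rw [Pa.ρ, map_mul, map_pow, map_pow, cel, constantCoeff_C, ← pow_add,
      Nat.sub_add_cancel (by rcases M.hb with h | h <;> omega)]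
  have cΛ : cc ((x.map i).Λ (C s) ((x.map i).ρ b p (C Z))) =
      3 * (1 + s ^ 2) + κ c ^ 2 * Z ^ 4 := by
    rw [Pa.Λ, map_add, map_mul, cρ]
    simp only [Pa.map, map_add, map_sub, map_mul, map_pow, map_one, map_ofNat, cμ, cν, cc0,
      constantCoeff_C, zero_mul, add_zero, sub_zero]
  have cJ : cc (M.J b (x.map i) p (C Z)) = 4 * Z := by
    obtain ⟨⟨r, hr⟩, -⟩ := M.sp (x.map i) p (C Z)
    rw [Mp.J, hr, map_sub, map_mul, map_mul, map_add (f := cc) (_ * _), map_mul, cel]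
    simp only [Pa.map, map_add, map_sub, map_mul, map_one, map_ofNat, map_natCast, cn,
      constantCoeff_C, zero_mul, mul_zero, add_zero, sub_zero]
    ring
  have cp : cc p = s - κ c * Z ^ 2 := by
    obtain ⟨r, hr⟩ := M.sE (x.map i) p (C Z)
    have := congrArg cc (hr.symm.trans eq)
    simp only [Pa.map, map_add, map_mul, map_pow, cn, cc0, constantCoeff_C, zero_mul,
      add_zero] at this
    exact eq_sub_of_add_eq this
  have tp : ∀ u : K⟦X⟧, In ⊤ u := fun _ _ => Subring.mem_top _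
  obtain ⟨ρ, d', r, -, r1, r2, r3⟩ := h3 b M K ⊤ V (x.map i) p (C Z) zi (C s) g (X ^ j * d0) j hV
    (by rw [← hX, hi]) (hi _) (hi _) (hi _) (hi _) (hi _) inv eq hs (by rwa [cel])
    (by rw [cJ]; exact mul_ne_zero (by norm_num) Z0) (by rwa [cΛ]) hH
    (Dvd.dvd.mul_left (X_dvd_iff.2 cn) _) (X_dvd_iff.2 cμ) (X_dvd_iff.2 cν) (X_dvd_iff.2 cg0) hj
    (dvd_mul_right _ _) ⟨_, eg⟩ (Dvd.dvd.mul_right ⟨_, eν⟩ _) (Dvd.dvd.mul_right ⟨_, eν⟩ _)
    ⟨X ^ e * i n7, e7.trans (mul_assoc _ _ _)⟩ (fun _ => Subring.mem_top _) (tp _) (tp _) (tp _)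
    (tp _) (tp _) (tp _) (tp _) (tp _) (Subring.mem_top _)
  have r4 : cc ρ = Z ^ 4 := by
    have := X_dvd_iff.1 r1
    rw [map_sub, cρ] at this
    exact sub_eq_zero.1 this
  obtain ⟨z', z1, rfl⟩ := root Z0 r4
  have z0 : z' ≠ 0 := fun h => Z0 (by rw [← z1, h, map_zero])
  refine ⟨z', d', z1, mul_left_cancel₀ (pow_ne_zero 3 z0) ?_, ?_⟩
  · rw [hV.pow] at r2
    simp only [Pa.Λ, Pa.map, Nat.cast_ofNat, Nat.add_one_sub_one] at r2
    linear_combination r2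
  · generalize (x.map i).el p (C Z) = E at cel r3
    generalize M.J b (x.map i) p (C Z) = J at cJ r3
    generalize (x.map i).Λ (C s) ((x.map i).ρ b p (C Z)) = Λ at cΛ r3
    generalize 16 * 13 ^ 7 * rz b p (C Z) (x.map i).m (52 * (x.map i).n) + (x.map i).c * r = R at r3
    have e8 : E ^ 2 * J * (Λ * (X ^ j * d' - X ^ j * d0) - 8 * C s * i x.ν * (p ^ 2 - C s ^ 2) -
        4 * (i x.μ - 2 * i x.ν * C s) * g) + i x.μ * i x.c ^ 3 * i x.n ^ 7 * R =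
        X ^ j * (E ^ 2 * J * (Λ * (d' - d0) - 8 * C s * i ν0 * (p ^ 2 - C s ^ 2) - 4 * g1 +
          8 * i ν0 * C s * g) + X ^ e * i n7 * R) := by
      rw [e7, eν]
      linear_combination -4 * E ^ 2 * J * eg
    have r5 := X_dvd_iff.1 ((mul_dvd_mul_iff_left (pow_ne_zero j X_ne_zero)).1
      (pow_succ (X : K⟦X⟧) j ▸ e8 ▸ r3))
    have cd : cc d0 = κ (cc S0) * Z ^ 2 * δ ((s - κ c * Z ^ 2) / Z) := by
      simp only [hd0, map_mul, map_add, cτ, hδ, cli, ic, czi, cp, zero_mul, add_zero, mul_one,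
        map_pow (f := cc) (C Z), constantCoeff_C, div_eq_mul_inv]
      field_simp
    have cg1 : cc g1 = κ (cc K0) * Z + κ (cc G0) * Z ^ 2 := by
      simp only [hg1, map_mul, map_add, cτ, ic, zero_mul, mul_zero, add_zero,
        map_pow (f := cc) (C Z), constantCoeff_C]
    rw [map_add, map_mul, map_mul _ _ R, map_mul _ _ (i n7), cτ, zero_mul, zero_mul, add_zero,
      map_mul, map_pow, cel, cJ] at r5
    have r6 := (mul_eq_zero.1 r5).resolve_left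
      (mul_ne_zero (pow_ne_zero 2 Z0) (mul_ne_zero (by norm_num) Z0))
    simp only [map_add, map_sub, map_mul, map_pow, map_ofNat, cΛ, cg0, cg1, cp, ic,
      constantCoeff_C] at r6
    rw [← cd]
    generalize 3 * (1 + s ^ 2) + κ c ^ 2 * Z ^ 4 = Λ0 at hΛ hZ r6
    have e9 : δ Z = 2 * s * Z / Λ0 := by rw [← hZ, mul_div_cancel_left₀ _ hΛ]
    rw [e9]
    field_simp
    linear_combination r6

/-- The level curve: the factor is not zero, and the logarithmic derivative. -/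
theorem lev [CharZero L] {κ : k →+* L} {D : L →+ L} {s z : L} {c : k} {ζ : L⟦X⟧}
    (hx : Xd κ D s z) (h : Cn κ s z c ζ) :
    3 * (1 + cL L s ^ 2) + cL L (κ c) ^ 2 * coeL L (X * ζ) ^ 4 ≠ 0 ∧
    (3 * (1 + cL L s ^ 2) + cL L (κ c) ^ 2 * coeL L (X * ζ) ^ 4) * cwL D (coeL L (X * ζ)) =
      2 * cL L s * coeL L (X * ζ) := by
  have e1 : 3 * (1 + cL L s ^ 2) + cL L (κ c) ^ 2 * coeL L (X * ζ) ^ 4 =
      coeL L (3 * (1 + C s ^ 2) + C (κ c) ^ 2 * (X * ζ) ^ 4) := by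
    simp only [map_add, map_mul, map_pow, map_one, map_ofNat, coeL_C]
  have d2 : D (1 + s ^ 2) = 2 * s := by
    rw [map_add, hx.der.one, hx.der.pow, hx.ds]
    norm_num
  rw [e1]
  refine ⟨fun h0 => ?_, ?_⟩
  · have a1 := congrArg cc (coeL_inj (h0.trans (map_zero _).symm))
    have a2 : 1 + s ^ 2 = 0 := by simpa [map_ofNat] using a1
    rw [a2, map_zero] at d2
    have a3 : s = 0 := by simpa using d2
    simp [a3] at a2
  · have dw := hx.der.coefw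
    have x0 : cw D (X : L⟦X⟧) = 0 := cw_X hx.der.one
    have c0 : cw D (C (κ c ^ 2) * X ^ 4) = 0 := by
      rw [dw, dw.pow, x0, cw_C, hx.der.pow, hx.con]
      simp
    have a1 := congrArg (cw D) h.cu
    rw [map_sub, dw.const_mul c0, dw.pow, dw.pow, cw_C, d2] at a1
    have a2 := h.cu
    simp only [map_add, map_mul, map_pow, map_one, map_ofNat, Nat.cast_ofNat,
      Nat.add_one_sub_one] at a1 a2
    rw [cwL_coeL, ← map_mul, ← coeL_C, ← map_ofNat (coeL L) 2, ← map_mul, ← map_mul,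
      dw.const_mul x0]
    congr 1
    linear_combination X * ζ * a1 - 3 * X * cw D ζ * a2

end Omain

theorem omainS (h1 : XiStmt) (h2 : FormStmt) (h3 : ModStmt) (h4 : OindStmt) : OmainStmt := by
  intro b M k L _ _ _ _ κ D s z c ω x y ax σ a' ζ φ vb p zi e j hx hc cn dt ad sm he sc sp hj zl ol
  obtain ⟨⟨K0, hK⟩, ⟨G0, hG⟩, ⟨ν0, hν⟩, ⟨S0, hS⟩⟩ := ol
  have : CharZero L := charZero_of_injective_ringHom κ.injective
  have : CharZero L⸨X⸩ := K3.charL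
  obtain ⟨l1, l2⟩ := Omain.lev hx cn
  obtain ⟨z', d', z1, z2, z3⟩ := Omain.core h1 h2 h3 M (iK κ) ((cL L).comp κ) (VA D vb) (cwL D)
    (cL L s) (coeL L (X * ζ)) (isDer_VA hx.der vb) (VT_iK hx.con vb) (iK_X κ) (cc_iK κ)
    (fun u => by rw [coe_VA, cc_VT', dt.v0, zero_mul, sub_zero])
    (by
      have := VT_cL D vb (C s)
      rw [map_C, cw_C, hx.ds, map_one, map_one] at this
      exact this)
    ad.inv ad.eq ad.fo l1 l2 sm he sc sp hj zl hK hG hν hS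
  have up : ∀ r r0 : k⟦X⟧, x.μ * r = X ^ j * r0 → X ∣ r → X ^ j ∣ x.μ → cc r0 = 0 := by
    rintro r r0 h hr ⟨m, hm⟩
    rw [hm, mul_assoc] at h
    rw [← mul_left_cancel₀ (pow_ne_zero j X_ne_zero) h, map_mul, X_dvd_iff.1 hr, mul_zero]
  obtain ⟨a1, a2, a3, a4⟩ := h4 k L κ D s z c ω (cc S0) (cc K0) (cc G0) ζ σ x.μ x.ν x.c φ vb z' d' j
    hx hc cn dt sm.c sm.μ hj ⟨_, hν⟩ z1 z2 (by rw [Omain.co hν]; exact z3)
    fun h => ⟨up _ _ hK sm.κ h, up _ _ hG sm.g h⟩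
  rw [Omain.co hν] at a2
  exact ⟨Omain.up hK a3, Omain.up hG a4, Omain.up hν a2, Omain.up hS a1⟩

end Pool.Agent.MP_05b4bd_ag.XO
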