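import Pool.Agent.MP_05b4bd_ag.ex.Bas

/-! The data in the annulus. -/

namespace Pool.Agent.MP_05b4bd_ag.XO

open PowerSeries LaurentSeries HC
open ES hiding Gen Ob Inf
open ES.U (TM Cr hom)
open PC3 (Fm fm d1 DF sub2 pb mapF Van CenK)
open RV (fa fb Frm Good Rho Fac Dk In Cg ExoK SymK RRc Ob NoF)

namespace Oset

variable {k L : Type} [Field k] [Field L]

theorem charL [CharZero L] : CharZero L⸨X⸩ := charZero_of_injective_ringHom (cL L).injective

theorem iT_ne {a : AA L} (h : red a ≠ 0) : cc (iT a) ≠ 0 := by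
  rw [cc_iT]
  exact fun e => h (coeL_inj (e.trans (map_zero _).symm))

theorem cc_map (τ : k →+* L) {f : k⟦X⟧} (h : cc f = 0) : cc (map τ f) = 0 := by
  rw [← coeff_zero_eq_constantCoeff_apply, coeff_map, coeff_zero_eq_constantCoeff_apply, h,
    map_zero]

theorem map_ne (τ : k →+* L) {f : k⟦X⟧} (h : f ≠ 0) : map τ f ≠ 0 := fun e =>
  h (map_injective τ τ.injective (e.trans (map_zero _).symm))

theorem red_ne [CharZero L] : (-(((3 : ℕ) : L⟦X⟧) * X)) ≠ 0 := by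
  refine neg_ne_zero.2 (mul_ne_zero ?_ X_ne_zero)
  rw [← map_natCast (C : L →+* L⟦X⟧)]
  exact fun e => (Nat.cast_ne_zero.2 (by omega) : ((3 : ℕ) : L) ≠ 0)
    (C_injective (e.trans (map_zero _).symm))

theorem ev_tA (r : L⟦X⟧) : ES.ev CC (tA L 0) r = C r := by
  refine iT_inj ?_
  have h := out_ev 0 r
  rw [out_apply, Nat.cast_zero, neg_zero, wL_zero, rescale_one] at h
  rw [iT_C]
  exact h

theorem fix [CharZero L] {D : L →+ L} {vb : TT L} {σ : L⟦X⟧} {ρ : AA L} {Φ : AA L →+* TT L}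
    {φ : L⸨X⸩ →+* TT L} (h : Dk D vb σ ρ Φ φ) (s0 : cc σ = 0) (sn : σ ≠ 0) (r : L⟦X⟧) :
    hat φ (map (cL L) r) = map (cL L) r := by
  have cLL := Oset.charL (L := L)
  have h0 : ((coeL L).comp (sb σ)) X ≠ 0 := by
    rw [RingHom.comp_apply, sb_X s0]
    exact fun e => sn (coeL_inj (by rw [e, map_zero]))
  have e : ((coeL L).comp (sb σ)).comp C = cL L := RingHom.ext fun c => by
    rw [RingHom.comp_apply, RingHom.comp_apply, sb_C s0, coeL_C]
  rw [← iT_C, h.ext, ← ev_tA, h.out.tmap h0, e, ev_tA, iT_C]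

theorem four (w : Fm k⟦X⟧) : ((4 : R2 k⟦X⟧) • w).1 = MvPolynomial.C 4 * w.1 ∧
    ((4 : R2 k⟦X⟧) • w).2 = MvPolynomial.C 4 * w.2 := by
  rw [map_ofNat]
  exact ⟨rfl, rfl⟩

theorem fa4 (κ : k →+* L) (w : Fm k⟦X⟧) (x y : AA L) :
    fa κ 3 ((4 : R2 k⟦X⟧) • w).1 ((4 : R2 k⟦X⟧) • w).2 x y = 4 * fa κ 3 w.1 w.2 x y := by
  rw [(four w).1, (four w).2, fa, fa, aF, aF, hev_C_mul, hev_C_mul, map_ofNat]
  ring

theorem fb4 (κ : k →+* L) (D : L →+ L) (w : Fm k⟦X⟧) (x y : AA L) :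
    fb κ D 3 ((4 : R2 k⟦X⟧) • w).1 ((4 : R2 k⟦X⟧) • w).2 x y = 4 * fb κ D 3 w.1 w.2 x y := by
  rw [(four w).1, (four w).2, fb, fb, bF, bF, hev_C_mul, hev_C_mul, map_ofNat]
  ring

theorem iT_iA (κ : k →+* L) (r : k⟦X⟧) : iT (iA κ r) = iK κ r := by
  rw [iA, RingHom.comp_apply, iT_C, iK_eq]

end Oset

theorem osetS (h1 : DictStmt) (h2 : OmStmt) : OsetStmt := by
  intro b M k L _ _ _ κ D s z c x p ζ ζi w α β ω ρ B u w1 vb σ Φ φ hX hC hw hω hP
  have cL' : CharZero L := charZero_of_injective_ringHom κ.injective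
  have cLL := Oset.charL (L := L)
  have ra : red (ca κ w p ζi) ≠ 0 := by rw [hP.ra]; exact Oset.red_ne
  have v0 : cc vb = 0 := by
    have e := congrArg cc hP.hv
    rw [map_mul, cc_iT (cb κ D w p ζi), hP.rb, map_zero] at e
    exact (mul_eq_zero.1 e).resolve_left (Oset.iT_ne ra)
  have sn : σ ≠ 0 := fun e => hω.ne_zero (by omega) (by rw [← hP.s1, e, map_zero])
  refine ⟨⟨v0, hω, hP.s0, hP.s1, Oset.fix hP.dk (Oset.cc_map κ hP.s0) (Oset.map_ne κ sn),
    hP.dk.red, hP.dk.der, hP.dk.vt⟩, iT p, iT (map C ζi) * C (wL L (-1)), ?_, ?_, ?_⟩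
  · rw [iT_mapC, ← map_mul, ← map_mul, map_mul (coeL L), coeL_X, mul_mul_mul_comm,
      mul_comm (wL L 1), mul_mul_mul_comm, ← map_mul, mul_comm ζi, hC.inv, wL_mul_neg]
    simp
  · have e := congrArg iT hC.eq
    have e1 : iT.comp (iA κ) = iK κ := RingHom.ext (Oset.iT_iA κ)
    rwa [map_e6, Pa.map_map, e1, map_mul, iT_X, iT_mapC, iT_CC, ← map_mul, ← coeL_X,
      ← map_mul] at e
  · obtain ⟨-, a2, -, a4⟩ := h2 b M k⟦X⟧
    have n4 : (4 : TT L) ≠ 0 := fun e => by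
      have := congrArg cc e
      rw [map_ofNat, map_zero] at this
      exact absurd this (by norm_num)
    have := h1 k L (TT L) κ D iT (iK κ) (VA D vb) (Om M x) (Om M x) 1 (map C ζi) (p * map C ζi)
      (C (wL L 1)) (C (wL L (-1))) (isDer_VA hX.der vb) (a2 x) (a2 x)
      (a4 1 x x (by constructor <;> simp)) (Oset.iT_iA κ) (by simp)
      (VT_iK hX.con vb 1) (by rw [iT_X, map_one, one_mul])
      (by rw [← map_mul, wL_mul_neg, map_one]) ?_ (fun r => ?_) (cw_X hX.der.coefw.one)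
    · rwa [map_mul, mul_assoc] at this
    · rw [← hw, Oset.fa4, map_mul, map_ofNat]
      exact mul_ne_zero n4 fun e => Oset.iT_ne ra (by rw [ca, e, map_zero])
    · have hv := hP.hv
      rw [ca, cb] at hv
      rw [← hw, Oset.fa4, Oset.fb4, coe_VA, VT, cw_iT, th_iT, thP_apply]
      simp only [map_mul, map_sub, map_ofNat]
      rw [← hv]
      ring

end Pool.Agent.MP_05b4bd_ag.XO
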