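import Pool.Agent.MP_05b4bd_ag.ex.Bas
import Mathlib.RingTheory.RootsOfUnity.AlgebraicallyClosed

/-! The exceptional cubic: from the first integral to the factorisation and the deck map. -/

namespace Pool.Agent.MP_05b4bd_ag.XO

open PowerSeries LaurentSeries HC
open ES hiding Gen Ob Inf
open ES.U (TM Cr hom)
open PC3 (Fm fm d1 DF sub2 pb mapF Van CenK)
open RV (fa fb Frm Good Rho Fac Dk In Cg ExoK SymK RRc Ob NoF)

namespace Pipe

section Gen
variable {R S A : Type} [CommRing R] [CommRing S] [CommRing A]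

theorem aF_red (φ : A →+* S⟦X⟧) (ψ : A →+* R) (κ : R →+* S⟦X⟧) (hφ : φ = κ.comp ψ)
    (hκ : ∀ r, dX S (κ r) = 0) (e : ℕ) {P Q : R2 A} {f : R2 R} (hf : DL (e + 1 + 1) f)
    (hP : MvPolynomial.map ψ P = MvPolynomial.pderiv 1 f)
    (hQ : MvPolynomial.map ψ Q = -MvPolynomial.pderiv 0 f) {x y : S⟦X⟧}
    (h : hev κ (e + 1) f x y X = 1) : aF φ (e + 1) P Q x y = -(((e + 1 : ℕ) : S⟦X⟧) * X) := by
  have h1 := der_hev κ e isDer_dX hκ f x y X
  rw [h, isDer_dX.one, dX_X] at h1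
  rw [aF, hφ, ← hev_map, ← hev_map, hP, hQ, hev_neg, hev_succ κ e (hf.pderiv 1),
    hev_succ κ e (hf.pderiv 0)]
  push_cast
  linear_combination (-X) * h1

theorem bF_red (φ : A →+* S⟦X⟧) (ψ : A →+* R) (κ : R →+* S⟦X⟧) (hφ : φ = κ.comp ψ) {D : S →+ S}
    (hD : IsDer D) (hκ : ∀ r, cw D (κ r) = 0) (e : ℕ) {P Q : R2 A} {f : R2 R}
    (hf : DL (e + 1 + 1) f) (hP : MvPolynomial.map ψ P = MvPolynomial.pderiv 1 f)
    (hQ : MvPolynomial.map ψ Q = -MvPolynomial.pderiv 0 f) {x y : S⟦X⟧}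
    (h : hev κ (e + 1) f x y X = 1) : bF φ (e + 1) P Q D x y = 0 := by
  have h1 := der_hev' κ e hD.coefw hκ f x y (cw_X hD.one)
  rw [h, hD.coefw.one] at h1
  rw [bF, hφ, ← hev_map, ← hev_map, hP, hQ, hev_neg, hev_succ κ e (hf.pderiv 1),
    hev_succ κ e (hf.pderiv 0)]
  linear_combination (-X) * h1

theorem red_comp (κ : A →+* R) :
    (map (cc : R⟦X⟧ →+* R)).comp ((C : R⟦X⟧ →+* AA R).comp (map κ)) =
      ((C : R →+* R⟦X⟧).comp κ).comp cc := by
  refine RingHom.ext fun c => ?_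
  simp only [RingHom.comp_apply, map_C]
  rfl

theorem hev_hom (φ : R →+* S) {d e : ℕ} {u : R2 R} (hu : u.IsHomogeneous e) (he : e ≤ d)
    (x y w : S) : hev φ d u x y w = MvPolynomial.eval₂ φ ![x, y] u * w ^ (d - e) := by
  rw [hev, Finset.sum_eq_single e, hc_self hu]
  · intro i _ hi
    rw [hc_ne hu hi, MvPolynomial.eval₂_zero, zero_mul]
  · intro h
    exact absurd (Finset.mem_range.2 (by omega)) h

theorem hom3 : (MvPolynomial.X 0 ^ 3 + MvPolynomial.X 0 * MvPolynomial.X 1 ^ 2 :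
    R2 R).IsHomogeneous 3 :=
  ((MvPolynomial.isHomogeneous_X R 0).pow 3).add
    ((MvPolynomial.isHomogeneous_X R 0).mul ((MvPolynomial.isHomogeneous_X R 1).pow 2))

theorem hom1 (c : R) : (2 * MvPolynomial.C c * MvPolynomial.X 1 : R2 R).IsHomogeneous 1 := by
  have : (2 * MvPolynomial.C c : R2 R) = MvPolynomial.C (2 * c) := by
    rw [map_mul, map_ofNat]
  rw [this]
  exact (MvPolynomial.isHomogeneous_X R 1).C_mul _

theorem dl_f0 (c : R) : DL 4 (f0 c) :=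
  (DL.of_hom hom3).add ((DL.of_hom (hom1 c)).mono (by omega))

theorem hev_f0 (φ : R →+* S) (c : R) (x y w : S) :
    hev φ 3 (f0 c) x y w = x ^ 3 + x * y ^ 2 + 2 * φ c * y * w ^ 2 := by
  rw [f0, hev_add, hev_hom φ hom3 le_rfl, hev_hom φ (hom1 c) (by omega)]
  simp [MvPolynomial.eval₂_add, MvPolynomial.eval₂_mul, MvPolynomial.eval₂_pow]

end Gen

variable {k L : Type} [Field k] [Field L]

theorem red_const {D : L →+ L} {a b ρ B : AA L} {n : ℕ} (h : Rho D a b ρ B n) (ha : red a ≠ 0)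
    (hb : red b = 0) : cw D (red ρ) = 0 := by
  have e := congrArg red h.eq
  obtain ⟨B', rfl⟩ := h.tB
  have e1 : cw D (red ρ) = red (cw (cw D) ρ) := by
    ext m
    simp only [red, coeff_cw, coeff_map, cc_cw]
  have e2 : red (sb ρ (C X * B')) = 0 := by
    rw [map_mul, sb_C h.c0, map_mul, red_C, constantCoeff_X, map_zero, zero_mul]
  rw [map_mul red a (sb ρ _), e2, map_sub, map_mul red a, map_mul red (X * b), map_mul red X, hb,
    mul_zero, zero_mul, sub_zero, mul_zero, ← e1] at e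
  exact (mul_eq_zero.1 e).resolve_left ha

theorem red_iA (κ : k →+* L) (r : k⟦X⟧) : red (iA κ r) = C (κ (cc r)) := by
  rw [iA, RingHom.comp_apply, red_C]
  rfl

theorem red_CC (s : L) : red (CC s : AA L) = C s := by
  rw [CC, RingHom.comp_apply, red_C, constantCoeff_C]

/-- The frame lies on the level curve. -/
theorem level {b : ℕ} {M : Mo b} {κ : k →+* L} {s z : L} {c : k} {x : Pa k⟦X⟧} {p : AA L}
    {ζ ζi : L⟦X⟧} (hS : Sm c x) (hC : Cf M κ s z c x p ζ ζi) :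
    hev ((C : L →+* L⟦X⟧).comp κ) 3 (f0 c) ζi (red p * ζi) X = 1 := by
  obtain ⟨r, hr⟩ := M.sE (x.map (iA κ)) p (X * map C ζ)
  have e := congrArg red (hr.symm.trans hC.eq)
  have hn : cc x.n = 0 := X_dvd_iff.1 hS.n
  simp only [Pa.map, map_add, map_mul, map_pow, red_iA, red_X, red_mapC, red_CC, hS.c, hn,
    map_zero, zero_mul, add_zero] at e
  have h1 := hC.cu
  have h2 := hC.inv
  rw [map_add, map_one, map_pow, map_pow] at h1
  rw [hev_f0, RingHom.comp_apply]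
  have hp : red p = C s - C (κ c) * (X * ζ) ^ 2 := by linear_combination e
  rw [hp]
  linear_combination (-ζi ^ 3) * h1 + (ζ ^ 2 * ζi ^ 2 + ζ * ζi + 1) * h2 -
    2 * C (κ c) * X ^ 2 * (C s - C (κ c) * (X * ζ) ^ 2) * ζi * (ζ * ζi + 1) * h2

end Pipe

theorem pipeS (h1 : RV.P0aStmt) (h2 : RV.P0bStmt) (h3 : RV.DeckrStmt) (h4 : EtxStmt)
    (h5 : GscStmt) : PipeStmt := by
  intro b M k L _ _ _ _ κ D s z c x p ζ ζi w α ω hX hS hC hw hG hω
  have cL' : CharZero L := charZero_of_injective_ringHom κ.injective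
  have hz1 : z * cc ζi = 1 := by
    have := congrArg cc hC.inv
    rwa [map_mul, map_one, hC.z0] at this
  have hz : z ≠ 0 := left_ne_zero_of_mul_eq_one hz1
  have hzi : cc ζi = z⁻¹ := eq_inv_of_mul_eq_one_right hz1
  have hx0 : c00 (map C ζi : AA L) = z⁻¹ := by rw [← cc_red, red_mapC, hzi]
  have hθ : -3 * z ^ 2 ≠ 0 := mul_ne_zero (by norm_num) (pow_ne_zero 2 hz)
  have hGood := hG (map C ζi) (p * map C ζi) hx0 (by rw [map_mul, hC.p0, hx0])
  have hP : MvPolynomial.map cc w.1 = MvPolynomial.pderiv 1 (f0 c) := congrArg Prod.fst hw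
  have hQ : MvPolynomial.map cc w.2 = -MvPolynomial.pderiv 0 (f0 c) := congrArg Prod.snd hw
  have lev := Pipe.level hS hC
  have ry : map cc (p * map C ζi : AA L) = red p * ζi := by
    rw [← red_mapC ζi, ← map_mul, red_mapC]
    rfl
  have rx : map cc (map C ζi : AA L) = ζi := red_mapC ζi
  have ra : red (ca κ w p ζi) = -(((3 : ℕ) : L⟦X⟧) * X) := by
    rw [ca, fa, red, map_aF, rx, ry]
    exact Pipe.aF_red _ (cc (R := k)) _ (Pipe.red_comp κ)
      (fun r => by rw [RingHom.comp_apply, dX_C]) 2 (Pipe.dl_f0 c) hP hQ lev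
  have rb : red (cb κ D w p ζi) = 0 := by
    have := map_bF 3 ((C : L⟦X⟧ →+* AA L).comp (map κ)) (cc : L⟦X⟧ →+* L) (D := cw D)
      (D' := D) (θ := 1) (fun c => by rw [cc_cw, one_mul]) w.1 w.2 (map C ζi) (p * map C ζi)
    rw [map_one, one_mul, rx, ry] at this
    rw [cb, fb, red, this]
    exact Pipe.bF_red _ (cc (R := k)) _ (Pipe.red_comp κ) hX.der
      (fun r => by rw [RingHom.comp_apply, cw_C, hX.con, map_zero]) 2 (Pipe.dl_f0 c) hP hQ lev
  have eb : cb κ (sD (-3 * z ^ 2) D) w p ζi = CC (-3 * z ^ 2) * cb κ D w p ζi :=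
    (h5 k L κ D _ hθ).2.2 3 w.1 w.2 _ _
  have rb' : red (cb κ (sD (-3 * z ^ 2) D) w p ζi) = 0 := by rw [eb, map_mul, rb, mul_zero]
  have hD' : IsDer (sD (-3 * z ^ 2) D) := hX.der.mulLeft _
  change Good κ _ (ca κ w p ζi) (cb κ (sD (-3 * z ^ 2) D) w p ζi) 4 α at hGood
  obtain ⟨-, ρ, B, hR, hα⟩ := h1 k L κ _ _ _ 3 4 α hD' (by omega) ra rb' hGood
  obtain ⟨ξ, hξ⟩ := HasEnoughRootsOfUnity.exists_primitiveRoot k 3
  obtain ⟨η, t1, t2, t3⟩ := h4 b M k L κ D s z c x p ζ ζi ξ hX hS hC hξ.pow_eq_one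
  obtain ⟨β, u, w1, hs, hfac⟩ := h2 k L κ _ _ _ ρ B 3 4 α η ξ hD' (by omega) ra rb' hGood hR hα
    hξ t1 t2 (t3 w).1 (t3 w).2 (by norm_num) (by omega)
  have hR' := (h5 k L κ (sD (-3 * z ^ 2) D) _ (inv_ne_zero hθ)).2.1 _ _ _ _ _ hR
  have eD : sD (-3 * z ^ 2)⁻¹ (sD (-3 * z ^ 2) D) = D := by
    refine AddMonoidHom.ext fun r => ?_
    rw [sD_apply, sD_apply, inv_mul_cancel_left₀ hθ]
  rw [eD, eb, ← mul_assoc, ← map_mul, inv_mul_cancel₀ hθ, map_one, one_mul] at hR'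
  have nd : ¬ ca κ w p ζi ∣ X * cb κ D w p ζi := fun h => hGood.nd (by
    rw [eb, mul_left_comm]
    exact h.mul_left _)
  have ra0 : red (ca κ w p ζi) ≠ 0 := by
    rw [ra]
    refine neg_ne_zero.2 (mul_ne_zero ?_ X_ne_zero)
    rw [← map_natCast (C : L →+* L⟦X⟧)]
    exact fun e => (Nat.cast_ne_zero.2 (by omega) : ((3 : ℕ) : L) ≠ 0)
      (C_injective (e.trans (map_zero _).symm))
  have ua : IsUnit (iT (ca κ w p ζi)) := by
    refine PowerSeries.isUnit_iff_constantCoeff.2 (IsUnit.mk0 _ ?_)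
    change cc _ ≠ 0
    rw [cc_iT]
    exact fun e => ra0 (coeL_inj (e.trans (map_zero _).symm))
  obtain ⟨ai, hai⟩ := ua.exists_right_inv
  have hv : iT (ca κ w p ζi) * (ai * iT (cb κ D w p ζi)) = iT (cb κ D w p ζi) := by
    rw [← mul_assoc, hai, one_mul]
  have hc := Pipe.red_const hR' ra0 rb
  obtain ⟨r0, hr0⟩ := exists_map_of_coeff (φ := κ) (f := red ρ) fun m => hX.cst _ (by
    rw [← coeff_cw, hc, map_zero])
  have hord : OrdIs 4 r0 := by
    have h := hR.ord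
    rw [hr0] at h
    simpa only [OrdIs, coeff_map, ne_eq, _root_.map_eq_zero] using h
  obtain ⟨σ, s1, s2, s3⟩ := exists_sig (by omega : 1 ≤ 4) hord le_rfl (γ := r0)
    (by rwa [mul_one]) (ζ := ω) (by rw [hω.pow_eq_one, mul_one, mul_one])
  have s0 : cc σ = 0 := by
    rw [← coeff_zero_eq_constantCoeff_apply]; exact s1.2 0 one_pos
  have sn : σ ≠ 0 := fun e => s1.1 (by rw [e, map_zero])
  obtain ⟨Φ, φ, hK⟩ := h3 L D _ _ ρ _ _ (map κ σ) 4 hX.der ra0 hv (by omega) hR'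
    (by rw [← coeff_zero_eq_constantCoeff_apply, coeff_map, coeff_zero_eq_constantCoeff_apply, s0,
      map_zero])
    (fun e => sn (map_injective κ κ.injective (e.trans (map_zero _).symm))) (by
      ext m
      rw [coeff_cw, coeff_map, hX.con, map_zero]) (by rw [hr0, ← map_sb s0, s3])
  exact ⟨β, ρ, _, u, w1, _, σ, Φ, φ, hs, nd, ra, rb, hR', hfac, hv, hK, s0, s2⟩

end Pool.Agent.MP_05b4bd_ag.XO
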