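import Pool.Agent.MP_05b4bd_ag.ex.Bas

/-! A polynomial differential equation without solutions. -/

namespace Pool.Agent.MP_05b4bd_ag.XO

namespace Rat
open Polynomial

variable {k : Type} [Field k] [CharZero k]

theorem const (A : k[X]) (b : k) (i : ℕ) (γ δ : k) (hb : b ≠ 0) (hi : i ≠ 0 → δ = 0)
    (h : 3 * (1 + X ^ 2) * (A.derivative * C b - A * (C b).derivative) +
      2 * (i : k[X]) * X * A * C b = (C γ + C δ * X) * C b ^ 2) : γ = 0 ∧ δ = 0 := by
  have h1 : C 3 * A.derivative + C 3 * (X ^ 2 * A.derivative) + C (2 * i : k) * (X ^ 1 * A) =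
      C (γ * b) + C (δ * b) * X := by
    apply mul_right_cancel₀ (C_ne_zero.2 hb)
    simp only [derivative_C, map_mul, map_natCast, map_ofNat] at h ⊢
    linear_combination h
  have h2 : A.natDegree = 0 := by
    by_contra hN
    obtain ⟨N, hN'⟩ := Nat.exists_eq_succ_of_ne_zero hN
    have := congrArg (fun P => P.coeff (N + 2)) h1
    have z : A.coeff (N + 2 + 1) = 0 := coeff_eq_zero_of_natDegree_lt (by omega)
    have e1 : (X ^ 1 * A).coeff (N + 2) = A.coeff (N + 1) := coeff_X_pow_mul A 1 (N + 1)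
    simp only [coeff_add, coeff_C_mul, coeff_X_pow_mul, coeff_derivative, z, e1, coeff_C_succ,
      coeff_X_of_ne_one (show N + 2 ≠ 1 by omega)] at this
    have hl : A.coeff (N + 1) ≠ 0 := by
      rw [← Nat.succ_eq_add_one, ← hN']
      exact leadingCoeff_ne_zero.2 fun h0 => hN (by rw [h0, natDegree_zero])
    have h3 : ((3 * (N + 1) + 2 * i : ℕ) : k) ≠ 0 := Nat.cast_ne_zero.2 (by omega)
    refine mul_ne_zero hl h3 ?_
    push_cast
    linear_combination this
  rw [eq_C_of_natDegree_eq_zero h2, derivative_C] at h1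
  have c0 := congrArg (fun P => P.coeff 0) h1
  have c1 := congrArg (fun P => P.coeff 1) h1
  simp only [mul_zero, zero_add, pow_one, coeff_add, coeff_X_zero, coeff_C_zero,
    mul_coeff_zero, zero_mul, add_zero] at c0
  simp only [mul_zero, zero_add, pow_one, coeff_add, coeff_C_mul, coeff_X_one, coeff_C_succ,
    mul_one] at c1
  refine ⟨(mul_eq_zero.1 c0.symm).resolve_right hb, ?_⟩
  by_cases h0 : i = 0
  · rw [h0, Nat.cast_zero, mul_zero, zero_mul] at c1
    exact (mul_eq_zero.1 c1.symm).resolve_right hb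
  · exact hi h0

theorem pole (A B G : k[X]) (i m : ℕ) (r : k) (hi : i ≤ 2) (hA : A.eval r ≠ 0)
    (hB : B.eval r ≠ 0)
    (h : 3 * (1 + X ^ 2) * (A.derivative * ((X - C r) ^ (m + 1) * B) -
        A * ((X - C r) ^ (m + 1) * B).derivative) +
      2 * (i : k[X]) * X * A * ((X - C r) ^ (m + 1) * B) = G * ((X - C r) ^ (m + 1) * B) ^ 2) :
    False := by
  have hX : (X - C r : k[X]) ≠ 0 := X_sub_C_ne_zero r
  have h1 : 3 * (1 + X ^ 2) * (A.derivative * (X - C r) * B -
      A * (((m : k[X]) + 1) * B + (X - C r) * B.derivative)) +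
      2 * (i : k[X]) * X * A * (X - C r) * B = G * (X - C r) ^ (m + 2) * B ^ 2 := by
    apply mul_left_cancel₀ (pow_ne_zero m hX)
    rw [derivative_mul, derivative_X_sub_C_pow] at h
    simp only [Nat.add_sub_cancel, Nat.cast_add, Nat.cast_one, map_add, map_natCast, map_one] at h
    linear_combination h
  have hm : (m : k) + 1 ≠ 0 := Nat.cast_add_one_ne_zero m
  have e1 := congrArg (eval r) h1
  simp only [eval_add, eval_mul, eval_sub, eval_pow, eval_X, eval_C, eval_one, eval_ofNat,
    eval_natCast, sub_self, mul_zero, zero_mul, add_zero, zero_sub, ne_eq, Nat.add_eq_zero_iff,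
    OfNat.ofNat_ne_zero, and_false, not_false_eq_true, zero_pow] at e1
  have hr : 1 + r ^ 2 = 0 := by
    by_contra hr
    exact mul_ne_zero (mul_ne_zero three_ne_zero hr)
      (neg_ne_zero.2 (mul_ne_zero hA (mul_ne_zero hm hB))) e1
  have hQ : (1 + X ^ 2 : k[X]) = (X - C r) * (X + C r) := by
    have := congrArg C hr
    simp only [map_add, map_one, map_pow, map_zero] at this
    linear_combination this
  have h2 : 3 * (X + C r) * (A.derivative * (X - C r) * B -
      A * (((m : k[X]) + 1) * B + (X - C r) * B.derivative)) +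
      2 * (i : k[X]) * X * A * B = G * (X - C r) ^ (m + 1) * B ^ 2 := by
    apply mul_left_cancel₀ hX
    rw [hQ] at h1
    linear_combination h1
  have e2 := congrArg (eval r) h2
  simp only [eval_add, eval_mul, eval_sub, eval_pow, eval_X, eval_C, eval_one, eval_ofNat,
    eval_natCast, sub_self, mul_zero, zero_mul, add_zero, zero_sub, ne_eq, Nat.add_eq_zero_iff,
    one_ne_zero, and_false, not_false_eq_true, zero_pow] at e2
  have r0 : r ≠ 0 := fun h0 => by simp [h0] at hr
  have : ((3 * (m + 1) : ℕ) : k) = (i : k) := by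
    apply mul_left_cancel₀ (mul_ne_zero (mul_ne_zero (mul_ne_zero two_ne_zero r0) hA) hB)
    push_cast
    linear_combination -e2
  have := Nat.cast_injective this
  omega

end Rat

open Polynomial in
theorem ratS : RatStmt := by
  intro k _ _ _ A B i γ δ hB hi hδ h
  induction hn : B.natDegree using Nat.strong_induction_on generalizing A B with
  | _ n ih =>
    by_cases h0 : B.natDegree = 0
    · rw [eq_C_of_natDegree_eq_zero h0] at h hB
      exact Rat.const A _ i γ δ (C_ne_zero.1 hB) hδ h
    obtain ⟨r, hr⟩ := IsAlgClosed.exists_root B fun hd => h0 (natDegree_eq_zero_iff_degree_le_zero.2 hd.le)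
    by_cases hA : A.eval r = 0
    · obtain ⟨A1, rfl⟩ := dvd_iff_isRoot.2 hA
      obtain ⟨B1, rfl⟩ := dvd_iff_isRoot.2 hr
      have hX : (X - C r : k[X]) ≠ 0 := X_sub_C_ne_zero r
      have h1 : B1 ≠ 0 := right_ne_zero_of_mul hB
      refine ih B1.natDegree ?_ A1 B1 h1 ?_ rfl
      · rw [← hn, natDegree_mul hX h1, natDegree_X_sub_C]
        omega
      · apply mul_left_cancel₀ (pow_ne_zero 2 hX)
        simp only [derivative_mul, derivative_X_sub_C] at h
        linear_combination h
    · obtain ⟨B1, h1, h2⟩ := exists_eq_pow_rootMultiplicity_mul_and_not_dvd B hB r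
      obtain ⟨m, hm⟩ := Nat.exists_eq_succ_of_ne_zero ((rootMultiplicity_pos hB).2 hr).ne'
      rw [hm] at h1
      rw [h1] at h
      exact (Rat.pole A B1 _ i m r hi hA (fun h3 => h2 (dvd_iff_isRoot.2 h3)) h).elim

end Pool.Agent.MP_05b4bd_ag.XO
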