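import Pool.Agent.MP_05b4bd_ag.ex.Bas

/-! A quadratic equation of `EX b` that fails on each of the other families. -/

namespace Pool.Agent.MP_05b4bd_ag.XO

open MvPolynomial
open HC hiding co lf

namespace Sx1

/-- The quadratic in the cubic coefficients `a` of `dx` and `e` of `dy`. -/
def q {A : Type} [CommRing A] (b : ℕ) (a0 a1 a2 a3 e0 e1 e2 e3 : A) : A :=
  if b = 1 then -147 * a0 * e3 - 24 * a1 * a3 + 57 * a1 * e2 + 8 * a2 ^ 2 - 65 * a2 * e1 +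
    219 * a3 * e0 - 24 * e0 * e2 + 8 * e1 ^ 2
  else 507 * a0 * e3 - 120 * a1 * a3 - 129 * a1 * e2 + 40 * a2 ^ 2 + 89 * a2 * e1 -
    147 * a3 * e0 - 120 * e0 * e2 + 40 * e1 ^ 2

theorem map_q {A B : Type} [CommRing A] [CommRing B] (φ : A →+* B) (b : ℕ)
    (a0 a1 a2 a3 e0 e1 e2 e3 : A) : φ (q b a0 a1 a2 a3 e0 e1 e2 e3) =
      q b (φ a0) (φ a1) (φ a2) (φ a3) (φ e0) (φ e1) (φ e2) (φ e3) := by
  unfold q
  split_ifs <;> simp only [map_add, map_sub, map_mul, map_pow, map_neg, map_ofNat]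

/-- The quadratic evaluated on a form. -/
noncomputable def qf (b : ℕ) (ω : Form) : ℂ :=
  q b (HC.co 3 0 (-ω.2)) (HC.co 2 1 (-ω.2)) (HC.co 1 2 (-ω.2)) (HC.co 0 3 (-ω.2))
    (HC.co 3 0 ω.1) (HC.co 2 1 ω.1) (HC.co 1 2 ω.1) (HC.co 0 3 ω.1)

theorem zq {b : ℕ} {S : Set Form} {ω : Form} (hS : ∀ η ∈ S, qf b η = 0) (h : ω ∈ zcl S) :
    qf b ω = 0 := by
  let x : Bool → ℕ → ℕ → Co := fun s i j => X (s, Finsupp.single 0 i + Finsupp.single 1 j)
  have key : ∀ η, ev (q b (-x false 3 0) (-x false 2 1) (-x false 1 2) (-x false 0 3)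
      (x true 3 0) (x true 2 1) (x true 1 2) (x true 0 3)) η = qf b η := fun η => by
    have := map_q (aeval (co η) : Co →ₐ[ℂ] ℂ).toRingHom b (-x false 3 0) (-x false 2 1)
      (-x false 1 2) (-x false 0 3) (x true 3 0) (x true 2 1) (x true 1 2) (x true 0 3)
    refine this.trans ?_
    simp only [x, AlgHom.toRingHom_eq_coe, RingHom.coe_coe, map_neg, aeval_X, qf, co_neg]
    rfl
  rw [← key]
  exact mem_zcl.1 h _ fun η hη => (key η).trans (hS η hη)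

/-- A binary cubic. -/
noncomputable def cub (a0 a1 a2 a3 : ℂ) : Poly :=
  C a0 * (X 0 ^ 3 * X 1 ^ 0) + C a1 * (X 0 ^ 2 * X 1 ^ 1) + C a2 * (X 0 ^ 1 * X 1 ^ 2) +
    C a3 * (X 0 ^ 0 * X 1 ^ 3)

theorem co_cub {P : Poly} {a0 a1 a2 a3 : ℂ} (h : DL 3 (P - cub a0 a1 a2 a3)) :
    HC.co 3 0 P = a0 ∧ HC.co 2 1 P = a1 ∧ HC.co 1 2 P = a2 ∧ HC.co 0 3 P = a3 := by
  have k : ∀ i j, 3 ≤ i + j → HC.co i j P = HC.co i j (cub a0 a1 a2 a3) := fun i j hij =>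
    sub_eq_zero.1 ((co_sub ..).symm.trans (co_of_DL h hij))
  rw [k 3 0 le_rfl, k 2 1 le_rfl, k 1 2 le_rfl, k 0 3 le_rfl]
  simp only [cub, co_add, co_C_mul, co_mon]
  simp

theorem qf_eq (b : ℕ) {ω : Form} {a0 a1 a2 a3 e0 e1 e2 e3 : ℂ}
    (h2 : DL 3 (-ω.2 - cub a0 a1 a2 a3)) (h1 : DL 3 (ω.1 - cub e0 e1 e2 e3)) :
    qf b ω = q b a0 a1 a2 a3 e0 e1 e2 e3 := by
  obtain ⟨a, b, c, d⟩ := co_cub h2
  obtain ⟨e, f, g, h⟩ := co_cub h1
  rw [qf, a, b, c, d, e, f, g, h]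

theorem m2 {a b : Poly} (ha : DL 2 a) (hb : DL 2 b) : DL 3 (a * b) := DL.mul (a := 1) ha hb

theorem top (b : ℕ) (i : Fin 2) (c m μ u0 v0 p r : ℂ) {U V H u v l G : Poly} (hU : DL 2 U)
    (hV : DL 2 V) (hH : DL 3 H) (hp : pderiv i U = C p) (hr : pderiv i V = C r)
    (hu : u = C u0 + U) (hv : v = C v0 + V) (hl : l = 1 + C m * u)
    (hG : G = u ^ 3 + u * v ^ 2 + H) :
    DL 3 (4 * l * pderiv i G - 3 * (b : Poly) * G * pderiv i l +
      C μ * (u * v + C c) * (4 * l * pderiv i u - (b : Poly) * u * pderiv i l) -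
      (C ((12 - 3 * b) * m * p) * U ^ 3 + C (8 * m * r + (4 - b) * m * μ * p) * (U ^ 2 * V) +
        C ((4 - 3 * b) * m * p) * (U * V ^ 2))) := by
  have du : DL 2 u := hu ▸ ((DL_C _).mono (by omega)).add hU
  have dv : DL 2 v := hv ▸ ((DL_C _).mono (by omega)).add hV
  have dl : DL 2 l := hl ▸ ((DL_C 1).mono (by omega)).add (du.C_mul _)
  have pu : pderiv i u = C p := by rw [hu, map_add, pderiv_C, zero_add, hp]
  have pv : pderiv i v = C r := by rw [hv, map_add, pderiv_C, zero_add, hr]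
  have pl : pderiv i l = C m * C p := by rw [hl, map_add, pderiv_C_mul, pu, pderiv_one, zero_add]
  have pG : pderiv i G = 3 * u ^ 2 * C p + (C p * v ^ 2 + u * (2 * v * C r)) + pderiv i H := by
    rw [hG, map_add, map_add, pderiv_mul, pderiv_pow, pderiv_pow, pu, pv]
    norm_num
  have e : 4 * l * pderiv i G - 3 * (b : Poly) * G * pderiv i l +
      C μ * (u * v + C c) * (4 * l * pderiv i u - (b : Poly) * u * pderiv i l) -
      (C ((12 - 3 * b) * m * p) * U ^ 3 + C (8 * m * r + (4 - b) * m * μ * p) * (U ^ 2 * V) +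
        C ((4 - 3 * b) * m * p) * (U * V ^ 2)) =
      C ((12 - 3 * b) * m * p) * (C u0 * (u * u + u * U + U * U)) +
        C (8 * m * r + (4 - b) * m * μ * p) * (C u0 * ((u + U) * v) + C v0 * (U * U)) +
        C ((4 - 3 * b) * m * p) * (C u0 * (v * v) + C v0 * (U * (v + V))) +
        (C (12 * p) * (u * u) + C (4 * p) * (v * v) + C (8 * r) * (u * v) +
          C 4 * (l * pderiv i H) - C (3 * b * m * p) * H + C (4 * μ * p) * (u * v + C c) +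
          C (μ * c * (4 - b) * m * p) * u) := by
    rw [pG, pl, pu, hG, hl, hu, hv]
    simp only [map_add, map_sub, map_mul, map_ofNat, map_natCast]
    ring
  rw [e]
  exact (((((((m2 du du).add (m2 du hU)).add (m2 hU hU)).C_mul _).C_mul _).add
    ((((m2 (du.add hU) dv).C_mul _).add ((m2 hU hU).C_mul _)).C_mul _)).add
    ((((m2 dv dv).C_mul _).add ((m2 hU (dv.add hV)).C_mul _)).C_mul _)).add
    ((((((((m2 du du).C_mul _).add ((m2 dv dv).C_mul _)).add ((m2 du dv).C_mul _)).add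
      ((m2 dl (hH.pderiv i)).C_mul _)).sub (hH.C_mul _)).add
      (((m2 du dv).add ((DL_C _).mono (by omega))).C_mul _)).add
      ((du.mono (by omega)).C_mul _))

theorem cub_lf (α β γ u1 u2 v1 v2 : ℂ) :
    C α * HC.lf u1 u2 ^ 3 + C β * (HC.lf u1 u2 ^ 2 * HC.lf v1 v2) + C γ * (HC.lf u1 u2 * HC.lf v1 v2 ^ 2) =
      cub (α * u1 ^ 3 + β * u1 ^ 2 * v1 + γ * u1 * v1 ^ 2)
        (3 * α * u1 ^ 2 * u2 + β * (u1 ^ 2 * v2 + 2 * u1 * u2 * v1) +
          γ * (2 * u1 * v1 * v2 + u2 * v1 ^ 2))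
        (3 * α * u1 * u2 ^ 2 + β * (2 * u1 * u2 * v2 + u2 ^ 2 * v1) +
          γ * (u1 * v2 ^ 2 + 2 * u2 * v1 * v2))
        (α * u2 ^ 3 + β * u2 ^ 2 * v2 + γ * u2 * v2 ^ 2) := by
  simp only [cub, HC.lf, map_add, map_mul, map_pow, map_ofNat]
  ring

/-- The quadratic on the two cubics `α u^3 + β u^2 v + γ u v^2`. -/
def qq (b : ℕ) (α β γ α' β' γ' u1 u2 v1 v2 : ℂ) : ℂ :=
  q b (α * u1 ^ 3 + β * u1 ^ 2 * v1 + γ * u1 * v1 ^ 2)
    (3 * α * u1 ^ 2 * u2 + β * (u1 ^ 2 * v2 + 2 * u1 * u2 * v1) +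
      γ * (2 * u1 * v1 * v2 + u2 * v1 ^ 2))
    (3 * α * u1 * u2 ^ 2 + β * (2 * u1 * u2 * v2 + u2 ^ 2 * v1) +
      γ * (u1 * v2 ^ 2 + 2 * u2 * v1 * v2))
    (α * u2 ^ 3 + β * u2 ^ 2 * v2 + γ * u2 * v2 ^ 2)
    (α' * u1 ^ 3 + β' * u1 ^ 2 * v1 + γ' * u1 * v1 ^ 2)
    (3 * α' * u1 ^ 2 * u2 + β' * (u1 ^ 2 * v2 + 2 * u1 * u2 * v1) +
      γ' * (2 * u1 * v1 * v2 + u2 * v1 ^ 2))
    (3 * α' * u1 * u2 ^ 2 + β' * (2 * u1 * u2 * v2 + u2 ^ 2 * v1) +
      γ' * (u1 * v2 ^ 2 + 2 * u2 * v1 * v2))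
    (α' * u2 ^ 3 + β' * u2 ^ 2 * v2 + γ' * u2 * v2 ^ 2)

theorem val (n : ℕ) {b : ℕ} (hb : b ≤ 3) (c m μ u0 u1 u2 v0 v1 v2 : ℂ) {u v l G : Poly}
    (hu : u = C u0 + HC.lf u1 u2) (hv : v = C v0 + HC.lf v1 v2) (hl : l = 1 + C m * u)
    (hG : G = u ^ 3 + u * v ^ 2 + 2 * C c * v - C (c ^ 2 * m) * ∑ i ∈ Finset.range b, l ^ i) :
    qf n ((4 * l) • dform G - (3 * (b : Poly) * G) • dform l +
      (C μ * (u * v + C c)) • ((4 * l) • dform u - ((b : Poly) * u) • dform l)) =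
    qq n ((12 - 3 * b) * m * u1) (8 * m * v1 + (4 - b) * m * μ * u1) ((4 - 3 * b) * m * u1)
      ((12 - 3 * b) * m * u2) (8 * m * v2 + (4 - b) * m * μ * u2) ((4 - 3 * b) * m * u2)
      u1 u2 v1 v2 := by
  have hU : DL 2 (HC.lf u1 u2) := DL.of_hom (lf_hom _ _)
  have hV : DL 2 (HC.lf v1 v2) := DL.of_hom (lf_hom _ _)
  have du : DL 2 u := hu ▸ ((DL_C _).mono (by omega)).add hU
  have dv : DL 2 v := hv ▸ ((DL_C _).mono (by omega)).add hV
  have dl : DL 2 l := hl ▸ ((DL_C 1).mono (by omega)).add (du.C_mul _)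
  have hH : DL 3 (C (2 * c) * v - C (c ^ 2 * m) * ∑ i ∈ Finset.range b, l ^ i) :=
    ((dv.mono (by omega)).C_mul _).sub (DL.C_mul _ (DL.sum _ fun i hi =>
      (DL.pow (a := 1) dl i).mono (by have := Finset.mem_range.1 hi; omega)))
  have hG' : G = u ^ 3 + u * v ^ 2 +
      (C (2 * c) * v - C (c ^ 2 * m) * ∑ i ∈ Finset.range b, l ^ i) := by
    rw [hG, map_mul C 2 c, map_ofNat]; ring
  have t0 := top b 0 c m μ u0 v0 u1 v1 hU hV hH (lf_x _ _) (lf_x _ _) hu hv hl hG'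
  have t1 := top b 1 c m μ u0 v0 u2 v2 hU hV hH (lf_y _ _) (lf_y _ _) hu hv hl hG'
  rw [cub_lf] at t0 t1
  refine qf_eq n (Eq.subst (motive := DL 3) ?_ t0) (Eq.subst (motive := DL 3) ?_ t1)
  · simp only [dform, Prod.snd_add, Prod.snd_sub, Prod.smul_snd, smul_eq_mul]
    ring
  · simp only [dform, Prod.fst_add, Prod.fst_sub, Prod.smul_fst, smul_eq_mul]

theorem van {b : ℕ} (hb : b = 1 ∨ b = 3) (ω : Form) (h : ω ∈ EX b) : qf b ω = 0 := by
  obtain ⟨c, m, μ, u, v, l, G, hu, hv, hl, hG, rfl⟩ := h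
  rw [val b (by omega) c m μ _ _ _ _ _ _ (PC3.DL2_eq (DL_iff.2 hu)) (PC3.DL2_eq (DL_iff.2 hv)) hl hG]
  generalize HC.co 1 0 u = u1
  generalize HC.co 0 1 u = u2
  generalize HC.co 1 0 v = v1
  generalize HC.co 0 1 v = v2
  rcases hb with rfl | rfl
  · simp only [qq, q, if_true, Nat.cast_one]
    ring
  · simp only [qq, q, Nat.cast_ofNat]
    rw [if_neg (by omega)]
    ring

/-- A form with cubic part `α x y^2 dx + β x^2 y dy`. -/
theorem out {b : ℕ} (hb : b = 1 ∨ b = 3) {W : Set Form} {ω : Form} (hω : ω ∈ W) (α β : ℂ)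
    (h1 : 8 * α ^ 2 - 65 * α * β + 8 * β ^ 2 ≠ 0) (h3 : 40 * α ^ 2 + 89 * α * β + 40 * β ^ 2 ≠ 0)
    (e2 : DL 3 (-ω.2 - C α * (X 0 * X 1 ^ 2))) (e1 : DL 3 (ω.1 - C β * (X 0 ^ 2 * X 1))) :
    ¬ W ⊆ zcl (EX b) := fun h => by
  have z := zq (van hb) (h hω)
  rw [qf_eq b (a0 := 0) (a1 := 0) (a2 := α) (a3 := 0) (e0 := 0) (e1 := β) (e2 := 0) (e3 := 0)
    (by simpa [cub] using e2) (by simpa [cub] using e1)] at z
  rcases hb with rfl | rfl
  · exact h1 (by simpa [q] using z)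
  · exact h3 (by simpa [q] using z)

theorem dz {P : Poly} (h : P = 0) : DL 3 P := h ▸ DL.zero 3

theorem dg {P : Poly} {a n : ℕ} (h : P.IsHomogeneous a) (hn : a ≤ n) : P.totalDegree ≤ n :=
  h.totalDegree_le.trans hn

theorem hx (a : ℕ) : (X 0 ^ a : Poly).IsHomogeneous a := isHomogeneous_X_pow 0 a
theorem hy (a : ℕ) : (X 1 ^ a : Poly).IsHomogeneous a := isHomogeneous_X_pow 1 a

end Sx1

open Sx1 in
theorem sx1S (_h : UnxStmt) : Sx1Stmt := by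
  intro b hb
  have e2 : (Finset.univ : Finset (Fin 2)).erase 0 = {1} := by decide
  have e3 : (Finset.univ : Finset (Fin 3)).erase 0 = {1, 2} := by decide
  refine ⟨?_, ?_, fun h => ?_⟩
  · rintro W (rfl | rfl | rfl | rfl | ⟨n, n1, n2, rfl⟩)
    · refine out hb ⟨![X 0 ^ 2 * X 1 ^ 2], ![1], fun i => ?_, rfl⟩ 2 2 (by norm_num) (by norm_num)
        (dz ?_) (dz ?_)
      · fin_cases i
        exact dg ((hx 2).mul (hy 2)) le_rfl
      · simp [dform, map_ofNat]; ring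
      · simp [dform, map_ofNat]; ring
    · refine out hb ⟨![X 0 ^ 1, X 0 ^ 1 * X 1 ^ 2], ![1, 0], fun i => ?_, rfl⟩ 1 0 (by norm_num)
        (by norm_num) (dz ?_) (dz ?_)
      · fin_cases i
        exacts [dg (hx 1) le_rfl, dg ((hx 1).mul (hy 2)) le_rfl]
      · simp [dform, e2]
      · simp [dform]
    · refine out hb ⟨![X 0 ^ 1, X 0 ^ 1, X 1 ^ 2], ![1, 0, 0], fun i => ?_, rfl⟩ 1 0 (by norm_num)
        (by norm_num) (dz ?_) (dz ?_)
      · fin_cases i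
        exacts [dg (hx 1) le_rfl, dg (hx 1) le_rfl, dg (hy 2) le_rfl]
      · simp [dform, Fin.sum_univ_three, e3]
      · simp [dform, Fin.sum_univ_three]
    · refine out hb ⟨![X 0 ^ 2, X 1 ^ 2], ![1, 0], fun i => ?_, rfl⟩ 2 0 (by norm_num)
        (by norm_num) (dz ?_) (dz ?_)
      · fin_cases i
        exacts [dg (hx 2) le_rfl, dg (hy 2) le_rfl]
      · simp [dform, e2, map_ofNat]; ring
      · simp [dform]
    · refine out hb ⟨0, X 0, 0, X 1 ^ 2, X 1 ^ 2, by simp, by simp, dg (hy 2) le_rfl, by simp, rfl⟩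
        (-2 * (2 * n + 1)) 4 ?_ ?_ (dz ?_) (dz ?_)
      · obtain rfl | rfl : n = 1 ∨ n = 2 := by omega
        all_goals norm_num
      · obtain rfl | rfl : n = 1 ∨ n = 2 := by omega
        all_goals norm_num
      · simp [dform, map_ofNat]; ring
      · simp [dform, map_ofNat]; ring
  · refine out hb ⟨1, 0, X 0, X 1, 1 + X 0, fun j => if j = 0 then X 1 ^ 2 else 0, fun _ => 0,
      by simp, by simp, by simp, fun j => ⟨?_, isHomogeneous_zero _ _ _⟩, rfl⟩ 1 0 (by norm_num)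
      (by norm_num) ?_ (dz ?_)
    · dsimp only
      split_ifs with h
      exacts [h ▸ hy 2, isHomogeneous_zero _ _ _]
    · refine Eq.subst (motive := DL 3) ?_ ((DL.of_hom (hy 2)).C_mul 2)
      simp [dform, Finset.sum_range_succ, map_ofNat]
      ring
    · simp [dform, Finset.sum_range_succ]
  · have z := zq (van hb) (h ⟨0, 1, 0, C 0 + HC.lf 1 0, C 0 + HC.lf 0 1, _, _, by simp [HC.lf], by simp [HC.lf],
      rfl, rfl, rfl⟩)
    rw [val b (by omega) 0 1 0 0 1 0 0 0 1 rfl rfl rfl rfl] at z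
    rcases hb with rfl | rfl <;> norm_num [qq, q] at z

end Pool.Agent.MP_05b4bd_ag.XO
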