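import Pool.Agent.MP_05b4bd_ag.ex.Bas

/-! The exceptional families are not contained in the closures of the integrable families. -/

namespace Pool.Agent.MP_05b4bd_ag.XO

open MvPolynomial

namespace Sx2

/-- A member of both exceptional families. -/
noncomputable def w : Form :=
  (8 * (X 0 * X 1 + 1), -(4 * (3 * X 0 ^ 2 + X 1 ^ 2 + X 0 * X 1 + 1)))

theorem w_mem (b : ℕ) : w ∈ EX b := by
  refine ⟨1, 0, 1, X 0, X 1, 1, X 0 ^ 3 + X 0 * X 1 ^ 2 + 2 * X 1, dg_X 0, dg_X 1, by simp,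
    by simp, ?_⟩
  refine Prod.ext ?_ ?_ <;> simp [w, dform] <;> ring

theorem w_V : w ∈ V 3 := by
  have h1 : (1 : Poly).totalDegree ≤ 2 := by simp
  have hxy : (X 0 * X 1 : Poly).totalDegree ≤ 2 := dg_mul (dg_X 0) (dg_X 1) le_rfl
  exact ⟨dg_mul (dg_nat 8 0) (dg_add hxy h1) (by omega),
    dg_neg (dg_mul (dg_nat 4 0) (dg_add (dg_add (dg_add
      (dg_mul (dg_nat 3 0) (dg_pow (dg_X 0) 2 le_rfl) le_rfl) (dg_pow (dg_X 1) 2 le_rfl)) hxy) h1)
      (by omega))⟩

/-- The recursion for the coefficients of an element of the kernel. -/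
def Rec (k : ℂ) (c : ℕ → ℕ → ℂ) : Prop := ∀ i j : ℕ,
  (if 1 ≤ i then (1 - k * j) * c (i - 1) j else 0) +
    (if 1 ≤ j then k * (2 * i - (j - 1 : ℕ)) * c i (j - 1) else 0) +
    2 * k * (i + 1) * c (i + 1) j - (if 2 ≤ i then 3 * k * (j + 1) * c (i - 2) (j + 1) else 0) -
    k * (j + 1) * c i (j + 1) = 0

theorem inj {k : ℂ} {n : ℕ} (h : ∀ c : ℕ → ℕ → ℂ, (∀ i j, n < i + j → c i j = 0) → Rec k c →
    ∀ i j, i + j ≤ n → c i j = 0) : Function.Injective (lamI k n w) := by
  rw [injective_iff_map_eq_zero]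
  rintro ⟨r, hr⟩ e
  have hr' := (mem_restrictTotalDegree _ _ _).1 hr
  have e1 : r * (pderiv 0 w.1 + pderiv 1 w.2) = C k * (pderiv 0 r * w.1 + pderiv 1 r * w.2) :=
    sub_eq_zero.1 e
  have E : X 0 ^ 1 * (r - C k * (X 1 * pderiv 1 r)) +
      X 1 ^ 1 * (C k * (C 2 * (X 0 * pderiv 0 r) - X 1 * pderiv 1 r)) +
      C (2 * k) * pderiv 0 r - X 0 ^ 2 * (C (3 * k) * pderiv 1 r) - C k * pderiv 1 r = 0 := by
    refine mul_left_cancel₀ (show (4 : Poly) ≠ 0 by norm_num) ?_
    simp [w] at e1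
    simp only [map_mul, map_ofNat]
    linear_combination -e1
  have R : Rec k (cf r) := fun i j => by
    have := congrArg (fun G => cf G i j) E
    simp only [cf_add, cf_sub, cf_C_mul, cf_e0, cf_e1, cf_X0, cf_X1, cf_p1, cf_p0] at this
    have h0 : cf 0 i j = 0 := by simp [cf]
    rw [h0] at this
    split_ifs at this ⊢ <;> linear_combination this
  refine Subtype.ext (cf_ext fun i j => ?_)
  by_cases hij : n < i + j
  exacts [cf_deg hr' hij, h _ (fun _ _ => cf_deg hr') R i j (by omega)]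

theorem inj2 {k : ℂ} (hk : k ≠ 0) : Function.Injective (lamI k 2 w) := inj fun c z R => by
  have h02 : c 0 2 = 0 := by simpa [z, hk] using R 0 3
  have h11 : c 1 1 = 0 := by
    have := R 1 2
    norm_num [z, hk, h02] at this
    exact this
  have h20 : c 2 0 = 0 := by simpa [z, hk, h02, h11] using R 2 1
  have h01 : c 0 1 = 0 := by simpa [z, hk] using R 0 2
  have h10 : c 1 0 = 0 := by simpa [z, hk, h01] using R 1 1
  have h00 : c 0 0 = 0 := by simpa [h20, h11] using R 1 0
  intro i j hij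
  have hi : i ≤ 2 := by omega
  have hj : j ≤ 2 := by omega
  interval_cases i <;> interval_cases j <;> first | assumption | omega

theorem inj4 : Function.Injective (lamI 1 4 w) := inj fun c z R => by
  have e05 := R 0 5
  have e14 := R 1 4
  have e23 := R 2 3
  have e32 := R 3 2
  have e41 := R 4 1
  have e04 := R 0 4
  have e22 := R 2 2
  have e31 := R 3 1
  have e03 := R 0 3
  have e12 := R 1 2
  have e21 := R 2 1
  have e02 := R 0 2
  have e11 := R 1 1
  have e00 := R 0 0
  have e10 := R 1 0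
  norm_num [z] at e05 e14 e23 e32 e41 e04 e22 e31 e03 e12 e21 e02 e11 e00 e10
  have h13 : c 1 3 = 0 := by linear_combination -e14 - 3 * e05
  have h22 : c 2 2 = 0 := by linear_combination e23 / 2 + h13 + 6 * e05
  have h31 : c 3 1 = 0 := by linear_combination e32 / 5 + h22 / 5 + 9 * h13 / 5
  have h40 : c 4 0 = 0 := by linear_combination e41 / 8 + 3 * h22 / 4
  have h02 : c 0 2 = 0 := by linear_combination -e03 / 2 + h13 - 2 * e05
  have h11 : c 1 1 = 0 := by linear_combination e12 + h02 - 4 * h22 + 3 * h13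
  have h20 : c 2 0 = 0 := by linear_combination e21 / 4 + 3 * h02 / 2 - 3 * h31 / 2 + h22 / 2
  have h00 : c 0 0 = 0 := by linear_combination e10 - 4 * h20 + h11
  have h12 : c 1 2 = 0 := by
    linear_combination 3 / 4 * (e11 - e00 + e02) - e22 - 27 / 4 * e04
  have h21 : c 2 1 = 0 := by linear_combination e22 / 3 + h12 / 3 + 3 * e04
  have h30 : c 3 0 = 0 := by linear_combination e31 / 6 + h12
  have h01 : c 0 1 = 0 := by linear_combination -e02 + 2 * h12 - 3 * e04
  have h10 : c 1 0 = 0 := by linear_combination e00 / 2 + h01 / 2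
  intro i j hij
  have hi : i ≤ 4 := by omega
  have hj : j ≤ 4 := by omega
  interval_cases i <;> interval_cases j <;> first | assumption | omega

end Sx2

open Sx2 in
theorem sx2S (_h1 : UnxStmt) (h2 : UM.IrpStmt) : Sx2Stmt := by
  intro b _ W hW h
  have k : ∀ {s} (δ : Fin s → ℕ), ∑ i, δ i = 3 + 1 → ¬ EX b ⊆ zcl (L δ) := fun δ hδ h =>
    not_mem_zcl _ w_V inj4 (L_V hδ) (fun _ => L_not_inj hδ) (h (w_mem b))
  rcases hW with rfl | rfl | rfl | rfl | ⟨m, _, m2, rfl⟩
  · exact k _ (by simp) h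
  · exact k _ (by simp) h
  · exact k _ (by simp [Fin.sum_univ_three]) h
  · exact k _ (by simp) h
  · have := h2 _ m (by omega) m2
    refine not_mem_zcl _ w_V (inj2 ?_) this.2.1 this.2.2 (h (w_mem b))
    exact div_ne_zero (by norm_cast) two_ne_zero

end Pool.Agent.MP_05b4bd_ag.XO
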