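import Pool.Agent.MP_05b4bd_ag.ex.Bas

/-! A cubic affine invariant separates the exceptional family from the reversible one. -/

namespace Pool.Agent.MP_05b4bd_ag.XO

open MvPolynomial HC
open PC3 (Fm fm d1 DF sub2 pb mapF H2)

namespace Sx3

/-- The invariant of the form with coefficients `a i j` of `dx` and `b i j` of `dy`. -/
def J {A : Type} [CommRing A] (a10 a01 a20 a11 a02 a30 a21 a12 a03
    b10 b01 b20 b11 b02 b30 b21 b12 b03 : A) : A :=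
  24 * a01 * a03 * a21 + 18 * a01 * a03 * b30 - 9 * a01 * a12 * b21 - 8 * a01 * a12 ^ 2 + 12 * a01
  * a21 * b12 - 45 * a01 * a30 * b03 - 6 * a01 * b12 * b30 + 2 * a01 * b21 ^ 2 + 8 * a02 * a11 *
  a12 + 7 * a02 * a11 * b21 + 4 * a02 * a12 * b20 - 10 * a02 * a20 * b12 - 7 * a02 * a21 * b11 +
  30 * a02 * a30 * b02 + 6 * a02 * b11 * b30 - 4 * a02 * b20 * b21 - 8 * a02 ^ 2 * a21 - 6 * a02 ^
  2 * b30 - 15 * a03 * a10 * b21 - 6 * a03 * a11 * b20 - 6 * a03 * a11 ^ 2 + 15 * a03 * a20 * b11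
  + 6 * a03 * a21 * b10 - 45 * a03 * a30 * b01 - 18 * a03 * b10 * b30 + 6 * a03 * b20 ^ 2 + 10 *
  a10 * a12 * b12 - 15 * a10 * a21 * b03 + 45 * a10 * b03 * b30 - 5 * a10 * b12 * b21 + a11 * a12
  * b11 + 15 * a11 * a20 * b03 - 15 * a11 * b02 * b30 - a11 * b11 * b21 + 7 * a11 * b12 * b20 - 3
  * a11 ^ 2 * b12 - 10 * a12 * a20 * b02 + 5 * a12 * a21 * b01 + 15 * a12 * b01 * b30 + 9 * a12 *
  b10 * b21 - 7 * a12 * b11 * b20 - 2 * a12 ^ 2 * b10 + 10 * a20 * b02 * b21 - 30 * a20 * b03 *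
  b20 - 10 * a21 * b01 * b21 + 10 * a21 * b02 * b20 - 12 * a21 * b10 * b12 + 3 * a21 * b11 ^ 2 +
  15 * a30 * b01 * b12 - 15 * a30 * b02 * b11 + 45 * a30 * b03 * b10 - 24 * b10 * b12 * b30 + 8 *
  b10 * b21 ^ 2 - 8 * b11 * b20 * b21 + 6 * b11 ^ 2 * b30 + 8 * b12 * b20 ^ 2

theorem map_J {A B : Type} [CommRing A] [CommRing B] (φ : A →+* B)
    (a10 a01 a20 a11 a02 a30 a21 a12 a03
    b10 b01 b20 b11 b02 b30 b21 b12 b03 : A) :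
    φ (J a10 a01 a20 a11 a02 a30 a21 a12 a03
      b10 b01 b20 b11 b02 b30 b21 b12 b03) =
    J (φ a10) (φ a01) (φ a20) (φ a11) (φ a02) (φ a30) (φ a21) (φ a12) (φ a03)
      (φ b10) (φ b01) (φ b20) (φ b11) (φ b02) (φ b30) (φ b21) (φ b12) (φ b03) := by
  simp only [J, map_add, map_sub, map_mul, map_pow, map_ofNat]

noncomputable def P3 (c00 c10 c01 c20 c11 c02 c30 c21 c12 c03 : ℂ) : Poly :=
  C c00 * (X 0 ^ 0 * X 1 ^ 0) + C c10 * (X 0 ^ 1 * X 1 ^ 0) + C c01 * (X 0 ^ 0 * X 1 ^ 1) + C c20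
  * (X 0 ^ 2 * X 1 ^ 0) + C c11 * (X 0 ^ 1 * X 1 ^ 1) + C c02 * (X 0 ^ 0 * X 1 ^ 2) + C c30 * (X 0
  ^ 3 * X 1 ^ 0) + C c21 * (X 0 ^ 2 * X 1 ^ 1) + C c12 * (X 0 ^ 1 * X 1 ^ 2) + C c03 * (X 0 ^ 0 *
  X 1 ^ 3)

theorem cf_mon (c : ℂ) (i j k l : ℕ) :
    cf (C c * (X 0 ^ i * X 1 ^ j)) k l = if k = i ∧ l = j then c else 0 := by
  rw [cf_C_mul, cf_X0, cf_X1pow]
  split_ifs <;> first | omega | simp

noncomputable def xa (i j : ℕ) : Co := -X (false, Finsupp.single 0 i + Finsupp.single 1 j)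
noncomputable def xb (i j : ℕ) : Co := X (true, Finsupp.single 0 i + Finsupp.single 1 j)

noncomputable def R : Co :=
  J (xa 1 0) (xa 0 1) (xa 2 0) (xa 1 1) (xa 0 2) (xa 3 0) (xa 2 1) (xa 1 2) (xa 0 3)
    (xb 1 0) (xb 0 1) (xb 2 0) (xb 1 1) (xb 0 2) (xb 3 0) (xb 2 1) (xb 1 2) (xb 0 3)

theorem ev_R (a00 a10 a01 a20 a11 a02 a30 a21 a12 a03
    b00 b10 b01 b20 b11 b02 b30 b21 b12 b03 : ℂ) :
    ev R (P3 b00 b10 b01 b20 b11 b02 b30 b21 b12 b03,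
      -P3 a00 a10 a01 a20 a11 a02 a30 a21 a12 a03) =
    J a10 a01 a20 a11 a02 a30 a21 a12 a03
      b10 b01 b20 b11 b02 b30 b21 b12 b03 := by
  have ha : ∀ (P Q : Poly) (i j : ℕ), aeval (MP_05b4bd_ag.co (P, -Q)) (xa i j) = cf Q i j :=
    fun P Q i j => by simp [xa, MP_05b4bd_ag.co, cf]
  have hb : ∀ (P Q : Poly) (i j : ℕ), aeval (MP_05b4bd_ag.co (P, Q)) (xb i j) = cf P i j :=
    fun P Q i j => by simp [xb, MP_05b4bd_ag.co, cf]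
  refine (map_J (aeval (R := ℂ) (MP_05b4bd_ag.co _)).toRingHom ..).trans ?_
  simp only [AlgHom.toRingHom_eq_coe, RingHom.coe_coe, ha, hb, P3, cf_add, cf_mon]
  norm_num

theorem d01 : pderiv 0 (X 1 : Poly) = 0 := pderiv_X_of_ne (by decide)
theorem d10 : pderiv 1 (X 0 : Poly) = 0 := pderiv_X_of_ne (by decide)

/-- Cubic forms on which the invariant vanishes. -/
def Z (w : Form) : Prop := ∃ a00 a10 a01 a20 a11 a02 a30 a21 a12 a03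
    b00 b10 b01 b20 b11 b02 b30 b21 b12 b03 : ℂ,
  w = (P3 b00 b10 b01 b20 b11 b02 b30 b21 b12 b03,
      -P3 a00 a10 a01 a20 a11 a02 a30 a21 a12 a03) ∧
    J a10 a01 a20 a11 a02 a30 a21 a12 a03
      b10 b01 b20 b11 b02 b30 b21 b12 b03 = 0

theorem zA (r0 r1 r2 : ℂ) {w : Form} (h : Z w) : Z (pb (C r0 + HC.lf r1 r2) (X 1) w) := by
  obtain ⟨a00, a10, a01, a20, a11, a02, a30, a21, a12, a03,
    b00, b10, b01, b20, b11, b02, b30, b21, b12, b03, rfl, h⟩ := h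
  refine ⟨a00 * r1 + a10 * r0 * r1 + a20 * r0 ^ 2 * r1 + a30 * r0 ^ 3 * r1,
    a10 * r1 ^ 2 + 2 * a20 * r0 * r1 ^ 2 + 3 * a30 * r0 ^ 2 * r1 ^ 2,
    a01 * r1 + a10 * r1 * r2 + a11 * r0 * r1 + 2 * a20 * r0 * r1 * r2 + a21 * r0 ^ 2 * r1 + 3 *
      a30 * r0 ^ 2 * r1 * r2,
    a20 * r1 ^ 3 + 3 * a30 * r0 * r1 ^ 3,
    a11 * r1 ^ 2 + 2 * a20 * r1 ^ 2 * r2 + 2 * a21 * r0 * r1 ^ 2 + 6 * a30 * r0 * r1 ^ 2 * r2,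
    a02 * r1 + a11 * r1 * r2 + a12 * r0 * r1 + a20 * r1 * r2 ^ 2 + 2 * a21 * r0 * r1 * r2 + 3 *
      a30 * r0 * r1 * r2 ^ 2,
    a30 * r1 ^ 4,
    a21 * r1 ^ 3 + 3 * a30 * r1 ^ 3 * r2,
    a12 * r1 ^ 2 + 2 * a21 * r1 ^ 2 * r2 + 3 * a30 * r1 ^ 2 * r2 ^ 2,
    a03 * r1 + a12 * r1 * r2 + a21 * r1 * r2 ^ 2 + a30 * r1 * r2 ^ 3,
    a00 * r2 + a10 * r0 * r2 + a20 * r0 ^ 2 * r2 + a30 * r0 ^ 3 * r2 + b00 + b10 * r0 + b20 * r0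
      ^ 2 + b30 * r0 ^ 3,
    a10 * r1 * r2 + 2 * a20 * r0 * r1 * r2 + 3 * a30 * r0 ^ 2 * r1 * r2 + b10 * r1 + 2 * b20 *
      r0 * r1 + 3 * b30 * r0 ^ 2 * r1,
    a01 * r2 + a10 * r2 ^ 2 + a11 * r0 * r2 + 2 * a20 * r0 * r2 ^ 2 + a21 * r0 ^ 2 * r2 + 3 *
      a30 * r0 ^ 2 * r2 ^ 2 + b01 + b10 * r2 + b11 * r0 + 2 * b20 * r0 * r2 + b21 * r0 ^ 2 + 3 *
      b30 * r0 ^ 2 * r2,
    a20 * r1 ^ 2 * r2 + 3 * a30 * r0 * r1 ^ 2 * r2 + b20 * r1 ^ 2 + 3 * b30 * r0 * r1 ^ 2,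
    a11 * r1 * r2 + 2 * a20 * r1 * r2 ^ 2 + 2 * a21 * r0 * r1 * r2 + 6 * a30 * r0 * r1 * r2 ^ 2
      + b11 * r1 + 2 * b20 * r1 * r2 + 2 * b21 * r0 * r1 + 6 * b30 * r0 * r1 * r2,
    a02 * r2 + a11 * r2 ^ 2 + a12 * r0 * r2 + a20 * r2 ^ 3 + 2 * a21 * r0 * r2 ^ 2 + 3 * a30 *
      r0 * r2 ^ 3 + b02 + b11 * r2 + b12 * r0 + b20 * r2 ^ 2 + 2 * b21 * r0 * r2 + 3 * b30 * r0 *
      r2 ^ 2,
    a30 * r1 ^ 3 * r2 + b30 * r1 ^ 3,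
    a21 * r1 ^ 2 * r2 + 3 * a30 * r1 ^ 2 * r2 ^ 2 + b21 * r1 ^ 2 + 3 * b30 * r1 ^ 2 * r2,
    a12 * r1 * r2 + 2 * a21 * r1 * r2 ^ 2 + 3 * a30 * r1 * r2 ^ 3 + b12 * r1 + 2 * b21 * r1 * r2
      + 3 * b30 * r1 * r2 ^ 2,
    a03 * r2 + a12 * r2 ^ 2 + a21 * r2 ^ 3 + a30 * r2 ^ 4 + b03 + b12 * r2 + b21 * r2 ^ 2 + b30
      * r2 ^ 3, ?_, ?_⟩
  · refine Prod.ext ?_ ?_ <;>
      simp only [pb, fm, P3, HC.lf, Prod.fst_sub, Prod.snd_sub, map_add, map_mul, map_pow, map_neg,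
        map_ofNat, PC3.sub2_X0, PC3.sub2_X1, PC3.sub2_C, Derivation.leibniz, pderiv_C,
        pderiv_X_self, smul_eq_mul, d01, d10] <;> ring
  · unfold J at h ⊢
    linear_combination r1 ^ 5 * h

theorem zB (r0 r1 r2 : ℂ) {w : Form} (h : Z w) : Z (pb (X 0) (C r0 + HC.lf r1 r2) w) := by
  obtain ⟨a00, a10, a01, a20, a11, a02, a30, a21, a12, a03,
    b00, b10, b01, b20, b11, b02, b30, b21, b12, b03, rfl, h⟩ := h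
  refine ⟨a00 + a01 * r0 + a02 * r0 ^ 2 + a03 * r0 ^ 3 + b00 * r1 + b01 * r0 * r1 + b02 * r0 ^ 2 * r1
      + b03 * r0 ^ 3 * r1,
    a01 * r1 + 2 * a02 * r0 * r1 + 3 * a03 * r0 ^ 2 * r1 + a10 + a11 * r0 + a12 * r0 ^ 2 + b01 *
      r1 ^ 2 + 2 * b02 * r0 * r1 ^ 2 + 3 * b03 * r0 ^ 2 * r1 ^ 2 + b10 * r1 + b11 * r0 * r1 + b12
      * r0 ^ 2 * r1,
    a01 * r2 + 2 * a02 * r0 * r2 + 3 * a03 * r0 ^ 2 * r2 + b01 * r1 * r2 + 2 * b02 * r0 * r1 *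
      r2 + 3 * b03 * r0 ^ 2 * r1 * r2,
    a02 * r1 ^ 2 + 3 * a03 * r0 * r1 ^ 2 + a11 * r1 + 2 * a12 * r0 * r1 + a20 + a21 * r0 + b02 *
      r1 ^ 3 + 3 * b03 * r0 * r1 ^ 3 + b11 * r1 ^ 2 + 2 * b12 * r0 * r1 ^ 2 + b20 * r1 + b21 * r0
      * r1,
    2 * a02 * r1 * r2 + 6 * a03 * r0 * r1 * r2 + a11 * r2 + 2 * a12 * r0 * r2 + 2 * b02 * r1 ^ 2
      * r2 + 6 * b03 * r0 * r1 ^ 2 * r2 + b11 * r1 * r2 + 2 * b12 * r0 * r1 * r2,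
    a02 * r2 ^ 2 + 3 * a03 * r0 * r2 ^ 2 + b02 * r1 * r2 ^ 2 + 3 * b03 * r0 * r1 * r2 ^ 2,
    a03 * r1 ^ 3 + a12 * r1 ^ 2 + a21 * r1 + a30 + b03 * r1 ^ 4 + b12 * r1 ^ 3 + b21 * r1 ^ 2 +
      b30 * r1,
    3 * a03 * r1 ^ 2 * r2 + 2 * a12 * r1 * r2 + a21 * r2 + 3 * b03 * r1 ^ 3 * r2 + 2 * b12 * r1
      ^ 2 * r2 + b21 * r1 * r2,
    3 * a03 * r1 * r2 ^ 2 + a12 * r2 ^ 2 + 3 * b03 * r1 ^ 2 * r2 ^ 2 + b12 * r1 * r2 ^ 2,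
    a03 * r2 ^ 3 + b03 * r1 * r2 ^ 3,
    b00 * r2 + b01 * r0 * r2 + b02 * r0 ^ 2 * r2 + b03 * r0 ^ 3 * r2,
    b01 * r1 * r2 + 2 * b02 * r0 * r1 * r2 + 3 * b03 * r0 ^ 2 * r1 * r2 + b10 * r2 + b11 * r0 *
      r2 + b12 * r0 ^ 2 * r2,
    b01 * r2 ^ 2 + 2 * b02 * r0 * r2 ^ 2 + 3 * b03 * r0 ^ 2 * r2 ^ 2,
    b02 * r1 ^ 2 * r2 + 3 * b03 * r0 * r1 ^ 2 * r2 + b11 * r1 * r2 + 2 * b12 * r0 * r1 * r2 +
      b20 * r2 + b21 * r0 * r2,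
    2 * b02 * r1 * r2 ^ 2 + 6 * b03 * r0 * r1 * r2 ^ 2 + b11 * r2 ^ 2 + 2 * b12 * r0 * r2 ^ 2,
    b02 * r2 ^ 3 + 3 * b03 * r0 * r2 ^ 3,
    b03 * r1 ^ 3 * r2 + b12 * r1 ^ 2 * r2 + b21 * r1 * r2 + b30 * r2,
    3 * b03 * r1 ^ 2 * r2 ^ 2 + 2 * b12 * r1 * r2 ^ 2 + b21 * r2 ^ 2,
    3 * b03 * r1 * r2 ^ 3 + b12 * r2 ^ 3,
    b03 * r2 ^ 4, ?_, ?_⟩
  · refine Prod.ext ?_ ?_ <;>
      simp only [pb, fm, P3, HC.lf, Prod.fst_sub, Prod.snd_sub, map_add, map_mul, map_pow, map_neg,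
        map_ofNat, PC3.sub2_X0, PC3.sub2_X1, PC3.sub2_C, Derivation.leibniz, pderiv_C,
        pderiv_X_self, smul_eq_mul, d01, d10] <;> ring
  · unfold J at h ⊢
    linear_combination r2 ^ 5 * h

theorem zP {s t : Poly} (hs : DL 2 s) (ht : DL 2 t) {w : Form} (h : Z w) : Z (pb s t w) := by
  obtain ⟨u0, u1, u2, rfl⟩ : ∃ a b c, s = C a + HC.lf b c := ⟨_, _, _, PC3.DL2_eq hs⟩
  obtain ⟨v0, v1, v2, rfl⟩ : ∃ a b c, t = C a + HC.lf b c := ⟨_, _, _, PC3.DL2_eq ht⟩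
  have k : ∀ (u0 u1 u2 e : ℂ) {w : Form}, Z w →
      Z (pb (C u0 + HC.lf u1 u2) (C v0 + HC.lf (e * u1) v2) w) := fun u0 u1 u2 e w h => by
    have := zA u0 u1 u2 (zB (v0 - e * u0) e (v2 - e * u2) h)
    rw [PC3.pb_pb, PC3.sub2_X0] at this
    convert this using 2
    simp only [HC.lf, map_add, map_mul, map_sub, PC3.sub2_X0, PC3.sub2_X1, PC3.sub2_C]
    ring
  by_cases h1 : u1 = 0
  · by_cases h2 : v1 = 0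
    · simpa only [h1, h2, mul_zero] using k u0 u1 u2 0 h
    · have := k (u0 + v0) v1 (u2 + v2) 1 (zA 0 1 (-1) h)
      rw [PC3.pb_pb, PC3.sub2_X1, one_mul] at this
      convert this using 2
      simp only [HC.lf, map_add, map_mul, map_neg, map_one, map_zero, PC3.sub2_X0, PC3.sub2_X1, h1]
      ring
  · simpa only [div_mul_cancel₀ v1 h1] using k u0 u1 u2 (v1 / u1) h

theorem z0 (α β : ℂ) {p q : ℕ → Poly} (h : ∀ j, (p j).IsHomogeneous (3 - 1 - j * (1 + 1)) ∧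
    (q j).IsHomogeneous (3 - 1 - j * (1 + 1))) :
    Z (RV.rrF 3 1 1 (X 0) (X 1) (1 + C α * X 0 + C β * X 1) p q) := by
  obtain ⟨p0, p1, p2, e0⟩ : ∃ a b c : ℂ, p 0 = C a * X 0 ^ 2 + C b * (X 0 * X 1) + C c * X 1 ^ 2 :=
    ⟨_, _, _, hom2_eq (h 0).1⟩
  obtain ⟨q0, q1, q2, e1⟩ : ∃ a b c : ℂ, q 0 = C a * X 0 ^ 2 + C b * (X 0 * X 1) + C c * X 1 ^ 2 :=
    ⟨_, _, _, hom2_eq (h 0).2⟩
  obtain ⟨p3, e2⟩ : ∃ a : ℂ, p 1 = C a :=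
    ⟨_, totalDegree_eq_zero_iff_eq_C.1 (Nat.le_zero.1 (h 1).1.totalDegree_le)⟩
  obtain ⟨q3, e3⟩ : ∃ a : ℂ, q 1 = C a :=
    ⟨_, totalDegree_eq_zero_iff_eq_C.1 (Nat.le_zero.1 (h 1).2.totalDegree_le)⟩
  refine ⟨2 * p3, 3 * p3 * α, 4 * p3 * β - q3 * α, 2 * p0 + p3 * α ^ 2, 2 * p1 + 3 * p3 * α * β - q3 * α
    ^ 2, 2 * p2 + 2 * p3 * β ^ 2 - q3 * α * β, p0 * α, 2 * p0 * β + p1 * α - q0 * α, 2 * p1 * β +
    p2 * α - q1 * α, 2 * p2 * β - q2 * α, 2 * q3, -p3 * β + 4 * q3 * α, 3 * q3 * β, -p3 * α * β +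
    2 * q0 + 2 * q3 * α ^ 2, -p3 * β ^ 2 + 2 * q1 + 3 * q3 * α * β, 2 * q2 + q3 * β ^ 2, -p0 * β +
    2 * q0 * α, -p1 * β + q0 * β + 2 * q1 * α, -p2 * β + q1 * β + 2 * q2 * α, q2 * β, ?_, ?_⟩
  · rw [RV.rrF, show (3 - 1) / (1 + 1) + 1 = 2 from rfl, Finset.sum_range_succ,
      Finset.sum_range_one]
    refine Prod.ext ?_ ?_ <;>
      simp only [PC3.sub2_id, e0, e1, e2, e3, fm, P3, Prod.fst_sub, Prod.snd_sub, Prod.fst_add,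
        Prod.snd_add, Prod.smul_fst, Prod.smul_snd, map_add, map_sub, map_mul, map_pow, map_neg,
        map_ofNat, Derivation.leibniz, pderiv_C, pderiv_one, pderiv_X_self, smul_eq_mul, d01,
        d10] <;> push_cast <;> ring
  · unfold J
    ring

theorem van {w : Form} (h : RV.HR 3 1 1 w) : ev R w = 0 := by
  obtain ⟨u, v, α, β, p, q, hu, hv, hp, rfl⟩ := h
  have k := zP hu hv (z0 α β hp)
  have e : pb u v (RV.rrF 3 1 1 (X 0) (X 1) (1 + C α * X 0 + C β * X 1) p q) =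
      RV.rrF 3 1 1 u v (1 + C α * u + C β * v) p q := by
    simp only [RV.rrF, show (3 - 1) / (1 + 1) + 1 = 2 from rfl, Finset.sum_range_succ,
      Finset.sum_range_zero, zero_add, PC3.pb_smul, PC3.pb_sub, PC3.pb_add, PC3.pb_fm,
      PC3.sub2_sub2, map_pow, map_mul, map_add, map_natCast, map_one, PC3.sub2_X0, PC3.sub2_X1,
      PC3.sub2_C]
  rw [e] at k
  obtain ⟨a00, a10, a01, a20, a11, a02, a30, a21, a12, a03,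
    b00, b10, b01, b20, b11, b02, b30, b21, b12, b03, e, h⟩ := k
  rw [e, ev_R, h]

noncomputable def ω0 (b : ℕ) : Form :=
  (4 * (1 + X 0) : Poly) • dform (X 0 ^ 3 + X 0 * X 1 ^ 2) -
    (3 * (b : Poly) * (X 0 ^ 3 + X 0 * X 1 ^ 2)) • dform (1 + X 0) +
      (X 0 * X 1 : Poly) • ((4 * (1 + X 0) : Poly) • dform (X 0) -
        ((b : Poly) * X 0) • dform (1 + X 0))

theorem mem (b : ℕ) : ω0 b ∈ EX b :=
  ⟨0, 1, 1, X 0, X 1, 1 + X 0, X 0 ^ 3 + X 0 * X 1 ^ 2, by simp, by simp, by simp, by simp,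
    by simp [ω0]⟩

theorem ω0_eq (b : ℕ) : ω0 b =
    (P3 0 0 0 0 8 0 0 8 0 0, -P3 0 0 0 12 4 4 (12 - 3 * b) (4 - b) (4 - 3 * b) 0) := by
  refine Prod.ext ?_ ?_ <;> simp [ω0, P3, dform, map_ofNat] <;> ring

end Sx3

open Sx3 in
theorem sx3S (h : RV.UnivStmt) : Sx3Stmt := by
  intro b hb H
  have k := mem_zcl.1 (H (mem b)) R fun η hη => van (((h 3 1 1).1 η).1 hη)
  rw [ω0_eq, ev_R] at k
  rcases hb with rfl | rfl <;> norm_num [J] at k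

end Pool.Agent.MP_05b4bd_ag.XO
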