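import Pool.Agent.MP_05b4bd_ag.ex.Bas
import Pool.Agent.MP_05b4bd_ag.rr.Univ
import Pool.Agent.MP_05b4bd_ag.rr.Irrr
import Pool.Agent.MP_05b4bd_ag.pc3.Van

/-! The universal member of the exceptional families. -/

namespace Pool.Agent.MP_05b4bd_ag.XO

open MvPolynomial HC
open PC3 (Fm fm d1 DF sub2 pb mapF Van)
open RV.Univ (fm_df DL_nat DF_fm DF_smul DL_pow)
open RV.Irrr (uv ev_uv)
open PC3.VanR (pv_map pv_ev)

namespace Unx

variable {A B : Type} [CommRing A] [CommRing B]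

theorem ex_iff (b : ℕ) (ω : Form) : ω ∈ EX b ↔ HX b ω := by
  constructor
  · rintro ⟨c, m, μ, u, v, l, G, hu, hv, rfl, rfl, rfl⟩
    exact ⟨c, m, μ, u, v, DL_iff.2 hu, DL_iff.2 hv, by
      simp only [exF, gE, fm_df, map_mul, map_pow]⟩
  · rintro ⟨c, m, μ, u, v, hu, hv, rfl⟩
    exact ⟨c, m, μ, u, v, _, _, DL_iff.1 hu, DL_iff.1 hv, rfl, rfl, by
      simp only [exF, gE, fm_df, map_mul, map_pow]⟩

theorem map_exF (φ : A →+* B) (b : ℕ) (c m μ : A) (u v : R2 A) :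
    mapF φ (exF b c m μ u v) = exF b (φ c) (φ m) (φ μ) (map φ u) (map φ v) := by
  simp only [exF, PC3.mapF_smul, PC3.mapF_sub, PC3.mapF_add, PC3.mapF_fm, map_gE, map_mul,
    map_add, map_natCast, map_one, map_ofNat, map_C]

theorem hx_map (φ : A →+* B) {b : ℕ} {w : Fm A} (h : HX b w) : HX b (mapF φ w) := by
  obtain ⟨c, m, μ, u, v, hu, hv, rfl⟩ := h
  exact ⟨_, _, _, _, _, hu.map φ, hv.map φ, map_exF φ b c m μ u v⟩

theorem hx_pb {b : ℕ} {w : Fm A} {s t : R2 A} (hs : DL 2 s) (ht : DL 2 t) (h : HX b w) :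
    HX b (pb s t w) := by
  obtain ⟨c, m, μ, u, v, hu, hv, rfl⟩ := h
  refine ⟨c, m, μ, sub2 s t u, sub2 s t v, PC3.sub2_DL hs ht hu, PC3.sub2_DL hs ht hv, ?_⟩
  simp only [exF, gE, PC3.pb_smul, PC3.pb_sub, PC3.pb_add, PC3.pb_fm, map_mul, map_add, map_sub,
    map_pow, map_sum, map_natCast, map_one, map_ofNat, PC3.sub2_C]

theorem DL_num (n : ℕ) [n.AtLeastTwo] : DL 1 (ofNat(n) : R2 A) := DL_nat n

theorem hx_df {b : ℕ} {w : Fm A} (hb : b ≤ 3) (h : HX b w) : DF 4 w := by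
  obtain ⟨c, m, μ, u, v, hu, hv, rfl⟩ := h
  have hl : DL 2 (1 + C m * u) :=
    ((C_1 (σ := Fin 2) (R := A) ▸ DL_C (1 : A)).mono (by omega)).add (hu.C_mul m)
  have hG : DL 4 (gE b (C c) (C m) u v) := by
    have h1 : DL 4 (u * v ^ 2) := DL.mul (a := 1) hu (DL_pow hv 2)
    have h2 : DL 2 (2 * C c * v) := by
      rw [mul_assoc]
      exact DL.mul (a := 0) (DL_num 2) (hv.C_mul c)
    have h3 : DL 3 (C c ^ 2 * C m * ∑ i ∈ Finset.range b, (1 + C m * u) ^ i) := by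
      rw [← map_pow, ← map_mul]
      exact (DL.sum _ fun i hi => (DL_pow hl i).mono
        (by have := Finset.mem_range.1 hi; omega)).C_mul _
    exact (((DL_pow hu 3).add h1).add (h2.mono (by omega))).sub (h3.mono (by omega))
  have h4 : DL 2 (4 * (1 + C m * u)) := DL.mul (a := 0) (DL_num 4) hl
  have k1 : DF 4 (fm (4 * (1 + C m * u)) (gE b (C c) (C m) u v)) :=
    ⟨DL.mul (a := 1) h4 (hG.pderiv 1), (DL.mul (a := 1) h4 (hG.pderiv 0)).neg⟩
  have k2 : DF 4 (fm (3 * (b : R2 A) * gE b (C c) (C m) u v) (1 + C m * u)) :=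
    DF_fm (by
      rw [mul_assoc]
      exact DL.mul (a := 0) (DL_num 3) (DL.mul (a := 0) (DL_nat b) hG)) hl
  have k3 := DF_fm h4 hu
  have k4 : DF 2 (fm ((b : R2 A) * u) (1 + C m * u)) :=
    DF_fm (DL.mul (a := 0) (DL_nat b) hu) hl
  have k5 := DF_smul (m := 2) (g := C μ * (u * v + C c))
    (((DL.mul (a := 1) hu hv).add ((DL_C c).mono (by omega))).C_mul μ) (w := _ - _)
    ⟨k3.1.sub k4.1, k3.2.sub k4.2⟩
  exact ⟨(k1.1.sub k2.1).add k5.1, (k1.2.sub k2.2).add k5.2⟩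

/-- The member with parameters `x`. -/
noncomputable def par (b : ℕ) (x : Fin 9 → A) : Fm A :=
  exF b (x 0) (x 1) (x 2) (C (x 3) + HC.lf (x 4) (x 5)) (C (x 6) + HC.lf (x 7) (x 8))

theorem hx_par (b : ℕ) (x : Fin 9 → A) : HX b (par b x) :=
  ⟨_, _, _, _, _, ((DL_C _).mono (by omega)).add (PC3.DL_lf _ _),
    ((DL_C _).mono (by omega)).add (PC3.DL_lf _ _), rfl⟩

theorem map_par (φ : A →+* B) (b : ℕ) (x : Fin 9 → A) :
    mapF φ (par b x) = par b fun i => φ (x i) := by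
  rw [par, par, map_exF]
  simp only [map_add, map_C, map_lf]

/-- The universal member. -/
noncomputable def uni (b : ℕ) : Fm (MvPolynomial (Fin 9) ℂ) := par b X

theorem exists_par [Algebra ℂ A] {b : ℕ} {w : Fm A} (h : HX b w) : ∃ x : Fin 9 → A,
    w = mapF (aeval x : MvPolynomial (Fin 9) ℂ →ₐ[ℂ] A) (uni b) := by
  obtain ⟨c, m, μ, u, v, hu, hv, rfl⟩ := h
  refine ⟨![c, m, μ, coeff 0 u, HC.co 1 0 u, HC.co 0 1 u, coeff 0 v, HC.co 1 0 v, HC.co 0 1 v], ?_⟩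
  rw [uni, map_par]
  simp only [RingHom.coe_coe, aeval_X]
  conv_lhs => rw [PC3.DL2_eq hu, PC3.DL2_eq hv]
  rfl

theorem mem (b : ℕ) (x : Fin 9 → ℂ) :
    mapF (aeval x : MvPolynomial (Fin 9) ℂ →ₐ[ℂ] ℂ) (uni b) ∈ EX b :=
  (ex_iff b _).2 (hx_map _ (hx_par b X))

theorem irr (b : ℕ) : Irred (EX b) := by
  have k : ∀ R, uv (uni b) R = 0 → ∀ ω ∈ EX b, Pool.Agent.MP_05b4bd_ag.ev R ω = 0 :=
    fun R e ω hω => by
      obtain ⟨x, rfl⟩ := exists_par ((ex_iff b ω).1 hω)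
      rw [ev_uv, e, map_zero]
  refine irred_iff.2 ⟨⟨_, mem b 0⟩, fun R S hRS => ?_⟩
  have e : uv (uni b) R * uv (uni b) S = 0 := MvPolynomial.funext fun x => by
    have := hRS _ (mem b x)
    rw [ev_uv, ev_uv, ← map_mul] at this
    rw [map_zero]
    exact this
  exact (mul_eq_zero.1 e).imp (k R) (k S)

theorem van [Algebra ℂ A] {b : ℕ} {w : Fm A} (hw : HX b w) : Van (EX b) w := by
  intro R hR
  obtain ⟨x, rfl⟩ := exists_par hw
  have : pev (uni b).1 (uni b).2 0 (rename Sum.inl R) = 0 :=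
    MvPolynomial.funext fun t => by
      rw [map_zero, ← coe_aeval_eq_eval]
      exact (pv_map (aeval t) _ _).trans ((pv_ev _ R).trans (hR _ (mem b t)))
  rw [← pv_map, this, map_zero]

end Unx

open Unx in
theorem unxS : UnxStmt := fun b =>
  ⟨ex_iff b, fun _ _ _ _ φ _ h => hx_map φ h, fun _ _ _ _ _ hs ht h => hx_pb hs ht h,
    fun _ _ _ hb h => hx_df hb h, irr b, fun _ _ _ _ h => van h⟩

end Pool.Agent.MP_05b4bd_ag.XO
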