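import Pool.Agent.MP_05b4bd_ag.ex.Bas
import Mathlib.Analysis.Complex.Polynomial.Basic

/-! Forms that are logarithmic or exceptional over some field. -/

namespace Pool.Agent.MP_05b4bd_ag.XO

open MvPolynomial HC
open PC3 (Fm fm d1 DF sub2 pb mapF H2 Van)

namespace Vanx

theorem back {A K : Type} [CommRing A] [Algebra ℂ A] [CommRing K] [Algebra ℂ K] (φ : A →ₐ[ℂ] K)
    (hφ : Function.Injective φ) {W : Set Form} {w : Fm A} (h : Van W (mapF (φ : A →+* K) w)) :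
    Van W w := fun R hR => hφ (by
  rw [map_pev, show (fun i => φ ((0 : Fin 2 → A) i)) = 0 from funext fun i => map_zero φ, map_zero]
  exact h R hR)

theorem exo (b : ℕ) {f : Poly} (h : Exo f) : dform f ∈ EX b := by
  obtain ⟨a, e, u, v, hu, hv, rfl⟩ := h
  obtain ⟨l, hl⟩ := IsAlgClosed.exists_pow_nat_eq (a / 4) (n := 3) (by norm_num)
  have dg : ∀ {p : Poly}, p.totalDegree ≤ 1 → (C l * p).totalDegree ≤ 1 := fun hp =>
    (totalDegree_mul _ _).trans (by rwa [totalDegree_C, zero_add])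
  have ha : (C a : Poly) = 4 * C l ^ 3 := by
    rw [← map_pow, hl, ← map_ofNat C 4, ← map_mul]
    congr 1
    ring
  have hc : (2 : Poly) * C (l ^ 2 / 2) = C l ^ 2 := by
    rw [← map_pow, ← map_ofNat C 2, ← map_mul]
    congr 1
    ring
  have h4 : ∀ i : Fin 2, pderiv i (4 : Poly) = 0 := fun i => by
    rw [← map_ofNat C 4, pderiv_C]
  refine ⟨l ^ 2 / 2, 0, 0, C l * u, C l * v, _, _, dg hu, dg hv, rfl, rfl, ?_⟩
  simp only [map_zero, zero_mul, add_zero, mul_zero, sub_zero, hc, ha, zero_smul, mul_one]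
  refine Prod.ext ?_ ?_ <;> simp [dform, h4] <;> ring

end Vanx

theorem vanxS (h1 : UnxStmt) (h2 : UM.VanfStmt) : VanxStmt := by
  refine ⟨?_, ?_, ?_, fun b f h => Vanx.exo b h⟩
  · rintro A _ _ w ⟨K, _, ι, hι, h⟩
    let _ : Algebra ℂ K := (ι.comp (algebraMap ℂ A)).toAlgebra
    let φ : A →ₐ[ℂ] K := { ι with commutes' := fun _ => rfl }
    rcases h with h | h | h
    · obtain ⟨W, hW, hv⟩ := h2 K 3 _ le_rfl (Or.inr (Or.inl (PC3.Lim.of h)))
      exact ⟨W, Or.inl hW, Vanx.back φ hι hv⟩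
    · exact ⟨_, Or.inr (Or.inl rfl), Vanx.back φ hι ((h1 1).2.2.2.2.2 K _ h)⟩
    · exact ⟨_, Or.inr (Or.inr rfl), Vanx.back φ hι ((h1 3).2.2.2.2.2 K _ h)⟩
  · rintro A _ w s t hs ht ⟨K, _, ι, hι, h⟩
    refine ⟨K, _, ι, hι, ?_⟩
    rw [PC3.mapF_pb]
    exact h.imp (PC3.H2.pb (hs.map ι) (ht.map ι)) (Or.imp
      ((h1 1).2.2.1 K _ _ _ (hs.map ι) (ht.map ι)) ((h1 3).2.2.1 K _ _ _ (hs.map ι) (ht.map ι)))
  · rintro A B _ _ φ w hφ ⟨K, _, ι, hι, h⟩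
    have e : mapF ι (mapF φ w) = mapF (ι.comp φ) w := Prod.ext (map_map _ _ _) (map_map _ _ _)
    exact ⟨K, _, ι.comp φ, hι.comp hφ, e ▸ h⟩

end Pool.Agent.MP_05b4bd_ag.XO
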