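import Pool.Agent.MP_05b4bd_ag.ex.Bas

/-! Change of frame: from a general cubic to the normal form. -/

namespace Pool.Agent.MP_05b4bd_ag.XO

open PowerSeries LaurentSeries HC
open ES hiding Gen Ob Inf
open PC3 (Fm fm d1 DF sub2 pb mapF)
open RV (fa fb Frm Good)

namespace Xfr

section Rings
open MvPolynomial
variable {A : Type} [CommRing A]

theorem sub_f0 (u v : R2 A) (c : A) :
    sub2 u v (f0 c) = u * u * u + u * v * v + MvPolynomial.C (2 * c) * v := by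
  simp only [f0, map_add, map_mul, map_pow, map_ofNat, PC3.sub2_X0, PC3.sub2_X1, PC3.sub2_C]
  ring

theorem hc3 {u v : R2 A} (hu : DL 2 u) (hv : DL 2 v) (c e : A) :
    hc 3 (sub2 u v (f0 c) + MvPolynomial.C e) = hc 1 u ^ 3 + hc 1 u * hc 1 v ^ 2 := by
  have a : ∀ {p q r : R2 A}, DL 2 p → DL 2 q → DL 2 r →
      hc 3 (p * q * r) = hc 1 p * hc 1 q * hc 1 r := fun hp hq hr => by
    rw [hc_mul_top (a := 2) (b := 1) (DL.mul (a := 1) (b := 2) hp hq) hr,
      hc_mul_top (a := 1) (b := 1) hp hq]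
  rw [sub_f0, hc_add, hc_add, hc_add, a hu hu hu, a hu hv hv, (hv.C_mul _).hc_eq (by omega),
    (DL_C e).hc_eq (by omega)]
  ring

theorem hcX (i : Fin 2) : hc 1 (MvPolynomial.X i : R2 A) = MvPolynomial.X i :=
  hc_self (isHomogeneous_X A i)

theorem hc0 (c : A) : hc 3 (f0 c) =
    MvPolynomial.X 0 ^ 3 + MvPolynomial.X 0 * MvPolynomial.X 1 ^ 2 := by
  have h := hc3 (DL_X 0) (DL_X 1) c 0
  rwa [PC3.sub2_id, map_zero, add_zero, hcX, hcX] at h

theorem dl0 (c : A) : DL 4 (f0 c) := by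
  rw [← PC3.sub2_id (f0 c), sub_f0]
  have a : ∀ i j l : Fin 2, DL 4 (MvPolynomial.X i * MvPolynomial.X j * MvPolynomial.X l : R2 A) :=
    fun i j l => DL.mul (a := 2) (b := 2) (DL.mul (a := 1) (b := 2) (DL_X i) (DL_X j)) (DL_X l)
  exact ((a 0 0 0).add (a 0 1 1)).add (((DL_X 1).C_mul _).mono (by omega))

theorem hc1 (p a b : A) : hc 1 (MvPolynomial.C p + HC.lf a b) = HC.lf a b := by
  rw [hc_add, (DL_C p).hc_eq le_rfl, zero_add, hc_self (lf_hom a b)]

theorem map_cc (u : R2 A) :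
    MvPolynomial.map cc (MvPolynomial.map (PowerSeries.C : A →+* A⟦X⟧) u) = u := by
  rw [MvPolynomial.map_map]
  have : (cc : A⟦X⟧ →+* A).comp PowerSeries.C = RingHom.id A := RingHom.ext fun r => by simp
  rw [this, MvPolynomial.map_id]

end Rings

variable {k L : Type} [Field k] [Field L] {κ : k →+* L} {D : L →+ L}

theorem cst {a b : AA L} {n α : ℕ} (h : Good κ D a b n α) : Cst κ D := by
  obtain ⟨U, _, D1, i, r, hD, hc, -⟩ := h.ex
  intro c e
  obtain ⟨z, hz⟩ := hc (i c) (by rw [hD.2, e, map_zero])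
  exact ⟨z, i.injective hz⟩

theorem c00_hev (u : R2 k⟦X⟧) (x y : AA L) :
    c00 (hev (iA κ) 1 u x y X) = evp κ (c00 x) (c00 y) (hc 1 (MvPolynomial.map cc u)) := by
  have e0 : c00 (X : AA L) = 0 := by rw [c00_apply, constantCoeff_X, map_zero]
  have e1 : (c00 : AA L →+* L).comp (iA κ) = κ.comp cc := RingHom.ext fun r => by
    rw [RingHom.comp_apply, c00_apply, iA, RingHom.comp_apply, constantCoeff_C,
      ← coeff_zero_eq_constantCoeff_apply, coeff_map, coeff_zero_eq_constantCoeff_apply]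
    rfl
  rw [map_hev, e0, hev_zero, e1, hc_map, evp, MvPolynomial.coe_eval₂Hom, MvPolynomial.eval₂_map]

theorem sD_der (θ : L) (hD : IsDer D) : IsDer (sD θ D) := hD.mulLeft θ

theorem cur (c : k) {x y : L} (hD : IsDer D) (h0 : ∀ c, D (κ c) = 0)
    (e1 : x ^ 3 + x * y ^ 2 = 1) (e2 : D x = 2 * x * y) (e3 : D y = -(3 * x ^ 2 + y ^ 2)) :
    Curve κ D (hc 3 (f0 c)) x y := by
  rw [hc0]
  refine ⟨hD, h0, ?_, ?_, ?_⟩
  · simpa [evp] using e1
  · rw [e2]
    simp [evp, MvPolynomial.pderiv_X]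
    ring
  · rw [e3]
    simp [evp, MvPolynomial.pderiv_X]

/-- The curve at infinity after a linear change of coordinates. -/
theorem lin {a b c e : k} {x y : L} (h : Curve κ D (HC.lf a b ^ 3 + HC.lf a b * HC.lf c e ^ 2) x y) :
    (κ a * x + κ b * y) ^ 3 + (κ a * x + κ b * y) * (κ c * x + κ e * y) ^ 2 = 1 ∧
    D (κ a * x + κ b * y) =
      κ (a * e - b * c) * (2 * (κ a * x + κ b * y) * (κ c * x + κ e * y)) ∧
    D (κ c * x + κ e * y) =
      κ (a * e - b * c) * -(3 * (κ a * x + κ b * y) ^ 2 + (κ c * x + κ e * y) ^ 2) := by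
  obtain ⟨hD, h0, e1, e2, e3⟩ := h
  have l : ∀ a b : k, evp κ x y (HC.lf a b) = κ a * x + κ b * y := fun a b => by simp [evp, HC.lf]
  have lC : ∀ a : k, evp κ x y (MvPolynomial.C a) = κ a := fun a => by simp [evp]
  simp only [map_add, Derivation.leibniz, Derivation.leibniz_pow, lf_x, lf_y, smul_eq_mul,
    nsmul_eq_mul, map_mul, map_pow, map_natCast, l, lC] at e1 e2 e3
  refine ⟨e1, ?_, ?_⟩
  · rw [map_add, hD.const_mul (h0 a), hD.const_mul (h0 b), e2, e3, map_sub, map_mul, map_mul]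
    push_cast
    ring
  · rw [map_add, hD.const_mul (h0 c), hD.const_mul (h0 e), e2, e3, map_sub, map_mul, map_mul]
    push_cast
    ring

theorem three [CharZero k] (κ : k →+* L) {n : ℕ} (hn : n ≠ 0) : (n : L) ≠ 0 := by
  rw [← map_natCast κ]
  exact (map_ne_zero κ).2 (Nat.cast_ne_zero.2 hn)

/-- The curve in the coordinates `s`, `z`. -/
theorem cur' [CharZero k] (c : k) {s z : L} (H : Xd κ D s z) :
    Curve κ (sD (-3 * z ^ 2) D) (hc 3 (f0 c)) z⁻¹ (s * z⁻¹) := by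
  have h2 : (2 : L) ≠ 0 := by exact_mod_cast three κ (n := 2) (by omega)
  have dz : 3 * z ^ 2 * D z = 2 * s := by
    have := congrArg D H.cub
    rw [H.der.pow, map_add, H.der.one, H.der.pow, H.ds] at this
    push_cast at this
    linear_combination this
  have hz : z ≠ 0 := by
    rintro rfl
    have hs : s = 0 := by
      refine (mul_eq_zero.1 ?_).resolve_left h2
      linear_combination -dz
    have := H.cub
    rw [hs] at this
    simp at this
  have zi : z * z⁻¹ = 1 := mul_inv_cancel₀ hz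
  have di := H.der.inv zi
  have cu := H.cub
  generalize z⁻¹ = t at zi di ⊢
  refine cur c (sD_der _ H.der) (fun r => by rw [sD_apply, H.con, mul_zero]) ?_ ?_ ?_
  · linear_combination (-t ^ 3) * cu + (z ^ 2 * t ^ 2 + z * t + 1) * zi
  · rw [sD_apply, di]
    linear_combination t ^ 2 * dz
  · rw [sD_apply, H.der, di, H.ds]
    linear_combination s * t ^ 2 * dz - 3 * t ^ 2 * cu + 3 * z ^ 2 * t * zi

/-- The coordinates `s`, `z` on the curve. -/
theorem xd [CharZero k] {x y δ : L} (hD : IsDer D) (h0 : ∀ c, D (κ c) = 0) (hδ : δ ≠ 0)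
    (hc : Cst κ D) (hg : gf κ x y = ⊤) (e1 : x ^ 3 + x * y ^ 2 = 1) (e2 : D x = δ * (2 * x * y))
    (e3 : D y = δ * -(3 * x ^ 2 + y ^ 2)) :
    Xd κ (sD ((-3 * x⁻¹ ^ 2)⁻¹ * δ⁻¹) D) (y * x⁻¹) x⁻¹ ∧ -3 * x⁻¹ ^ 2 ≠ 0 ∧ x ≠ 0 := by
  have h3 : (3 : L) ≠ 0 := by exact_mod_cast three κ (n := 3) (by omega)
  have hx : x ≠ 0 := by
    rintro rfl
    simp at e1
  have ht : -3 * x⁻¹ ^ 2 ≠ 0 := mul_ne_zero (neg_ne_zero.2 h3) (pow_ne_zero 2 (inv_ne_zero hx))
  have xi : x * x⁻¹ = 1 := mul_inv_cancel₀ hx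
  have di := hD.inv xi
  refine ⟨⟨sD_der _ hD, fun r => by rw [sD_apply, h0, mul_zero], ?_, ?_, ?_, fun r hr => hc r ?_⟩,
    ht, hx⟩
  · have : D (y * x⁻¹) = δ * (-3 * x⁻¹ ^ 2) := by
      rw [hD, di, e2, e3]
      generalize x⁻¹ = t at xi ⊢
      linear_combination (-3 * δ * t ^ 2) * e1 + δ * t * (3 * x ^ 2 + y ^ 2) * xi
    rw [sD_apply, this, mul_assoc, inv_mul_cancel_left₀ hδ, inv_mul_cancel₀ ht]
  · generalize x⁻¹ = t at xi ⊢
    linear_combination (-t ^ 3) * e1 + (x ^ 2 * t ^ 2 + x * t + 1 + y ^ 2 * t ^ 2) * xi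
  · rw [eq_top_iff, ← hg]
    have mt : x⁻¹ ∈ gf κ (y * x⁻¹) x⁻¹ := Subfield.subset_closure (by simp)
    have ms : y * x⁻¹ ∈ gf κ (y * x⁻¹) x⁻¹ := Subfield.subset_closure (by simp)
    have mx : x ∈ gf κ (y * x⁻¹) x⁻¹ := by simpa using inv_mem mt
    refine Subfield.closure_le.2 ?_
    rintro r (hr | rfl | rfl)
    · exact Subfield.subset_closure (Or.inl hr)
    · exact mx
    · have := mul_mem ms mx
      rwa [inv_mul_cancel_right₀ hx] at this
  · rw [sD_apply] at hr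
    exact (mul_eq_zero.1 hr).resolve_left (mul_ne_zero (inv_ne_zero ht) (inv_ne_zero hδ))

theorem gf_lin {a b c e : k} {x y : L} (hδ : a * e - b * c ≠ 0) (hg : gf κ x y = ⊤) :
    gf κ (κ a * x + κ b * y) (κ c * x + κ e * y) = ⊤ := by
  rw [eq_top_iff, ← hg]
  have mk : ∀ r, κ r ∈ gf κ (κ a * x + κ b * y) (κ c * x + κ e * y) := fun r =>
    Subfield.subset_closure (Or.inl ⟨r, rfl⟩)
  have m1 : κ a * x + κ b * y ∈ gf κ (κ a * x + κ b * y) (κ c * x + κ e * y) :=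
    Subfield.subset_closure (by simp)
  have m2 : κ c * x + κ e * y ∈ gf κ (κ a * x + κ b * y) (κ c * x + κ e * y) :=
    Subfield.subset_closure (by simp)
  have i : κ (a * e - b * c)⁻¹ * (κ a * κ e - κ b * κ c) = 1 := by
    rw [← map_mul, ← map_mul, ← map_sub, ← map_mul, inv_mul_cancel₀ hδ, map_one]
  refine Subfield.closure_le.2 ?_
  rintro r (⟨r, rfl⟩ | rfl | rfl)
  · exact mk r
  · have := mul_mem (mk (a * e - b * c)⁻¹) (sub_mem (mul_mem (mk e) m1) (mul_mem (mk b) m2))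
    rwa [show κ (a * e - b * c)⁻¹ * (κ e * (κ a * r + κ b * y) - κ b * (κ c * r + κ e * y)) = r by
      linear_combination r * i] at this
  · have := mul_mem (mk (a * e - b * c)⁻¹) (sub_mem (mul_mem (mk a) m2) (mul_mem (mk c) m1))
    rwa [show κ (a * e - b * c)⁻¹ * (κ a * (κ c * x + κ e * r) - κ c * (κ a * x + κ b * r)) = r by
      linear_combination r * i] at this

end Xfr

open Xfr in
theorem xfrS (h1 : NatStmt) (h2 : GscStmt) (h3 : Frm2Stmt) : XfrStmt := by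
  intro k L _ _ _ κ c n α
  constructor
  · intro D f u v e δ w x y hu hv hδ hb hf hw hr hF hG
    obtain ⟨s', t', hs, ht, -, i1, i2, -, -⟩ := PC3.exists_inv' hu hv (r := δ⁻¹)
      (by rw [hb, ← map_mul, inv_mul_cancel₀ hδ, map_one])
    have j0 : sub2 u v s' = MvPolynomial.X 0 := by
      have := i1 (MvPolynomial.X 0)
      rwa [PC3.sub2_X0] at this
    have j1 : sub2 u v t' = MvPolynomial.X 1 := by
      have := i1 (MvPolynomial.X 1)
      rwa [PC3.sub2_X1] at this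
    obtain ⟨w0, hw0⟩ : ∃ w0, w0 = pb (MvPolynomial.map C s') (MvPolynomial.map C t') w := ⟨_, rfl⟩
    have d0 : DF 4 w0 := hw0 ▸ PC3.DF.pb (hs.map _) (ht.map _) hw
    have r0 : mapF cc w0 = d1 (f0 c) := by
      rw [hw0, PC3.mapF_pb, map_cc, map_cc, hr, PC3.pb_d1, hf, map_add, i2, PC3.sub2_C,
        PC3.d1_add, PC3.d1_C, add_zero]
    have ew : w = pb (MvPolynomial.map C u) (MvPolynomial.map C v) w0 := by
      rw [hw0, PC3.pb_pb, ← PC3.map_sub2, ← PC3.map_sub2, j0, j1, MvPolynomial.map_X,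
        MvPolynomial.map_X, PC3.pb_id]
    have hD := hF.cv.1
    have h0 := hF.cv.2.1
    have hc' := cst hG
    obtain ⟨ea, eb⟩ := h1 k L κ D 3 w0 _ _ x y hD h0 d0 (hu.map C) (hv.map C)
    rw [ew, ea, eb] at hG
    have cx := c00_hev (κ := κ) (MvPolynomial.map C u) x y
    have cy := c00_hev (κ := κ) (MvPolynomial.map C v) x y
    generalize hev (iA κ) 1 (MvPolynomial.map C u) x y X = x1 at hG cx
    generalize hev (iA κ) 1 (MvPolynomial.map C v) x y X = y1 at hG cy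
    have cv := hF.cv
    rw [hf, hc3 hu hv] at cv
    rw [map_cc] at cx cy
    obtain ⟨p, a, b, eu⟩ : ∃ p a b, u = MvPolynomial.C p + HC.lf a b := ⟨_, _, _, PC3.DL2_eq hu⟩
    obtain ⟨q, a', b', ev⟩ : ∃ p a b, v = MvPolynomial.C p + HC.lf a b := ⟨_, _, _, PC3.DL2_eq hv⟩
    have eδ : a * b' - b * a' = δ := by
      rw [eu, ev] at hb
      simp only [br, map_add, MvPolynomial.pderiv_C, lf_x, lf_y, zero_add] at hb
      rw [← map_mul, ← map_mul, ← map_sub] at hb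
      exact MvPolynomial.C_injective _ _ hb
    have l : ∀ a b : k, evp κ (c00 x) (c00 y) (HC.lf a b) = κ a * c00 x + κ b * c00 y :=
      fun a b => by simp [evp, HC.lf]
    rw [eu, hc1, l] at cx
    rw [ev, hc1, l] at cy
    rw [eu, ev, hc1, hc1] at cv
    have hg := gf_lin (κ := κ) (eδ ▸ hδ : a * b' - b * a' ≠ 0) hF.gb
    obtain ⟨e1, e2, e3⟩ := lin cv
    rw [← cx, ← cy] at hg e1 e2 e3
    rw [eδ] at e2 e3
    have kδ : κ δ ≠ 0 := (map_ne_zero κ).2 hδ
    obtain ⟨H, n3, nx⟩ := xd hD h0 kδ hc' hg e1 e2 e3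
    refine ⟨w0, _, _, _, d0, r0, ew, H, fun x' y' hx hy => ?_⟩
    have eD : sD (-3 * (c00 x1)⁻¹ ^ 2) (sD ((-3 * (c00 x1)⁻¹ ^ 2)⁻¹ * (κ δ)⁻¹) D) =
        sD (κ δ)⁻¹ D := AddMonoidHom.ext fun r => by
      rw [sD_apply, sD_apply, sD_apply, mul_assoc _ (κ δ)⁻¹, mul_inv_cancel_left₀ n3]
    obtain ⟨g1, -, g3⟩ := h2 k L κ D (κ δ)⁻¹ (inv_ne_zero kδ)
    have G := g1 _ _ n α hG
    rw [← g3] at G
    rw [eD]
    rw [inv_inv] at hx hy
    rw [inv_mul_cancel_right₀ nx] at hy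
    refine h3 k L 3 (f0 c) w0 κ _ x1 y1 x' y' n α (by omega) (dl0 c) r0 ?_ hx hy G
    refine cur c (sD_der _ hD) (fun r => by rw [sD_apply, h0, mul_zero]) e1 ?_ ?_
    · rw [sD_apply, e2, inv_mul_cancel_left₀ kδ]
    · rw [sD_apply, e3, inv_mul_cancel_left₀ kδ]
  · intro D s z u v w H hu hv eu ev hw hr hG x y hx hy
    have cv := cur' c H
    have G := hG x y hx hy
    obtain ⟨ea, eb⟩ := h1 k L κ (sD (-3 * z ^ 2) D) 3 w u v x y cv.1 cv.2.1 hw hu hv
    rw [ea, eb] at G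
    have cx : c00 (hev (iA κ) 1 u x y X) = c00 x := by
      rw [c00_hev, eu, hcX]
      simp [evp]
    have cy : c00 (hev (iA κ) 1 v x y X) = c00 y := by
      rw [c00_hev, ev, hcX]
      simp [evp]
    refine h3 k L 3 (f0 c) w κ _ _ _ x y n α (by omega) (dl0 c) hr ?_ cx.symm cy.symm G
    rw [cx, cy, hx, hy]
    exact cv

end Pool.Agent.MP_05b4bd_ag.XO
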