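import Pool.Agent.MP_05b4bd_ag.ex.Bas

/-! The exceptional cubic, row XI: a primitive of the fourth power of the line. -/

namespace Pool.Agent.MP_05b4bd_ag.XO

open PowerSeries LaurentSeries HC
open ES hiding Gen Ob Inf

namespace XiR

/-- The coefficients of the solution. -/
def a (b : ℕ) : ℕ → ℚ
  | 0 => 1 / 4
  | i + 1 => -((4 * (4 + i) - 3 * b) * a b i) / (4 * (5 + i))

theorem ode (b : ℕ) : 4 * (1 + X) * (4 * PowerSeries.mk (a b) + X * dX ℚ (PowerSeries.mk (a b))) -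
    3 * (b : ℚ⟦X⟧) * X * PowerSeries.mk (a b) = (4 : ℚ⟦X⟧) := by
  have h1 : ∀ n, coeff n (X * dX ℚ (PowerSeries.mk (a b))) = n * a b n := fun n => by
    cases n with
    | zero => simp
    | succ n =>
      rw [coeff_succ_X_mul]
      show coeff n (PowerSeries.derivative ℚ (PowerSeries.mk (a b))) = _
      rw [coeff_derivative, coeff_mk]
      push_cast
      ring
  have e : 4 * (1 + X) * (4 * PowerSeries.mk (a b) + X * dX ℚ (PowerSeries.mk (a b))) - 3 * (b : ℚ⟦X⟧) * X * PowerSeries.mk (a b) =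
      C 16 * PowerSeries.mk (a b) + C 4 * (X * dX ℚ (PowerSeries.mk (a b))) +
        X * (C (16 - 3 * b : ℚ) * PowerSeries.mk (a b) + C 4 * (X * dX ℚ (PowerSeries.mk (a b)))) := by
    simp only [map_sub, map_mul, map_natCast, map_ofNat]
    ring
  rw [e, show (4 : ℚ⟦X⟧) = C 4 from (map_ofNat C 4).symm]
  ext n
  cases n with
  | zero =>
    rw [map_add, map_add, coeff_C_mul, coeff_C_mul, h1, coeff_zero_X_mul, coeff_mk, coeff_zero_C]
    norm_num [a]
  | succ n =>
    rw [map_add, map_add, coeff_C_mul, coeff_C_mul, h1, coeff_succ_X_mul, map_add, coeff_C_mul,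
      coeff_C_mul, h1, coeff_mk, coeff_mk, coeff_succ_C, a]
    have : (5 + n : ℚ) ≠ 0 := by positivity
    push_cast
    field_simp
    ring

end XiR

theorem xiS : XiStmt := by
  intro K _ _ V τ y b hV hτ h0
  have hs : τ * y ∈ K3.JX K := K3.mem_JX (hτ.mul_right y)
  obtain ⟨g, gX, gC⟩ : ∃ g : ℚ⟦X⟧ →+* K⟦X⟧, g X = τ * y ∧ ∀ r, V (g (C r)) = 0 :=
    ⟨ES.ev (algebraMap ℚ K⟦X⟧) (τ * y), ES.ev_X _ hs, fun r => by
      rw [ES.ev_C _ hs]; exact hV.rat r⟩
  have ch := hom_chain (K3.JX K) (g := g) (by rwa [gX]) hV (L := 0) K3.isDer_zero (a := 0)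
    (fun r => by rw [gC, zero_mul]) (PowerSeries.mk (XiR.a b))
  have od := congrArg g (XiR.ode b)
  simp only [map_sub, map_mul, map_add, map_one, map_ofNat, map_natCast, gX] at od
  rw [gX, hV.const_mul h0] at ch
  refine ⟨y ^ 4 * g (PowerSeries.mk (XiR.a b)), ?_⟩
  rw [hV, map_add, hV.one, hV.const_mul h0, hV.pow, ch]
  push_cast
  linear_combination (y ^ 3 * V y) * od

end Pool.Agent.MP_05b4bd_ag.XO
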