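import Pool.Agent.MP_05b4bd_ag.ex.Bas
import Pool.Agent.MP_05b4bd_ag.pc3.Lift

/-! The exceptional cubic: every arc is an affine pull-back of the normal form. -/

namespace Pool.Agent.MP_05b4bd_ag.XO

open PowerSeries HC
open ES hiding Gen Ob Inf
open PC3 (Fm fm d1 DF sub2 pb mapF)

namespace Xif

variable {A B : Type} [CommRing A] [CommRing B] {b : ℕ}

theorem DL_af (a b c : A) : DL 2 (af a b c) :=
  (((DL_C a).mono (by omega)).add ((DL_X 0).C_mul b)).add ((DL_X 1).C_mul c)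

theorem map_af (φ : A →+* B) (a b c : A) :
    MvPolynomial.map φ (af a b c) = af (φ a) (φ b) (φ c) := by
  simp [af]

theorem map_pa (φ : A →+* B) (y : Fin 20 → A) : (pa y).map φ = pa fun i => φ (y i) := by
  simp only [pa, Pa.map]
  congr 1
  funext i
  fin_cases i <;> rfl

theorem map_uO (h : OmStmt) (M : Mo b) (φ : A →+* B) (y : Fin 20 → A) :
    mapF φ (uO M y) = uO M fun i => φ (y i) := by
  rw [uO, uO, PC3.mapF_pb, map_af, map_af, (h b M A).1, map_pa]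

theorem pa_y0 (c : A) : pa (y0 c) = ⟨c, 0, 0, 0, 0, 0, 0, 0, 0, fun _ => 0⟩ := by
  simp only [pa]
  congr 1
  funext i
  fin_cases i <;> rfl

theorem af0 (c : A) : af (y0 c 0) (y0 c 1) (y0 c 2) = MvPolynomial.X 0 := by
  simp [af, y0]

theorem af1 (c : A) : af (y0 c 3) (y0 c 4) (y0 c 5) = MvPolynomial.X 1 := by
  simp [af, y0]

theorem uO_y0 (h : OmStmt) (M : Mo b) (c : A) : uO M (y0 c) = (4 : R2 A) • d1 (f0 c) := by
  rw [uO, af0, af1, PC3.pb_id, pa_y0, (h b M A).2.2.1]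

end Xif

open Xif in
theorem xifS (h1 : IftStmt) (h2 : JacStmt) (h3 : OmStmt) : XifStmt := by
  intro b M k _ _ c w hw h0
  have e0 : mapF (MvPolynomial.eval (y0 c)) (uO M (MvPolynomial.X : Fin 20 → MvPolynomial _ k)) =
      (4 : R2 k) • d1 (f0 c) := by
    rw [map_uO h3, ← uO_y0 h3 M]
    simp only [MvPolynomial.eval_X]
  have e4 : (4 : R2 k⟦X⟧) = MvPolynomial.C 4 := (map_ofNat _ _).symm
  obtain ⟨x, hx, e⟩ := h1 k (Fin 20) 4 (uO M MvPolynomial.X) (y0 c) ((4 : R2 k⟦X⟧) • w)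
    (PC3.DF.pb (DL_af _ _ _) (DL_af _ _ _) ((h3 b M _).2.1 _)) (e4 ▸ hw.C_smul 4)
    (by rw [e0, PC3.mapF_smul, h0, map_ofNat]) (fun r hr => by
      obtain ⟨h, hh⟩ := h2 b M k c r hr
      refine ⟨h, ?_⟩
      rw [e0, map_uO h3]
      simpa only [MvPolynomial.eval₂Hom_X'] using hh)
  rw [map_uO h3] at e
  simp only [MvPolynomial.eval₂Hom_X'] at e
  have i4 : (MvPolynomial.C (C (4⁻¹ : k)) : R2 k⟦X⟧) * 4 = 1 := by
    rw [e4, ← map_mul, ← map_ofNat (C : k →+* k⟦X⟧) 4, ← map_mul,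
      inv_mul_cancel₀ (by norm_num), map_one, map_one]
  have ex : (fun i => cc (x i)) = y0 c := funext hx
  have hd : ∀ i, y0 c i = 0 → X ∣ x i := fun i hi => X_dvd_iff.2 ((hx i).trans hi)
  refine ⟨af (x 0) (x 1) (x 2), af (x 3) (x 4) (x 5), pa x,
    (MvPolynomial.C (C (4⁻¹ : k)) : R2 k⟦X⟧) • Om M (pa x), DL_af _ _ _, DL_af _ _ _,
    by rw [map_af, hx, hx, hx, af0], by rw [map_af, hx, hx, hx, af1],
    ⟨hx 6, hd 7 rfl, hd 8 rfl, hd 9 rfl, hd 10 rfl, hd 11 rfl, hd 12 rfl, hd 13 rfl, hd 14 rfl,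
      fun i => ?_⟩, ((h3 b M _).2.1 _).C_smul _, ?_, ?_, ?_⟩
  · fin_cases i
    exacts [hd 15 rfl, hd 16 rfl, hd 17 rfl, hd 18 rfl, hd 19 rfl]
  · rw [PC3.mapF_smul, (h3 b M _).1, map_pa, ex, pa_y0, (h3 b M _).2.2.1, smul_smul,
      ← map_ofNat (MvPolynomial.map (cc : k⟦X⟧ →+* k)) 4, ← map_mul, i4, map_one, one_smul]
  · rw [smul_smul, mul_comm, i4, one_smul]
  · rw [PC3.pb_smul, PC3.sub2_C]
    exact ((congrArg _ e).symm.trans (by rw [smul_smul, i4, one_smul])).symm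

end Pool.Agent.MP_05b4bd_ag.XO
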