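import Pool.Agent.MP_05b4bd_ag.ex.Bas
import Pool.Agent.MP_05b4bd_ag.rr.Rig

/-! The exceptional cubic: an arc with a first integral of order four. -/

namespace Pool.Agent.MP_05b4bd_ag.XO

open PowerSeries LaurentSeries HC
open ES hiding Gen Ob Inf
open ES.U (TM Cr hom)
open PC3 (Fm fm d1 DF sub2 pb mapF Van CenK)
open RV (fa fb Frm Good Rho Fac Dk In Cg ExoK SymK RRc Ob NoF)

theorem xmainS (h1 : XnfStmt) (h2 : XfrStmt) (h3 : XifStmt) (h4 : CfrStmt) (h5 : PipeStmt)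
    (h6 : FoldStmt) (h7 : LeadStmt) (h8 : SplStmt) (h9 : ZsetStmt) (h10 : OsetStmt)
    (h11 : ZmainStmt) (h12 : OmainStmt) (h13 : FinStmt) (h14 : VanxStmt) (m1 : MoStmt 1)
    (m3 : MoStmt 3) : XmainStmt := by
  intro k L _ _ _ _ κ D0 f w0 x0 y0 α tm he dw rw0 hF hG
  obtain ⟨u0, v0, c, e0, δ, du, dv, hδ, hbr, hc, hf⟩ := h1 k f tm he
  obtain ⟨a1, a2⟩ := h2 k L κ c 4 α
  obtain ⟨w1, D, s, z, dw1, rw1, ew, hX, hGx⟩ :=
    a1 D0 f u0 v0 e0 δ w0 x0 y0 du dv hδ hbr hf dw rw0 hF hG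
  rw [ew]
  refine h14.2.1 _ _ _ _ (du.map _) (dv.map _) ?_
  obtain ⟨ω, hω⟩ := RV.Rig.prim k 4
  have : CharZero L := charZero_of_injective_ringHom κ.injective
  have run : ∀ (b : ℕ) (M : Mo b), ∃ (u v : R2 k⟦X⟧) (x : Pa k⟦X⟧) (w : Fm k⟦X⟧) (p : AA L)
      (ζ ζi : L⟦X⟧), DL 2 u ∧ DL 2 v ∧ Sm c x ∧ (4 : R2 k⟦X⟧) • w = Om M x ∧ w1 = pb u v w ∧
      Cf M κ s z c x p ζ ζi ∧ ∃ β ρ B u w1 vb σ Φ φ,
        Pp κ D (ca κ w p ζi) (cb κ D w p ζi) α β ω ρ B u w1 vb σ Φ φ := fun b M => by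
    obtain ⟨u, v, x, w, du, dv, ru, rv, sm, dw, rw, e4, e⟩ := h3 b M k c w1 dw1 rw1
    obtain ⟨p, ζ, ζi, cf⟩ := h4 b M k L κ D s z c x hX sm
    exact ⟨u, v, x, w, p, ζ, ζi, du, dv, sm, e4, e, cf, h5 b M k L κ D s z c x p ζ ζi w α ω hX sm
      cf rw (a2 D s z u v w hX du dv ru rv dw rw (e ▸ hGx)) hω⟩
  obtain ⟨b, M, rfl⟩ : ∃ (b : ℕ) (_ : Mo b), α = 4 - b := by
    obtain ⟨_, _, _, _, _, _, _, -, -, -, -, -, -, β, _, _, _, _, _, _, _, _, pp⟩ := run 1 m1.some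
    have := pp.sum
    have := pp.fac.a1
    have := pp.fac.b1
    have cop := pp.fac.cop
    obtain rfl | rfl | rfl : α = 1 ∨ α = 2 ∨ α = 3 := by omega
    · exact ⟨3, m3.some, rfl⟩
    · obtain rfl : β = 2 := by omega
      exact absurd cop (by decide)
    · exact ⟨1, m1.some, rfl⟩
  obtain ⟨u, v, x, w, p, ζ, ζi, du, dv, sm, e4, e, cf, β, ρ, B, un, w2, vb, σ, Φ, φ, pp⟩ := run b M
  obtain rfl : β = b := by
    have := pp.sum
    have := M.hb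
    omega
  rw [e]
  refine h14.2.1 _ _ _ _ du dv ?_
  obtain ⟨e, fd⟩ := h6 L D _ _ ρ B un w2 _ _ hX.der pp.sum pp.nd pp.ra pp.rb pp.rho pp.fac
  obtain ⟨l1, l2, l3, l4, l5⟩ := h7 β M k L κ D s z c x p ζ ζi w w2 e hX sm cf e4 fd
  have z0 : z ≠ 0 := fun h => by
    have := congrArg cc cf.inv
    rw [map_mul, cf.z0, h, zero_mul, map_one] at this
    exact zero_ne_one this
  have nz : coeff e x.m ≠ 0 ∨ coeff e x.n ≠ 0 := by
    by_contra h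
    rw [not_or, not_not, not_not] at h
    rw [h.1, h.2, mul_zero, map_zero, zero_mul, add_zero, mul_eq_zero, neg_eq_zero] at l5
    exact l5.elim fd.ord.1 z0
  obtain ⟨y, ax, a', p0, sc, sp, hax, hp0, hq, zl1, ol1, em, en⟩ := h8 k c x e sm l1 l2 l3 l4 nz
  obtain ⟨n, u1, vb', p', z', zi, ρ', zd⟩ := h9 β M k L κ D s z c x y p ζ ζi w ρ B un w2 e hX cf e4
    pp.ra pp.rb pp.rho pp.fac fd sc (by rw [em, en]; exact l5)
  obtain ⟨dt, p'', zi', ad⟩ := h10 β M k L κ D s z c x p ζ ζi w _ _ ω ρ B un w2 vb σ Φ φ hX cf e4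
    hω pp
  have ind : ∀ j, Zl (j + 1) y ax a' ∧ Ol (j + 1) x := fun j => by
    induction j with
    | zero => exact ⟨zl1, ol1⟩
    | succ j ih =>
      exact ⟨h11 β M k L κ D s z n u1 c p0 x y ax a' vb' p' z' zi ρ' e _ hX zd sm fd.e1 sc sp hax
        hp0 hq (by omega) ih.1 ih.2, h12 β M k L κ D s z c ω x y ax σ a' ζ φ vb p'' zi' e _ hX hc
        cf.toCn dt ad sm fd.e1 sc sp (by omega) ih.1 ih.2⟩
  refine h13 β M k c x y ax a' w e hc sm sc sp e4 fun j => ?_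
  cases j with
  | zero => simp [Zl, Ol]
  | succ j => exact ind j

theorem rigxS (h1 : RV.ObsStmt) (h2 : RV.BaserStmt) (h3 : RV.MkiStmt) (h4 : RV.RunStmt)
    (h5 : RV.AdmStmt) (h6 : RV.NrfStmt) (h7 : RV.FrameStmt) (h8 : RV.IndStmt) (h9 : RV.RrcStmt)
    (h10 : XmainStmt) (h11 : VanxStmt) : RigxStmt := by
  intro k _ _ d o hd hN
  obtain ⟨M, hM, L, _, κ, D, x, y, hF, hI⟩ : ∃ M, 1 ≤ M ∧ ∃ (L : Type) (_ : Field L)
      (κ : k →+* L) (D : L →+ L) (x y : AA L), Frm κ D d o.f x y ∧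
      ¬ RV.NoFI D (fa κ d (MvPolynomial.map (ram k M) o.P) (MvPolynomial.map (ram k M) o.Q) x y)
        (fb κ D d (MvPolynomial.map (ram k M) o.P) (MvPolynomial.map (ram k M) o.Q) x y) := by
    by_contra hc
    exact hN fun M hM L _ κ D x y hF => by
      by_contra hn
      exact hc ⟨M, hM, L, inferInstance, κ, D, x, y, hF, hn⟩
  obtain ⟨o1, p1, q1, f1⟩ := (h1 k d o (by omega)).2.1 M hM
  rw [← p1, ← q1] at hI
  rw [← f1] at hF
  obtain ⟨k', L', _, _, _, _, j, o2, κ', D', x', y', n, α, p2, q2, f2, hF', hG⟩ :=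
    h2 k L d o1 κ D x y (by omega) hF hI
  obtain ⟨I, iκ, iD, iff, -, -, -, ia, ib⟩ := h3 k' L' d o2 κ' D' x' y' (by omega) hF'
  obtain ⟨ω, hω⟩ := RV.Rig.prim k' n
  obtain ⟨hn, -, -, -, -, -, -, c0, -, -, -, -, -, -, hs⟩ :=
    h4 k' L' d I n α ω hd (by rw [iκ, iD, ia, ib]; exact hG) hω
  rw [iff] at hs
  rw [f1] at f2
  have inj : Function.Injective ((map j).comp (ram k M)) :=
    (map_injective j j.injective).comp (ram_inj hM)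
  have eo : (o2.P, o2.Q) = mapF ((map j).comp (ram k M)) (o.P, o.Q) := by
    rw [p2, q2, p1, q1, MvPolynomial.map_map, MvPolynomial.map_map]
    rfl
  rcases hs with ⟨c, hy⟩ | ⟨h3, hi, he⟩
  swap
  · refine Or.inr ⟨h3, RV.Rig.exo j (f2 ▸ he), h11.2.2.1 _ _ _ _ inj ?_⟩
    subst h3
    have n4 : n = 4 := by
      have a : n ∣ 4 := hω.dvd_of_pow_eq_one 4 (by linear_combination (ω ^ 2 - 1) * hi)
      have b : n ≠ 2 := fun e => by
        have := hω.pow_eq_one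
        rw [e, hi] at this
        exact absurd this (by norm_num)
      have := Nat.le_of_dvd (by norm_num) a
      interval_cases n <;> simp_all
    subst n4
    rw [← eo]
    exact h10 k' L' κ' D' o2.f (o2.P, o2.Q) x' y' α o2.gen.tm he ⟨o2.dP, o2.dQ⟩
      (Prod.ext o2.rP o2.rQ) hF' hG
  have hζ : IsPrimitiveRoot ω⁻¹ n := hω.inv
  obtain ⟨a1, a2, -⟩ := h5 k' d o2.f hd o2.gen.tm
  have adm : RV.Adm d n := a1 n hn ⟨k', inferInstance, RingHom.id _, ω⁻¹, c0, c, hζ, by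
    rw [MvPolynomial.map_id]; exact hy⟩
  obtain ⟨p, hp⟩ := a2 ω⁻¹ c0 c (hζ.ne_one hn) hy
  obtain ⟨o3, p3, q3, f3⟩ := (h1 k' d o2 (by omega)).1 fun i => C (p i)
  have ep : (fun i => cc (C (p i) : k'⟦X⟧)) = p := funext fun i => constantCoeff_C (p i)
  rw [ep] at f3
  have hcv : Curve κ' D' (hc d o3.f) (c00 x') (c00 y') := by
    rw [f3, RV.hc_tr_sub p _ (by omega) o2.gen.2.1]
    exact hF'.cv
  obtain ⟨R, rf, -, rκ, rD, rx, ry⟩ := h6 k' L' d n o3.f ω⁻¹ κ' D' (c00 x') (c00 y') hd o3.gen adm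
    hζ (by rw [f3]; exact hp) hcv hF'.gb (RV.Rig.cst hG)
  have hG' := h7 k' L' d o2 κ' D' x' y' R.x R.y (fun i => C (p i)) n α (by omega) hF'.cv
    ((RV.Rig.c00_fr R.p0 R.xb).trans rx) ((RV.Rig.c00_fr R.p0 R.yb).trans ry) hG
  obtain ⟨β, hα, hβ, hs, hcop, hR⟩ := h8 k' L' d n α R o3 rf.symm (by
    rw [RV.Rd.a, RV.Rd.b, rκ, rD]
    rw [← p3, ← q3] at hG'
    exact hG')
  refine Or.inl ⟨α, β, hα, hβ, hcop, ⟨k', inferInstance, j, ω⁻¹, c0, c, hs ▸ hζ, f2 ▸ hy⟩, ?_⟩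
  have hR2 : RRc d α β (o2.P, o2.Q) := (h9 _ d α β (o2.P, o2.Q)).2.2.1 (fun i => C (p i)) (by
    rw [p3, q3] at hR
    exact hR)
  exact (h9 _ d α β (o.P, o.Q)).2.2.2.2 _ _ inj (eo ▸ hR2)

end Pool.Agent.MP_05b4bd_ag.XO
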