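import Pool.Agent.MP_05b4bd_ag.ex.Bas
import Mathlib.RingTheory.Nullstellensatz

/-! The normal form of the exceptional cubic. -/

namespace Pool.Agent.MP_05b4bd_ag.XO

open MvPolynomial HC
open ES.U (TM)
open PC3 (sub2)
open RV (ExoK)

namespace Xnf

variable {k K : Type} [Field k] [Field K]

theorem nul [IsAlgClosed k] {σ : Type} [Finite σ] (j : k →+* K) (x : σ → K) : ∃ y : σ → k,
    ∀ G G' : R2 (MvPolynomial σ k), map (eval₂Hom j x) G = map (eval₂Hom j x) G' →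
      map (eval y) G = map (eval y) G' := by
  obtain ⟨M, hM, hle⟩ := Ideal.exists_le_maximal (RingHom.ker (eval₂Hom j x)) (RingHom.ker_ne_top _)
  obtain ⟨y, rfl⟩ := isMaximal_iff_eq_vanishingIdeal_singleton.1 hM
  refine ⟨y, fun G G' h => ?_⟩
  ext m
  have h1 := congrArg (coeff m) h
  rw [coeff_map, coeff_map, ← sub_eq_zero, ← map_sub] at h1
  have h2 := (mem_vanishingIdeal_singleton_iff y _).1 (hle h1)
  rw [coeff_map, coeff_map, ← sub_eq_zero, ← map_sub]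
  exact h2

theorem mc1 {σ : Type} (j : k →+* K) (x : σ → K) (f : R2 k) :
    map (eval₂Hom j x) (map (C : k →+* MvPolynomial σ k) f) = map j f := by
  rw [map_map]
  congr 2
  ext z
  simp

theorem mc2 {σ : Type} (y : σ → k) (f : R2 k) :
    map (eval y) (map (C : k →+* MvPolynomial σ k) f) = f := by
  rw [map_map]
  have : (eval y).comp (C : k →+* MvPolynomial σ k) = RingHom.id k := by
    ext z
    simp
  rw [this, map_id]

theorem lin {u : R2 K} (hu : DL 2 u) : ∃ p a b : K, u = C p + C a * X 0 + C b * X 1 :=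
  ⟨_, _, _, by rw [add_assoc]; exact PC3.DL2_eq hu⟩

theorem exo [IsAlgClosed k] {f : R2 k} (h : ExoK f) : ∃ a e u0 u1 u2 v0 v1 v2 : k,
    f = C a * ((C u0 + HC.lf u1 u2) ^ 3 + (C u0 + HC.lf u1 u2) * (C v0 + HC.lf v1 v2) ^ 2 +
      (C v0 + HC.lf v1 v2)) + C e := by
  obtain ⟨K, _, j, a, e, u, v, hu, hv, h⟩ := h
  obtain ⟨u0, u1, u2, rfl⟩ := lin hu
  obtain ⟨v0, v1, v2, rfl⟩ := lin hv
  obtain ⟨y, hy⟩ := nul j ![a, e, u0, u1, u2, v0, v1, v2]
  refine ⟨y 0, y 1, y 2, y 3, y 4, y 5, y 6, y 7, ?_⟩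
  have h1 := hy (map C f) (C (X 0) * ((C (X 2) + C (X 3) * X 0 + C (X 4) * X 1) ^ 3 +
    (C (X 2) + C (X 3) * X 0 + C (X 4) * X 1) * (C (X 5) + C (X 6) * X 0 + C (X 7) * X 1) ^ 2 +
    (C (X 5) + C (X 6) * X 0 + C (X 7) * X 1)) + C (X 1)) (by
      rw [mc1, h]
      simp only [map_add, map_mul, map_pow, map_C, map_X, coe_eval₂Hom, eval₂_X]
      rfl)
  rw [mc2] at h1
  simpa only [map_add, map_mul, map_pow, map_C, map_X, eval_X, HC.lf, add_assoc] using h1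

theorem dl2 (p a b : k) : DL 2 (C p + HC.lf a b : R2 k) :=
  ((DL_C p).mono (by omega)).add (DL.of_hom (lf_hom a b))

theorem hc1 (p a b : k) : hc 1 (C p + HC.lf a b : R2 k) = HC.lf a b := by
  rw [hc_add, (DL_C p).hc_eq le_rfl, zero_add, hc_self (lf_hom a b)]

theorem top {u v : R2 k} (hu : DL 2 u) (hv : DL 2 v) (a e : k) :
    hc 3 (C a * (u ^ 3 + u * v ^ 2 + v) + C e) =
      C a * (hc 1 u ^ 3 + hc 1 u * hc 1 v ^ 2) := by
  have h2 : ∀ {x y : R2 k}, DL 2 x → DL 2 y → hc 2 (x * y) = hc 1 x * hc 1 y :=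
    fun hx hy => hc_mul_top (a := 1) (b := 1) hx hy
  have h3 : ∀ {x y : R2 k}, DL 2 x → DL 2 y → hc 3 (x * y ^ 2) = hc 1 x * hc 1 y ^ 2 := by
    intro x y hx hy
    rw [pow_two, pow_two, ← h2 hy hy]
    exact hc_mul_top (a := 1) (b := 2) hx (DL.mul (a := 1) (b := 2) hy hy)
  have e3 : u ^ 3 = u * u ^ 2 := by ring
  rw [hc_add, hc_C_mul, hc_add, hc_add, e3, h3 hu hu, h3 hu hv, hv.hc_eq (k := 3) (by omega),
    (DL_C e).hc_eq (k := 3) (by omega)]
  ring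

theorem pt {a b : R2 k} (h : CI a b) (p : Fin 2 → k) (ha : eval p a = 0) (hb : eval p b = 0) :
    p 0 = 0 ∧ p 1 = 0 := by
  obtain ⟨M, h0, h1⟩ := h
  have key : ∀ i, X i ^ M ∈ Ideal.span {a, b} → p i = 0 := by
    intro i hi
    obtain ⟨s, t, e⟩ := Ideal.mem_span_pair.1 hi
    have := congrArg (eval p) e
    rw [map_add, map_mul, map_mul, ha, hb, map_pow, eval_X, mul_zero, mul_zero, add_zero] at this
    exact pow_eq_zero_iff (fun hM => by rw [hM, pow_zero] at this; exact zero_ne_one this) |>.1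
      this.symm
  exact ⟨key 0 h0, key 1 h1⟩

theorem nz {a u1 u2 v1 v2 : k}
    (h : CI (pderiv 0 (C a * (HC.lf u1 u2 ^ 3 + HC.lf u1 u2 * HC.lf v1 v2 ^ 2) : R2 k))
      (pderiv 1 (C a * (HC.lf u1 u2 ^ 3 + HC.lf u1 u2 * HC.lf v1 v2 ^ 2) : R2 k))) :
    a ≠ 0 ∧ u1 * v2 - u2 * v1 ≠ 0 := by
  constructor
  · rintro rfl
    have := (pt h ![1, 0] (by simp) (by simp)).1
    simp at this
  · intro hd
    have key : ∀ x y : k, u1 * x + u2 * y = 0 → v1 * x + v2 * y = 0 → x = 0 ∧ y = 0 := by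
      intro x y h1 h2
      have e : ∀ i, eval ![x, y]
          (pderiv i (C a * (HC.lf u1 u2 ^ 3 + HC.lf u1 u2 * HC.lf v1 v2 ^ 2) : R2 k)) = 0 := by
        intro i
        have eu : eval ![x, y] (HC.lf u1 u2 : R2 k) = 0 := by simpa [HC.lf] using h1
        have ev : eval ![x, y] (HC.lf v1 v2 : R2 k) = 0 := by simpa [HC.lf] using h2
        simp [Derivation.leibniz, Derivation.leibniz_pow, eu, ev]
      simpa using pt h ![x, y] (e 0) (e 1)
    obtain ⟨a2, a1⟩ := key u2 (-u1) (by ring) (by linear_combination -hd)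
    obtain ⟨b2, b1⟩ := key v2 (-v1) (by linear_combination hd) (by ring)
    have := (key 1 0 (by linear_combination -a1) (by linear_combination -b1)).1
    exact one_ne_zero this

end Xnf

theorem xnfS : XnfStmt := by
  intro k _ _ _ f hf he
  obtain ⟨a, e, u0, u1, u2, v0, v1, v2, rfl⟩ := Xnf.exo he
  have hci := hf.ci
  rw [Xnf.top (Xnf.dl2 _ _ _) (Xnf.dl2 _ _ _), Xnf.hc1, Xnf.hc1] at hci
  obtain ⟨ha, hd⟩ := Xnf.nz hci
  obtain ⟨l, hl⟩ := IsAlgClosed.exists_pow_nat_eq a (n := 3) (by norm_num)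
  have l0 : l ≠ 0 := by
    rintro rfl
    exact ha (by rw [← hl]; norm_num)
  refine ⟨C l * (C u0 + HC.lf u1 u2), C l * (C v0 + HC.lf v1 v2), l ^ 2 / 2, e,
    l ^ 2 * (u1 * v2 - u2 * v1), (Xnf.dl2 _ _ _).C_mul _, (Xnf.dl2 _ _ _).C_mul _,
    mul_ne_zero (pow_ne_zero _ l0) hd, ?_, div_ne_zero (pow_ne_zero _ l0) two_ne_zero, ?_⟩
  · simp [br, HC.lf, Derivation.leibniz, pderiv_X]
    ring
  · have e2 : (2 : R2 k) * C (l ^ 2 / 2) = C l ^ 2 := by
      rw [← map_pow, ← map_ofNat C 2, ← map_mul]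
      congr 1
      ring
    rw [f0, map_add, map_add, map_mul, map_mul, map_mul, map_pow, map_pow, PC3.sub2_X0,
      PC3.sub2_X1, PC3.sub2_C, map_ofNat, e2, ← hl, map_pow]
    ring

end Pool.Agent.MP_05b4bd_ag.XO
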