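import Pool.Agent.MP_05b4bd_ag.ex.Bas

/-! PROJECT EX, row ZLIN: the six linear conditions have rank five. -/

namespace Pool.Agent.MP_05b4bd_ag.XO

namespace Zlin

variable {k : Type} [Field k] {b : ℕ} {m n x S θ : k} {a : Fin 5 → k}

theorem canc (hn : n ≠ 0) (j : ℕ) {u : k} (h : n ^ j * u = 0) : u = 0 :=
  (mul_eq_zero.1 h).resolve_left (pow_ne_zero j hn)

/-- the conditions are homogeneous -/
theorem scale (hn : n ≠ 0) (h : zl b (x * n) n S θ a) : zl b x 1 S θ a := by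
  unfold zl at h ⊢
  split_ifs at h ⊢ <;>
  · obtain ⟨e1, e2, e3, e4, e5, e6⟩ := h
    exact ⟨e1, canc hn 1 (by linear_combination e2), canc hn 2 (by linear_combination e3),
      canc hn 2 (by linear_combination e4), canc hn 5 (by linear_combination e5),
      canc hn 5 (by linear_combination e6)⟩

variable [CharZero k]

theorem one (h : zl b x 1 S θ a) : S = 0 ∧ θ = 0 ∧
    a 0 = a 4 * x ^ 4 + (a 3 - 4 * x * a 4) * x ∧ a 1 = a 4 * (4 * x ^ 3) + (a 3 - 4 * x * a 4) ∧
    a 2 = a 4 * (6 * x ^ 2) + (a 3 - 4 * x * a 4) * x := by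
  obtain ⟨b0, h0⟩ : ∃ b0, a 0 = b0 + (a 4 * x ^ 4 + (a 3 - 4 * x * a 4) * x) :=
    ⟨_, (sub_add_cancel _ _).symm⟩
  obtain ⟨b1, h1⟩ : ∃ b1, a 1 = b1 + (a 4 * (4 * x ^ 3) + (a 3 - 4 * x * a 4)) :=
    ⟨_, (sub_add_cancel _ _).symm⟩
  obtain ⟨b2, h2⟩ : ∃ b2, a 2 = b2 + (a 4 * (6 * x ^ 2) + (a 3 - 4 * x * a 4) * x) :=
    ⟨_, (sub_add_cancel _ _).symm⟩
  unfold zl at h
  rw [h0, h1, h2] at h ⊢
  split_ifs at h
  · obtain ⟨e1, e2, e3, e4, e5, e6⟩ := h
    obtain rfl : S = -48 * θ := by linear_combination -e1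
    have H2 : b2 + 792 / 7 * x * θ = 0 := by linear_combination (-1 / 7) * e4
    have H1 : b1 + (-320 / 7 + 960 / 7 * x ^ 2) * θ = 0 := by
      linear_combination (-1 / 42) * e3 + (-1 / 21) * x * e2 + 2 * x * H2
    have H0 : b0 + (-248 / 7 * x + 240 / 7 * x ^ 3) * θ = 0 := by
      linear_combination (1 / 28) * e2 + (1 / 4) * x * H1 + (-3 / 2) * H2
    have P : (-200 + 3600 * x ^ 2 - 4200 * x ^ 4) * θ = 0 := by
      linear_combination e6 - 35 * H1 - 70 * x * H2
    have Q : (-9600 * x + 44800 * x ^ 3 - 9600 * x ^ 5) * θ = 0 := by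
      linear_combination e5 + (-140 - 280 * x ^ 2 - 140 * x ^ 4) * H0 +
        (-385 * x - 70 * x ^ 3 + 35 * x ^ 5) * H1 + (350 - 140 * x ^ 2 + 70 * x ^ 4) * H2
    obtain rfl : θ = 0 := by
      linear_combination (-1 / 200 + 351 / 10000 * x ^ 2 - 153 / 20000 * x ^ 4) * P +
        (-417 / 160000 * x + 1071 / 320000 * x ^ 3) * Q
    exact ⟨by ring, rfl, by linear_combination H0, by linear_combination H1,
      by linear_combination H2⟩
  · obtain ⟨e1, e2, e3, e4, e5, e6⟩ := h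
    obtain rfl : S = -489 * θ := by linear_combination -e1
    have H2 : b2 + -1368 / 13 * x * θ = 0 := by linear_combination (1 / 13) * e4
    have H1 : b1 + (-100 - 2112 / 13 * x ^ 2) * θ = 0 := by
      linear_combination (1 / 78) * e3 + (-1 / 39) * x * e2 + 2 * x * H2
    have H0 : b0 + (920 / 13 * x - 528 / 13 * x ^ 3) * θ = 0 := by
      linear_combination (1 / 52) * e2 + (1 / 4) * x * H1 + (-3 / 2) * H2
    have P : (-440 + 7920 * x ^ 2 - 9240 * x ^ 4) * θ = 0 := by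
      linear_combination e6 + 65 * H1 + 130 * x * H2
    have Q : (-21120 * x + 98560 * x ^ 3 - 21120 * x ^ 5) * θ = 0 := by
      linear_combination e5 + (260 + 520 * x ^ 2 + 260 * x ^ 4) * H0 +
        (715 * x + 130 * x ^ 3 - 65 * x ^ 5) * H1 + (-650 + 260 * x ^ 2 - 130 * x ^ 4) * H2
    obtain rfl : θ = 0 := by
      linear_combination (-1 / 440 + 351 / 22000 * x ^ 2 - 153 / 44000 * x ^ 4) * P +
        (-417 / 352000 * x + 1071 / 704000 * x ^ 3) * Q
    exact ⟨by ring, rfl, by linear_combination H0, by linear_combination H1,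
      by linear_combination H2⟩

theorem zero (hm : m ≠ 0) (h : zl b m 0 S θ a) :
    S = 0 ∧ θ = 0 ∧ a 1 = 0 ∧ a 3 = 0 ∧ a 4 = 0 := by
  unfold zl at h
  split_ifs at h
  · obtain ⟨e1, e2, e3, e4, e5, -⟩ := h
    obtain rfl : S = -48 * θ := by linear_combination -e1
    have f2 : 4080 * θ - 7 * a 1 - 63 * a 3 = 0 := canc hm 1 (by linear_combination e2)
    have f3 : -4416 * θ + 14 * a 1 + 42 * a 3 = 0 := canc hm 2 (by linear_combination e3)
    have f5 : -1680 * θ - 35 * a 1 - 35 * a 3 = 0 := canc hm 5 (by linear_combination e5)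
    obtain rfl : θ = 0 := by
      linear_combination (-1 / 28800) * (10 * (2 * f2 + f3) + 3 * (f5 - 5 * f2))
    have g : a 3 = 0 := by linear_combination (-1 / 84) * (2 * f2 + f3)
    exact ⟨by ring, rfl, by linear_combination (-1 / 7) * f2 - 9 * g, g,
      canc hm 2 (by linear_combination (1 / 14) * e4)⟩
  · obtain ⟨e1, e2, e3, e4, e5, -⟩ := h
    obtain rfl : S = -489 * θ := by linear_combination -e1
    have f2 : -3228 * θ - 13 * a 1 - 117 * a 3 = 0 := canc hm 1 (by linear_combination e2)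
    have f3 : -2712 * θ - 26 * a 1 - 78 * a 3 = 0 := canc hm 2 (by linear_combination e3)
    have f5 : -17460 * θ + 65 * a 1 + 65 * a 3 = 0 := canc hm 5 (by linear_combination e5)
    obtain rfl : θ = 0 := by
      linear_combination (-1 / 63360) * (10 * (f3 - 2 * f2) + 3 * (f5 + 5 * f2))
    have g : a 3 = 0 := by linear_combination (1 / 156) * (f3 - 2 * f2)
    exact ⟨by ring, rfl, by linear_combination (-1 / 13) * f2 - 9 * g, g,
      canc hm 2 (by linear_combination (-1 / 26) * e4)⟩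

end Zlin

theorem zlinS : ZlinStmt := by
  intro b k _ _ m n S θ a hmn h
  by_cases hn : n = 0
  · subst hn
    have hm : m ≠ 0 := hmn.resolve_right fun c => c rfl
    obtain ⟨h1, h2, h3, h4, h5⟩ := Zlin.zero hm h
    refine ⟨h1, h2, (a 0 - a 2) / m ^ 4, a 2 / m, fun i => ?_⟩
    fin_cases i <;> simp [m4, mF, h3, h4, h5, hm]
  · obtain ⟨x, rfl⟩ : ∃ x, m = x * n := ⟨m / n, (div_mul_cancel₀ m hn).symm⟩
    obtain ⟨h1, h2, h3, h4, h5⟩ := Zlin.one (Zlin.scale hn h)
    refine ⟨h1, h2, a 4 / n ^ 4, (a 3 - 4 * x * a 4) / n, fun i => ?_⟩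
    fin_cases i <;> simp only [m4, mF, Fin.zero_eta, Fin.mk_one, Fin.reduceFinMk, Fin.isValue,
      Matrix.cons_val_zero, Matrix.cons_val_one, Matrix.cons_val]
    · rw [h3]; field_simp
    · rw [h4]; field_simp
    · rw [h5]; field_simp
    · field_simp; ring
    · field_simp; ring

end Pool.Agent.MP_05b4bd_ag.XO
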