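import Pool.Agent.MP_05b4bd_ag.ex.Bas

/-! The logarithmic direction does not occur in the small disc. -/

namespace Pool.Agent.MP_05b4bd_ag.XO

open ES hiding Gen Ob Inf

namespace Zlog

open Polynomial

theorem tz {A : Type} [CommRing A] (b : ℕ) (a : Fin 5 → A) (α β m m1 s z n dn x : A)
    (ha : ∀ i, a i = α * m4 m m1 i + β * mF m m1 i) (h1 : z ^ 3 = 1 + s ^ 2)
    (h2 : n * z = m + m1 * s) (h3 : 3 * z ^ 4 * dn = 3 * z ^ 3 * m1 - 2 * s * n * z) :
    Tz b a 0 0 0 0 m m1 s (z * x) = 48 * α * n ^ 3 * z ^ 9 * (x + n) ^ 2 * dn +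
      3 * β * z ^ 9 * (x + n) * (4 * x + (4 + 3 * b) * n) * dn := by
  have e : Tz b a 0 0 0 0 m m1 s (z * x) = (z * x + (m + m1 * s)) *
      (16 * α * (m + m1 * s) ^ 3 * (z * x + (m + m1 * s)) +
        β * (1 + s ^ 2) * (4 * (z * x) + (4 + 3 * b) * (m + m1 * s))) *
      (3 * (1 + s ^ 2) * m1 - 2 * s * (m + m1 * s)) := by
    simp only [Tz, qu, qv, ha, m4, mF, Matrix.cons_val]
    ring
  rw [e, ← h1, ← h2, ← mul_assoc (2 * s), ← h3]
  ring

theorem map_a {A B : Type} [CommRing A] [CommRing B] (φ : A →+* B) (α β m n : A) (i : Fin 5) :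
    φ (α * m4 m n i + β * mF m n i) = φ α * m4 (φ m) (φ n) i + φ β * mF (φ m) (φ n) i := by
  fin_cases i <;> simp [m4, mF, map_ofNat]

variable {L : Type} [Field L] {D : L →+ L} {j e y w r r' : L[X]}

/-- The limit field sends `y` to `r`. -/
def Hs (D : L →+ L) (j e y r : L[X]) : Prop :=
  ∃ y1, Dp D y y1 ∧ j * y1 - e * X * derivative y = r

theorem Hs.add (h : Hs D j e y r) (h' : Hs D j e w r') : Hs D j e (y + w) (r + r') := by
  obtain ⟨y1, h1, rfl⟩ := h
  obtain ⟨w1, h2, rfl⟩ := h'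
  refine ⟨y1 + w1, fun i => by rw [coeff_add, coeff_add, map_add, h1, h2], ?_⟩
  rw [derivative_add]
  ring

theorem Hs.mul (hD : IsDer D) (h : Hs D j e y r) (h' : Hs D j e w r') :
    Hs D j e (y * w) (r * w + y * r') := by
  obtain ⟨y1, h1, rfl⟩ := h
  obtain ⟨w1, h2, rfl⟩ := h'
  refine ⟨y1 * w + y * w1, fun i => ?_, ?_⟩
  · rw [coeff_add, coeff_mul, coeff_mul, coeff_mul, map_sum, ← Finset.sum_add_distrib]
    exact Finset.sum_congr rfl fun p _ => by rw [hD, h1, h2]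
  · rw [derivative_mul]
    ring

theorem hs_C (c : L) : Hs D j e (C c) (j * C (D c)) :=
  ⟨C (D c), fun i => by
    rw [coeff_C, coeff_C]
    split_ifs
    · rfl
    · exact (map_zero D).symm, by simp⟩

theorem hs_X (hD : IsDer D) : Hs D j e X (-(e * X)) :=
  ⟨0, fun i => by
    rw [coeff_zero, coeff_X]
    split_ifs
    · exact hD.one.symm
    · exact (map_zero D).symm, by simp⟩

theorem Hs.of (h : Hs D j e y r) (h1 : y = w) (h2 : r = r') : Hs D j e w r' := h1 ▸ h2 ▸ h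

theorem Hs.cm (hD : IsDer D) {c : L} (hc : D c = 0) (h : Hs D j e y r) :
    Hs D j e (C c * y) (C c * r) :=
  ((hs_C c).mul hD h).of rfl (by rw [hc]; simp)

theorem Hs.nm (hD : IsDer D) (c : ℤ) (h : Hs D j e y r) :
    Hs D j e ((c : L[X]) * y) ((c : L[X]) * r) := by
  simpa only [map_intCast] using h.cm hD (hD.intCast c)

theorem Hs.pow (hD : IsDer D) (h : Hs D j e y (r * y)) (i : ℕ) :
    Hs D j e (y ^ i) ((i : L[X]) * r * y ^ i) := by
  induction i with
  | zero => exact (hs_C 1).of (by simp) (by simp [hD.one])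
  | succ i ih => exact (ih.mul hD h).of (pow_succ _ _).symm (by push_cast; ring)

/-- The two explicit solutions. -/
theorem corr (hD : IsDer D) (b : ℕ) (hb : b = 1 ∨ b = 3) (n α β : L) (hα : D α = 0)
    (hβ : D β = 0) : ∃ w, Hs D (jP (4 - b) n) (C (b * D n)) w
      (12 * (b : L[X]) * C β * C (D n) * (rP (4 - b) b n - C n * (X ^ (4 - b) * (X + C n) ^ (b - 1))) -
        720 * C α * C n ^ 3 * C (D n) * rP (4 - b) b n) := by
  have hx : Hs D (jP (4 - b) n) (C (b * D n)) X (-C (b * D n) * X) := (hs_X hD).of rfl (by ring)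
  have hl : Hs D (jP (4 - b) n) (C (b * D n)) (X + C n)
      ((4 - (b : L[X])) * C (D n) * (X + C n)) :=
    ((hs_X hD).add (hs_C n)).of rfl (by
      rcases hb with rfl | rfl <;> simp [jP, map_ofNat] <;> ring)
  have mo := fun (c : ℤ) (p q : ℕ) => ((hx.pow hD p).mul hD (hl.pow hD q)).nm hD c
  have h1 := ((hs_C n).mul hD (mo (3 * b) (4 - b) (b - 1))).cm hD hβ
  rcases hb with rfl | rfl
  · refine ⟨_, (h1.add (((((mo (-240) 6 1).add (mo (-2160) 5 2)).add (mo 432 4 3)).add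
      (mo (-80) 3 4)).cm hD hα)).of rfl ?_⟩
    simp [jP, rP, map_ofNat]
    ring
  · refine ⟨_, (h1.add (((((mo (-80) 4 3).add (mo 432 3 4)).add (mo (-2160) 2 5)).add
      (mo (-240) 1 6)).cm hD hα)).of rfl ?_⟩
    simp [jP, rP, map_ofNat]
    ring

end Zlog

open Polynomial in
theorem zlogS (h1 : ZpolyStmt) (h2 : NexStmt) : ZlogStmt := by
  intro b k L _ _ _ _ κ D s z n m m1 α β hb hX hn hz ⟨y, y1, Γ, hy, hE⟩
  obtain ⟨z0, dz, -, dn⟩ := h2 k L κ D s z hX
  have : CharZero L := charZero_of_injective_ringHom κ.injective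
  obtain ⟨α, rfl⟩ : ∃ a, α = 135 * a := ⟨α / 135, by field_simp⟩
  obtain ⟨β, rfl⟩ : ∃ a, β = 12 * a := ⟨β / 12, by field_simp⟩
  have d1 : 3 * z ^ 4 * D n = 3 * z ^ 3 * κ m1 - 2 * s * n * z := by
    have := congrArg D hz
    rw [hX.der, map_add, hX.der, hX.con, hX.con, hX.ds, dz] at this
    field_simp at this
    linear_combination z * this
  rw [map_zero, map_zero] at hE
  replace hE := hE.trans (congrArg (rP (4 - b) b n * ·) (Zlog.tz b _ (C (κ (135 * α)))
    (C (κ (12 * β))) (C (κ m)) (C (κ m1)) (C s) (C z) (C n) (C (D n)) X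
    (fun i => Zlog.map_a (C.comp κ) _ _ m m1 i) (by simpa using congrArg C hX.cub)
    (by simpa using congrArg C hz) (by simpa [map_ofNat] using congrArg C d1)))
  obtain ⟨w, w1, hw, e⟩ := Zlog.corr hX.der b hb n (κ α) (κ β) (hX.con α) (hX.con β)
  have key : Vp D (4 - b) b n (y + w) (y1 + w1) Γ
      = C (κ ((16 + 12 * b) * β) * D n) * rP (4 - b) b n := by
    have nz : C (9 * z ^ 9) * (X + C n) ^ 2 ≠ 0 :=
      mul_ne_zero (C_ne_zero.2 (mul_ne_zero (by norm_num) (pow_ne_zero _ z0)))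
        (pow_ne_zero _ (X_add_C_ne_zero n))
    refine mul_left_cancel₀ nz ?_
    have e2 : Vp D (4 - b) b n (y + w) (y1 + w1) Γ = Vp D (4 - b) b n y y1 Γ +
        (jP (4 - b) n * w1 - C (b * D n) * X * derivative w) := by
      rw [Vp, Vp, derivative_add]
      ring
    rw [e2, mul_add, hE, e]
    rcases hb with rfl | rfl <;> simp [rP, map_ofNat] <;> ring
  have h := (h1 k L κ D b n _ _ _ Γ hX.der hX.con hX.cst (dn m m1 n hn hz) hb
    (fun i => by rw [coeff_add, coeff_add, map_add, hy, hw]) key).1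
  have hb0 : (16 + 12 * b : k) ≠ 0 := by exact_mod_cast (by omega : 16 + 12 * b ≠ 0)
  rw [(mul_eq_zero.1 h).resolve_left hb0, mul_zero]

end Pool.Agent.MP_05b4bd_ag.XO
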