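import Pool.Agent.MP_05b4bd_ag.ex.Bas

/-! The zoom to the small disc is a ring map compatible with the two derivations. -/

namespace Pool.Agent.MP_05b4bd_ag.XO

open PowerSeries LaurentSeries HC
open ES hiding Gen Ob Inf
open RV (In)

namespace Zm

variable {L : Type} [Field L] {e : ℕ}

theorem mem (he : 1 ≤ e) : (X ^ e * C (wL L (-1)) : TT L) ∈ K3.JX L⸨X⸩ :=
  K3.mem_JX (Dvd.dvd.mul_right (dvd_pow_self X (by omega)) _)

theorem zC (he : 1 ≤ e) (c : L⟦X⟧) : zm e (C c) = map (cL L) c := ES.ev_C _ (mem he) c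

theorem zX (he : 1 ≤ e) : zm e (X : AA L) = X ^ e * C (wL L (-1)) := ES.ev_X _ (mem he)

theorem cc_zX (he : 1 ≤ e) : cc (zm e (X : AA L)) = 0 := by
  rw [zX he, map_mul, map_pow, constantCoeff_X, zero_pow (by omega), zero_mul]

theorem cc_zm (he : 1 ≤ e) (c : AA L) : cc (zm e c) = cL L (c00 c) := by
  obtain ⟨g, hg⟩ := eq_C_add_X_mul c
  conv_lhs => rw [hg]
  rw [map_add, map_mul, map_add, map_mul, cc_zX he, zero_mul, add_zero, zC he]
  rfl

theorem in_zm (he : 1 ≤ e) (c : AA L) : In (iX L).range (zm e c) := by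
  intro n
  obtain ⟨g, hg⟩ := exists_trunc c (n + 1)
  have h1 : ∀ r : L⟦X⟧, map (cL L) r ∈ (map (iX L).range.subtype).range := fun r =>
    (in_iff _ _).1 fun i => ⟨Polynomial.C (coeff i r), by simp [iX, coeff_map]⟩
  have h2 : (X : TT L) ∈ (map (iX L).range.subtype).range := ⟨X, map_X _⟩
  have h3 : (C (wL L (-1)) : TT L) ∈ (map (iX L).range.subtype).range :=
    ⟨C ⟨wL L (-1), Polynomial.X, by simp [iX]⟩, by rw [map_C]; rfl⟩
  have h4 : zm e (∑ i ∈ Finset.range (n + 1), C (coeff i c) * X ^ i) ∈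
      (map (iX L).range.subtype).range := by
    rw [map_sum]
    refine sum_mem fun i _ => ?_
    rw [map_mul, map_pow, zC he, zX he]
    exact mul_mem (h1 _) (pow_mem (mul_mem (pow_mem h2 _) h3) _)
  have h5 : (X : TT L) ^ (n + 1) ∣ zm e (X ^ (n + 1) * g) := by
    rw [map_mul, map_pow]
    exact Dvd.dvd.mul_right (pow_dvd_pow_of_dvd (X_dvd_iff.2 (cc_zX he)) _) _
  rw [hg, map_add, map_add, X_pow_dvd_iff.1 h5 n (by omega), add_zero]
  exact (in_iff _ _).2 h4 n

theorem cwD (he : 1 ≤ e) {D : L →+ L} (hD : IsDer D) (c : AA L) :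
    cw (cwL D) (zm e c) = zm e (cw (cw D) c) := by
  have h := hom_chain (K3.JX L⸨X⸩) (g := zm e) (by rw [zX he]; exact mem he)
    hD.coefL.coefw hD.coefw (a := 1) (fun r => by
      rw [zC he, zC he, one_mul]
      exact cw_map' (fun a => cwL_cL D a) r) c
  rw [h, zX he, cw_X_pow_mul, cw_C, cwL_wL hD.one, map_zero, mul_zero, mul_zero, add_zero,
    one_mul]

theorem cwT (he : 1 ≤ e) (c : AA L) : cw (thL L) (zm e c) = -zm e (X * dX _ c) := by
  have h := hom_chain (K3.JX L⸨X⸩) (g := zm e) (by rw [zX he]; exact mem he)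
    (isDer_thL (R := L)).coefw (L := 0) (fun a b => by simp) (a := 0) (fun r => by
      rw [zC he, zero_mul]
      ext1 n
      rw [coeff_cw, coeff_map, thL_cL, map_zero]) c
  rw [h, map_mul, zX he, cw_X_pow_mul, cw_C, thL_wL, zero_mul, zero_add]
  simp only [Int.reduceNeg, Int.cast_neg, Int.cast_one, neg_mul, one_mul, map_neg]
  ring

theorem lead (he : 1 ≤ e) (c : AA L) (h : X ^ e ∣ cc c) : ∃ c', zm e c = X ^ e * c' ∧
    cc c' = cL L (coeff e (cc c)) + cL L (co2 0 1 c) * wL L (-1) := by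
  obtain ⟨g, hg⟩ := eq_C_add_X_mul c
  obtain ⟨u, hu⟩ := h
  refine ⟨map (cL L) u + C (wL L (-1)) * zm e g, ?_, ?_⟩
  · conv_lhs => rw [hg]
    rw [map_add, map_mul, zC he, zX he, hu, map_mul, map_pow, map_X]
    ring
  · have e1 : coeff e (cc c) = cc u := by
      rw [hu, coeff_X_pow_mul', if_pos le_rfl, Nat.sub_self, coeff_zero_eq_constantCoeff_apply]
    have e2 : co2 0 1 c = c00 g := by
      have : coeff 1 c = cc g := by
        conv_lhs => rw [hg]
        rw [map_add, coeff_C, if_neg one_ne_zero, zero_add, coeff_succ_X_mul,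
          coeff_zero_eq_constantCoeff_apply]
      rw [co2, this, coeff_zero_eq_constantCoeff_apply]
      rfl
    rw [map_add, map_mul, constantCoeff_C, cc_zm he, e1, e2, mul_comm]
    rfl

theorem subst (he : 1 ≤ e) (ρ B : AA L) (r : TT L) (m N : ℕ) (hm : 1 ≤ m) (hρ : cc ρ = 0)
    (hB : cc B = 0) (h : zm e ρ = X ^ m * r) : ∃ (P : Polynomial L⟦X⟧) (g : TT L),
      zm e (sb ρ B) = X ^ m * (P.eval₂ (map (cL L)) r + X ^ N * g) := by
  obtain ⟨B', rfl⟩ := X_dvd_iff.2 hB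
  obtain ⟨g, hg⟩ := exists_trunc B' N
  obtain ⟨m, rfl⟩ : ∃ m', m = m' + 1 := ⟨m - 1, by omega⟩
  refine ⟨Polynomial.X * ∑ i ∈ Finset.range N,
    Polynomial.C (coeff i B' * X ^ ((m + 1) * i)) * Polynomial.X ^ i,
    r * (X ^ m * r) ^ N * zm e (sb ρ g), ?_⟩
  have e1 : zm e (sb ρ (∑ i ∈ Finset.range N, C (coeff i B') * X ^ i)) =
      (∑ i ∈ Finset.range N, Polynomial.C (coeff i B' * X ^ ((m + 1) * i)) *
        Polynomial.X ^ i).eval₂ (map (cL L)) r := by
    rw [map_sum, map_sum, Polynomial.eval₂_finsetSum]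
    refine Finset.sum_congr rfl fun i _ => ?_
    rw [map_mul, map_pow, sb_C hρ, sb_X hρ, map_mul, map_pow, zC he, h, Polynomial.eval₂_mul,
      Polynomial.eval₂_C, Polynomial.eval₂_X_pow, map_mul, map_pow, map_X]
    ring
  rw [map_mul, map_mul, sb_X hρ, h, Polynomial.eval₂_mul, Polynomial.eval₂_X, ← e1]
  conv_lhs => rw [hg]
  rw [map_add, map_add, map_mul, map_mul, map_pow, map_pow, sb_X hρ, h]
  ring

end Zm

theorem zmS : ZmStmt := fun _ _ _ _ he hD =>
  ⟨Zm.zC he, Zm.zX he, Zm.in_zm he, Zm.cc_zm he, Zm.cwD he hD, Zm.cwT he, Zm.lead he,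
    Zm.subst he⟩

end Pool.Agent.MP_05b4bd_ag.XO
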