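import Pool.Agent.MP_05b4bd_ag.ex.Bas

/-! The step in the small disc, and the scaled parameters. -/

namespace Pool.Agent.MP_05b4bd_ag.XO

open PowerSeries LaurentSeries HC
open ES hiding Gen Ob Inf

namespace Zmain

variable {k : Type} [Field k]

theorem succ_dvd {j : ℕ} {f : k⟦X⟧} (h : X ^ j ∣ f) (h0 : coeff j f = 0) : X ^ (j + 1) ∣ f := by
  rw [X_pow_dvd_iff] at h ⊢
  intro m hm
  rcases Nat.lt_succ_iff_lt_or_eq.1 hm with a | rfl
  · exact h m a
  · exact h0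

theorem coeff_q4 (j : ℕ) (a : Fin 5 → k⟦X⟧) (p : k) :
    coeff j (q4 a 1 (C p)) = q4 (fun i => coeff j (a i)) 1 p := by
  simp only [q4, one_pow, mul_one, ← map_pow, map_add, coeff_mul_C]

theorem q4_sub {A : Type} [CommRing A] (a b : Fin 5 → A) (r u v : A) :
    q4 (fun i => a i - r * b i) u v = q4 a u v - r * q4 b u v := by
  simp only [q4]
  ring

theorem q4_mul {A : Type} [CommRing A] (b : Fin 5 → A) (r u v : A) :
    q4 (fun i => r * b i) u v = r * q4 b u v := by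
  simp only [q4]
  ring

theorem coeff_e (e : ℕ) (f : k⟦X⟧) : coeff e (X ^ e * f) = cc f := by
  have := coeff_X_pow_mul f e 0
  rwa [zero_add, coeff_zero_eq_constantCoeff_apply] at this

end Zmain

open Zmain

theorem zmainS (h1 : ZvarStmt) (h2 : ZslStmt) (h3 : ZlinStmt) (h4 : ZlogStmt) : ZmainStmt := by
  intro b M k L _ _ _ _ κ D s z n u c p0 x y ax a' vb p z' zi ρ e j hX hZ hS he hSc hSp hax hp hq
    hj hZl hOl
  have E := h1 b M k L κ D s z n u c x y ax a' vb p z' zi ρ e j hX hZ hS he hSc hSp hax hj hZl hOl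
  obtain ⟨x1, x2, hz⟩ := h2 b k L κ D s z n _ _ _ _ _ _ _ M.hb hX hZ.nz E
  have hm : cc y.m ≠ 0 ∨ 52 * cc y.n ≠ 0 := by
    by_contra h
    push Not at h
    exact hp (by rw [h.1, h.2, zero_mul, add_zero])
  obtain ⟨hs, hθ, α, β, ha⟩ := h3 b k _ _ _ _ _ hm hz
  rw [x1, x2, hs, hθ, funext ha] at E
  have hβ := h4 b k L κ D s z n _ _ α β M.hb hX hZ.n0 hZ.nz E
  have ha' : (fun i => coeff j (a' i)) = fun i => α * m4 (cc y.m) (52 * cc y.n) i :=
    funext fun i => by rw [ha i, hβ, zero_mul, add_zero]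
  have hα : α = 0 := by
    have := coeff_q4 j a' p0
    rw [hq, map_zero, ha', q4_mul, q4_m4, mul_one] at this
    exact (mul_eq_zero.1 this.symm).resolve_right (pow_ne_zero _ hp)
  obtain ⟨z1, z2, z3, z4, z5⟩ := hZl
  refine ⟨succ_dvd z1 x1, succ_dvd z2 x2, succ_dvd z3 hs, fun i => succ_dvd (z4 i) ?_,
    succ_dvd z5 ((mul_eq_zero.1 hθ).resolve_left (by norm_num))⟩
  rw [congrFun ha' i, hα, zero_mul]

theorem splS : SplStmt := by
  intro k _ _ c x e hS hm hn hs hq hne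
  obtain ⟨m, hm⟩ := hm
  obtain ⟨n, hn⟩ := hn
  obtain ⟨s2, hs⟩ := hs
  choose q hq using hq
  have em : cc m = coeff e x.m := by rw [hm, coeff_e]
  have en : cc n = coeff e x.n := by rw [hn, coeff_e]
  obtain ⟨p0, hp⟩ : ∃ p0 : k, cc m + 52 * cc n * p0 ≠ 0 := by
    by_cases h : cc m = 0
    · refine ⟨1, ?_⟩
      rw [h, zero_add, mul_one]
      exact mul_ne_zero (by norm_num) (en ▸ hne.resolve_left fun a => a (em ▸ h))
    · exact ⟨0, by rwa [mul_zero, add_zero]⟩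
  have hu : cc (45 * (m * 1 + 52 * n * C p0) ^ 4) ≠ 0 := by
    simp only [map_mul, map_pow, map_add, map_ofNat, constantCoeff_C, mul_one]
    exact mul_ne_zero (by norm_num) (pow_ne_zero _ hp)
  obtain ⟨w, hw⟩ : ∃ w, 45 * (m * 1 + 52 * n * C p0) ^ 4 * w = 1 :=
    ⟨_, PowerSeries.mul_inv_cancel _ hu⟩
  have hx : (X : k⟦X⟧) ∣ q4 (fun i => X * q i) 1 (C p0) * w := by
    rw [q4_mul, mul_assoc]
    exact dvd_mul_right _ _
  refine ⟨⟨(X ^ e) ^ 2 * x.c, x.μ, m, n, X ^ e * x.κ, (X ^ e) ^ 2 * x.g, x.ν, X ^ e * x.s0, X * s2,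
      fun i => X * q i⟩, q4 (fun i => X * q i) 1 (C p0) * w,
    fun i => X * q i - 45 * (q4 (fun i => X * q i) 1 (C p0) * w) * m4 m (52 * n) i, p0,
    ⟨rfl, rfl, hm, hn, rfl, rfl, rfl, rfl, ?_, fun i => ?_⟩, fun i => (sub_add_cancel _ _).symm,
    hx, hp, ?_, ?_, ?_, em, en⟩
  · rw [hs, pow_succ, mul_assoc]
  · rw [hq i, pow_succ, mul_assoc]
  · rw [q4_sub, q4_m4]
    linear_combination (-q4 (fun i => X * q i) 1 (C p0)) * hw
  · simp only [Zl, pow_one]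
    exact ⟨hx.mul_left _, hx.mul_left _, dvd_mul_right _ _,
      fun i => dvd_sub (dvd_mul_right _ _) ((hx.mul_left _).mul_right _),
      (hS.μ.mul_right _).mul_right _⟩
  · simp only [Ol, pow_one]
    exact ⟨hS.μ.mul_right _, hS.μ.mul_right _, hS.ν, hS.s0⟩

end Pool.Agent.MP_05b4bd_ag.XO
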