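import Pool.Agent.MP_05b4bd_ag.ex.Bas

/-! Polynomial solutions of the limit equation in the small disc. -/

namespace Pool.Agent.MP_05b4bd_ag.XO

open Polynomial
open ES (IsDer Cst)

namespace Zpoly

variable {k L : Type} [Field k] [Field L] {κ : k →+* L} {D : L →+ L} {a b : ℕ} {n : L}

theorem dp_aux (D : L →+ L) (y : L[X]) (j : ℕ) :
    (y.sum fun i c => monomial i (D c)).coeff j = D (y.coeff j) := by
  rw [coeff_sum, sum_def]
  simp only [coeff_monomial, Finset.sum_ite_eq']
  split_ifs with h
  · rfl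
  · rw [notMem_support_iff.1 h, map_zero]

/-- the derivation applied to all coefficients -/
noncomputable def dp (D : L →+ L) : L[X] →+ L[X] :=
  AddMonoidHom.mk' (fun y => y.sum fun i c => monomial i (D c)) fun y z => by
    ext j
    rw [coeff_add, dp_aux, dp_aux, dp_aux, coeff_add, map_add]

theorem dp_coeff (y : L[X]) (j : ℕ) : (dp D y).coeff j = D (y.coeff j) := dp_aux D y j

theorem dp_der (h : IsDer D) : IsDer (dp D) := fun y z => by
  ext j
  rw [coeff_add, dp_coeff, coeff_mul, coeff_mul, coeff_mul, map_sum, ← Finset.sum_add_distrib]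
  exact Finset.sum_congr rfl fun p _ => by rw [h, dp_coeff, dp_coeff]

theorem dp_C (c : L) : dp D (C c) = C (D c) := by
  ext j
  rw [dp_coeff, coeff_C, coeff_C]
  split_ifs
  · rfl
  · exact map_zero D

theorem dp_X (h : IsDer D) : dp D X = 0 := by
  ext j
  rw [dp_coeff, coeff_X, coeff_zero]
  split_ifs
  · exact h.one
  · exact map_zero D

/-- the limit field -/
noncomputable def tp (D : L →+ L) (a b : ℕ) (n : L) : L[X] →+ L[X] :=
  AddMonoidHom.mk' (fun y => jP a n * dp D y - C (b * D n) * X * derivative y) fun y z => by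
    rw [map_add, map_add]
    ring

theorem tp_apply (y : L[X]) :
    tp D a b n y = jP a n * dp D y - C (b * D n) * X * derivative y := rfl

theorem tp_der (h : IsDer D) : IsDer (tp D a b n) := fun y z => by
  rw [tp_apply, tp_apply, tp_apply, dp_der h, derivative_mul]
  ring

theorem tp_C (c : L) : tp D a b n (C c) = jP a n * C (D c) := by
  rw [tp_apply, dp_C, derivative_C, mul_zero, sub_zero]

theorem tp_X (h : IsDer D) : tp D a b n X = -(C (b * D n) * X) := by
  rw [tp_apply, dp_X h, derivative_X, mul_zero, zero_sub, mul_one]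

theorem tp_mon (h : IsDer D) (c : L) (m : ℕ) : tp D a b n (C c * X ^ m) =
    C (4 * D c) * X ^ (m + 1) + C (a * n * D c - m * (b * D n) * c) * X ^ m := by
  have e : tp D a b n (X ^ m) = -(C (m * (b * D n)) * X ^ m) := by
    induction m with
    | zero => simpa using (tp_der h).one
    | succ m ih =>
      rw [pow_succ, tp_der h, ih, tp_X h]
      simp only [Nat.cast_add, Nat.cast_one, map_mul, map_add, map_one]
      ring
  rw [tp_der h, tp_C, e, jP]
  simp only [map_mul, map_sub, map_ofNat]
  ring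

theorem tp_coeff (y : L[X]) (j : ℕ) (h : y.coeff (j + 1) = 0) :
    (tp D a b n y).coeff (j + 1) = 4 * D (y.coeff j) := by
  rw [tp_apply, jP, add_mul, ← map_ofNat C 4, mul_assoc, mul_assoc, coeff_sub, coeff_add,
    coeff_C_mul, coeff_C_mul, coeff_C_mul, coeff_X_mul, coeff_X_mul, coeff_derivative, dp_coeff,
    dp_coeff, h, map_zero]
  ring

theorem tp_R (h : IsDer D) (hb : b = 1 ∨ b = 3) : tp D (4 - b) b n (rP (4 - b) b n) = 0 := by
  rw [rP, tp_der h, (tp_der h).pow, (tp_der h).pow, map_add, tp_X h, tp_C, jP]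
  rcases hb with rfl | rfl <;> simp only [map_mul, map_natCast] <;> norm_num <;> ring

theorem R_monic : (rP a b n).Monic := (monic_X_pow a).mul ((monic_X_add_C n).pow b)

theorem R_deg : (rP a b n).natDegree = a + b := by
  rw [rP, (monic_X_pow a).natDegree_mul ((monic_X_add_C n).pow b), natDegree_X_pow, natDegree_pow,
    natDegree_X_add_C, mul_one]

variable [CharZero k]

/-- an element that is not a constant is transcendental over the constants -/
theorem trans (h : IsDer D) (h0 : ∀ c, D (κ c) = 0) (hn : D n ≠ 0) (p : k[X])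
    (hp : eval₂ κ n p = 0) : p = 0 := by
  have e : ∀ q : k[X], D (eval₂ κ n q) = eval₂ κ n (derivative q) * D n := fun q => by
    induction q using Polynomial.induction_on' with
    | add p q hp hq => rw [eval₂_add, map_add, map_add, eval₂_add, hp, hq, add_mul]
    | monomial i c =>
      rw [derivative_monomial, eval₂_monomial, eval₂_monomial, h.const_mul (h0 c), h.pow, map_mul,
        map_natCast]
      ring
  induction hd : p.natDegree using Nat.strong_induction_on generalizing p with
  | _ d ih =>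
    by_cases hz : p.natDegree = 0
    · rw [eq_C_of_natDegree_eq_zero hz] at hp ⊢
      rw [eval₂_C, map_eq_zero] at hp
      rw [hp, map_zero]
    · have h1 := e p
      rw [hp, map_zero] at h1
      exact absurd (derivative_eq_zero.1 (ih _ (hd ▸ natDegree_derivative_lt hz)
        _ ((mul_eq_zero.1 h1.symm).resolve_right hn) rfl)) hz

/-- the polynomial part of a fractional power of the first integral -/
theorem faber (h : IsDer D) (h0 : ∀ c, D (κ c) = 0) (hab : a + b = 4) (hb : b = 1 ∨ b = 3)
    (m : ℕ) : ∀ (i : ℕ) (c : k), ∃ (y : L[X]) (e : k), y.coeff m = κ c * n ^ i ∧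
      (∀ j, m < j → y.coeff j = 0) ∧ (c = 0 → y = 0) ∧ (¬4 ∣ m + i → e = 0 → c = 0) ∧
      tp D a b n y = C (4 * D (κ c * n ^ i)) * X ^ (m + 1) + C (κ e * n ^ (m + i) * D n) := by
  have : CharZero L := (RingHom.charZero_iff κ.injective).1 inferInstance
  have e1 : ∀ (i : ℕ) (c : k), n * D (κ c * n ^ i) = i * (κ c * n ^ i) * D n := fun i c => by
    rw [h.const_mul (h0 c), h.pow]
    rcases i with _ | i
    · simp
    · rw [Nat.add_sub_cancel]; ring
  induction m with
  | zero =>
    intro i c
    refine ⟨C (κ c * n ^ i) * X ^ 0, a * i * c, by rw [coeff_C_mul_X_pow, if_pos rfl],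
      fun j hj => ?_, fun hc => by simp [hc], fun hi he => ?_, ?_⟩
    · rw [coeff_C_mul_X_pow, if_neg hj.ne']
    · have ha : (a : k) ≠ 0 := Nat.cast_ne_zero.2 (by omega)
      have hi' : (i : k) ≠ 0 := Nat.cast_ne_zero.2 (by omega)
      exact (mul_eq_zero.1 he).resolve_left (mul_ne_zero ha hi')
    · rw [tp_mon h, pow_zero, mul_one, mul_assoc (a : L), e1]
      congr 2
      simp only [map_mul, map_natCast, Nat.cast_zero, zero_add]
      ring
  | succ m ih =>
    intro i c
    have hi : (4 * (i + 1) : k) ≠ 0 := mul_ne_zero (by norm_num) (Nat.cast_add_one_ne_zero i)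
    obtain ⟨c', hc'⟩ : ∃ c' : k, 4 * (i + 1) * c' = (b * (m + 1) - a * i) * c :=
      ⟨_, mul_div_cancel₀ _ hi⟩
    obtain ⟨y, e, -, y2, y3, y4, y5⟩ := ih (i + 1) c'
    refine ⟨C (κ c * n ^ i) * X ^ (m + 1) + y, e, ?_, fun j hj => ?_, fun hc => ?_,
      fun hd he => ?_, ?_⟩
    · rw [coeff_add, coeff_C_mul_X_pow, if_pos rfl, y2 _ m.lt_succ_self, add_zero]
    · rw [coeff_add, coeff_C_mul_X_pow, if_neg hj.ne', y2 _ (by omega), add_zero]
    · rw [hc, mul_zero] at hc'
      rw [y3 ((mul_eq_zero.1 hc').resolve_left hi), hc]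
      simp
    · rw [y4 (by omega) he, mul_zero] at hc'
      refine (mul_eq_zero.1 hc'.symm).resolve_left fun c0 => hd ?_
      have : b * (m + 1) = a * i := by exact_mod_cast sub_eq_zero.1 c0
      rcases hb with rfl | rfl
      · obtain rfl : a = 3 := by omega
        omega
      · obtain rfl : a = 1 := by omega
        omega
    · have e2 : (a : L) * n * D (κ c * n ^ i) - (m + 1 : ℕ) * (b * D n) * (κ c * n ^ i) =
          -(4 * D (κ c' * n ^ (i + 1))) := by
        have := congrArg κ hc'
        simp only [map_mul, map_add, map_sub, map_natCast, map_one, map_ofNat] at this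
        rw [mul_assoc (a : L), e1, h.const_mul (h0 c'), h.pow, Nat.add_sub_cancel]
        push_cast
        linear_combination (n ^ i * D n) * this
      rw [map_add, tp_mon h, y5, e2, map_neg, show m + (i + 1) = m + 1 + i by ring]
      ring

theorem main (h : IsDer D) (h0 : ∀ c, D (κ c) = 0) (hc : Cst κ D) (hab : a + b = 4)
    (hb : b = 1 ∨ b = 3) (hR : tp D a b n (rP a b n) = 0) (N : ℕ) : ∀ (y Γ : L[X]) (e : L),
      (∀ j, N ≤ j → y.coeff j = 0) → tp D a b n y = jP a n * Γ.comp (rP a b n) + C e →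
      ∃ p : k[X], (∀ j, N ≤ j ∨ 4 ∣ j → p.coeff j = 0) ∧ e = eval₂ κ n p * D n ∧
        (p = 0 → ∃ G : L[X], y = G.comp (rP a b n)) := by
  have : CharZero L := (RingHom.charZero_iff κ.injective).1 inferInstance
  have hj : (jP a n).natDegree = 1 := by
    rw [jP, ← map_ofNat C 4]
    exact natDegree_linear (by norm_num)
  induction N with
  | zero =>
    intro y Γ e hy he
    have y0 : y = 0 := ext fun j => hy j j.zero_le
    refine ⟨0, fun j _ => rfl, ?_, fun _ => ⟨0, by rw [y0, zero_comp]⟩⟩
    have := congrArg (eval (-(a * n) / 4)) he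
    rw [y0, map_zero, eval_zero, eval_add, eval_mul, eval_C, jP, eval_add, eval_mul, eval_C, eval_X,
      eval_ofNat, mul_div_cancel₀ _ (by norm_num), neg_add_cancel, zero_mul, zero_add] at this
    rw [← this, eval₂_zero, zero_mul]
  | succ N ih =>
    intro y Γ e hy he
    by_cases h4 : 4 ∣ N
    · obtain ⟨g, rfl⟩ := h4
      have m1 : (rP a b n ^ g).Monic := R_monic.pow g
      have m2 : (rP a b n ^ g).natDegree = 4 * g := by rw [natDegree_pow, R_deg, hab, mul_comm]
      obtain ⟨p, p1, p2, p3⟩ := ih (y - C (y.coeff (4 * g)) * rP a b n ^ g)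
        (Γ - C (D (y.coeff (4 * g))) * X ^ g) e (fun j hj => by
          rw [coeff_sub, coeff_C_mul]
          rcases hj.eq_or_lt with rfl | hj
          · rw [← m2, m1.coeff_natDegree, mul_one, sub_self]
          · rw [hy j hj, coeff_eq_zero_of_natDegree_lt (m2.trans_lt hj), mul_zero, sub_zero]) (by
          rw [map_sub, he, tp_der h, tp_C, (tp_der h).pow, hR, sub_comp, mul_comp, C_comp, pow_comp,
            X_comp]
          ring)
      refine ⟨p, fun j hj => p1 j (hj.imp_left Nat.le_of_succ_le), p2, fun p0 => ?_⟩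
      obtain ⟨G, hG⟩ := p3 p0
      refine ⟨G + C (y.coeff (4 * g)) * X ^ g, ?_⟩
      rw [add_comp, mul_comp, C_comp, pow_comp, X_comp, ← hG, sub_add_cancel]
    · have d0 : D (y.coeff N) = 0 := by
        by_contra d0
        have e1 : ∀ j, N ≤ j → (jP a n * Γ.comp (rP a b n)).coeff (j + 1) = 4 * D (y.coeff j) :=
          fun j hj => by
            rw [← tp_coeff (a := a) (b := b) (n := n) y j (hy _ (by omega)), he, coeff_add,
              coeff_C_succ, add_zero]
        have e2 : (jP a n * Γ.comp (rP a b n)).coeff (N + 1) ≠ 0 := by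
          rw [e1 N le_rfl]
          exact mul_ne_zero (by norm_num) d0
        have e3 := natDegree_eq_of_le_of_coeff_ne_zero (natDegree_le_iff_coeff_eq_zero.2
          fun j hj => by
            obtain ⟨j, rfl⟩ : ∃ i, j = i + 1 := ⟨j - 1, by omega⟩
            rw [e1 j (by omega), hy j (by omega), map_zero, mul_zero]) e2
        have e4 : jP a n * Γ.comp (rP a b n) ≠ 0 := fun c => e2 (by rw [c, coeff_zero])
        rw [natDegree_mul (left_ne_zero_of_mul e4) (right_ne_zero_of_mul e4), hj, natDegree_comp,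
          R_deg, hab] at e3
        omega
      obtain ⟨r, hr⟩ := hc _ d0
      obtain ⟨z, ε, z1, z2, z3, z4, z5⟩ := faber (n := n) h h0 hab hb N 0 r
      rw [pow_zero, mul_one] at z1 z5
      rw [h0, mul_zero, map_zero, zero_mul, zero_add, add_zero] at z5
      obtain ⟨p, p1, p2, p3⟩ := ih (y - z) Γ (e - κ ε * n ^ N * D n) (fun j hj => by
          rw [coeff_sub]
          rcases hj.eq_or_lt with rfl | hj
          · rw [z1, hr, sub_self]
          · rw [hy j hj, z2 j hj, sub_zero]) (by rw [map_sub, he, z5, map_sub]; ring)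
      refine ⟨p + monomial N ε, fun j hj => ?_, ?_, fun p0 => ?_⟩
      · rw [coeff_add, p1 j (hj.imp_left Nat.le_of_succ_le), coeff_monomial, if_neg, add_zero]
        rintro rfl
        omega
      · rw [eval₂_add, eval₂_monomial, add_mul, ← p2, sub_add_cancel]
      · have := congrArg (coeff · N) p0
        simp only [coeff_add, p1 N (Or.inl le_rfl), coeff_monomial_same, zero_add,
          coeff_zero] at this
        rw [this, map_zero, add_zero] at p0
        rw [z3 (z4 h4 this), sub_zero] at p3
        exact p3 p0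

end Zpoly

open Zpoly in
theorem zpolyS : ZpolyStmt := by
  intro k L _ _ _ κ D b n β y y1 Γ h h0 hc hn hb hy he
  have hab : 4 - b + b = 4 := by omega
  have M := fun y Γ e => main (n := n) h h0 hc hab hb (tp_R h hb) (y.natDegree + 1) y Γ e
    fun j hj => coeff_eq_zero_of_natDegree_lt hj
  have e1 : tp D (4 - b) b n y =
      jP (4 - b) n * Γ.comp (rP (4 - b) b n) + C (κ β * D n) * rP (4 - b) b n := by
    rw [← he, Vp, tp_apply, show dp D y = y1 from ext fun j => by rw [dp_coeff, hy j]]
    ring
  have b0 : β = 0 := by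
    obtain ⟨y0, γ, e0⟩ : ∃ (y0 : L[X]) (γ : L), tp D (4 - b) b n y0 =
        24 * C (D n) * rP (4 - b) b n - jP (4 - b) n * C γ + C (6 * n ^ 4 * D n) := by
      have d := fun (c : ℕ) (i : ℕ) => (h.const_mul (h.natCast c) (n ^ i)).trans
        (congrArg _ (h.pow n i))
      rcases hb with rfl | rfl
      · refine ⟨C ((6 : ℕ) * n ^ 1) * X ^ 3 + C ((3 : ℕ) * n ^ 2) * X ^ 2 -
          C ((1 : ℕ) * n ^ 3) * X ^ 1, 2 * n ^ 3 * D n, ?_⟩
        rw [map_sub, map_add, tp_mon h, tp_mon h, tp_mon h, d, d, d, rP, jP]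
        simp only [map_mul, map_sub, map_pow, map_natCast, map_ofNat]
        norm_num
        ring
      · refine ⟨C ((6 : ℕ) * n ^ 1) * X ^ 3 + C ((15 : ℕ) * n ^ 2) * X ^ 2 +
          C ((11 : ℕ) * n ^ 3) * X ^ 1, 6 * n ^ 3 * D n, ?_⟩
        rw [map_add, map_add, tp_mon h, tp_mon h, tp_mon h, d, d, d, rP, jP]
        simp only [map_mul, map_sub, map_pow, map_natCast, map_ofNat]
        norm_num
        ring
    obtain ⟨p, p1, p2, -⟩ := M (C (κ 24) * y - C (κ β) * y0) (24 * Γ + C (κ β * γ))
      (-(κ β * (6 * n ^ 4 * D n))) (by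
        rw [map_sub, tp_der h, tp_der h, tp_C, tp_C, h0, h0, e1, e0, add_comp, mul_comp, C_comp,
          ofNat_comp]
        simp only [map_mul, map_neg, map_zero, map_ofNat, Nat.cast_ofNat]
        ring)
    have e2 := trans h h0 hn (p + monomial 4 (6 * β)) (mul_right_cancel₀ hn (by
      rw [eval₂_add, eval₂_monomial, add_mul, ← p2, map_mul, map_ofNat]
      ring))
    have := congrArg (coeff · 4) e2
    simpa [p1 4 (Or.inr dvd_rfl)] using this
  refine ⟨b0, ?_⟩
  obtain ⟨p, -, p2, p3⟩ := M y Γ 0 (by rw [e1, b0]; simp)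
  exact p3 (trans h h0 hn p ((mul_eq_zero.1 p2.symm).resolve_right hn))

end Pool.Agent.MP_05b4bd_ag.XO
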