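import Pool.Agent.MP_05b4bd_ag.ex.Bas

/-! The data in the small disc. -/

namespace Pool.Agent.MP_05b4bd_ag.XO

open PowerSeries LaurentSeries HC
open ES hiding Gen Ob Inf
open ES.U (TM Cr hom)
open PC3 (Fm fm d1 DF sub2 pb mapF Van CenK)
open RV (fa fb Frm Good Rho Fac Dk In Cg ExoK SymK RRc Ob NoF)

namespace Zset

variable {k L : Type} [Field k] [Field L]

theorem four (w : Fm k⟦X⟧) : ((4 : R2 k⟦X⟧) • w).1 = MvPolynomial.C 4 * w.1 ∧
    ((4 : R2 k⟦X⟧) • w).2 = MvPolynomial.C 4 * w.2 := by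
  rw [map_ofNat]
  exact ⟨rfl, rfl⟩

theorem fa4 (κ : k →+* L) (w : Fm k⟦X⟧) (x y : AA L) :
    fa κ 3 ((4 : R2 k⟦X⟧) • w).1 ((4 : R2 k⟦X⟧) • w).2 x y = 4 * fa κ 3 w.1 w.2 x y := by
  rw [(four w).1, (four w).2]
  simp only [fa, aF, hev_C_mul]
  rw [map_ofNat]
  ring

theorem fb4 (κ : k →+* L) (D : L →+ L) (w : Fm k⟦X⟧) (x y : AA L) :
    fb κ D 3 ((4 : R2 k⟦X⟧) • w).1 ((4 : R2 k⟦X⟧) • w).2 x y = 4 * fb κ D 3 w.1 w.2 x y := by
  rw [(four w).1, (four w).2]
  simp only [fb, bF, hev_C_mul]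
  rw [map_ofNat]
  ring

theorem sc_map {A B : Type} [CommRing A] [CommRing B] (φ : A →+* B) {τ : A} {x y : Pa A}
    (h : Sc τ x y) : Sc (φ τ) (x.map φ) (y.map φ) where
  c := by simp only [Pa.map, h.c, map_mul, map_pow]
  μ := congrArg φ h.μ
  m := (congrArg φ h.m).trans (map_mul _ _ _)
  n := (congrArg φ h.n).trans (map_mul _ _ _)
  κ := (congrArg φ h.κ).trans (map_mul _ _ _)
  g := by simp only [Pa.map, h.g, map_mul, map_pow]
  ν := congrArg φ h.ν
  s0 := (congrArg φ h.s0).trans (map_mul _ _ _)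
  s2 := (congrArg φ h.s2).trans (map_mul _ _ _)
  q i := (congrArg φ (h.q i)).trans (map_mul _ _ _)

theorem iX_C (r : L) : iX L (Polynomial.C r) = cL L r := Polynomial.eval₂_C _ _

theorem iX_X : iX L Polynomial.X = wL L (-1) := Polynomial.eval₂_X _ _

theorem in_w : In (iX L).range (C (wL L (-1)) : TT L) := fun n => by
  rw [coeff_C]
  split_ifs
  · exact ⟨_, iX_X⟩
  · exact zero_mem _

theorem jP_ne [CharZero L] (a : ℕ) (n : L) : iX L (jP a n) ≠ 0 := fun h => by
  have := congrArg (Polynomial.coeff · 1) (iX_inj (h.trans (map_zero _).symm))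
  simp [jP] at this

theorem VT_pow (D : L →+ L) (vb r : TT L) (m : ℕ) :
    VT D vb (X ^ m * r) = X ^ m * VT D vb r := by
  rw [VT, VT, cw_X_pow_mul, cw_X_pow_mul]
  ring

end Zset

open Zset in
theorem zsetS (h1 : ZmStmt) (h2 : DictStmt) (h3 : OmStmt) : ZsetStmt := by
  intro b M k L _ _ _ κ D s z c x y p ζ ζi w ρ B u w1 e hX hC hw ra rb hρ hF hd hS hn
  have : CharZero L := charZero_of_injective_ringHom κ.injective
  have : CharZero L⸨X⸩ := K3.charL
  obtain ⟨zC, zX, zIn, zcc, zD, zth, zdiv, zsb⟩ := h1 L D e hd.e1 hX.der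
  obtain ⟨a1, ea, ca1⟩ := zdiv _ hd.da
  obtain ⟨b1, eb, cb1⟩ := zdiv _ hd.db
  obtain ⟨w2, ew, cw2⟩ := hd.ord.fac
  have hb4 : 4 - b + b = 4 := by rcases M.hb with h | h <;> omega
  have te : ∀ m : ℕ, (X : TT L) ^ m ≠ 0 := fun m => pow_ne_zero _ X_ne_zero
  have c1 : co2 0 1 (ca κ w p ζi) = -3 := by
    have := congrArg (coeff 1) ra
    rw [coeff_red, ← coeff_zero_eq_constantCoeff_apply] at this
    refine this.trans ?_
    rw [← map_natCast (C : L →+* L⟦X⟧), map_neg, coeff_C_mul, coeff_one_X]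
    norm_num
  have c2 : co2 0 1 (cb κ D w p ζi) = 0 := by
    have := congrArg (coeff 1) rb
    rw [coeff_red, ← coeff_zero_eq_constantCoeff_apply] at this
    exact this
  have ja : 4 * cc a1 = -3 * iX L (jP (4 - b) (-coeff e w1)) := by
    have := congrArg (cL L) hd.ea
    simp only [map_mul, map_ofNat] at this
    simp only [ca1, c1, jP, map_add, map_mul, map_ofNat, iX_C, iX_X, map_neg]
    linear_combination this
  have jb : 4 * cc b1 = -3 * cL L (b * D (-coeff e w1)) := by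
    have := congrArg (cL L) hd.eb
    simp only [map_mul, map_ofNat] at this
    simp only [cb1, c2, map_zero, map_mul, map_neg]
    linear_combination this
  have a0 : cc a1 ≠ 0 := fun h => jP_ne (4 - b) (-coeff e w1) (by
    rw [h] at ja
    linear_combination (1 / 3 : L⸨X⸩) * ja)
  obtain ⟨ai, hai⟩ := (isUnit_iff_constantCoeff.2 (Ne.isUnit a0)).exists_right_inv
  have za : zm e (ca κ w p ζi) ≠ 0 := by
    rw [ea]
    exact mul_ne_zero (te e) fun h => a0 (by rw [h, map_zero])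
  have key : ∀ r, zm e (ca κ w p ζi) * VT D (-b1 * ai) (zm e r)
      = zm e (ca κ w p ζi * cw (cw D) r - X * cb κ D w p ζi * dX _ r) := fun r => by
    have e1 : zm e (X * cb κ D w p ζi * dX _ r) = zm e (cb κ D w p ζi) * zm e (X * dX _ r) := by
      rw [← map_mul]
      congr 1
      ring
    rw [VT, zD, zth, map_sub, e1, map_mul (zm e) (ca κ w p ζi), ea, eb]
    linear_combination (-(X ^ e * b1 * zm e (X * dX _ r))) * hai
  have hA : ∀ r, zm e (iA κ r) = iK κ r := fun r => (zC _).trans (iK_eq κ r).symm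
  have tK : iK κ (X ^ e) = X ^ e := by rw [map_pow, iK_X]
  have ww : (C (wL L (-1)) : TT L) * C (wL L 1) = 1 := by
    rw [← map_mul, mul_comm, wL_mul_neg, map_one]
  have er : zm e ρ = X ^ (e * 4) * (zm e u * C (wL L (-1)) ^ (4 - b)
      * (C (wL L (-1)) - zm e (C w2)) ^ b) := by
    have e1 : zm e (C w1) = X ^ e * zm e (C w2) := by
      rw [zC, zC, ew, map_mul, map_pow, map_X]
    rw [hF.eq, map_mul, map_mul, map_pow, map_pow, map_sub, e1, zX, ← mul_sub, mul_pow, mul_pow,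
      pow_mul]
    conv_rhs => rw [← hb4, pow_add, hb4]
    ring
  refine ⟨-coeff e w1, c00 u, -b1 * ai, zm e p, zm e (map C ζ) * C (wL L (-1)),
    zm e (map C ζi) * C (wL L 1),
    zm e u * C (wL L (-1)) ^ (4 - b) * (C (wL L (-1)) - zm e (C w2)) ^ b,
    ?_, zIn p, ?_, ?_, ?_, ?_, ?_, ?_, ?_, neg_ne_zero.2 hd.ord.1, hn,
    (hF.unit.map c00).ne_zero, ?_, fun N => ?_⟩
  · rw [mul_mul_mul_comm, ww, ← map_mul, ← map_mul, hC.inv, map_one, map_one, mul_one]
  · exact (in_iff _ _).2 (mul_mem ((in_iff _ _).1 (zIn _)) ((in_iff _ _).1 in_w))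
  · exact (in_iff _ _).2 (mul_mem (mul_mem ((in_iff _ _).1 (zIn _))
      (pow_mem ((in_iff _ _).1 in_w) _))
      (pow_mem (sub_mem ((in_iff _ _).1 in_w) ((in_iff _ _).1 (zIn _))) _))
  · rw [zcc, hC.p0]
  · rw [map_mul, zcc, c00_apply, K3.cc_map, constantCoeff_C, constantCoeff_C, hC.z0]
  · have e1 := congrArg (zm e) hC.eq
    rw [map_e6, Pa.map_map, show (zm e).comp (iA κ) = iK κ from RingHom.ext hA, map_mul, zX]
      at e1
    rw [(M.wt _ _ _ _ _ (sc_map (iK κ) hS)).2.2.2, tK, mul_comm (zm e (map C ζ)), ← mul_assoc, e1]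
    exact (zC _).trans (map_C _ _)
  · have := h2 k L (TT L) κ D (zm e) (iK κ) (VA D (-b1 * ai)) (Om M x) (Om M y) (X ^ e)
      (map C ζi) (p * map C ζi) (C (wL L (-1))) (C (wL L 1)) (isDer_VA hX.der _)
      ((h3 b M _).2.1 x) ((h3 b M _).2.1 y) ((h3 b M _).2.2.2 _ x y hS) hA
      (by rw [tK]; exact te e) (VT_iK hX.con _ _) (by rw [tK, zX]) ww
      (by
        rw [← hw, fa4, map_mul, map_ofNat]
        refine mul_ne_zero (fun h => ?_) za
        have := congrArg cc h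
        rw [map_ofNat, map_zero] at this
        norm_num at this)
      (fun r => by
        have e1 := key r
        rw [map_sub, map_mul, map_mul, map_mul, ca, cb] at e1
        rw [← hw, fa4, fb4, coe_VA]
        simp only [map_sub, map_mul, map_ofNat]
        linear_combination 4 * e1)
      (cw_X hX.der.coefw.one)
    rwa [coe_VA, map_mul, mul_assoc] at this
  · have e1 := congrArg cc hai
    rw [map_mul, map_one] at e1
    rw [map_mul, map_neg]
    apply mul_left_cancel₀ a0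
    apply mul_left_cancel₀ (show (4 : L⸨X⸩) ≠ 0 by norm_num)
    linear_combination (-(4 * cc b1 * iX L (jP (4 - b) (-coeff e w1)))) * e1
      - iX L (jP (4 - b) (-coeff e w1)) * jb + cL L (b * D (-coeff e w1)) * ja
  · simp only [map_mul, map_pow, map_sub, map_add, zcc, constantCoeff_C, rP, iX_C, iX_X, c00_apply,
      cw2, map_neg]
    rw [mul_assoc, sub_eq_add_neg]
  · have e1 := key ρ
    rw [hρ.eq, map_mul] at e1
    obtain ⟨P, g, hP⟩ := zsb ρ B _ (e * 4) N (by have := hd.e1; omega) hρ.c0 hρ.cB er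
    have e2 := mul_left_cancel₀ za e1
    rw [hP, er, VT_pow] at e2
    exact ⟨P, g, by rw [mul_left_cancel₀ (te _) e2, add_sub_cancel_left]⟩

end Pool.Agent.MP_05b4bd_ag.XO
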