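import Pool.Agent.MP_05b4bd_ag.ex.Bas

/-! Five residues give the linear conditions. -/

set_option linter.unusedSimpArgs false

namespace Pool.Agent.MP_05b4bd_ag.XO

open PowerSeries LaurentSeries HC
open ES hiding Gen Ob Inf

namespace Zsl

section
variable {A : Type} [CommRing A]

/-- The coefficients of `rz`. -/
def rc (b : ℕ) (p m n : A) : ℕ → A
  | 0 => if b = 1 then (108 * p ^ 2 + 360 * p ^ 4 + 348 * p ^ 6) * m ^ 2 +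
      (108 * p ^ 3 + 216 * p ^ 5 + 300 * p ^ 7) * m * n - (144 * p ^ 6 + 48 * p ^ 8) * n ^ 2
    else (711 * p ^ 2 + 1203 * p ^ 4 - 276 * p ^ 6) * m ^ 2 +
      (855 * p ^ 3 + 2547 * p ^ 5 + 156 * p ^ 7) * m * n +
      (144 * p ^ 4 + 1344 * p ^ 6 + 432 * p ^ 8) * n ^ 2
  | 1 => if b = 1 then (252 * p ^ 2 + 744 * p ^ 4 + 460 * p ^ 6) * m +
      (144 * p ^ 3 + 240 * p ^ 5 + 64 * p ^ 7) * n
    else (3555 * p ^ 2 + 4503 * p ^ 4 + 508 * p ^ 6) * m +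
      (2988 * p ^ 3 + 4644 * p ^ 5 + 1216 * p ^ 7) * n
  | _ => if b = 1 then 144 * p ^ 2 + 384 * p ^ 4 + 112 * p ^ 6
    else 2844 * p ^ 2 + 3300 * p ^ 4 + 784 * p ^ 6

/-- The coefficients of the quadratic part of `Tz`. -/
def tc (b : ℕ) (a : Fin 5 → A) (S θ m n s : A) : ℕ → A
  | 0 => (m + n * s) * (3 * (1 + s ^ 2) * ((4 - b) * (m + n * s)) * (S + qv a s) -
      (qu a s + s * (S + qv a s)) * (8 * s * (m + n * s) - 3 * b * n * (1 + s ^ 2))) -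
      θ * rc b s m n 0
  | 1 => 3 * (1 + s ^ 2) * ((4 - b) * (m + n * s)) * (S + qv a s) -
      (qu a s + s * (S + qv a s)) * (8 * s * (m + n * s) - 3 * b * n * (1 + s ^ 2)) +
      (m + n * s) * (12 * (1 + s ^ 2) * (S + qv a s) - 8 * s * (qu a s + s * (S + qv a s))) -
      θ * rc b s m n 1
  | 2 => 12 * (1 + s ^ 2) * (S + qv a s) - 8 * s * (qu a s + s * (S + qv a s)) - θ * rc b s m n 2
  | _ => 0

/-- The coefficients of the remaining part. -/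
def ec (b : ℕ) (u : A) : ℕ → A
  | 0 => (if b = 1 then 60 else 60) * u ^ 6
  | 1 => (if b = 1 then 56 else 1080) * u ^ 5
  | 2 => (if b = 1 then 892 else 6012) * u ^ 4
  | 3 => (if b = 1 then 4928 else 14144) * u ^ 3
  | 4 => (if b = 1 then 9152 else 16320) * u ^ 2
  | 5 => (if b = 1 then 7168 else 9216) * u ^ 1
  | _ => 2048

theorem rz_eq (b : ℕ) (p z m n : A) :
    rz b p z m n = rc b p m n 0 + rc b p m n 1 * z + rc b p m n 2 * z ^ 2 := by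
  simp only [rz, rc]
  split_ifs <;> ring

theorem ec_eq {b : ℕ} (hb : b = 1 ∨ b = 3) (z u : A) :
    t3 b z (z + u) * (z + u) ^ 2 * (4 * z + (4 - b) * u) =
      ∑ i ∈ Finset.range 7, ec b u i * z ^ i := by
  rcases hb with rfl | rfl <;>
    simp only [Finset.sum_range_succ, Finset.sum_range_zero, t3, ec, if_true, OfNat.ofNat_ne_one,
      if_false] <;> push_cast <;> ring

theorem tz_eq {b : ℕ} (hb : b = 1 ∨ b = 3) (a : Fin 5 → A) (S θ x1 x2 m n s z : A) :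
    Tz b a S θ x1 x2 m n s z = ∑ i ∈ Finset.range 7,
      (tc b a S θ m n s i + 4 * (x1 - 2 * s * x2) * ec b (m + n * s) i) * z ^ i := by
  have e := ec_eq hb z (m + n * s)
  simp only [Finset.sum_range_succ, Finset.sum_range_zero] at e ⊢
  rw [Tz, rz_eq]
  simp only [tc, add_assoc z]
  linear_combination 4 * (x1 - 2 * s * x2) * e

variable {B : Type} [CommRing B]

theorem map_tc (φ : A →+* B) (b : ℕ) (a : Fin 5 → A) (S θ m n s : A) (i : ℕ) :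
    φ (tc b a S θ m n s i) = tc b (fun i => φ (a i)) (φ S) (φ θ) (φ m) (φ n) (φ s) i := by
  unfold tc
  split <;> simp only [rc, qu, qv, apply_ite φ, map_add, map_sub, map_mul, map_pow, map_one,
    map_ofNat, map_natCast, map_zero]

theorem map_ec (φ : A →+* B) (b : ℕ) (u : A) (i : ℕ) : φ (ec b u i) = ec b (φ u) i := by
  unfold ec
  split <;> simp only [apply_ite φ, map_mul, map_pow, map_ofNat]

end

variable {k L : Type} [Field k] [Field L] {κ : k →+* L} {D : L →+ L} {s z : L}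

def tk (b : ℕ) (κ : k →+* L) (a : Fin 5 → k) (S θ m n : k) (s : L) (i : ℕ) : L :=
  tc b (fun i => κ (a i)) (κ S) (κ θ) (κ m) (κ n) s i

structure Dat (κ : k →+* L) (D : L →+ L) (s z : L) : Prop where
  x : Xd κ D s z
  z0 : z ≠ 0
  dz : D z = 2 * s / (3 * z ^ 2)
  nex : ∀ α β γ δ : k, Ex D (κ α / z ^ 2 + κ β / z + (κ γ + κ δ * s) / z ^ 3) →
    α = 0 ∧ β = 0 ∧ γ = 0 ∧ δ = 0

theorem ex_sub {u v : L} (hu : Ex D u) (hv : Ex D v) : Ex D (u - v) := by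
  obtain ⟨a, rfl⟩ := hu
  obtain ⟨b, rfl⟩ := hv
  exact ⟨a - b, map_sub D a b⟩

theorem ex_mul (hD : IsDer D) (c : ℕ) {u : L} (hu : Ex D u) : Ex D (c * u) := by
  obtain ⟨a, rfl⟩ := hu
  exact ⟨c * a, hD.const_mul (hD.natCast c) a⟩

theorem ex_eq {u v : L} (hu : Ex D u) (e : v = u) : Ex D v := e ▸ hu

variable [CharZero k]

theorem red (h : Dat κ D s z) (M : ℕ) (c0 c1 c2 c3 c4 c5 c6 c7 c8 c9 c10 : k) {P W : L}
    (hP : Ex D (P / z ^ (M + 4)))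
    (e : P = 3 * (1 + s ^ 2) * (κ c1 + 2 * κ c2 * s + 3 * κ c3 * s ^ 2 + 4 * κ c4 * s ^ 3 +
      5 * κ c5 * s ^ 4 + 6 * κ c6 * s ^ 5 + 7 * κ c7 * s ^ 6 + 8 * κ c8 * s ^ 7 + 9 * κ c9 * s ^ 8 +
      10 * κ c10 * s ^ 9) - 2 * (M + 1) * s * (κ c0 + κ c1 * s + κ c2 * s ^ 2 + κ c3 * s ^ 3 +
      κ c4 * s ^ 4 + κ c5 * s ^ 5 + κ c6 * s ^ 6 + κ c7 * s ^ 7 + κ c8 * s ^ 8 + κ c9 * s ^ 9 +
      κ c10 * s ^ 10) + W) : Ex D (W / z ^ (M + 4)) := by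
  have : CharZero L := charZero_of_injective_ringHom κ.injective
  have hD := h.x.der
  have z0 := h.z0
  generalize hH : κ c0 + κ c1 * s + κ c2 * s ^ 2 + κ c3 * s ^ 3 + κ c4 * s ^ 4 + κ c5 * s ^ 5 +
    κ c6 * s ^ 6 + κ c7 * s ^ 7 + κ c8 * s ^ 8 + κ c9 * s ^ 9 + κ c10 * s ^ 10 = H at e
  generalize hG : κ c1 + 2 * κ c2 * s + 3 * κ c3 * s ^ 2 + 4 * κ c4 * s ^ 3 + 5 * κ c5 * s ^ 4 +
    6 * κ c6 * s ^ 5 + 7 * κ c7 * s ^ 6 + 8 * κ c8 * s ^ 7 + 9 * κ c9 * s ^ 8 +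
    10 * κ c10 * s ^ 9 = G at e
  have d : D H = G := by
    rw [← hH, ← hG]
    simp only [map_add, hD.const_mul (h.x.con _), hD.pow, h.x.ds, h.x.con]
    push_cast
    ring
  have d1 : D z⁻¹ = -(z⁻¹ ^ 2 * D z) := hD.inv (mul_inv_cancel₀ z0)
  refine ex_eq (ex_sub hP (ex_mul hD 3 ⟨H * z⁻¹ ^ (M + 1), rfl⟩)) ?_
  rw [hD, hD.pow, d, d1, h.dz, e, ← h.x.cub, Nat.add_sub_cancel]
  push_cast
  simp only [inv_pow]
  field_simp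
  ring

theorem f7 (h : Dat κ D s z) {g : k} (r : ℕ) (hr : r ≠ 0)
    (hW : Ex D (r * κ g * (1 + s ^ 2) ^ 2 / z ^ 7)) : g = 0 := by
  have z0 := h.z0
  have := (h.nex 0 (r * g) 0 0 (ex_eq hW (by
    rw [← h.x.cub, map_zero, map_mul, map_natCast]; field_simp; ring))).2.1
  simpa [hr] using this

theorem f8 (h : Dat κ D s z) {g : k} (r : ℕ) (hr : r ≠ 0)
    (hW : Ex D (r * κ g * (1 + s ^ 2) ^ 2 / z ^ 8)) : g = 0 := by
  have z0 := h.z0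
  have := (h.nex (r * g) 0 0 0 (ex_eq hW (by
    rw [← h.x.cub, map_zero, map_mul, map_natCast]; field_simp; ring))).1
  simpa [hr] using this

theorem f3 (h : Dat κ D s z) {g d : k} (r q : ℕ) (hr : r ≠ 0) (hq : q ≠ 0)
    (hW : Ex D (r * (κ g + q * κ d * s) / z ^ 3)) : g = 0 ∧ d = 0 := by
  have := (h.nex 0 0 (r * g) (r * q * d) (ex_eq hW (by
    simp only [map_zero, map_mul, map_natCast]; ring))).2.2
  simpa [hr, hq] using this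

theorem f9 (h : Dat κ D s z) {g d : k} (r : ℕ) (hr : r ≠ 0)
    (hW : Ex D (r * (κ g + 8 * κ d * s) * (1 + s ^ 2) ^ 2 / z ^ 9)) : g = 0 ∧ d = 0 := by
  have z0 := h.z0
  exact f3 h r 8 hr (by norm_num) (ex_eq hW (by rw [← h.x.cub]; push_cast; field_simp))

theorem f12 (h : Dat κ D s z) {g d : k} (r : ℕ) (hr : r ≠ 0)
    (hW : Ex D (r * (κ g + 8 * κ d * s) * (1 + s ^ 2) ^ 3 / z ^ 12)) : g = 0 ∧ d = 0 := by
  have z0 := h.z0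
  exact f3 h r 8 hr (by norm_num) (ex_eq hW (by rw [← h.x.cub]; push_cast; field_simp))

theorem k10 (h : Dat κ D s z) (a : Fin 5 → k) (S θ m n : k)
    (hP : Ex D ((2 * (tk 1 κ a S θ m n s 2)) / z ^ 7)) :
    -S - 48 * θ = 0 := by
  refine f7 h 9 (by norm_num) (red h 3 (8 * a 0) (11 * S + 144 * θ + 8 * a 1) (8 * a 2) (9 * S +
    144 * θ + 8 * a 3) (8 * a 4) (-32 * θ) 0 0 0 0 0 hP ?_)
  simp only [tk, tc, rc, qu, qv, if_true, OfNat.ofNat_ne_one, if_false, map_add, map_sub, map_mul,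
    map_pow, map_neg, map_ofNat, map_zero]
  push_cast
  ring

theorem k11 (h : Dat κ D s z) (a : Fin 5 → k) (S θ m n : k)
    (hP : Ex D ((20 * (tk 1 κ a S θ m n s 1) + (-50) * (tk 1 κ a S θ m n s 2 * (κ m + κ n * s) ^
      1)) / z ^ 8)) :
    -13 * m * S + 3456 * m * θ - 7 * m * a 1 - 63 * m * a 3 + 28 * n * a 0 + 42 * n * a 2 = 0 :=
      by
  refine f8 h 3 (by norm_num) (red h 4 (-32 * m * a 0 + 42 * m * a 2 - 252 * m * a 4 + 18 * n * S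
    + 3564 * n * θ - 63 * n * a 1 + 63 * n * a 3) (-47 * m * S - 3456 * m * θ - 53 * m * a 1 + 63
    * m * a 3 + 52 * n * a 0 - 42 * n * a 2) (10 * m * a 2 - 420 * m * a 4 + 10 * n * S + 5940 * n
    * θ - 95 * n * a 1 + 105 * n * a 3) (-39 * m * S - 4752 * m * θ - 21 * m * a 1 + 31 * m * a 3
    + 84 * n * a 0 - 74 * n * a 2) (-200 * m * a 4 + 2340 * n * θ + 10 * n * a 3) (-720 * m * θ -
    32 * n * a 4) (540 * n * θ) 0 0 0 0 hP ?_)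
  simp only [tk, tc, rc, qu, qv, if_true, OfNat.ofNat_ne_one, if_false, map_add, map_sub, map_mul,
    map_pow, map_neg, map_ofNat, map_zero]
  push_cast
  ring

theorem k12 (h : Dat κ D s z) (a : Fin 5 → k) (S θ m n : k)
    (hP : Ex D ((96 * (tk 1 κ a S θ m n s 0) + (-216) * (tk 1 κ a S θ m n s 1 * (κ m + κ n * s) ^
      1) + 351 * (tk 1 κ a S θ m n s 2 * (κ m + κ n * s) ^ 2)) / z ^ 9)) :
    17 * m ^ 2 * S - 3600 * m ^ 2 * θ + 14 * m ^ 2 * a 1 + 42 * m ^ 2 * a 3 - 56 * m * n * a 0 -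
      168 * m * n * a 4 + 3 * n ^ 2 * S + 2064 * n ^ 2 * θ - 42 * n ^ 2 * a 1 + 42 * n ^ 2 * a 3 =
      0 ∧ 14 * m ^ 2 * a 4 - 792 * m * n * θ + 7 * m * n * a 3 - 7 * n ^ 2 * a 2 = 0 := by
  refine f9 h 15 (by norm_num) (red h 5 (40 * m ^ 2 * a 0 - 140 * m ^ 2 * a 2 + 240 * m ^ 2 * a 4
    - 100 * m * n * S - 21600 * m * n * θ + 140 * m * n * a 1 + 60 * m * n * a 3 + 280 * n ^ 2 * a
    0 - 180 * n ^ 2 * a 2) (95 * m ^ 2 * S + 18000 * m ^ 2 * θ + 110 * m ^ 2 * a 1 - 210 * m ^ 2 *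
    a 3 - 200 * m * n * a 0 + 840 * m * n * a 4 - 15 * n ^ 2 * S - 10320 * n ^ 2 * θ + 210 * n ^ 2
    * a 1 - 210 * n ^ 2 * a 3) (-100 * m ^ 2 * a 2 + 200 * m ^ 2 * a 4 - 80 * m * n * S - 27360 *
    m * n * θ + 220 * m * n * a 1 - 20 * m * n * a 3 + 320 * n ^ 2 * a 0 - 220 * n ^ 2 * a 2) (85
    * m ^ 2 * S + 29280 * m ^ 2 * θ + 70 * m ^ 2 * a 1 - 170 * m ^ 2 * a 3 - 280 * m * n * a 0 +
    80 * m * n * a 2 + 1400 * m * n * a 4 - 5 * n ^ 2 * S - 17200 * n ^ 2 * θ + 250 * n ^ 2 * a 1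
    - 350 * n ^ 2 * a 3) 0 (8880 * m ^ 2 * θ + 640 * m * n * a 4 - 6800 * n ^ 2 * θ - 100 * n ^ 2
    * a 3) (960 * m * n * θ + 40 * n ^ 2 * a 4) (-2320 * n ^ 2 * θ) 0 0 0 hP ?_)
  simp only [tk, tc, rc, qu, qv, if_true, OfNat.ofNat_ne_one, if_false, map_add, map_sub, map_mul,
    map_pow, map_neg, map_ofNat, map_zero]
  push_cast
  ring

theorem k15 (h : Dat κ D s z) (a : Fin 5 → k) (S θ m n : k)
    (hP : Ex D (((-20160) * (tk 1 κ a S θ m n s 0 * (κ m + κ n * s) ^ 3) + 22680 * (tk 1 κ a S θ m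
      n s 1 * (κ m + κ n * s) ^ 4) + (-24948) * (tk 1 κ a S θ m n s 2 * (κ m + κ n * s) ^ 5)) / z
      ^ 12)) :
    -29 * m ^ 5 * S - 3072 * m ^ 5 * θ - 35 * m ^ 5 * a 1 - 35 * m ^ 5 * a 3 + 140 * m ^ 4 * n * a
      0 - 70 * m ^ 4 * n * a 2 - 560 * m ^ 4 * n * a 4 - 50 * m ^ 3 * n ^ 2 * S + 102720 * m ^ 3 *
      n ^ 2 * θ + 70 * m ^ 3 * n ^ 2 * a 1 - 490 * m ^ 3 * n ^ 2 * a 3 + 280 * m ^ 2 * n ^ 3 * a 0
      + 140 * m ^ 2 * n ^ 3 * a 2 + 2800 * m ^ 2 * n ^ 3 * a 4 - 5 * m * n ^ 4 * S - 72000 * m * n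
      ^ 4 * θ + 385 * m * n ^ 4 * a 1 - 175 * m * n ^ 4 * a 3 + 140 * n ^ 5 * a 0 - 350 * n ^ 5 *
      a 2 = 0 ∧ -4200 * m ^ 4 * n * θ - 280 * m ^ 3 * n ^ 2 * a 4 + 16320 * m ^ 2 * n ^ 3 * θ - 70
      * m ^ 2 * n ^ 3 * a 3 + 70 * m * n ^ 4 * a 2 + 140 * m * n ^ 4 * a 4 + 2 * n ^ 5 * S - 1704
      * n ^ 5 * θ + 35 * n ^ 5 * a 1 - 35 * n ^ 5 * a 3 = 0 := by
  refine f12 h 63 (by norm_num) (red h 8 (448 * m ^ 5 * a 0 + 980 * m ^ 5 * a 2 + 1960 * m ^ 5 * a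
    4 + 1540 * m ^ 4 * n * S - 722400 * m ^ 4 * n * θ + 490 * m ^ 4 * n * a 1 + 5390 * m ^ 4 * n *
    a 3 - 7840 * m ^ 3 * n ^ 2 * a 0 + 1960 * m ^ 3 * n ^ 2 * a 2 - 39760 * m ^ 3 * n ^ 2 * a 4 +
    1120 * m ^ 2 * n ^ 3 * S + 2392320 * m ^ 2 * n ^ 3 * θ - 6860 * m ^ 2 * n ^ 3 * a 1 - 13300 *
    m ^ 2 * n ^ 3 * a 3 - 7840 * m * n ^ 4 * a 0 + 6580 * m * n ^ 4 * a 2 + 21560 * m * n ^ 4 * a
    4 + 140 * n ^ 5 * S - 262416 * n ^ 5 * θ + 3962 * n ^ 5 * a 1 - 5390 * n ^ 5 * a 3) (-903 * m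
    ^ 5 * S + 64512 * m ^ 5 * θ - 777 * m ^ 5 * a 1 + 735 * m ^ 5 * a 3 + 7140 * m ^ 4 * n * a 0 +
    1470 * m ^ 4 * n * a 2 + 11760 * m ^ 4 * n * a 4 + 1050 * m ^ 3 * n ^ 2 * S - 2157120 * m ^ 3
    * n ^ 2 * θ - 1470 * m ^ 3 * n ^ 2 * a 1 + 10290 * m ^ 3 * n ^ 2 * a 3 - 5880 * m ^ 2 * n ^ 3
    * a 0 - 2940 * m ^ 2 * n ^ 3 * a 2 - 58800 * m ^ 2 * n ^ 3 * a 4 + 105 * m * n ^ 4 * S +
    1512000 * m * n ^ 4 * θ - 8085 * m * n ^ 4 * a 1 + 3675 * m * n ^ 4 * a 3 - 2940 * n ^ 5 * a 0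
    + 7350 * n ^ 5 * a 2) (1428 * m ^ 5 * a 2 + 5880 * m ^ 5 * a 4 + 2100 * m ^ 4 * n * S -
    1814400 * m ^ 4 * n * θ + 2730 * m ^ 4 * n * a 1 + 16170 * m ^ 4 * n * a 3 - 3360 * m ^ 3 * n
    ^ 2 * a 0 + 5880 * m ^ 3 * n ^ 2 * a 2 - 95760 * m ^ 3 * n ^ 2 * a 4 + 3360 * m ^ 2 * n ^ 3 *
    S + 5806080 * m ^ 2 * n ^ 3 * θ - 20580 * m ^ 2 * n ^ 3 * a 1 - 34020 * m ^ 2 * n ^ 3 * a 3 -
    23520 * m * n ^ 4 * a 0 + 13860 * m * n ^ 4 * a 2 + 52920 * m * n ^ 4 * a 4 + 252 * n ^ 5 * S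
    - 644112 * n ^ 5 * θ + 8946 * n ^ 5 * a 1 - 13230 * n ^ 5 * a 3) (-1624 * m ^ 5 * S + 178080 *
    m ^ 5 * θ - 1960 * m ^ 5 * a 1 + 448 * m ^ 5 * a 3 + 7840 * m ^ 4 * n * a 0 + 2240 * m ^ 4 * n
    * a 2 + 31360 * m ^ 4 * n * a 4 + 1120 * m ^ 3 * n ^ 2 * S - 5752320 * m ^ 3 * n ^ 2 * θ +
    4480 * m ^ 3 * n ^ 2 * a 1 + 27440 * m ^ 3 * n ^ 2 * a 3 + 4480 * m ^ 2 * n ^ 3 * a 0 - 7840 *
    m ^ 2 * n ^ 3 * a 2 - 156800 * m ^ 2 * n ^ 3 * a 4 + 280 * m * n ^ 4 * S + 4032000 * m * n ^ 4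
    * θ - 21560 * m * n ^ 4 * a 1 + 9800 * m * n ^ 4 * a 3 - 7840 * n ^ 5 * a 0 + 19600 * n ^ 5 *
    a 2) (4368 * m ^ 5 * a 4 - 1239840 * m ^ 4 * n * θ + 13020 * m ^ 4 * n * a 3 + 8400 * m ^ 3 *
    n ^ 2 * a 2 - 60480 * m ^ 3 * n ^ 2 * a 4 + 3360 * m ^ 2 * n ^ 3 * S + 3749760 * m ^ 2 * n ^ 3
    * θ - 9240 * m ^ 2 * n ^ 3 * a 1 - 25200 * m ^ 2 * n ^ 3 * a 3 - 13440 * m * n ^ 4 * a 0 +
    5040 * m * n ^ 4 * a 2 + 35280 * m * n ^ 4 * a 4 - 429408 * n ^ 5 * θ + 4536 * n ^ 5 * a 1 -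
    8820 * n ^ 5 * a 3) (-609 * m ^ 5 * S + 143136 * m ^ 5 * θ - 735 * m ^ 5 * a 1 - 735 * m ^ 5 *
    a 3 + 2940 * m ^ 4 * n * a 0 - 1470 * m ^ 4 * n * a 2 + 21840 * m ^ 4 * n * a 4 - 1050 * m ^ 3
    * n ^ 2 * S - 4636800 * m ^ 3 * n ^ 2 * θ + 1470 * m ^ 3 * n ^ 2 * a 1 + 21630 * m ^ 3 * n ^ 2
    * a 3 + 5880 * m ^ 2 * n ^ 3 * a 0 - 420 * m ^ 2 * n ^ 3 * a 2 - 129360 * m ^ 2 * n ^ 3 * a 4
    + 735 * m * n ^ 4 * S + 3326400 * m * n ^ 4 * θ - 11235 * m * n ^ 4 * a 1 + 8085 * m * n ^ 4 *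
    a 3 - 4452 * n ^ 5 * a 0 + 16170 * n ^ 5 * a 2) 0 (-745920 * m ^ 3 * n ^ 2 * θ - 26880 * m ^ 2
    * n ^ 3 * a 4 + 756000 * m * n ^ 4 * θ + 4200 * m * n ^ 4 * a 3 + 4368 * n ^ 5 * a 2) (-40320
    * m ^ 2 * n ^ 3 * θ - 1680 * m * n ^ 4 * a 4 + 49392 * n ^ 5 * θ + 1428 * n ^ 5 * a 3) (97440
    * m * n ^ 4 * θ + 448 * n ^ 5 * a 4) (31248 * n ^ 5 * θ) hP ?_)
  simp only [tk, tc, rc, qu, qv, if_true, OfNat.ofNat_ne_one, if_false, map_add, map_sub, map_mul,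
    map_pow, map_neg, map_ofNat, map_zero]
  push_cast
  ring

theorem k30 (h : Dat κ D s z) (a : Fin 5 → k) (S θ m n : k)
    (hP : Ex D ((2 * (tk 3 κ a S θ m n s 2)) / z ^ 7)) :
    -S - 489 * θ = 0 := by
  refine f7 h 9 (by norm_num) (red h 3 (8 * a 0) (11 * S + 1467 * θ + 8 * a 1) (8 * a 2) (9 * S +
    1161 * θ + 8 * a 3) (8 * a 4) (-224 * θ) 0 0 0 0 0 hP ?_)
  simp only [tk, tc, rc, qu, qv, if_true, OfNat.ofNat_ne_one, if_false, map_add, map_sub, map_mul,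
    map_pow, map_neg, map_ofNat, map_zero]
  push_cast
  ring

theorem k31 (h : Dat κ D s z) (a : Fin 5 → k) (S θ m n : k)
    (hP : Ex D ((20 * (tk 3 κ a S θ m n s 1) + (-30) * (tk 3 κ a S θ m n s 2 * (κ m + κ n * s) ^
      1)) / z ^ 8)) :
    -7 * m * S - 6651 * m * θ - 13 * m * a 1 - 117 * m * a 3 + 52 * n * a 0 + 78 * n * a 2 = 0 :=
      by
  refine f8 h 3 (by norm_num) (red h 4 (32 * m * a 0 + 78 * m * a 2 - 468 * m * a 4 - 18 * n * S +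
    3294 * n * θ - 117 * n * a 1 + 117 * n * a 3) (-13 * m * S + 6651 * m * θ - 7 * m * a 1 + 117
    * m * a 3 + 188 * n * a 0 - 78 * n * a 2) (110 * m * a 2 - 780 * m * a 4 - 10 * n * S + 5490 *
    n * θ - 85 * n * a 1 + 195 * n * a 3) (-21 * m * S + 11187 * m * θ - 39 * m * a 1 + 149 * m *
    a 3 + 156 * n * a 0 - 46 * n * a 2) (-280 * m * a 4 + 3960 * n * θ + 110 * n * a 3) (2672 * m
    * θ + 32 * n * a 4) (-100 * n * θ) 0 0 0 0 hP ?_)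
  simp only [tk, tc, rc, qu, qv, if_true, OfNat.ofNat_ne_one, if_false, map_add, map_sub, map_mul,
    map_pow, map_neg, map_ofNat, map_zero]
  push_cast
  ring

theorem k32 (h : Dat κ D s z) (a : Fin 5 → k) (S θ m n : k)
    (hP : Ex D ((96 * (tk 3 κ a S θ m n s 0) + (-72) * (tk 3 κ a S θ m n s 1 * (κ m + κ n * s) ^
      1) + 63 * (tk 3 κ a S θ m n s 2 * (κ m + κ n * s) ^ 2)) / z ^ 9)) :
    -11 * m ^ 2 * S - 8091 * m ^ 2 * θ - 26 * m ^ 2 * a 1 - 78 * m ^ 2 * a 3 + 104 * m * n * a 0 +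
      312 * m * n * a 4 + 15 * n ^ 2 * S - 465 * n ^ 2 * θ + 78 * n ^ 2 * a 1 - 78 * n ^ 2 * a 3 =
      0 ∧ -26 * m ^ 2 * a 4 - 1368 * m * n * θ - 13 * m * n * a 3 + 13 * n ^ 2 * a 2 = 0 := by
  refine f9 h 3 (by norm_num) (red h 5 (40 * m ^ 2 * a 0 + 52 * m ^ 2 * a 2 - 144 * m ^ 2 * a 4 -
    4 * m * n * S - 10764 * m * n * θ - 52 * m * n * a 1 - 132 * m * n * a 3 - 104 * n ^ 2 * a 0 +
    12 * n ^ 2 * a 2) (-m ^ 2 * S + 8091 * m ^ 2 * θ + 14 * m ^ 2 * a 1 + 78 * m ^ 2 * a 3 + 184 *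
    m * n * a 0 - 312 * m * n * a 4 - 15 * n ^ 2 * S + 465 * n ^ 2 * θ - 78 * n ^ 2 * a 1 + 78 * n
    ^ 2 * a 3) (92 * m ^ 2 * a 2 - 184 * m ^ 2 * a 4 + 16 * m * n * S - 16056 * m * n * θ + 28 * m
    * n * a 1 - 212 * m * n * a 3 - 64 * n ^ 2 * a 0 - 28 * n ^ 2 * a 2) (-11 * m ^ 2 * S + 14433
    * m ^ 2 * θ - 26 * m ^ 2 * a 1 + 118 * m ^ 2 * a 3 + 104 * m * n * a 0 + 80 * m * n * a 2 -
    520 * m * n * a 4 - 5 * n ^ 2 * S + 775 * n ^ 2 * θ - 38 * n ^ 2 * a 1 + 130 * n ^ 2 * a 3) 0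
    (4560 * m ^ 2 * θ - 128 * m * n * a 4 + 1724 * n ^ 2 * θ + 92 * n ^ 2 * a 3) (1728 * m * n * θ
    + 40 * n ^ 2 * a 4) (-368 * n ^ 2 * θ) 0 0 0 hP ?_)
  simp only [tk, tc, rc, qu, qv, if_true, OfNat.ofNat_ne_one, if_false, map_add, map_sub, map_mul,
    map_pow, map_neg, map_ofNat, map_zero]
  push_cast
  ring

theorem k35 (h : Dat κ D s z) (a : Fin 5 → k) (S θ m n : k)
    (hP : Ex D (((-576) * (tk 3 κ a S θ m n s 0 * (κ m + κ n * s) ^ 3) + 216 * (tk 3 κ a S θ m n s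
      1 * (κ m + κ n * s) ^ 4) + (-108) * (tk 3 κ a S θ m n s 2 * (κ m + κ n * s) ^ 5)) / z ^ 12))
      :
    23 * m ^ 5 * S - 6213 * m ^ 5 * θ + 65 * m ^ 5 * a 1 + 65 * m ^ 5 * a 3 - 260 * m ^ 4 * n * a
      0 + 130 * m ^ 4 * n * a 2 + 1040 * m ^ 4 * n * a 4 - 10 * m ^ 3 * n ^ 2 * S + 223950 * m ^ 3
      * n ^ 2 * θ - 130 * m ^ 3 * n ^ 2 * a 1 + 910 * m ^ 3 * n ^ 2 * a 3 - 520 * m ^ 2 * n ^ 3 *
      a 0 - 260 * m ^ 2 * n ^ 3 * a 2 - 5200 * m ^ 2 * n ^ 3 * a 4 - 145 * m * n ^ 4 * S - 107325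
      * m * n ^ 4 * θ - 715 * m * n ^ 4 * a 1 + 325 * m * n ^ 4 * a 3 - 260 * n ^ 5 * a 0 + 650 *
      n ^ 5 * a 2 = 0 ∧ -9240 * m ^ 4 * n * θ + 520 * m ^ 3 * n ^ 2 * a 4 + 32160 * m ^ 2 * n ^ 3
      * θ + 130 * m ^ 2 * n ^ 3 * a 3 - 130 * m * n ^ 4 * a 2 - 260 * m * n ^ 4 * a 4 - 14 * n ^ 5
      * S - 786 * n ^ 5 * θ - 65 * n ^ 5 * a 1 + 65 * n ^ 5 * a 3 = 0 := by
  refine f12 h 9 (by norm_num) (red h 8 (-448 * m ^ 5 * a 0 - 260 * m ^ 5 * a 2 - 520 * m ^ 5 * a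
    4 - 100 * m ^ 4 * n * S - 214620 * m ^ 4 * n * θ - 130 * m ^ 4 * n * a 1 - 1430 * m ^ 4 * n *
    a 3 + 2080 * m ^ 3 * n ^ 2 * a 0 - 520 * m ^ 3 * n ^ 2 * a 2 + 13840 * m ^ 3 * n ^ 2 * a 4 +
    320 * m ^ 2 * n ^ 3 * S + 804000 * m ^ 2 * n ^ 3 * θ + 1820 * m ^ 2 * n ^ 3 * a 1 + 6820 * m ^
    2 * n ^ 3 * a 3 + 2080 * m * n ^ 4 * a 0 - 100 * m * n ^ 4 * a 2 - 5720 * m * n ^ 4 * a 4 -
    140 * n ^ 5 * S - 17292 * n ^ 5 * θ - 722 * n ^ 5 * a 1 + 1430 * n ^ 5 * a 3) (3 * m ^ 5 * S +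
    18639 * m ^ 5 * θ - 123 * m ^ 5 * a 1 - 195 * m ^ 5 * a 3 - 3540 * m ^ 4 * n * a 0 - 390 * m ^
    4 * n * a 2 - 3120 * m ^ 4 * n * a 4 + 30 * m ^ 3 * n ^ 2 * S - 671850 * m ^ 3 * n ^ 2 * θ +
    390 * m ^ 3 * n ^ 2 * a 1 - 2730 * m ^ 3 * n ^ 2 * a 3 + 1560 * m ^ 2 * n ^ 3 * a 0 + 780 * m
    ^ 2 * n ^ 3 * a 2 + 15600 * m ^ 2 * n ^ 3 * a 4 + 435 * m * n ^ 4 * S + 321975 * m * n ^ 4 * θ
    + 2145 * m * n ^ 4 * a 1 - 975 * m * n ^ 4 * a 3 + 780 * n ^ 5 * a 0 - 1950 * n ^ 5 * a 2)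
    (-708 * m ^ 5 * a 2 - 1560 * m ^ 5 * a 4 - 660 * m ^ 4 * n * S - 532980 * m ^ 4 * n * θ - 2370
    * m ^ 4 * n * a 1 - 4290 * m ^ 4 * n * a 3 - 2400 * m ^ 3 * n ^ 2 * a 0 - 1560 * m ^ 3 * n ^ 2
    * a 2 + 35280 * m ^ 3 * n ^ 2 * a 4 + 960 * m ^ 2 * n ^ 3 * S + 2026080 * m ^ 2 * n ^ 3 * θ +
    5460 * m ^ 2 * n ^ 3 * a 1 + 18900 * m ^ 2 * n ^ 3 * a 3 + 6240 * m * n ^ 4 * a 0 + 1260 * m *
    n ^ 4 * a 2 - 14040 * m * n ^ 4 * a 4 - 252 * n ^ 5 * S - 42444 * n ^ 5 * θ - 1386 * n ^ 5 * a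
    1 + 3510 * n ^ 5 * a 3) (184 * m ^ 5 * S + 44016 * m ^ 5 * θ + 520 * m ^ 5 * a 1 - 448 * m ^ 5
    * a 3 - 2080 * m ^ 4 * n * a 0 - 2240 * m ^ 4 * n * a 2 - 8320 * m ^ 4 * n * a 4 - 1120 * m ^
    3 * n ^ 2 * S - 1791600 * m ^ 3 * n ^ 2 * θ - 4480 * m ^ 3 * n ^ 2 * a 1 - 7280 * m ^ 3 * n ^
    2 * a 3 - 4480 * m ^ 2 * n ^ 3 * a 0 + 2080 * m ^ 2 * n ^ 3 * a 2 + 41600 * m ^ 2 * n ^ 3 * a
    4 + 1160 * m * n ^ 4 * S + 858600 * m * n ^ 4 * θ + 5720 * m * n ^ 4 * a 1 - 2600 * m * n ^ 4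
    * a 3 + 2080 * n ^ 5 * a 0 - 5200 * n ^ 5 * a 2) (-1488 * m ^ 5 * a 4 - 405000 * m ^ 4 * n * θ
    - 5100 * m ^ 4 * n * a 3 - 5520 * m ^ 3 * n ^ 2 * a 2 + 25920 * m ^ 3 * n ^ 2 * a 4 - 480 * m
    ^ 2 * n ^ 3 * S + 1447200 * m ^ 2 * n ^ 3 * θ - 840 * m ^ 2 * n ^ 3 * a 1 + 16560 * m ^ 2 * n
    ^ 3 * a 3 + 1920 * m * n ^ 4 * a 0 + 3600 * m * n ^ 4 * a 2 - 9360 * m * n ^ 4 * a 4 - 28296 *
    n ^ 5 * θ - 216 * n ^ 5 * a 1 + 2340 * n ^ 5 * a 3) (69 * m ^ 5 * S + 42705 * m ^ 5 * θ + 195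
    * m ^ 5 * a 1 + 195 * m ^ 5 * a 3 - 780 * m ^ 4 * n * a 0 + 390 * m ^ 4 * n * a 2 - 7440 * m ^
    4 * n * a 4 - 30 * m ^ 3 * n ^ 2 * S - 1566630 * m ^ 3 * n ^ 2 * θ - 390 * m ^ 3 * n ^ 2 * a 1
    - 9030 * m ^ 3 * n ^ 2 * a 3 - 1560 * m ^ 2 * n ^ 3 * a 0 - 3180 * m ^ 2 * n ^ 3 * a 2 + 34320
    * m ^ 2 * n ^ 3 * a 4 + 165 * m * n ^ 4 * S + 708345 * m * n ^ 4 * θ + 1335 * m * n ^ 4 * a 1
    - 2145 * m * n ^ 4 * a 3 + 852 * n ^ 5 * a 0 - 4290 * n ^ 5 * a 2) 0 (-273600 * m ^ 3 * n ^ 2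
    * θ + 3840 * m ^ 2 * n ^ 3 * a 4 + 96120 * m * n ^ 4 * θ - 2760 * m * n ^ 4 * a 3 - 1488 * n ^
    5 * a 2) (-51840 * m ^ 2 * n ^ 3 * θ - 1200 * m * n ^ 4 * a 4 - 8280 * n ^ 5 * θ - 708 * n ^ 5
    * a 3) (11040 * m * n ^ 4 * θ - 448 * n ^ 5 * a 4) (5904 * n ^ 5 * θ) hP ?_)
  simp only [tk, tc, rc, qu, qv, if_true, OfNat.ofNat_ne_one, if_false, map_add, map_sub, map_mul,
    map_pow, map_neg, map_ofNat, map_zero]
  push_cast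
  ring

theorem slots (h1 : SlotStmt) {b : ℕ} (hb : b = 1 ∨ b = 3) (h : Dat κ D s z) {n : L} {m m1 : k}
    {a : Fin 5 → k} {S θ x1 x2 : k} (hZ : Zeq b κ D s z n m m1 a S θ x1 x2) (K : ℤ)
    (hK : ¬ 4 ∣ K) : Ex D (∑ i ∈ Finset.range 7, if K + 3 ≤ i then
      (tk b κ a S θ m m1 s i + 4 * (κ x1 - 2 * s * κ x2) * ec b (κ m + κ m1 * s) i) * z ^ i /
        (9 * z ^ 9) * (bq (-3 - b * K / 4) (i - 3 - K).toNat : L) * n ^ (i - 3 - K).toNat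
      else 0) := by
  have : CharZero L := charZero_of_injective_ringHom κ.injective
  obtain ⟨y, y1, Γ, hy, e⟩ := hZ
  have z9 : (9 * z ^ 9 : L) ≠ 0 := mul_ne_zero (by norm_num) (pow_ne_zero _ h.z0)
  set c : ℕ → L := fun i => (tk b κ a S θ m m1 s i +
    4 * (κ x1 - 2 * s * κ x2) * ec b (κ m + κ m1 * s) i) * z ^ i / (9 * z ^ 9) with hc
  have := h1 L D (4 - b) b 7 n y y1 Γ (∑ i ∈ Finset.range 7, Polynomial.monomial i (c i)) K h.x.der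
    (by omega) hK ?_ hy ?_
  · refine ex_eq this (Finset.sum_congr rfl fun i hi => ?_)
    rw [Polynomial.finsetSum_coeff]
    simp only [Polynomial.coeff_monomial, Finset.sum_ite_eq', if_pos hi, hc]
  · refine Nat.lt_succ_of_le (Polynomial.natDegree_sum_le_of_forall_le _ _ fun i hi => ?_)
    exact (Polynomial.natDegree_monomial_le _).trans (Nat.le_of_lt_succ (Finset.mem_range.1 hi))
  · refine mul_left_cancel₀ (Polynomial.C_ne_zero.2 z9) ?_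
    rw [← mul_assoc, e, tz_eq hb, mul_left_comm, Finset.mul_sum _ _ (Polynomial.C _)]
    refine congrArg (rP (4 - b) b n * ·) (Finset.sum_congr rfl fun i _ => ?_)
    rw [← Polynomial.C_mul_X_pow_eq_monomial, ← mul_assoc, ← map_mul Polynomial.C (9 * z ^ 9), hc]
    beta_reduce
    rw [mul_div_cancel₀ _ z9]
    simp only [tk, map_tc, map_ec, map_add, map_sub, map_mul, map_pow, map_ofNat]
    ring

end Zsl

open Zsl in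
theorem zslS (h1 : SlotStmt) (h2 : NexStmt) : ZslStmt := by
  intro b k L _ _ _ _ κ D s z n m m1 a S θ x1 x2 hb hx hn hZ
  have : CharZero L := charZero_of_injective_ringHom κ.injective
  obtain ⟨z0, dz, nex, -⟩ := h2 k L κ D s z hx
  have h : Dat κ D s z := ⟨hx, z0, dz, nex⟩
  have hD := hx.der
  have sl := slots h1 hb h hZ
  obtain rfl : n = (κ m + κ m1 * s) / z := eq_div_of_mul_eq z0 hn
  have e3 : x1 = 0 ∧ -x2 = 0 := by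
    refine f3 h 8192 2 (by norm_num) (by norm_num) (ex_eq (ex_mul hD 9 (sl 3 (by norm_num))) ?_)
    simp [Finset.sum_range_succ, bq, tk, tc, ec]
    field_simp
    ring
  obtain ⟨rfl, e4⟩ := e3
  obtain rfl : x2 = 0 := neg_eq_zero.1 e4
  refine ⟨rfl, rfl, ?_⟩
  have t3 : ∀ i, tk b κ a S θ m m1 s (i + 3) = 0 := fun _ => rfl
  have s1 := sl (-1) (by norm_num)
  have s2 := sl (-2) (by norm_num)
  have s3 := sl (-3) (by norm_num)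
  have s6 := sl (-6) (by norm_num)
  simp only [Finset.sum_range_succ, Finset.sum_range_zero, map_zero, mul_zero, sub_zero, zero_mul,
    add_zero, t3 0, t3 1, t3 2, t3 3, zero_div, ite_self, zero_add] at s1 s2 s3 s6
  rcases hb with rfl | rfl
  · have a1 := k10 h a S θ m m1 (ex_eq (ex_mul hD (9 * 2) s1) (by
      norm_num [bq, Int.toNat, div_pow]; field_simp; ring))
    have a2 := k11 h a S θ m m1 (ex_eq (ex_mul hD (9 * 20) s2) (by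
      norm_num [bq, Int.toNat, div_pow]; field_simp; ring))
    have a3 := k12 h a S θ m m1 (ex_eq (ex_mul hD (9 * 96) s3) (by
      norm_num [bq, Int.toNat, div_pow]; field_simp; ring))
    have a6 := k15 h a S θ m m1 (ex_eq (ex_mul hD (9 * 9216) s6) (by
      norm_num [bq, Int.toNat, div_pow]; field_simp; ring))
    rw [zl, if_pos rfl]
    exact ⟨by linear_combination a1, by linear_combination a2, by linear_combination a3.1,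
      by linear_combination a3.2, by linear_combination a6.1, by linear_combination a6.2⟩
  · have a1 := k30 h a S θ m m1 (ex_eq (ex_mul hD (9 * 2) s1) (by
      norm_num [bq, Int.toNat, div_pow]; field_simp; ring))
    have a2 := k31 h a S θ m m1 (ex_eq (ex_mul hD (9 * 20) s2) (by
      norm_num [bq, Int.toNat, div_pow]; field_simp; ring))
    have a3 := k32 h a S θ m m1 (ex_eq (ex_mul hD (9 * 96) s3) (by
      norm_num [bq, Int.toNat, div_pow]; field_simp; ring))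
    have a6 := k35 h a S θ m m1 (ex_eq (ex_mul hD (9 * 9216) s6) (by
      norm_num [bq, Int.toNat, div_pow]; field_simp; ring))
    rw [zl, if_neg (by norm_num)]
    exact ⟨by linear_combination a1, by linear_combination a2, by linear_combination a3.1,
      by linear_combination a3.2, by linear_combination a6.1, by linear_combination a6.2⟩

end Pool.Agent.MP_05b4bd_ag.XO
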