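import Pool.Agent.MP_05b4bd_ag.ex.Bas

/-! The equation of the first variation in the small disc. -/

namespace Pool.Agent.MP_05b4bd_ag.XO

open PowerSeries LaurentSeries HC
open ES hiding Gen Ob Inf
open ES.U (TM Cr hom)
open PC3 (Fm fm d1 DF sub2 pb mapF Van CenK)
open RV (fa fb Frm Good Rho Fac Dk In Cg ExoK SymK RRc Ob NoF)

namespace Zvar

section Rings
variable {T : Type} [CommRing T] {V : T →+ T}

theorem ofn (hV : IsDer V) (n : ℕ) [n.AtLeastTwo] : V (ofNat(n)) = 0 := by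
  rw [← Nat.cast_ofNat]
  exact hV.natCast _

theorem xi (hV : IsDer V) {b : ℕ} (hb : b = 1 ∨ b = 3) {A : T} (hA : V A = 0) (l : T) :
    4 * l * V (A * t3 b 1 l) - 3 * b * (A * t3 b 1 l) * V l = V (45 * A * (l - 1) ^ 4) := by
  have hm : ∀ a b, V (a * b) = V a * b + a * V b := hV
  rcases hb with rfl | rfl
  · simp only [t3, if_true, map_add, map_sub, hm, hV.pow, ofn hV, hV.one, hA]
    push_cast
    ring
  · have e : ¬ (3 : ℕ) = 1 := by omega
    simp only [t3, if_neg e, map_add, map_sub, hm, hV.pow, ofn hV, hV.one, hA]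
    push_cast
    ring

theorem t3_hom (b : ℕ) (z l : T) : z ^ 3 * t3 b 1 l = t3 b z (z * l) := by
  unfold t3
  split_ifs <;> ring

/-- The numerator of the perturbation. -/
def E (V : T → T) (s0 s2 : T) (a : Fin 5 → T) (p z : T) : T :=
  (s0 * z ^ 2 + s2 + qv a p) * (z * V p - p * V z) - qu a p * V z

theorem dform (hV : IsDer V) {a : Fin 5 → T} (ha : ∀ i, V (a i) = 0) {z zi : T} (h : z * zi = 1)
    (s0 s2 p : T) : zi ^ 2 * E V s0 s2 a p z =
      z ^ 3 * ((s0 * zi + s2 * zi ^ 3) * V (p * zi) + V (q4 a zi (p * zi))) := by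
  have hm : ∀ a b, V (a * b) = V a * b + a * V b := hV
  have e1 : V (p * zi) = zi * V p - p * zi ^ 2 * V z := by
    rw [hm, hV.inv h]
    ring
  have e2 : V (q4 a zi (p * zi)) = zi ^ 3 * qu a p * V zi + zi ^ 3 * qv a p * V (p * zi) := by
    generalize hw : p * zi = w
    simp only [q4, map_add, hm, hV.pow, ha]
    rw [← hw, qu, qv]
    push_cast
    ring
  rw [e2, e1, hV.inv h, E]
  linear_combination (s0 * p * V z * z ^ 2 * zi ^ 2 -
    (s2 + qv a p) * V p * z * zi ^ 2 * (z * zi + 1) +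
    ((s2 + qv a p) * p + qu a p) * V z * zi ^ 2 * ((z * zi) ^ 2 + z * zi + 1)) * h

theorem E_mul (V : T → T) (τ s0 s2 : T) (a : Fin 5 → T) (p z : T) :
    E V (τ * s0) (τ * s2) (fun i => τ * a i) p z = τ * E V s0 s2 a p z := by
  simp only [E, qu, qv]
  ring

theorem q4_sp {y : Pa T} {A : T} {a : Fin 5 → T} (h : Sp y A a) (u v : T) :
    q4 y.q u v - q4 a u v = 45 * A * (y.l u v - 1) ^ 4 := by
  have e := q4_m4 y.m (52 * y.n) u v
  simp only [q4] at e ⊢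
  rw [h 0, h 1, h 2, h 3, h 4, Pa.l]
  linear_combination 45 * A * e

theorem sp_map {B : Type} [CommRing B] (φ : T →+* B) {y : Pa T} {A : T} {a : Fin 5 → T}
    (h : Sp y A a) : Sp (y.map φ) (φ A) fun i => φ (a i) := by
  intro i
  have e : φ (m4 y.m (52 * y.n) i) = m4 (φ y.m) (52 * φ y.n) i := by
    fin_cases i <;> simp [m4, map_ofNat]
  change φ (y.q i) = φ (a i) + 45 * φ A * m4 (φ y.m) (52 * φ y.n) i
  rw [h i, map_add, map_mul, map_mul, e, map_ofNat]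

theorem t3_mem (S : Subring T) (b : ℕ) {z l : T} (hz : z ∈ S) (hl : l ∈ S) : t3 b z l ∈ S := by
  have h (n : ℕ) [n.AtLeastTwo] : (ofNat(n) : T) ∈ S := ofNat_mem S n
  unfold t3
  split_ifs
  · exact add_mem (sub_mem (add_mem (mul_mem (h 60) (pow_mem hz 3))
      (mul_mem (mul_mem (h 540) (pow_mem hz 2)) hl))
      (mul_mem (mul_mem (h 108) hz) (pow_mem hl 2))) (mul_mem (h 20) (pow_mem hl 3))
  · exact add_mem (add_mem (sub_mem (mul_mem (h 20) (pow_mem hz 3))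
      (mul_mem (mul_mem (h 108) (pow_mem hz 2)) hl))
      (mul_mem (mul_mem (h 540) hz) (pow_mem hl 2))) (mul_mem (h 60) (pow_mem hl 3))

theorem fin [IsDomain T] (b : ℕ) (a : Fin 5 → T) {S θ x1 x2 m n s z d d' vz : T} (hz : z ≠ 0)
    (hd : z * (z + m + n * s) * d = (S + qv a s) * (z - s * vz) - qu a s * vz)
    (hv : 3 * (1 + s ^ 2) * (4 * z + (4 - b) * (m + n * s)) * vz =
      z * (8 * s * (z + m + n * s) - 3 * b * n * (1 + s ^ 2)))
    (h : (z + m + n * s) ^ 2 * (4 * z + (4 - b) * (m + n * s)) * (3 * (1 + s ^ 2) * (d' - d) -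
      4 * (x1 - 2 * x2 * s) * t3 b z (z + m + n * s)) + θ * rz b s z m n = 0) :
    (z + m + n * s) ^ 2 * (4 * z + (4 - b) * (m + n * s)) * (3 * (1 + s ^ 2)) * d' =
      Tz b a S θ x1 x2 m n s z := by
  refine mul_left_cancel₀ hz ?_
  rw [Tz]
  linear_combination z * h +
    (z + m + n * s) * (3 * (1 + s ^ 2) * (4 * z + (4 - b) * (m + n * s))) * hd -
    (z + m + n * s) * (qu a s + s * (S + qv a s)) * hv

theorem vz {b w s z n m m1 v z1 n1 : T} (cub : z ^ 3 = 1 + s ^ 2) (nz : n * z = m + m1 * s)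
    (e1 : 3 * z ^ 2 * z1 = 2 * s) (e2 : n1 * z + n * z1 = m1)
    (v0 : v * (4 * w + (4 - b) * n) = -(b * n1)) :
    3 * (1 + s ^ 2) * (4 * (z * w) + (4 - b) * (m + m1 * s)) * (z1 * w + v * (z * w)) =
      z * w * (8 * s * (z * w + m + m1 * s) - 3 * b * m1 * (1 + s ^ 2)) := by
  rw [← cub, add_assoc (z * w), ← nz, ← e2]
  linear_combination (z ^ 2 * (4 * w + (4 - b) * n) * w + b * n * z ^ 2 * w) * e1 +
    3 * z ^ 5 * w * v0

end Rings

section Core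
variable {k K : Type} [Field k] [Field K]

theorem ccm (ι : k →+* K) (f : k⟦X⟧) : cc (map ι f) = ι (cc f) := by
  rw [← coeff_zero_eq_constantCoeff_apply, coeff_map, coeff_zero_eq_constantCoeff_apply]

theorem co_eq {f g : k⟦X⟧} {j : ℕ} (h : f = X ^ j * g) : coeff j f = cc g := by
  rw [h, ← coeff_zero_eq_constantCoeff_apply, ← coeff_X_pow_mul g j 0, zero_add]

theorem sh {f g h : k⟦X⟧} {e j : ℕ} (he : 1 ≤ e) (h1 : f = X ^ e * g) (h2 : X ^ j ∣ h * g) :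
    ∃ r, h * f = X ^ j * (X * r) := by
  obtain ⟨r, hr⟩ := h2
  obtain ⟨e, rfl⟩ := Nat.exists_eq_add_of_le he
  exact ⟨X ^ e * r, by rw [h1]; linear_combination X ^ (1 + e) * hr⟩

theorem core [CharZero K] (h1 : FormStmt) (h2 : ModStmt) {b : ℕ} (M : Mo b) (S : Subring K)
    (ι : k →+* K) {V : K⟦X⟧ →+ K⟦X⟧} {c : k} {x y : Pa k⟦X⟧} {ax : k⟦X⟧} {a' : Fin 5 → k⟦X⟧}
    {p z zi σ : K⟦X⟧} {s z0 : K} {e j : ℕ} (hV : IsDer V) (hX : V X = 0)
    (hφ : ∀ r, V (map ι r) = 0) (hι : ∀ r, ι r ∈ S) (hq : ∀ a : ℚ, (a : K) ∈ S)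
    (hi : z * zi = 1) (mp : In S p) (mz : In S z) (p0 : cc p = s) (hz0 : cc z = z0)
    (σ0 : cc σ = s) (eq : e6 M.S (y.map (map ι)) p z = σ) (hσ : V σ = 1)
    (fo : Fo (map ι) (Om M y) V zi (p * zi))
    (el0 : z0 + ι (cc y.m) + ι (52 * cc y.n) * s ≠ 0)
    (J0 : 4 * z0 + (4 - b) * (ι (cc y.m) + ι (52 * cc y.n) * s) ≠ 0)
    (Q0 : 3 * (1 + s ^ 2) ≠ 0) (Qi : (3 * (1 + s ^ 2))⁻¹ ∈ S) (vp : cc (V p) = 1)
    (vz : 3 * (1 + s ^ 2) * (4 * z0 + (4 - b) * (ι (cc y.m) + ι (52 * cc y.n) * s)) * cc (V z) =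
      z0 * (8 * s * (z0 + ι (cc y.m) + ι (52 * cc y.n) * s) -
        3 * b * ι (52 * cc y.n) * (1 + s ^ 2)))
    (hS : Sm c x) (he : 1 ≤ e) (hc : Sc (X ^ e) x y) (hp : Sp y ax a') (hax : X ∣ ax) (hj : 1 ≤ j)
    (hZ : Zl j y ax a') (hO : Ol j x) :
    ∃ ρ d', In S ρ ∧ cc ρ = z0 ^ (4 - b) * (z0 + ι (cc y.m) + ι (52 * cc y.n) * s) ^ b ∧
      8 * σ * ρ - (y.map (map ι)).Λ σ ρ * V ρ + X ^ j * d' * ρ = 0 ∧
      (z0 + ι (cc y.m) + ι (52 * cc y.n) * s) ^ 2 *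
        (4 * z0 + (4 - b) * (ι (cc y.m) + ι (52 * cc y.n) * s)) * (3 * (1 + s ^ 2)) * cc d' =
      Tz b (fun i => ι (coeff j (a' i))) (ι (coeff j y.s2))
        (ι (16 * 13 ^ 7 * coeff j (y.μ * y.c ^ 3 * y.n ^ 7))) (ι (coeff j (y.μ * ax)))
        (ι (coeff j (y.ν * ax))) (ι (cc y.m)) (ι (52 * cc y.n)) s z0 := by
  obtain ⟨⟨X1, hX1⟩, ⟨X2, hX2⟩, ⟨s2, hs2⟩, ha, ⟨Θ, hΘ⟩⟩ := hZ
  choose a1 ha1 using ha
  obtain ⟨o1, o2, ⟨ν1, hν⟩, o4⟩ := hO
  rw [← hc.ν] at hν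
  rw [← hc.μ] at o1 o2
  have he2 : 1 ≤ e * 2 := by omega
  obtain ⟨k1, hk1⟩ := sh he hc.κ o1
  obtain ⟨g1, hg1⟩ := sh he2 (hc.g.trans (by rw [← pow_mul])) o2
  obtain ⟨s1, hs1⟩ := sh (h := 1) he hc.s0 (by rwa [one_mul])
  rw [one_mul] at hs1
  have z2 {f g : k⟦X⟧} {e : ℕ} (he : 1 ≤ e) (h : f = X ^ e * g) : cc f = 0 := by
    rw [h, map_mul, cc_X_pow he, zero_mul]
  have cc0 : cc y.c = 0 := z2 he2 (hc.c.trans (by rw [← pow_mul]))
  have cκ : cc y.κ = 0 := z2 he hc.κ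
  have cg : cc y.g = 0 := z2 he2 (hc.g.trans (by rw [← pow_mul]))
  have cμ : cc y.μ = 0 := by rw [hc.μ]; exact X_dvd_iff.1 hS.μ
  have cν : cc y.ν = 0 := z2 hj hν
  have cA : cc ax = 0 := X_dvd_iff.1 hax
  rw [co_eq hX1, co_eq hX2, co_eq hs2, co_eq hΘ, funext fun i => congrArg ι (co_eq (ha1 i))]
  have hm (r : k⟦X⟧) : In S (map ι r) := fun n => by rw [coeff_map]; exact hι _
  have n52 : ι (52 * cc y.n) = 52 * ι (cc y.n) := by rw [map_mul, map_ofNat]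
  have cφ := ccm ι
  generalize hφX : (map ι : k⟦X⟧ →+* K⟦X⟧) = φ at *
  have φX : φ X = X := by rw [← hφX]; exact map_X _
  have tr {f g : k⟦X⟧} (h : f = X ^ j * g) : φ f = X ^ j * φ g := by
    rw [h, map_mul, map_pow, φX]
  have Yc : (y.map φ).c = φ y.c := rfl
  have Yμ : (y.map φ).μ = φ y.μ := rfl
  have Ym : (y.map φ).m = φ y.m := rfl
  have Yn : (y.map φ).n = φ y.n := rfl
  have Yν : (y.map φ).ν = φ y.ν := rfl
  have hsp := sp_map φ hp
  have cel : cc ((y.map φ).el p z) = z0 + ι (cc y.m) + ι (52 * cc y.n) * s := by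
    rw [Pa.el, Ym, Yn, n52]
    simp only [map_add, map_mul, map_ofNat, cφ, p0, hz0]
  have hl : (y.map φ).l zi (p * zi) = (y.map φ).el p z * zi := by
    rw [Pa.l, Pa.el]
    linear_combination -hi
  obtain ⟨eli, heli⟩ : ∃ eli, (y.map φ).el p z * eli = 1 :=
    ⟨_, PowerSeries.mul_inv_cancel _ (by rw [cel]; exact el0)⟩
  have cJ : cc (M.J b (y.map φ) p z) =
      4 * z0 + (4 - b) * (ι (cc y.m) + ι (52 * cc y.n) * s) := by
    obtain ⟨⟨r1, e1⟩, r2, e2⟩ := M.sp (y.map φ) p z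
    rw [Mp.J, e1, e2, Yc]
    simp only [map_add, map_sub, map_mul, map_ofNat, map_natCast, map_one, cel, cφ, cc0, hz0,
      map_zero]
    ring
  have cΛ (r : K⟦X⟧) : cc ((y.map φ).Λ σ r) = 3 * (1 + s ^ 2) := by
    rw [Pa.Λ, Yc, Yμ, Yν]
    simp only [map_add, map_sub, map_mul, map_pow, map_ofNat, map_one, cφ, cc0, cμ, cν, σ0,
      map_zero]
    ring
  have hE : E V (φ y.s0) (φ y.s2) (fun i => φ (a' i)) p z =
      X ^ j * E V (φ (X * s1)) (φ s2) (fun i => φ (a1 i)) p z := by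
    rw [tr hs1, tr hs2, funext fun i => tr (ha1 i), E_mul]
  have H := h1 b M _ _ φ V y (fun i => φ (a' i)) p z zi (φ ax * t3 b 1 ((y.map φ).l zi (p * zi)))
    (X ^ j * (eli * zi * E V (φ (X * s1)) (φ s2) (fun i => φ (a1 i)) p z)) hV hφ hi fo
    (by rw [q4_sp hsp]; exact xi hV M.hb (hφ _) _)
    (by
      rw [← dform hV (fun i => hφ (a' i)) hi, hE, hl]
      linear_combination (X ^ j * zi ^ 2 * E V (φ (X * s1)) (φ s2) (fun i => φ (a1 i)) p z) * heli)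
  have hΞ : z ^ 3 * (φ ax * t3 b 1 ((y.map φ).l zi (p * zi))) =
      φ ax * t3 b z ((y.map φ).el p z) := by
    rw [mul_left_comm, t3_hom, hl, mul_left_comm, hi, mul_one]
  rw [hΞ] at H
  have mel : In S ((y.map φ).el p z) := by
    rw [Pa.el, Ym, Yn, in_iff]
    exact add_mem (add_mem ((in_iff _ _).1 mz) ((in_iff _ _).1 (hm _)))
      (mul_mem (mul_mem (ofNat_mem _ 52) ((in_iff _ _).1 (hm _))) ((in_iff _ _).1 mp))
  have mg : In S (φ y.κ * z + φ y.g * z ^ 2 + φ ax * t3 b z ((y.map φ).el p z)) := by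
    rw [in_iff]
    exact add_mem (add_mem (mul_mem ((in_iff _ _).1 (hm _)) ((in_iff _ _).1 mz))
      (mul_mem ((in_iff _ _).1 (hm _)) (pow_mem ((in_iff _ _).1 mz) 2)))
      (mul_mem ((in_iff _ _).1 (hm _)) (t3_mem _ b ((in_iff _ _).1 mz) ((in_iff _ _).1 mel)))
  have t1 := tr hX1
  have t2 := tr hX2
  have t4 := tr hΘ
  have t5 := tr hk1
  have t6 := tr hg1
  have t7 := tr hν
  simp only [map_mul, map_pow, φX] at t1 t2 t4 t5 t6
  obtain ⟨ρ, d', r, m1, m2, m3, m4⟩ := h2 b M K S V (y.map φ) p z zi σ _ _ j hV hX (hφ _) (hφ _)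
    (hφ _) (hφ _) (hφ _) hi eq hσ (by rw [cel]; exact el0) (by rw [cJ]; exact J0)
    (by rw [cΛ]; exact Q0) H
    (X_dvd_iff.2 (by rw [Yc, map_mul, cφ, cc0, map_zero, zero_mul]))
    (X_dvd_iff.2 (by rw [Yμ, cφ, cμ, map_zero])) (X_dvd_iff.2 (by rw [Yν, cφ, cν, map_zero]))
    (X_dvd_iff.2 (by simp only [map_add, map_mul, cφ, cκ, cg, cA, map_zero, zero_mul, add_zero]))
    hj (dvd_mul_right _ _)
    ⟨X * φ k1 * z + X * φ g1 * z ^ 2 + φ X1 * t3 b z ((y.map φ).el p z), by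
      rw [Yμ]
      linear_combination z * t5 + z ^ 2 * t6 + t3 b z ((y.map φ).el p z) * t1⟩
    (by rw [Yν, t7, mul_assoc]; exact dvd_mul_right _ _)
    (by rw [Yν, t7, mul_assoc]; exact dvd_mul_right _ _) ⟨φ Θ, t4⟩ hq mp mz (hm _) (hm _) (hm _)
    (hm _) (hm _) mg (by rw [cΛ]; exact Qi)
  refine ⟨ρ, d', m1, ?_, m3, ?_⟩
  · have := X_dvd_iff.1 m2
    rw [map_sub, sub_eq_zero, Pa.ρ, map_mul, map_pow, map_pow] at this
    rw [← cel, ← hz0]
    exact this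
  rw [Yc, Yμ, Yν, Ym, Yn] at m4
  generalize hd : eli * zi * E V (φ (X * s1)) (φ s2) (fun i => φ (a1 i)) p z = d1 at m4
  have hd1 : z * (y.map φ).el p z * d1 = E V (φ (X * s1)) (φ s2) (fun i => φ (a1 i)) p z := by
    rw [← hd]
    linear_combination E V (φ (X * s1)) (φ s2) (fun i => φ (a1 i)) p z *
      ((y.map φ).el p z * eli * hi + heli)
  have cΛ' := cΛ ((y.map φ).ρ b p z)
  generalize (y.map φ).Λ σ ((y.map φ).ρ b p z) = Λ at m4 cΛ'
  generalize M.J b (y.map φ) p z = J at m4 cJ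
  generalize (y.map φ).el p z = el at m4 cel hd1
  have m5 : X ∣ el ^ 2 * J * (Λ * (d' - d1) - 8 * σ * φ ν1 * (p ^ 2 - σ ^ 2) -
      4 * (X * φ k1 * z + X * φ g1 * z ^ 2 + φ X1 * t3 b z el -
        2 * σ * φ ν1 * (φ y.κ * z + φ y.g * z ^ 2) - 2 * σ * φ X2 * t3 b z el)) +
      φ Θ * (16 * 13 ^ 7 * rz b p z (φ y.m) (52 * φ y.n) + φ y.c * r) := by
    refine (mul_dvd_mul_iff_left (pow_ne_zero j X_ne_zero)).1 ?_
    rw [← pow_succ]
    refine m4.trans (dvd_of_eq ?_)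
    linear_combination (16 * 13 ^ 7 * rz b p z (φ y.m) (52 * φ y.n) + φ y.c * r) * t4 +
      el ^ 2 * J * ((8 * σ * (φ y.κ * z + φ y.g * z ^ 2) - 8 * σ * (p ^ 2 - σ ^ 2)) * t7 -
        4 * z * t5 - 4 * z ^ 2 * t6 - 4 * t3 b z el * t1 + 8 * σ * t3 b z el * t2)
  have m6 := X_dvd_iff.1 m5
  have m7 := congrArg cc hd1
  have hz : z0 ≠ 0 := by
    rw [← hz0]
    exact left_ne_zero_of_mul_eq_one (by rw [← map_mul, hi, map_one])
  simp only [map_add, map_sub, map_mul, map_pow, map_ofNat, map_t3, map_rz, cel, cJ, cΛ', cφ, p0,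
    σ0, hz0, cκ, cg, cc0, map_zero, constantCoeff_X] at m6
  simp only [E, qu, qv, map_add, map_sub, map_mul, map_pow, map_ofNat, cel, cφ, p0, hz0, vp,
    constantCoeff_X, map_zero] at m7
  refine fin b _ (d := cc d1) hz ?_ vz ?_
  · simp only [qu, qv, n52]
    linear_combination m7
  · simp only [map_mul, map_pow, map_ofNat]
    linear_combination m6

end Core

theorem iX_C {L : Type} [Field L] (a : L) : iX L (Polynomial.C a) = cL L a :=
  Polynomial.eval₂_C _ _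

theorem iX_X {L : Type} [Field L] : iX L Polynomial.X = wL L (-1) := Polynomial.eval₂_X _ _

end Zvar

open Zvar in
theorem zvarS (h1 : FormStmt) (h2 : ModStmt) (h3 : ZindStmt) (h4 : ZpolyStmt) (h5 : NexStmt) :
    ZvarStmt := by
  intro b M k L _ _ _ _ κ D s z n u c x y ax a' vb p z' zi ρ e j hX hZ hS he hc hp hax hj hl hO
  have _ : CharZero L := charZero_of_injective_ringHom κ.injective
  have _ : CharZero L⸨X⸩ := K3.charL
  obtain ⟨z0, hDz, -, hn⟩ := h5 k L κ D s z hX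
  have Dn := hn _ _ n hZ.n0 hZ.nz
  have hD := hX.der
  have hb : b ≤ 4 := by rcases M.hb with h | h <;> omega
  have e1 : 3 * z ^ 2 * D z = 2 * s := by
    rw [hDz]
    field_simp
  have e2 : D n * z + n * D z = κ (52 * cc y.n) := by
    have := congrArg D hZ.nz
    rwa [hD, map_add, hX.con, hD, hX.con, hX.ds, zero_mul, zero_add, zero_add, mul_one] at this
  have hjP : iX L (jP (4 - b) n) = 4 * wL L (-1) + (4 - b) * cL L n := by
    rw [jP, Nat.cast_sub hb]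
    simp only [map_add, map_sub, map_mul, map_ofNat, map_natCast, iX_C, iX_X, Nat.cast_ofNat]
  have hrP : iX L (rP (4 - b) b n) = wL L (-1) ^ (4 - b) * (wL L (-1) + cL L n) ^ b := by
    simp only [rP, map_add, map_mul, map_pow, iX_C, iX_X]
  have cub : cL L z ^ 3 = 1 + cL L s ^ 2 := by
    rw [← map_pow, hX.cub, map_add, map_one, map_pow]
  have nz : cL L n * cL L z = ((cL L).comp κ) (cc y.m) +
      ((cL L).comp κ) (52 * cc y.n) * cL L s := by
    rw [← map_mul, hZ.nz, map_add, map_mul]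
    rfl
  have cz : cL L z ≠ 0 := (map_ne_zero _).2 z0
  have hel : cL L z * wL L (-1) + ((cL L).comp κ) (cc y.m) +
      ((cL L).comp κ) (52 * cc y.n) * cL L s = cL L z * (wL L (-1) + cL L n) := by
    rw [add_assoc, ← nz]
    ring
  have hJ : 4 * (cL L z * wL L (-1)) + (4 - b) * (((cL L).comp κ) (cc y.m) +
      ((cL L).comp κ) (52 * cc y.n) * cL L s) = cL L z * iX L (jP (4 - b) n) := by
    rw [← nz, hjP]
    ring
  have n1 : wL L (-1) + cL L n ≠ 0 := by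
    rw [← iX_X, ← iX_C, ← map_add]
    exact (map_ne_zero_iff _ iX_inj).2 (Polynomial.X_add_C_ne_zero n)
  have n2 : iX L (jP (4 - b) n) ≠ 0 := by
    refine (map_ne_zero_iff _ iX_inj).2 fun h => ?_
    have := congrArg (fun f => Polynomial.coeff f 1) h
    simp [jP] at this
  have mS (a : L) : cL L a ∈ (iX L).range := ⟨_, iX_C a⟩
  have hσ : VA D vb (C (cL L s)) = 1 := by
    rw [coe_VA, ← map_C, VT_cL, cw_C, hX.ds, map_one, map_one]
  obtain ⟨ρ2, d', m1, m2, m3, m4⟩ := core h1 h2 M (iX L).range ((cL L).comp κ) (V := VA D vb)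
    (isDer_VA hD vb) (VT_X hD vb) (VT_iK hX.con vb) (fun r => mS _)
    (fun a => by rw [← map_ratCast (cL L)]; exact mS _) hZ.inv hZ.mp hZ.mz hZ.p0 hZ.z0
    (constantCoeff_C _) hZ.eq hσ hZ.fo (by rw [hel]; exact mul_ne_zero cz n1)
    (by rw [hJ]; exact mul_ne_zero cz n2)
    (by rw [← cub]; exact mul_ne_zero three_ne_zero (pow_ne_zero _ cz))
    (by
      rw [← cub, ← map_pow, ← map_ofNat (cL L) 3, ← map_mul, ← map_inv₀]
      exact mS _)
    (by rw [coe_VA, cc_VT', hZ.p0, cwL_cL, thL_cL, hX.ds, map_one, mul_zero, sub_zero])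
    (by
      have e : cc (VA D vb z') = cL L (D z) * wL L (-1) + cc vb * (cL L z * wL L (-1)) := by
        rw [coe_VA, cc_VT', hZ.z0, hD.coefL, isDer_thL, cwL_cL, thL_cL, cwL_wL hD.one, thL_wL]
        push_cast
        ring
      rw [e]
      refine vz (n1 := cL L (D n)) cub nz ?_ ?_ ?_
      · simpa only [map_mul, map_pow, map_ofNat] using congrArg (cL L) e1
      · rw [← map_mul, ← map_mul, ← map_add, e2]
        rfl
      · rw [← hjP, hZ.v0, map_mul, map_natCast])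
    hS he hc hp hax hj hl hO
  have cc0 : cc y.c = 0 := by
    rw [hc.c, ← pow_mul, map_mul, cc_X_pow (by omega), zero_mul]
  have cμ : cc y.μ = 0 := by rw [hc.μ]; exact X_dvd_iff.1 hS.μ
  have cν : cc y.ν = 0 := by rw [hc.ν]; exact X_dvd_iff.1 hS.ν
  obtain ⟨y0, y1, Γ, hy, hΓ⟩ := h3 L D (4 - b) b j n z s u vb ρ ρ2 d'
    (3 * (1 + C s ^ 2) + map κ y.μ * C s - map κ y.ν * C s ^ 2) (map κ y.c ^ 2) hD (by omega)
    (fun y y1 Γ hy h => (h4 k L κ D b n 0 y y1 Γ hD hX.con hX.cst Dn M.hb hy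
      (by rw [h, map_zero, zero_mul, map_zero, zero_mul])).2) z0 hZ.u0
    (by
      rw [hD.pow]
      push_cast
      linear_combination 4 * z ^ 4 * e1) hZ.v0 hZ.mρ m1 hZ.r0
    (by
      rw [m2, hel, map_mul, hrP, iX_C, map_pow, mul_pow, mul_pow]
      conv_rhs => rw [show cL L z ^ 4 = cL L z ^ (4 - b) * cL L z ^ b by
        rw [← pow_add, Nat.sub_add_cancel hb]]
      ring) hZ.ap
    (by
      simp only [map_add, map_sub, map_mul, map_pow, map_ofNat, map_one, ccm, cμ, cν, map_zero,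
        constantCoeff_C, hX.cub]
      ring)
    (X_dvd_iff.2 (by rw [map_pow, ccm, cc0, map_zero, zero_pow two_ne_zero])) hj
    (by
      rw [← m3, Pa.Λ]
      simp only [map_add, map_sub, map_mul, map_pow, map_ofNat, map_one, map_C, ← iK_eq]
      rfl)
  refine ⟨y0, y1, Γ, hy, iX_inj ?_⟩
  rw [hel, hJ, ← cub] at m4
  simp only [RingHom.comp_apply] at m4
  simp only [map_mul, map_pow, map_ofNat, iX_C] at hΓ
  rw [map_mul (iX L) (rP _ _ _), map_Tz]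
  simp only [iX_C, map_mul (iX L), map_pow (iX L), map_add (iX L), iX_X]
  rw [← m4, map_mul, map_pow, map_ofNat]
  linear_combination 3 * cL L z ^ 6 * (wL L (-1) + cL L n) ^ 2 * hΓ

end Pool.Agent.MP_05b4bd_ag.XO
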