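import Pool.Agent.MP_05b4bd_ag.rr.Final
import Pool.Agent.MP_05b4bd_ag.ex.Cenx
import Pool.Agent.MP_05b4bd_ag.ex.Cfr
import Pool.Agent.MP_05b4bd_ag.ex.Corx
import Pool.Agent.MP_05b4bd_ag.ex.Dict
import Pool.Agent.MP_05b4bd_ag.ex.Etx
import Pool.Agent.MP_05b4bd_ag.ex.Fin
import Pool.Agent.MP_05b4bd_ag.ex.Fold
import Pool.Agent.MP_05b4bd_ag.ex.Form
import Pool.Agent.MP_05b4bd_ag.ex.Frm2
import Pool.Agent.MP_05b4bd_ag.ex.Gsc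
import Pool.Agent.MP_05b4bd_ag.ex.Ift
import Pool.Agent.MP_05b4bd_ag.ex.Jac
import Pool.Agent.MP_05b4bd_ag.ex.Lead
import Pool.Agent.MP_05b4bd_ag.ex.Lst
import Pool.Agent.MP_05b4bd_ag.ex.Mainx
import Pool.Agent.MP_05b4bd_ag.ex.Mex
import Pool.Agent.MP_05b4bd_ag.ex.Minx
import Pool.Agent.MP_05b4bd_ag.ex.Mo1
import Pool.Agent.MP_05b4bd_ag.ex.Mo3
import Pool.Agent.MP_05b4bd_ag.ex.Mod
import Pool.Agent.MP_05b4bd_ag.ex.Nat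
import Pool.Agent.MP_05b4bd_ag.ex.Nex
import Pool.Agent.MP_05b4bd_ag.ex.Nrm
import Pool.Agent.MP_05b4bd_ag.ex.O0
import Pool.Agent.MP_05b4bd_ag.ex.O1
import Pool.Agent.MP_05b4bd_ag.ex.Oind
import Pool.Agent.MP_05b4bd_ag.ex.Om
import Pool.Agent.MP_05b4bd_ag.ex.Omain
import Pool.Agent.MP_05b4bd_ag.ex.Oset
import Pool.Agent.MP_05b4bd_ag.ex.Pipe
import Pool.Agent.MP_05b4bd_ag.ex.Rat
import Pool.Agent.MP_05b4bd_ag.ex.Slot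
import Pool.Agent.MP_05b4bd_ag.ex.Sx1
import Pool.Agent.MP_05b4bd_ag.ex.Sx2
import Pool.Agent.MP_05b4bd_ag.ex.Sx3
import Pool.Agent.MP_05b4bd_ag.ex.Unx
import Pool.Agent.MP_05b4bd_ag.ex.Vanx
import Pool.Agent.MP_05b4bd_ag.ex.Xfr
import Pool.Agent.MP_05b4bd_ag.ex.Xi
import Pool.Agent.MP_05b4bd_ag.ex.Xif
import Pool.Agent.MP_05b4bd_ag.ex.Xmain
import Pool.Agent.MP_05b4bd_ag.ex.Xnf
import Pool.Agent.MP_05b4bd_ag.ex.Zind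
import Pool.Agent.MP_05b4bd_ag.ex.Zlin
import Pool.Agent.MP_05b4bd_ag.ex.Zlog
import Pool.Agent.MP_05b4bd_ag.ex.Zm
import Pool.Agent.MP_05b4bd_ag.ex.Zmain
import Pool.Agent.MP_05b4bd_ag.ex.Zpoly
import Pool.Agent.MP_05b4bd_ag.ex.Zset
import Pool.Agent.MP_05b4bd_ag.ex.Zsl
import Pool.Agent.MP_05b4bd_ag.ex.Zvar

/-! The components through `df` for every Morse polynomial transversal to infinity. -/

namespace Pool.Agent.MP_05b4bd_ag.XO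

open MvPolynomial HC
open RV hiding Ob

theorem nexA : NexStmt := nexS lstS ratS

theorem vanxA : VanxStmt := vanxS unxS UM.vanfS

theorem xmainA : XmainStmt :=
  xmainS xnfS (xfrS natS gscS (frm2S chgaS chgbS trfS)) (xifS iftS jacS omS) cfrS
    (pipeS (p0aS nprA ES.amalgS descS vandS) p0bA deckrS etxS gscS) foldS (leadS lstS nexA) splS
    (zsetS zmS dictS omS) (osetS dictS omS)
    (zmainS (zvarS formS (modS nrmS) zindS zpolyS nexA) (zslS slotS nexA) zlinS (zlogS zpolyS nexA))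
    (omainS xiS formS (modS nrmS) (oindS (o0S nexA) (o1S nexA) ES.cmpS)) (finS omS) vanxA mo1S mo3S

theorem rigxA : RigxStmt :=
  rigxS obsS (baserS ES.derAlgS obsS) mkiS runA admS nrfS (frameS chgaS chgbS trfS)
    (indS (pkS mkiS runA admS p0bA etaS obsS) obsS (frameS chgaS chgbS trfS)
      (keyS (symS evsS) (RV.dictS ordS) thetaS f1S cvA ordS ker0S evsS) (wd1S UM.grS)
      (wd2S UM.grS ker0S) mdl0S (mdl1S mdl0S) (mdl2S mdl0S) (f2aS f2sS) (f2bS ordS) rrcS) rrcS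
    xmainA vanxA

theorem main_ex (d : ℕ) (hd : 3 ≤ d) (f : Poly) (hf : f.totalDegree = d)
    (hs : Squarefree (homogeneousComponent d f)) (hM : Morse f) (Z : Set Form) :
    IsComponent (M d) Z ∧ dform f ∈ Z ↔ Z = zcl (L ![d + 1]) ∨ Z = zcl (L ![1, d]) ∨
      (∃ a b, 1 ≤ a ∧ 1 ≤ b ∧ a.Coprime b ∧ Rad d (a + b) f ∧ Z = zcl (RR d a b)) ∨
      d = 3 ∧ Exo f ∧ (Z = zcl (EX 1) ∨ Z = zcl (EX 3)) ∨
      dform f ∈ Z ∧ (Z = zcl (L ![1, 1, d - 1]) ∨ Z = zcl (L ![2, d - 1]) ∨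
        ∃ n, d ≤ 2 * n + 1 ∧ n < d ∧ Z = zcl (PN d n)) := by
  have t := UM.morS d f hd (DL_iff.2 hf.le) (UM.sqfS ℂ d _ (by omega) (hc_hom d f) hs) hM
  have key := fun hZ => mainX (minxS (ES.arcS ES.npS) ES.derAlgS (corxS portA rigxA rrcS vanxA)
    UM.vanfS (vanrS univS) symdS vanxA) memA (UM.sepU memA UM.irpS UM.witS)
    (memrS (cenrS flowaS cenaS) univS) (irrrS univS) (sep1S univS UM.irpS) (sep2S univS)
    (sep3S univS lineS) admS symdS (mexS (cenxS flowaS cenaS) unxS) unxS (sx1S unxS)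
    (sx2S unxS UM.irpS) (sx3S univS) hd t (Z := Z) hZ
  constructor
  · rintro ⟨h, hZ⟩
    obtain ⟨W, ((rfl | rfl | rfl | rfl | ⟨n, h1, h2, rfl⟩) | ⟨a, b, h1, h2, h3, h4, rfl⟩) |
      ⟨h1, h2, rfl | rfl⟩, e⟩ := (key hZ).1 h
    exacts [.inl e, .inr (.inl e), .inr (.inr (.inr (.inr ⟨hZ, .inl e⟩))),
      .inr (.inr (.inr (.inr ⟨hZ, .inr (.inl e)⟩))),
      .inr (.inr (.inr (.inr ⟨hZ, .inr (.inr ⟨n, h1, h2, e⟩)⟩))),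
      .inr (.inr (.inl ⟨a, b, h1, h2, h3, h4, e⟩)),
      .inr (.inr (.inr (.inl ⟨h1, h2, .inl e⟩))), .inr (.inr (.inr (.inl ⟨h1, h2, .inr e⟩)))]
  · rintro (e | e | ⟨a, b, h1, h2, h3, h4, e⟩ | ⟨h1, h2, e | e⟩ | ⟨hZ, e | e | ⟨n, h1, h2, e⟩⟩)
    · have hZ : dform f ∈ Z := e ▸ subset_zcl _ (dform_mem_L (i := 0) (Nat.le_succ d) hf.le)
      exact ⟨(key hZ).2 ⟨_, .inl (.inl (.inl rfl)), e⟩, hZ⟩
    · have hZ : dform f ∈ Z := e ▸ subset_zcl _ (dform_mem_L (i := 1) le_rfl hf.le)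
      exact ⟨(key hZ).2 ⟨_, .inl (.inl (.inr (.inl rfl))), e⟩, hZ⟩
    · have hZ : dform f ∈ Z := e ▸ subset_zcl _ (memD admS univS rrcS hd t h1 h2 h4)
      exact ⟨(key hZ).2 ⟨_, .inl (.inr ⟨a, b, h1, h2, h3, h4, rfl⟩), e⟩, hZ⟩
    · have hZ : dform f ∈ Z := e ▸ subset_zcl _ (vanxA.2.2.2 1 f h2)
      exact ⟨(key hZ).2 ⟨_, .inr ⟨h1, h2, .inl rfl⟩, e⟩, hZ⟩
    · have hZ : dform f ∈ Z := e ▸ subset_zcl _ (vanxA.2.2.2 3 f h2)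
      exact ⟨(key hZ).2 ⟨_, .inr ⟨h1, h2, .inr rfl⟩, e⟩, hZ⟩
    · exact ⟨(key hZ).2 ⟨_, .inl (.inl (.inr (.inr (.inl rfl)))), e⟩, hZ⟩
    · exact ⟨(key hZ).2 ⟨_, .inl (.inl (.inr (.inr (.inr (.inl rfl))))), e⟩, hZ⟩
    · exact ⟨(key hZ).2 ⟨_, .inl (.inl (.inr (.inr (.inr (.inr ⟨n, h1, h2, rfl⟩))))), e⟩, hZ⟩

end Pool.Agent.MP_05b4bd_ag.XO
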