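import Pool.Agent.MP_05b4bd_ag.ex.Bas

/-! Scaling of the derivation by a nonzero element of the function field. -/

namespace Pool.Agent.MP_05b4bd_ag.XO

open PowerSeries LaurentSeries HC
open ES hiding Gen Ob Inf
open ES.U (TM Cr hom)
open PC3 (Fm fm d1 DF sub2 pb mapF Van CenK)
open RV (fa fb Frm Good Rho Fac Dk In Cg ExoK SymK RRc Ob NoF)

namespace Gsc

variable {L U : Type} [Field L] [Field U]

theorem cw1 (θ : L) (D : L →+ L) :
    cw (sD θ D) = (AddMonoidHom.mulLeft (C θ : L⟦X⟧)).comp (cw D) :=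
  AddMonoidHom.ext fun f => cw_mulLeft θ D f

theorem cw2 (θ : L) (D : L →+ L) (f : AA L) : cw (cw (sD θ D)) f = CC θ * cw (cw D) f := by
  rw [cw1]
  exact cw_mulLeft _ _ f

theorem ext {D : L →+ L} {D1 : U →+ U} {i : L →+* U} (θ : L) (h : DExt D D1 i) :
    DExt (sD θ D) (sD (i θ) D1) i :=
  ⟨fun a b => by
    change i θ * D1 (a * b) = i θ * D1 a * b + a * (i θ * D1 b)
    rw [h.1]
    ring, fun c => by
    change i θ * D1 (i c) = i (θ * D c)
    rw [h.2, map_mul]⟩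

theorem fie {D1 : U →+ U} {i : L →+* U} {a b : AA L} {r : AA U} (θ : L)
    (h : FIe (cw D1) (mA i a) (X * mA i b) r) :
    FIe (cw (sD (i θ) D1)) (mA i a) (X * mA i (CC θ * b)) r := by
  unfold FIe at h ⊢
  rw [cw2, map_mul, mA_CC]
  linear_combination CC (i θ) * h

theorem hasFI {D : L →+ L} {a b : AA L} {m : ℕ} (θ : L) (h : RV.HasFI D a b m) :
    RV.HasFI (sD θ D) a (CC θ * b) m := by
  obtain ⟨U, _, D1, i, r, h1, h2, h3, h4⟩ := h
  exact ⟨U, _, sD (i θ) D1, i, r, ext θ h1, h2, fie θ h3, h4⟩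

theorem back {θ : L} (h : θ ≠ 0) (D : L →+ L) : sD θ⁻¹ (sD θ D) = D :=
  AddMonoidHom.ext fun c => inv_mul_cancel_left₀ h (D c)

theorem back2 {θ : L} (h : θ ≠ 0) (b : AA L) : CC θ⁻¹ * (CC θ * b) = b := by
  rw [← mul_assoc, ← map_mul, inv_mul_cancel₀ h, map_one, one_mul]

end Gsc

open Gsc in
theorem gscS : GscStmt := by
  intro k L _ _ κ D θ hθ
  refine ⟨fun a b n α h => ⟨fun e => h.nd ?_, fun m hm e => h.min m hm ?_, ?_⟩,
    fun a b ρ B n h => ⟨h.c0, h.ord, h.tB.mul_left _, ?_, ?_⟩, fun d P Q x y => ?_⟩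
  · have := e.mul_left (CC θ⁻¹)
    rwa [mul_left_comm, back2 hθ] at this
  · have := hasFI θ⁻¹ e
    rwa [back hθ, back2 hθ] at this
  · obtain ⟨U, _, D1, i, r, h1, h2, h3, h4, h5⟩ := h.ex
    refine ⟨U, _, sD (i θ) D1, i, r, ext θ h1, fun c e => h2 c ?_, h3, fie θ h4, h5⟩
    exact (mul_eq_zero.1 e).resolve_left ((map_ne_zero i).2 hθ)
  · rw [map_mul, h.cB, mul_zero]
  · have e : sb ρ (CC θ) = CC θ := sb_C h.c0 _
    rw [cw2, map_mul, e]
    linear_combination CC θ * h.eq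
  · unfold fb bF
    rw [cw2, cw2]
    ring

end Pool.Agent.MP_05b4bd_ag.XO
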