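import Pool.Agent.MP_05b4bd_ag.ex.Bas

/-! Integer polynomials in six variables given by lists of terms, and a normal form. -/

namespace Pool.Agent.MP_05b4bd_ag.XO.MoL

open MvPolynomial HC

variable {A B : Type} [CommRing A] [CommRing B]

abbrev T6 := ℤ × ℕ × ℕ × ℕ × ℕ × ℕ × ℕ

def pl (p z c μ m n : A) : List T6 → A
  | [] => 0
  | t :: l => t.1 * (p ^ t.2.1 * z ^ t.2.2.1 * c ^ t.2.2.2.1 * μ ^ t.2.2.2.2.1 *
      m ^ t.2.2.2.2.2.1 * n ^ t.2.2.2.2.2.2) + pl p z c μ m n l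

noncomputable def U (l : List T6) : U6 := pl (X 0) (X 1) (X 2) (X 3) (X 4) (X 5) l

theorem e6_U (l : List T6) (y : Pa A) (p z : A) : e6 (U l) y p z = pl p z y.c y.μ y.m y.n l := by
  unfold e6 U
  induction l with
  | nil => exact eval₂_zero _ _
  | cons t l h =>
    rw [pl, pl, eval₂_add, h]
    congr 1
    simp only [eval₂_mul, eval₂_pow, eval₂_X, Matrix.cons_val]
    congr 1
    exact map_intCast (eval₂Hom _ _) _

def d0 (l : List T6) : List T6 := l.map fun t => (t.1 * t.2.1, t.2.1 - 1, t.2.2)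

def d1 (l : List T6) : List T6 := l.map fun t => (t.1 * t.2.2.1, t.2.1, t.2.2.1 - 1, t.2.2.2)

theorem pd0_U (l : List T6) : pderiv 0 (U l) = U (d0 l) := by
  unfold U d0
  induction l with
  | nil => exact map_zero _
  | cons t l h =>
    rw [List.map_cons, pl, pl, map_add, h]
    congr 1
    simp [Derivation.leibniz, Derivation.leibniz_pow, pderiv_X]
    ring

theorem pd1_U (l : List T6) : pderiv 1 (U l) = U (d1 l) := by
  unfold U d1
  induction l with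
  | nil => exact map_zero _
  | cons t l h =>
    rw [List.map_cons, pl, pl, map_add, h]
    congr 1
    simp [Derivation.leibniz, Derivation.leibniz_pow, pderiv_X]
    ring

theorem dl_pl (c μ m n : A) (l : List T6) (h : ∀ t ∈ l, t.2.1 + t.2.2.1 ≤ 3) :
    DL 4 (pl (X 0) (X 1) (C c) (C μ) (C m) (C n) l : R2 A) := by
  induction l with
  | nil => exact DL.zero _
  | cons t l ih =>
    rw [pl]
    refine DL.add ?_ (ih fun s hs => h s (List.mem_cons_of_mem _ hs))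
    have h1 := h t List.mem_cons_self
    have e : (t.1 : R2 A) * (X 0 ^ t.2.1 * X 1 ^ t.2.2.1 * C c ^ t.2.2.2.1 * C μ ^ t.2.2.2.2.1 *
        C m ^ t.2.2.2.2.2.1 * C n ^ t.2.2.2.2.2.2) = C (t.1 * (c ^ t.2.2.2.1 * μ ^ t.2.2.2.2.1 *
        m ^ t.2.2.2.2.2.1 * n ^ t.2.2.2.2.2.2)) * (X 0 ^ t.2.1 * X 1 ^ t.2.2.1) := by
      simp only [map_mul, map_pow, map_intCast]
      ring
    rw [e]
    exact (DL.of_hom ((isHomogeneous_X_pow 0 _).mul (isHomogeneous_X_pow 1 _))).C_mul _ |>.mono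
      (by omega)

theorem wt_pl (τ u v c μ m n : A) (w : ℕ) (l : List T6) (h : ∀ t ∈ l,
    t.2.1 + t.2.2.1 + 2 * t.2.2.2.1 = w + t.2.2.2.2.2.1 + t.2.2.2.2.2.2) :
    pl (τ * u) (τ * v) (τ ^ 2 * c) μ m n l = τ ^ w * pl u v c μ (τ * m) (τ * n) l := by
  induction l with
  | nil => exact (mul_zero _).symm
  | cons t l ih =>
    rw [pl, pl, ih fun s hs => h s (List.mem_cons_of_mem _ hs), mul_add]
    congr 1
    have h1 := congrArg (τ ^ ·) (h t List.mem_cons_self)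
    simp only [pow_add, pow_mul] at h1
    simp only [mul_pow]
    linear_combination (t.1 * (u ^ t.2.1 * v ^ t.2.2.1 * c ^ t.2.2.2.1 * μ ^ t.2.2.2.2.1 *
      m ^ t.2.2.2.2.2.1 * n ^ t.2.2.2.2.2.2) : A) * h1

theorem wt_pl' (τ u v c μ m n : A) (l : List T6) (h : ∀ t ∈ l,
    2 * t.2.2.2.1 = t.2.2.1 + t.2.2.2.2.2.1 + t.2.2.2.2.2.2) :
    pl u v (τ ^ 2 * c) μ m n l = pl u (τ * v) c μ (τ * m) (τ * n) l := by
  induction l with
  | nil => rfl
  | cons t l ih =>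
    rw [pl, pl, ih fun s hs => h s (List.mem_cons_of_mem _ hs)]
    congr 1
    have h1 := congrArg (τ ^ ·) (h t List.mem_cons_self)
    simp only [pow_add, pow_mul] at h1
    simp only [mul_pow]
    linear_combination (t.1 * (u ^ t.2.1 * v ^ t.2.2.1 * c ^ t.2.2.2.1 * μ ^ t.2.2.2.2.1 *
      m ^ t.2.2.2.2.2.1 * n ^ t.2.2.2.2.2.2) : A) * h1

/-- The cubic polynomial in the chart. -/
def ch (l : List T6) : List T6 := l.map fun t => (t.1, t.2.2.1, 3 - t.2.1 - t.2.2.1, t.2.2.2)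

theorem ch_pl (p z zi c μ m n : A) (hz : z * zi = 1) (l : List T6)
    (h : ∀ t ∈ l, t.2.1 + t.2.2.1 ≤ 3) :
    z ^ 3 * pl zi (p * zi) c μ m n l = pl p z c μ m n (ch l) := by
  unfold ch
  induction l with
  | nil => exact mul_zero _
  | cons t l ih =>
    rw [List.map_cons, pl, pl, mul_add, ih fun s hs => h s (List.mem_cons_of_mem _ hs)]
    congr 1
    obtain ⟨r, hr⟩ := Nat.exists_eq_add_of_le (h t List.mem_cons_self)
    have e : 3 - t.2.1 - t.2.2.1 = r := by omega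
    have h1 : (z * zi) ^ (t.2.1 + t.2.2.1) = 1 := by rw [hz, one_pow]
    have h2 : z ^ 3 = z ^ (t.2.1 + t.2.2.1 + r) := by rw [← hr]
    simp only [e, h2, pow_add, mul_pow] at h1 ⊢
    linear_combination (t.1 * (p ^ t.2.2.1 * z ^ r * c ^ t.2.2.2.1 * μ ^ t.2.2.2.2.1 *
      m ^ t.2.2.2.2.2.1 * n ^ t.2.2.2.2.2.2) : A) * h1

/-- Polynomials in Horner form. -/
inductive Q
  | z : Q
  | c : ℤ → Q
  | n : Q → Q → Q

namespace Q

def ev (x : ℕ → A) : Q → ℕ → A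
  | z, _ => 0
  | c a, _ => a
  | n h t, k => ev x h (k + 1) + x k * ev x t k

def addC (a : ℤ) : Q → Q
  | z => c a
  | c b => c (a + b)
  | n h t => n (addC a h) t

def add : Q → Q → Q
  | z, q => q
  | c a, q => addC a q
  | n h t, z => n h t
  | n h t, c b => n (addC b h) t
  | n h t, n h' t' => n (add h h') (add t t')

def mulC (a : ℤ) : Q → Q
  | z => z
  | c b => c (a * b)
  | n h t => n (mulC a h) (mulC a t)

def mapH (f : Q → Q) : Q → Q
  | z => z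
  | c b => n (f (c b)) z
  | n h t => n (f h) (mapH f t)

def mul : Q → Q → Q
  | z => fun _ => z
  | c a => mulC a
  | n z t => fun q => n z (mul t q)
  | n h z => mapH (mul h)
  | n h t => fun q => add (mapH (mul h) q) (n z (mul t q))

def isZ : Q → Bool
  | z => true
  | c a => a == 0
  | n h t => isZ h && isZ t

def sh : ℕ → Q → Q
  | 0, q => q
  | k + 1, q => n z (sh k q)

variable (x : ℕ → A)

theorem ev_addC (a : ℤ) (q : Q) (k : ℕ) : ev x (addC a q) k = a + ev x q k := by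
  induction q generalizing k with
  | z => simp [addC, ev]
  | c b => simp [addC, ev]
  | n h t ih _ => simp only [addC, ev, ih, add_assoc]

theorem ev_add (p q : Q) (k : ℕ) : ev x (add p q) k = ev x p k + ev x q k := by
  induction p generalizing q k with
  | z => simp [add, ev]
  | c a => simp [add, ev, ev_addC]
  | n h t ih it => cases q <;> simp only [add, ev, ev_addC, ih, it] <;> ring

theorem ev_mulC (a : ℤ) (q : Q) (k : ℕ) : ev x (mulC a q) k = a * ev x q k := by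
  induction q generalizing k with
  | z => simp [mulC, ev]
  | c b => simp [mulC, ev]
  | n h t ih it => simp only [mulC, ev, ih, it]; ring

theorem ev_mapH (f : Q → Q) (r : A) (k : ℕ) (hf : ∀ q, ev x (f q) (k + 1) = r * ev x q (k + 1))
    (q : Q) : ev x (mapH f q) k = r * ev x q k := by
  induction q with
  | z => simp [mapH, ev]
  | c b => simp [mapH, ev, hf]
  | n h t _ it => simp only [mapH, ev, hf, it]; ring

theorem ev_mul (p q : Q) (k : ℕ) : ev x (mul p q) k = ev x p k * ev x q k := by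
  induction p generalizing q k with
  | z => simp [mul, ev]
  | c a => simp [mul, ev, ev_mulC]
  | n h t ih it =>
    have e := ev_mapH x (mul h) _ k (fun q => ih q (k + 1)) q
    have e' := it q k
    cases h <;> cases t <;> simp only [mul, ev, ev_add, e, e'] at e e' ⊢ <;> ring

theorem ev_isZ (q : Q) (k : ℕ) (h : isZ q = true) : ev x q k = 0 := by
  induction q generalizing k with
  | z => rfl
  | c a =>
    obtain rfl : a = 0 := by simpa [isZ] using h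
    exact Int.cast_zero
  | n a t ih it =>
    rw [isZ, Bool.and_eq_true] at h
    rw [ev, ih _ h.1, it _ h.2, mul_zero, add_zero]

theorem ev_sh (j : ℕ) (q : Q) (k : ℕ) : ev x (sh j q) k = x k ^ j * ev x q k := by
  induction j with
  | zero => simp [sh]
  | succ j ih => simp only [sh, ev, ih]; ring

/-- Membership in the ideal of the variable of the level. -/
def dv : Q → Bool
  | z => true
  | c a => a == 0
  | n h _ => isZ h

theorem ev_dv (q : Q) (k : ℕ) (h : dv q = true) : ∃ r, ev x q k = x k * r := by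
  cases q with
  | z => exact ⟨0, (mul_zero _).symm⟩
  | c a => exact ⟨0, (ev_isZ x (c a) k h).trans (mul_zero _).symm⟩
  | n a t => exact ⟨_, by rw [ev, ev_isZ x a _ h, zero_add]⟩

def dv2 : Q → Bool
  | z => true
  | c a => a == 0
  | n h _ => dv h

theorem ev_dv2 (q : Q) (k : ℕ) (h : dv2 q = true) :
    ∃ r s, ev x q k = x k * r + x (k + 1) * s := by
  cases q with
  | z => exact ⟨0, 0, by simp [ev]⟩
  | c a => exact ⟨0, 0, (ev_isZ x (c a) k h).trans (by simp)⟩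
  | n a t =>
    obtain ⟨r, e⟩ := ev_dv x a (k + 1) h
    exact ⟨_, r, by rw [ev, e, add_comm]⟩

def dv3 : Q → Bool
  | z => true
  | c a => a == 0
  | n h t => dv2 h && dv3 t

theorem ev_dv3 (q : Q) (k : ℕ) (h : dv3 q = true) :
    ∃ r s, ev x q k = x (k + 1) * r + x (k + 2) * s := by
  induction q with
  | z => exact ⟨0, 0, by simp [ev]⟩
  | c a => exact ⟨0, 0, (ev_isZ x (c a) k h).trans (by simp)⟩
  | n a t _ it =>
    rw [dv3, Bool.and_eq_true] at h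
    obtain ⟨r, s, e⟩ := ev_dv2 x a (k + 1) h.1
    obtain ⟨r', s', e'⟩ := it h.2
    exact ⟨r + x k * r', s + x k * s', by rw [ev, e, e']; ring⟩

/-- Membership in `x 0 (x 1, x 2)`. -/
def dv4 : Q → Bool
  | z => true
  | c a => a == 0
  | n h t => isZ h && dv3 t

theorem ev_dv4 (q : Q) (h : dv4 q = true) : ∃ r s, ev x q 0 = x 0 * (x 1 * r + x 2 * s) := by
  cases q with
  | z => exact ⟨0, 0, by simp [ev]⟩
  | c a => exact ⟨0, 0, (ev_isZ x (c a) 0 h).trans (by simp)⟩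
  | n a t =>
    rw [dv4, Bool.and_eq_true] at h
    obtain ⟨r, s, e⟩ := ev_dv3 x t 0 h.2
    exact ⟨r, s, by rw [ev, ev_isZ x a _ h.1, e, zero_add]⟩

instance : Add Q := ⟨add⟩
instance : Mul Q := ⟨mul⟩
instance : Sub Q := ⟨fun p q => add p (mulC (-1) q)⟩

end Q

def mono (t : T6) : Q :=
  .sh t.2.2.2.2.2.2 (.n (.sh t.2.2.2.1 (.n (.sh t.2.2.2.2.1 (.n (.sh t.2.1 (.n (.sh t.2.2.1
    (.n (.sh t.2.2.2.2.2.1 (.c t.1)) .z)) .z)) .z)) .z)) .z)

def ofL : List T6 → Q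
  | [] => .z
  | t :: l => .add (mono t) (ofL l)

/-- The order of the variables. -/
def xv (y : Pa A) (p z : A) : ℕ → A
  | 0 => y.n
  | 1 => y.c
  | 2 => y.μ
  | 3 => p
  | 4 => z
  | _ => y.m

def E (y : Pa A) (p z : A) (q : Q) : A := q.ev (xv y p z) 0

variable (y : Pa A) (p z : A)

theorem E_add (a b : Q) : E y p z (a + b) = E y p z a + E y p z b := Q.ev_add _ _ _ _

theorem E_mul (a b : Q) : E y p z (a * b) = E y p z a * E y p z b := Q.ev_mul _ _ _ _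

theorem E_sub (a b : Q) : E y p z (a - b) = E y p z a - E y p z b := by
  have := Q.ev_mulC (xv y p z) (-1) b 0
  rw [Int.cast_neg, Int.cast_one, neg_one_mul] at this
  rw [sub_eq_add_neg, E, E, E, ← this]
  exact Q.ev_add _ _ _ _

def K (a : ℤ) : Q := .c a

theorem E_c (a : ℤ) : E y p z (K a) = a := rfl

theorem E_ofL (l : List T6) : E y p z (ofL l) = e6 (U l) y p z := by
  rw [e6_U, E]
  induction l with
  | nil => rfl
  | cons t l h =>
    rw [ofL, Q.ev_add, h, pl]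
    simp only [mono, Q.ev_sh, Q.ev, xv]
    ring

def qn : Q := .n .z (.c 1)
def qc : Q := .n (.n .z (.c 1)) .z
def qμ : Q := .n (.n (.n .z (.c 1)) .z) .z
def qp : Q := .n (.n (.n (.n .z (.c 1)) .z) .z) .z
def qz : Q := .n (.n (.n (.n (.n .z (.c 1)) .z) .z) .z) .z
def qm : Q := .n (.n (.n (.n (.n (.n .z (.c 1)) .z) .z) .z) .z) .z

theorem E_n : E y p z qn = y.n := by simp [E, qn, Q.ev, xv]
theorem E_cc : E y p z qc = y.c := by simp [E, qc, Q.ev, xv]
theorem E_μ : E y p z qμ = y.μ := by simp [E, qμ, Q.ev, xv]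
theorem E_p : E y p z qp = p := by simp [E, qp, Q.ev, xv]
theorem E_z : E y p z qz = z := by simp [E, qz, Q.ev, xv]
theorem E_m : E y p z qm = y.m := by simp [E, qm, Q.ev, xv]

theorem E_isZ {q : Q} (h : q.isZ = true) : E y p z q = 0 := Q.ev_isZ _ _ _ h

theorem E_dv4 {q : Q} (h : q.dv4 = true) : ∃ r s, E y p z q = y.n * (y.c * r + y.μ * s) :=
  Q.ev_dv4 _ _ h

def pw (q : Q) : ℕ → Q
  | 0 => .c 1
  | k + 1 => q * pw q k

instance : Pow Q ℕ := ⟨pw⟩

theorem E_pow (q : Q) (k : ℕ) : E y p z (q ^ k) = E y p z q ^ k := by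
  induction k with
  | zero => exact Int.cast_one.trans (pow_zero _).symm
  | succ k ih => rw [pow_succ', ← ih]; exact E_mul _ _ _ _ _

def gs (q : Q) : ℕ → Q
  | 0 => .z
  | k + 1 => gs q k + q ^ k

theorem E_gs (q : Q) (k : ℕ) : E y p z (gs q k) = ∑ i ∈ Finset.range k, E y p z q ^ i := by
  induction k with
  | zero => rfl
  | succ k ih => rw [gs, E_add, ih, E_pow, Finset.sum_range_succ]

/-- Terms divisible by `c ^ e m ^ g n ^ h`, divided. -/
def qt (e g h : ℕ) (l : List T6) : List T6 := l.filterMap fun t =>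
  if e ≤ t.2.2.2.1 ∧ g ≤ t.2.2.2.2.2.1 ∧ h ≤ t.2.2.2.2.2.2 then
    some (t.1, t.2.1, t.2.2.1, t.2.2.2.1 - e, t.2.2.2.2.1, t.2.2.2.2.2.1 - g, t.2.2.2.2.2.2 - h)
  else none

structure Da where
  S : List T6
  ψ : List T6
  G : List T6
  P : List T6
  Q : List T6
  N : List T6
  gt : List T6
  At : List T6
  Bt : List T6
  R : List T6

namespace Da
variable (D : Da) (b : ℕ)

noncomputable def mp : Mp := ⟨U D.S, U D.ψ, U D.G, U D.P, U D.Q, U D.N, U D.gt, U D.At, U D.Bt⟩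

def el : MoL.Q := qz + qm + K 52 * qn * qp
def ρ : MoL.Q := qz ^ (4 - b) * el ^ b
def L0 : MoL.Q := K 3 * (K 1 + ofL D.S ^ 2) + qμ * ofL D.S + qc ^ 2 * ρ b
def dz : MoL.Q := (K 4 - K b) * el + K b * qz
def J : MoL.Q := ofL (d0 D.S) * dz b - ofL (d1 D.S) * (K b * qz * (K 52 * qn))
def op : MoL.Q := K 8 * ofL D.S * el * ofL (d0 D.S) - D.L0 b * (K b * (K 52 * qn))
def oz : MoL.Q := K 8 * ofL D.S * qz * el * ofL (d1 D.S) - D.L0 b * dz b

def W : MoL.Q :=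
  (el * ofL (d0 D.N) - ofL D.N * (K 52 * qn)) * D.oz b -
    (el * ofL (d1 D.N) - ofL D.N) * qz * D.op b +
  el * (ofL D.N * (K 6 * ofL D.S + qμ) - K 4 * el *
    (ofL D.gt + K 2 * qc ^ 3 * ρ b * ofL D.ψ ^ 2)) * D.J b +
  el * (ofL D.Bt * D.oz b + (ofL D.At + qp * ofL D.Bt) * D.op b)

def c1 : Bool :=
  (ofL D.S - (qp + qc * (qz ^ 2 + qn * ofL (qt 1 0 1 D.S)))).isZ &&
  (ofL (d0 D.S) - (K 1 + qc * qn * ofL (qt 1 0 1 (d0 D.S)))).isZ &&
  (ofL (d1 D.S) - qc * (K 2 * qz + qn * ofL (qt 1 0 1 (d1 D.S)))).isZ &&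
  (ofL D.G - (qp ^ 3 + qp * qz ^ 2 + K 2 * qc * qz - qc ^ 2 * qm * gs (K 1 + qm * qp) b +
    qn * (K 52 * K b * qc * qz ^ 2 + qm * ofL (qt 0 1 1 (D.G.filter (·.2.2.2.2.2.2 = 1))) +
      qn * ofL (qt 0 0 2 D.G)))).isZ &&
  (ofL D.P - ((qp * qz + qc) * (K 4 + (K 4 - K b) * qm * qp) + qn * ofL (qt 0 0 1 D.P))).isZ &&
  (ofL D.Q - qn * ofL (qt 0 0 1 D.Q)).isZ

def c2 : Bool :=
  (ofL (ch D.G) - (K 1 + ofL D.S ^ 2 - qc ^ 2 * ρ b - D.L0 b * (qc ^ 2 * qn ^ 3 * ofL D.ψ) +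
    qc ^ 3 * qn ^ 6 * ofL D.gt)).isZ &&
  (ofL (ch D.P) - (ofL D.S * (K 4 * el - K b * qm) - K 4 * el * (qc ^ 2 * qn ^ 3 * ofL D.ψ) *
    (qp * ofL (d0 D.S) + qz * ofL (d1 D.S)) + qc ^ 3 * qn ^ 6 * ofL D.At)).isZ &&
  (ofL (ch D.Q) - (K 4 * el * (qc ^ 2 * qn ^ 3 * ofL D.ψ) * ofL (d0 D.S) -
    K b * (K 52 * qn) * ofL D.S + qc ^ 3 * qn ^ 6 * ofL D.Bt)).isZ

def c3 : Bool := (D.W b - qn * ofL D.R).dv4

def c4 : Prop := (∀ t ∈ D.G ++ D.P ++ D.Q, t.2.1 + t.2.2.1 ≤ 3) ∧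
  (∀ t ∈ D.G, t.2.1 + t.2.2.1 + 2 * t.2.2.2.1 = 3 + t.2.2.2.2.2.1 + t.2.2.2.2.2.2) ∧
  (∀ t ∈ D.P, t.2.1 + t.2.2.1 + 2 * t.2.2.2.1 = 2 + t.2.2.2.2.2.1 + t.2.2.2.2.2.2) ∧
  (∀ t ∈ D.Q, t.2.1 + t.2.2.1 + 2 * t.2.2.2.1 = 2 + t.2.2.2.2.2.1 + t.2.2.2.2.2.2) ∧
  ∀ t ∈ D.S, 2 * t.2.2.2.1 = t.2.2.1 + t.2.2.2.2.2.1 + t.2.2.2.2.2.2

instance : Decidable D.c4 := by unfold c4; infer_instance

theorem E_el : E y p z el = y.el p z := by
  simp only [el, Pa.el, E_add, E_mul, E_c, E_z, E_m, E_n, E_p, Int.cast_ofNat]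

theorem E_ρ : E y p z (ρ b) = y.ρ b p z := by
  simp only [ρ, Pa.ρ, E_mul, E_pow, E_z, E_el]

theorem E_L0 : E y p z (D.L0 b) = y.Λ0 (e6 (U D.S) y p z) (y.ρ b p z) := by
  simp only [L0, Pa.Λ0, E_add, E_mul, E_pow, E_c, E_cc, E_μ, E_ρ, E_ofL, Int.cast_ofNat,
    Int.cast_one]

theorem E_W : E y p z (D.W b) = D.mp.W b y p z := by
  simp only [W, J, op, oz, dz, mp, Mp.W, Mp.J, Mp.op, Mp.oz, E_add, E_sub, E_mul, E_pow, E_c, E_cc,
    E_μ, E_z, E_n, E_p, E_ρ, E_el, E_L0, E_ofL, Int.cast_ofNat, Int.cast_natCast, pd0_U, pd1_U]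

end Da

theorem E_eq {a b : Q} (h : (a - b).isZ = true) : E y p z a = E y p z b :=
  sub_eq_zero.1 ((E_sub y p z a b).symm.trans (E_isZ y p z h))

theorem ch_E (zi : A) (hz : z * zi = 1) (l : List T6) (h : ∀ t ∈ l, t.2.1 + t.2.2.1 ≤ 3) :
    z ^ 3 * e6 (U l) y zi (p * zi) = E y p z (ofL (ch l)) := by
  rw [E_ofL, e6_U, e6_U, ch_pl _ _ _ _ _ _ _ hz l h]

theorem mo (D : Da) (b : ℕ) (hb : b = 1 ∨ b = 3) (h1 : D.c1 b = true) (h2 : D.c2 b = true)
    (h3 : D.c3 b = true) (h4 : D.c4) (h5 : ∀ (A : Type) [CommRing A] (p z c μ m n : A),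
      pl p z c μ m n D.R = 16 * 13 ^ 7 * rz b p z m (52 * n)) : Nonempty (Mo b) := by
  simp only [Da.c1, Da.c2, Bool.and_eq_true] at h1 h2
  obtain ⟨⟨⟨⟨⟨a1, a2⟩, a3⟩, a4⟩, a5⟩, a6⟩ := h1
  obtain ⟨⟨b1, b2⟩, b3⟩ := h2
  obtain ⟨d1, d2, d3, d4, d5⟩ := h4
  simp only [List.mem_append] at d1
  have dG := fun t ht => d1 t (.inl (.inl ht))
  have dP := fun t ht => d1 t (.inl (.inr ht))
  have dQ := fun t ht => d1 t (.inr ht)
  refine ⟨⟨D.mp, hb, fun y p z => ?_, fun y p z => ⟨?_, ?_⟩, fun y p z => ?_,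
    fun y p z => ⟨?_, ?_⟩, fun x => ?_, fun τ x y u v h => ?_, fun y p z zi hz => ?_,
    fun y p z zi hz => ?_, fun y p z zi hz => ?_, fun y p z => ?_⟩⟩
  · have := E_eq y p z a1
    simp only [E_add, E_mul, E_pow, E_cc, E_z, E_n, E_p, E_ofL] at this
    exact ⟨_, this⟩
  · have := E_eq y p z a2
    simp only [E_add, E_mul, E_c, E_cc, E_n, E_ofL, Int.cast_one, ← pd0_U] at this
    exact ⟨_, this⟩
  · have := E_eq y p z a3
    simp only [E_add, E_mul, E_c, E_cc, E_n, E_z, E_ofL, Int.cast_ofNat, ← pd1_U] at this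
    exact ⟨_, this⟩
  · have := E_eq y p z a4
    simp only [E_add, E_sub, E_mul, E_pow, E_gs, E_c, E_cc, E_n, E_z, E_p, E_m, E_ofL,
      Int.cast_ofNat, Int.cast_one, Int.cast_natCast] at this
    exact ⟨_, _, this⟩
  · have := E_eq y p z a5
    simp only [E_add, E_sub, E_mul, E_c, E_cc, E_n, E_z, E_p, E_m, E_ofL,
      Int.cast_ofNat, Int.cast_natCast] at this
    exact ⟨_, this⟩
  · have := E_eq y p z a6
    simp only [E_mul, E_n, E_ofL] at this
    exact ⟨_, this⟩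
  · simp only [Da.mp, e6_U]
    exact ⟨dl_pl _ _ _ _ _ dG, dl_pl _ _ _ _ _ dP, dl_pl _ _ _ _ _ dQ⟩
  · simp only [Da.mp, e6_U, h.c, h.μ, h.m, h.n]
    exact ⟨wt_pl _ _ _ _ _ _ _ _ _ d2, wt_pl _ _ _ _ _ _ _ _ _ d3, wt_pl _ _ _ _ _ _ _ _ _ d4,
      wt_pl' _ _ _ _ _ _ _ _ d5⟩
  · have := (ch_E y p z zi hz _ dG).trans (E_eq y p z b1)
    simp only [E_add, E_sub, E_mul, E_pow, E_c, E_cc, E_n, Da.E_ρ, Da.E_L0, E_ofL,
      Int.cast_one] at this
    exact this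
  · have := (ch_E y p z zi hz _ dP).trans (E_eq y p z b2)
    simp only [E_add, E_sub, E_mul, E_pow, E_c, E_cc, E_n, E_m, E_p, E_z, Da.E_el, E_ofL,
      Int.cast_ofNat, Int.cast_natCast, ← pd0_U, ← pd1_U] at this
    exact this
  · have := (ch_E y p z zi hz _ dQ).trans (E_eq y p z b3)
    simp only [E_add, E_sub, E_mul, E_pow, E_c, E_cc, E_n, Da.E_el, E_ofL,
      Int.cast_ofNat, Int.cast_natCast, ← pd0_U] at this
    exact this
  · obtain ⟨r, s, e⟩ := E_dv4 y p z h3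
    rw [E_sub, E_mul, Da.E_W, E_n, E_ofL, e6_U, h5] at e
    exact ⟨r, s, by linear_combination e⟩

end Pool.Agent.MP_05b4bd_ag.XO.MoL
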