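import Pool.Agent.MP_05b4bd_ag.ex.Bas

/-! Naturality of the frame coefficients under an affine pull-back. -/

namespace Pool.Agent.MP_05b4bd_ag.XO

open PowerSeries LaurentSeries HC
open ES hiding Gen Ob Inf
open ES.U (TM Cr hom)
open PC3 (Fm fm d1 DF sub2 pb mapF Van CenK)
open RV (fa fb Frm Good Rho Fac Dk In Cg ExoK SymK RRc Ob NoF)

namespace NatR

theorem ev_sub2 {R S : Type} [CommRing R] [CommRing S] (ψ : R →+* S) (s t : R2 R) (a b : S)
    (u : R2 R) : MvPolynomial.eval₂ ψ ![a, b] (sub2 s t u) =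
      MvPolynomial.eval₂ ψ ![MvPolynomial.eval₂ ψ ![a, b] s, MvPolynomial.eval₂ ψ ![a, b] t] u := by
  induction u using MvPolynomial.induction_on with
  | C r => simp [sub2]
  | add p q hp hq => simp only [map_add, MvPolynomial.eval₂_add, hp, hq]
  | mul_X p i hp =>
    rw [map_mul, MvPolynomial.eval₂_mul, MvPolynomial.eval₂_mul, hp]
    fin_cases i <;> simp [sub2]

theorem hev_div {R F : Type} [CommRing R] [Field F] (φ : R →+* F) (d : ℕ) {u : R2 R}
    (hu : DL (d + 1) u) (x y : F) {w : F} (hw : w ≠ 0) :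
    hev φ d u x y w = w ^ d * MvPolynomial.eval₂ φ ![x / w, y / w] u := by
  rw [← hev_eq _ _ hu, mul_div_cancel₀ _ hw, mul_div_cancel₀ _ hw]

variable {R S : Type} [CommRing R] [CommRing S] [IsDomain S] (φ : R →+* S)

theorem hev_sub2 (d : ℕ) {s t u : R2 R} (hs : DL 2 s) (ht : DL 2 t) (hu : DL (d + 1) u)
    (x y : S) {w : S} (hw : w ≠ 0) :
    hev φ d (sub2 s t u) x y w = hev φ d u (hev φ 1 s x y w) (hev φ 1 t x y w) w := by
  apply IsFractionRing.injective S (FractionRing S)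
  have h0 : algebraMap S (FractionRing S) w ≠ 0 :=
    (map_ne_zero_iff _ (IsFractionRing.injective S (FractionRing S))).2 hw
  simp only [map_hev]
  rw [hev_div _ d (PC3.sub2_DL hs ht hu) _ _ h0, hev_div _ 1 hs _ _ h0, hev_div _ 1 ht _ _ h0,
    pow_one, hev_eq _ _ hu, ev_sub2]

theorem hev_aff {s : R2 R} (hs : DL 2 s) (x y : S) {w : S} (hw : w ≠ 0) :
    hev φ 1 s x y w = φ (MvPolynomial.coeff 0 s) * w + φ (HC.co 1 0 s) * x + φ (HC.co 0 1 s) * y := by
  apply IsFractionRing.injective S (FractionRing S)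
  have h0 : algebraMap S (FractionRing S) w ≠ 0 :=
    (map_ne_zero_iff _ (IsFractionRing.injective S (FractionRing S))).2 hw
  rw [map_hev, hev_div _ 1 hs _ _ h0]
  conv_lhs => rw [PC3.DL2_eq hs]
  simp only [HC.lf, MvPolynomial.eval₂_add, MvPolynomial.eval₂_mul, MvPolynomial.eval₂_C,
    MvPolynomial.eval₂_X, map_add, map_mul, RingHom.comp_apply, Matrix.cons_val_zero,
    Matrix.cons_val_one]
  field_simp
  ring

omit [IsDomain S] in
theorem pd_aff {s : R2 R} (hs : DL 2 s) :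
    MvPolynomial.pderiv 0 s = MvPolynomial.C (HC.co 1 0 s) ∧
      MvPolynomial.pderiv 1 s = MvPolynomial.C (HC.co 0 1 s) := by
  constructor <;> conv_lhs => rw [PC3.DL2_eq hs]
  all_goals simp [HC.lf]

theorem hev_pb (d : ℕ) {s t : R2 R} {ω : Fm R} (hs : DL 2 s) (ht : DL 2 t) (hω : DF (d + 1) ω)
    (x y : S) {w : S} (hw : w ≠ 0) :
    hev φ d (pb s t ω).1 x y w =
      φ (HC.co 0 1 t) * hev φ d ω.1 (hev φ 1 s x y w) (hev φ 1 t x y w) w -
      φ (HC.co 0 1 s) * hev φ d ω.2 (hev φ 1 s x y w) (hev φ 1 t x y w) w ∧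
    hev φ d (pb s t ω).2 x y w =
      φ (HC.co 1 0 s) * hev φ d ω.2 (hev φ 1 s x y w) (hev φ 1 t x y w) w -
      φ (HC.co 1 0 t) * hev φ d ω.1 (hev φ 1 s x y w) (hev φ 1 t x y w) w := by
  have e1 : (pb s t ω).1 = MvPolynomial.C (HC.co 0 1 t) * sub2 s t ω.1 +
      -(MvPolynomial.C (HC.co 0 1 s) * sub2 s t ω.2) := by
    simp only [pb, fm, Prod.fst_sub, (pd_aff hs).2, (pd_aff ht).2]
    ring
  have e2 : (pb s t ω).2 = MvPolynomial.C (HC.co 1 0 s) * sub2 s t ω.2 +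
      -(MvPolynomial.C (HC.co 1 0 t) * sub2 s t ω.1) := by
    simp only [pb, fm, Prod.snd_sub, (pd_aff hs).1, (pd_aff ht).1]
    ring
  rw [e1, e2]
  simp only [hev_add, hev_neg, hev_C_mul, hev_sub2 φ d hs ht hω.1 x y hw,
    hev_sub2 φ d hs ht hω.2 x y hw, sub_eq_add_neg, and_self]

end NatR

open NatR

theorem natS : NatStmt := by
  intro k L _ _ κ D d w s t x y hD hκ hw hs ht
  obtain ⟨e1, e2⟩ := hev_pb (iA κ) d hs ht hw x y (w := X) X_ne_zero
  have k0 : ∀ r : k⟦X⟧, cw D (map κ r) = 0 := fun r => by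
    ext n
    rw [coeff_cw, coeff_map, hκ, map_zero]
  have d0 : ∀ r, dX _ (iA κ r) = 0 := fun r => dX_C _
  have c0 : ∀ r, cw (cw D) (iA κ r) = 0 := fun r => by
    change cw (cw D) (C (map κ r)) = 0
    rw [cw_C, k0, map_zero]
  have dw : ∀ {u : R2 k⟦X⟧}, DL 2 u → X * dX _ (hev (iA κ) 1 u x y X) - hev (iA κ) 1 u x y X =
      iA κ (HC.co 1 0 u) * (X * dX _ x - x) + iA κ (HC.co 0 1 u) * (X * dX _ y - y) := fun hu => by
    rw [hev_aff _ hu x y X_ne_zero, map_add, map_add, isDer_dX, isDer_dX, isDer_dX, d0, d0, d0,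
      dX_X]
    ring
  have ds : ∀ {u : R2 k⟦X⟧}, DL 2 u → cw (cw D) (hev (iA κ) 1 u x y X) =
      iA κ (HC.co 1 0 u) * cw (cw D) x + iA κ (HC.co 0 1 u) * cw (cw D) y := fun hu => by
    rw [hev_aff _ hu x y X_ne_zero, map_add, map_add, hD.coefw.coefw, hD.coefw.coefw,
      hD.coefw.coefw, c0, c0, c0, cw_X hD.coefw.one]
    ring
  constructor
  · change aF (iA κ) d _ _ x y = aF (iA κ) d _ _ _ _
    rw [aF, aF, e1, e2, dw hs, dw ht]
    ring
  · change bF (iA κ) d _ _ (cw D) x y = bF (iA κ) d _ _ (cw D) _ _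
    rw [bF, bF, e1, e2, ds hs, ds ht]
    ring

end Pool.Agent.MP_05b4bd_ag.XO
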