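import Pool.Agent.MP_05b4bd_ag.ex.Bas

/-! Residues along the leaves of the limit field. -/

namespace Pool.Agent.MP_05b4bd_ag.XO

open ES hiding Gen Ob Inf
open Polynomial

namespace Slot

variable {L : Type} [Field L] [CharZero L] (n : L) (e : ℚ)

theorem bq_up (j : ℕ) : bq (e + 1) (j + 1) = bq e j * (e + 1) / (j + 1) := by
  induction j with
  | zero => simp [bq]
  | succ j ih =>
    rw [bq, ih, bq]
    push_cast
    ring

/-- The coefficients of the binomial series. -/
noncomputable def c (j : ℤ) : L := if 0 ≤ j then (bq e j.toNat : L) * n ^ j.toNat else 0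

theorem c_nat (j : ℕ) : c n e j = (bq e j : L) * n ^ j := by simp [c]

theorem c_neg {j : ℤ} (h : j < 0) : c n e j = 0 := if_neg (not_le.2 h)

theorem tri (j : ℤ) : j < 0 ∨ j = 0 ∨ ∃ i : ℕ, j = ((i + 1 : ℕ) : ℤ) ∧ j - 1 = i := by
  rcases lt_trichotomy j 0 with h | h | h
  · exact .inl h
  · exact .inr (.inl h)
  · exact .inr (.inr ⟨(j - 1).toNat, by omega, by omega⟩)

theorem c_rec (j : ℤ) : (j : L) * c n e j = ((e : L) - j + 1) * n * c n e (j - 1) := by
  rcases tri j with h | rfl | ⟨i, h, h'⟩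
  · rw [c_neg n e h, c_neg n e (by omega : j - 1 < 0), mul_zero, mul_zero]
  · rw [c_neg n e (by omega : (0 : ℤ) - 1 < 0), Int.cast_zero, zero_mul, mul_zero]
  · have : (i : L) + 1 ≠ 0 := Nat.cast_add_one_ne_zero i
    rw [h', h, c_nat, c_nat, bq]
    push_cast
    field_simp
    ring

theorem c_up (j : ℤ) : c n (e + 1) j = c n e j + n * c n e (j - 1) := by
  rcases tri j with h | rfl | ⟨i, h, h'⟩
  · rw [c_neg n e h, c_neg n e (by omega : j - 1 < 0), c_neg n _ h, mul_zero, add_zero]
  · rw [c_neg n e (by omega : (0 : ℤ) - 1 < 0), mul_zero, add_zero]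
    simp [c, bq]
  · have : (i : L) + 1 ≠ 0 := Nat.cast_add_one_ne_zero i
    rw [h', h, c_nat, c_nat, c_nat, bq_up, bq]
    push_cast
    field_simp
    ring

variable {D : L →+ L}

theorem D_q (hD : IsDer D) (q : ℚ) : D (q : L) = 0 := hD.rat q

theorem D_c (hD : IsDer D) (j : ℤ) : D (c n e j) = ((e : L) - j + 1) * c n e (j - 1) * D n := by
  rcases tri j with h | rfl | ⟨i, h, h'⟩
  · rw [c_neg n e h, c_neg n e (by omega : j - 1 < 0), map_zero, mul_zero, zero_mul]
  · rw [c_neg n e (by omega : (0 : ℤ) - 1 < 0), mul_zero, zero_mul]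
    simp [c, bq, hD.one]
  · have : (i : L) + 1 ≠ 0 := Nat.cast_add_one_ne_zero i
    rw [h', h, c_nat, c_nat, hD.const_mul (D_q hD _), hD.pow, bq, Nat.add_sub_cancel]
    push_cast
    field_simp
    ring

theorem D_nc (hD : IsDer D) (j : ℤ) : D (n * c n e (j - 1)) = j * c n e (j - 1) * D n := by
  rw [hD, D_c n e hD]
  have := c_rec n e (j - 1)
  push_cast at this ⊢
  linear_combination (-D n) * this

/-- The residue as a linear form. -/
noncomputable def F (M : ℤ) : L[X] →ₗ[L] L :=
  lsum fun i => LinearMap.id.smulRight (c n e (i - M))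

theorem F_mon (M : ℤ) (i : ℕ) (a : L) : F n e M (monomial i a) = a * c n e (i - M) := by
  simp [F, lsum_apply, sum_monomial_index]

theorem F_sum (M : ℤ) {P : L[X]} {N : ℕ} (h : P.natDegree < N) :
    F n e M P = ∑ i ∈ Finset.range N, P.coeff i * c n e (i - M) := by
  conv_lhs => rw [P.as_sum_range' N h]
  simp only [map_sum, F_mon]

theorem F_C (M : ℤ) (a : L) (P : L[X]) : F n e M (C a * P) = a * F n e M P := by
  rw [← smul_eq_C_mul, map_smul, smul_eq_mul]

theorem F_X (M : ℤ) (P : L[X]) : F n e M (X * P) = F n e (M - 1) P := by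
  induction P using Polynomial.induction_on' with
  | add p q hp hq => rw [mul_add, map_add, map_add, hp, hq]
  | monomial i a =>
    rw [X_mul_monomial, F_mon, F_mon]
    congr 2
    push_cast
    ring

theorem F_Xn (M : ℤ) (P : L[X]) : F n e M ((X + C n) * P) = F n (e + 1) (M - 1) P := by
  rw [add_mul, map_add, F_X, F_C]
  induction P using Polynomial.induction_on' with
  | add p q hp hq => rw [map_add, map_add, map_add, ← hp, ← hq]; ring
  | monomial i a =>
    rw [F_mon, F_mon, F_mon, c_up, show (i : ℤ) - (M - 1) - 1 = i - M by ring]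
    ring

theorem F_Xp (a : ℕ) (M : ℤ) (P : L[X]) : F n e M (X ^ a * P) = F n e (M - a) P := by
  induction a generalizing M with
  | zero => simp
  | succ a ih =>
    rw [pow_succ', mul_assoc, F_X, ih]
    congr 2
    push_cast
    ring

theorem F_Xnp (b : ℕ) (M : ℤ) (P : L[X]) :
    F n e M ((X + C n) ^ b * P) = F n (e + b) (M - b) P := by
  induction b generalizing M e with
  | zero => simp
  | succ b ih =>
    rw [pow_succ', mul_assoc, F_Xn, ih]
    congr 2 <;> push_cast <;> ring

theorem F_R {a b : ℕ} (h : a + b = 4) (M : ℤ) (P : L[X]) :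
    F n e M (rP a b n * P) = F n (e + b) (M - 4) P := by
  rw [rP, mul_assoc, F_Xp, F_Xnp]
  congr 2
  omega

theorem F_j (a : ℕ) (M : ℤ) (P : L[X]) :
    F n e (M + 1) (jP a n * P) = 4 * F n e M P + a * (n * F n e (M + 1) P) := by
  rw [jP, add_mul, map_add, F_C, mul_assoc, ← C_ofNat, F_C, F_X, add_sub_cancel_right, mul_assoc]

theorem F_Rp {a b : ℕ} (h : a + b = 4) (g : ℕ) (M : ℤ) (hM : ¬ 4 ∣ M) :
    F n (-1 - b * M / 4) (M + 1) (jP a n * rP a b n ^ g) = 0 := by
  induction g generalizing M with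
  | zero =>
    have h0 : (M : L) ≠ 0 := Int.cast_ne_zero.2 fun h => hM (h ▸ dvd_zero 4)
    have h1 := c_rec n (-1 - b * M / 4) (-M)
    have h2 : (a : L) + b = 4 := by exact_mod_cast congrArg (Nat.cast : ℕ → L) h
    rw [F_j, pow_zero, ← monomial_zero_one, F_mon, F_mon]
    simp only [Nat.cast_zero, zero_sub, one_mul, show -(M + 1) = -M - 1 by ring]
    push_cast at h1
    refine mul_left_cancel₀ h0 ?_
    linear_combination (-4) * h1 + M * n * c n (-1 - b * M / 4) (-M - 1) * h2
  | succ g ih =>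
    have := ih (M - 4) fun h => hM (by omega)
    rw [pow_succ', mul_left_comm, F_R n _ h, ← this]
    congr 2
    · push_cast
      ring
    · ring

theorem F_G {a b : ℕ} (h : a + b = 4) (M : ℤ) (hM : ¬ 4 ∣ M) (Γ : L[X]) :
    F n (-1 - b * M / 4) (M + 1) (jP a n * Γ.comp (rP a b n)) = 0 := by
  induction Γ using Polynomial.induction_on' with
  | add p q hp hq => rw [add_comp, mul_add, map_add, hp, hq, add_zero]
  | monomial i r => rw [monomial_comp, mul_left_comm, F_C, F_Rp n h i M hM, mul_zero]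

theorem F_D (hD : IsDer D) {a b : ℕ} (h : a + b = 4) (M : ℤ) {y y1 : L[X]} (hy : Dp D y y1) :
    D (F n (-1 - b * M / 4) (M + 1) (jP a n * y)) =
      F n (-1 - b * M / 4) (M + 1) (jP a n * y1 - C (b * D n) * X * derivative y) := by
  have h2 : (a : L) + b = 4 := by exact_mod_cast congrArg (Nat.cast : ℕ → L) h
  obtain ⟨N, a1, a2, a3⟩ : ∃ N, y.natDegree < N ∧ y1.natDegree < N ∧
      (X * derivative y).natDegree < N :=
    ⟨y.natDegree + y1.natDegree + (X * derivative y).natDegree + 1, by omega, by omega, by omega⟩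
  have h4 : D 4 = 0 := by exact_mod_cast hD.natCast 4
  rw [map_sub, mul_assoc, F_C, F_j, F_j, F_sum n _ _ a1, F_sum n _ _ a1, F_sum n _ _ a2,
    F_sum n _ _ a2, F_sum n _ _ a3]
  simp only [Finset.mul_sum, ← Finset.sum_add_distrib, ← Finset.sum_sub_distrib, map_sum]
  refine Finset.sum_congr rfl fun i _ => ?_
  have hX : (X * derivative y).coeff i = i * y.coeff i := by
    cases i with
    | zero => simp
    | succ i => rw [coeff_X_mul, coeff_derivative]; push_cast; ring
  rw [hX, hy, show (i : ℤ) - (M + 1) = i - M - 1 by ring, map_add, hD.const_mul h4,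
    hD.const_mul (hD.natCast a), mul_left_comm n, hD (y.coeff i), hD (y.coeff i), D_nc n _ hD,
    D_c n _ hD]
  push_cast
  linear_combination (i - M) * y.coeff i * c n (-1 - b * M / 4) (i - M - 1) * D n * h2

end Slot

theorem slotS : SlotStmt := by
  intro L _ _ D a b N n y y1 Γ T K hD h hK hT hy hE
  refine ⟨Slot.F n (-1 - b * (K + 4 : ℤ) / 4) (K + 4 + 1) (jP a n * y), ?_⟩
  have h1 := congrArg (Slot.F n (-3 - b * K / 4 - b) (K + 7)) hE
  rw [Slot.F_R n _ h, Slot.F_Xnp, Slot.F_sum n _ _ hT, Vp, map_sub,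
    show -3 - (b : ℚ) * K / 4 - b + (2 : ℕ) = -1 - b * (K + 4 : ℤ) / 4 by push_cast; ring,
    show K + 7 - (2 : ℕ) = K + 4 + 1 by push_cast; ring,
    Slot.F_G n h (K + 4) (fun h => hK (by omega)), sub_zero, sub_add_cancel] at h1
  rw [Slot.F_D n hD h _ hy, h1]
  refine Finset.sum_congr rfl fun i _ => ?_
  rw [Slot.c, show (i : ℤ) - (K + 7 - 4) = i - 3 - K by ring]
  by_cases hi : K + 3 ≤ i
  · rw [if_pos hi, if_pos (by omega), mul_assoc]
  · rw [if_neg hi, if_neg (by omega), mul_zero]

end Pool.Agent.MP_05b4bd_ag.XO
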