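import Pool.Agent.MP_05b4bd_ag.ex.Defs
import Pool.Agent.MP_05b4bd_ag.rr.Spec2
import Pool.Agent.MP_05b4bd_ag.rr.Spec4

/-! The exceptional cubic: definitions and block statements. -/

section
namespace Pool.Agent.MP_05b4bd_ag.XO

open MvPolynomial HC
open PC3 (Fm fm d1 DF sub2 pb mapF H2)

noncomputable section

variable {A B : Type} [CommRing A] [CommRing B]

/-- The normal form of the exceptional cubic. -/
def f0 (c : A) : R2 A := X 0 ^ 3 + X 0 * X 1 ^ 2 + 2 * C c * X 1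

def gE (b : ℕ) (c m u v : A) : A :=
  u ^ 3 + u * v ^ 2 + 2 * c * v - c ^ 2 * m * ∑ i ∈ Finset.range b, (1 + m * u) ^ i

/-- The exceptional family over any ring. -/
def exF (b : ℕ) (c m μ : A) (u v : R2 A) : Fm A :=
  fm (4 * (1 + C m * u)) (gE b (C c) (C m) u v) -
    fm (3 * (b : R2 A) * gE b (C c) (C m) u v) (1 + C m * u) +
    (C μ * (u * v + C c)) • (fm (4 * (1 + C m * u)) u - fm ((b : R2 A) * u) (1 + C m * u))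

def HX (b : ℕ) (w : Fm A) : Prop :=
  ∃ (c m μ : A) (u v : R2 A), DL 2 u ∧ DL 2 v ∧ w = exF b c m μ u v

/-- Over some field the form is logarithmic or exceptional. -/
def Xc (w : Fm A) : Prop := ∃ (K : Type) (_ : Field K) (ι : A →+* K), Function.Injective ι ∧
  (H2 1 3 (mapF ι w) ∨ HX 1 (mapF ι w) ∨ HX 3 (mapF ι w))

/-- The fourteen parameters of the normal form. -/
structure Pa (A : Type) where
  c : A
  μ : A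
  m : A
  n : A
  κ : A
  g : A
  ν : A
  s0 : A
  s2 : A
  q : Fin 5 → A

def Pa.map (φ : A →+* B) (x : Pa A) : Pa B :=
  ⟨φ x.c, φ x.μ, φ x.m, φ x.n, φ x.κ, φ x.g, φ x.ν, φ x.s0, φ x.s2, fun i => φ (x.q i)⟩

/-- The line in the affine coordinates. -/
def Pa.l (y : Pa A) (u v : A) : A := 1 + y.m * u + 52 * y.n * v

/-- The line in the chart `p = v / u`, `z = 1 / u`. -/
def Pa.el (y : Pa A) (p z : A) : A := z + y.m + 52 * y.n * p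

def Pa.ρ (b : ℕ) (y : Pa A) (p z : A) : A := z ^ (4 - b) * y.el p z ^ b

def Pa.Λ (y : Pa A) (s r : A) : A := 3 * (1 + s ^ 2) + y.μ * s - y.ν * s ^ 2 + y.c ^ 2 * r

def Pa.Λ0 (y : Pa A) (s r : A) : A := 3 * (1 + s ^ 2) + y.μ * s + y.c ^ 2 * r

/-- The parameters `y` belong to the coordinates `τ u`, `τ v`. -/
structure Sc (τ : A) (x y : Pa A) : Prop where
  c : y.c = τ ^ 2 * x.c
  μ : y.μ = x.μ
  m : x.m = τ * y.m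
  n : x.n = τ * y.n
  κ : y.κ = τ * x.κ
  g : y.g = τ ^ 2 * x.g
  ν : y.ν = x.ν
  s0 : y.s0 = τ * x.s0
  s2 : x.s2 = τ * y.s2
  q : ∀ i, x.q i = τ * y.q i

/-- A quartic form and its two derivatives at `(1, s)`. -/
def q4 (a : Fin 5 → A) (u v : A) : A :=
  a 0 * u ^ 4 + a 1 * u ^ 3 * v + a 2 * u ^ 2 * v ^ 2 + a 3 * u * v ^ 3 + a 4 * v ^ 4

def qu (a : Fin 5 → A) (s : A) : A := 4 * a 0 + 3 * a 1 * s + 2 * a 2 * s ^ 2 + a 3 * s ^ 3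

def qv (a : Fin 5 → A) (s : A) : A := a 1 + 2 * a 2 * s + 3 * a 3 * s ^ 2 + 4 * a 4 * s ^ 3

/-- Coefficients of `(m u + n v) ^ 4` and of `(m u + n v) (u ^ 3 + u v ^ 2)`. -/
def m4 (m n : A) : Fin 5 → A := ![m ^ 4, 4 * m ^ 3 * n, 6 * m ^ 2 * n ^ 2, 4 * m * n ^ 3, n ^ 4]

def mF (m n : A) : Fin 5 → A := ![m, n, m, n, 0]

/-- `4 l T' - 3 b T = 180 (l - 1) ^ 3` for `T = t3 b 1 l`. -/
def t3 (b : ℕ) (z l : A) : A :=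
  if b = 1 then 60 * z ^ 3 + 540 * z ^ 2 * l - 108 * z * l ^ 2 + 20 * l ^ 3
  else 20 * z ^ 3 - 108 * z ^ 2 * l + 540 * z * l ^ 2 + 60 * l ^ 3

/-- The leading part of the obstruction. -/
def rz (b : ℕ) (p z m n : A) : A :=
  if b = 1 then
    (144 * p ^ 2 + 384 * p ^ 4 + 112 * p ^ 6) * z ^ 2 +
    ((252 * p ^ 2 + 744 * p ^ 4 + 460 * p ^ 6) * m + (144 * p ^ 3 + 240 * p ^ 5 + 64 * p ^ 7) * n) * z +
    (108 * p ^ 2 + 360 * p ^ 4 + 348 * p ^ 6) * m ^ 2 +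
    (108 * p ^ 3 + 216 * p ^ 5 + 300 * p ^ 7) * m * n - (144 * p ^ 6 + 48 * p ^ 8) * n ^ 2
  else
    (2844 * p ^ 2 + 3300 * p ^ 4 + 784 * p ^ 6) * z ^ 2 +
    ((3555 * p ^ 2 + 4503 * p ^ 4 + 508 * p ^ 6) * m +
      (2988 * p ^ 3 + 4644 * p ^ 5 + 1216 * p ^ 7) * n) * z +
    (711 * p ^ 2 + 1203 * p ^ 4 - 276 * p ^ 6) * m ^ 2 +
    (855 * p ^ 3 + 2547 * p ^ 5 + 156 * p ^ 7) * m * n +
    (144 * p ^ 4 + 1344 * p ^ 6 + 432 * p ^ 8) * n ^ 2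

/-- The numerator of the first variation in the small disc. -/
def Tz (b : ℕ) (a : Fin 5 → A) (S θ x1 x2 m n s z : A) : A :=
  (z + m + n * s) * (3 * (1 + s ^ 2) * (4 * z + (4 - b) * (m + n * s)) * (S + qv a s) -
    (qu a s + s * (S + qv a s)) * (8 * s * (z + m + n * s) - 3 * b * n * (1 + s ^ 2))) +
  4 * (x1 - 2 * s * x2) * t3 b z (z + m + n * s) * (z + m + n * s) ^ 2 *
    (4 * z + (4 - b) * (m + n * s)) - θ * rz b s z m n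

/-- The six linear conditions. -/
def zl (b : ℕ) (m n S θ : A) (A : Fin 5 → A) : Prop :=
  if b = 1 then
    (-1) * S + (-48) * θ = 0 ∧
    (-13 * m) * S + (3456 * m) * θ + (28 * n) * A 0 + (-7 * m) * A 1 + (42 * n) * A 2 + (-63 *
      m) * A 3 = 0 ∧
    (3 * n ^ 2 + 17 * m ^ 2) * S + (2064 * n ^ 2 - 3600 * m ^ 2) * θ + (-56 * m * n) * A 0 +
      (-42 * n ^ 2 + 14 * m ^ 2) * A 1 + (42 * n ^ 2 + 42 * m ^ 2) * A 3 + (-168 * m * n) * A 4 =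
      0 ∧
    (-792 * m * n) * θ + (-7 * n ^ 2) * A 2 + (7 * m * n) * A 3 + (14 * m ^ 2) * A 4 = 0 ∧
    (-5 * m * n ^ 4 - 50 * m ^ 3 * n ^ 2 - 29 * m ^ 5) * S + (-72000 * m * n ^ 4 + 102720 * m ^
      3 * n ^ 2 - 3072 * m ^ 5) * θ + (140 * n ^ 5 + 280 * m ^ 2 * n ^ 3 + 140 * m ^ 4 * n) * A 0
      + (385 * m * n ^ 4 + 70 * m ^ 3 * n ^ 2 - 35 * m ^ 5) * A 1 + (-350 * n ^ 5 + 140 * m ^ 2 *
      n ^ 3 - 70 * m ^ 4 * n) * A 2 + (-175 * m * n ^ 4 - 490 * m ^ 3 * n ^ 2 - 35 * m ^ 5) * A 3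
      + (2800 * m ^ 2 * n ^ 3 - 560 * m ^ 4 * n) * A 4 = 0 ∧
    (2 * n ^ 5) * S + (-1704 * n ^ 5 + 16320 * m ^ 2 * n ^ 3 - 4200 * m ^ 4 * n) * θ + (35 * n ^
      5) * A 1 + (70 * m * n ^ 4) * A 2 + (-35 * n ^ 5 - 70 * m ^ 2 * n ^ 3) * A 3 + (140 * m * n
      ^ 4 - 280 * m ^ 3 * n ^ 2) * A 4 = 0
  else
    (-1) * S + (-489) * θ = 0 ∧
    (-7 * m) * S + (-6651 * m) * θ + (52 * n) * A 0 + (-13 * m) * A 1 + (78 * n) * A 2 + (-117 *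
      m) * A 3 = 0 ∧
    (15 * n ^ 2 - 11 * m ^ 2) * S + (-465 * n ^ 2 - 8091 * m ^ 2) * θ + (104 * m * n) * A 0 +
      (78 * n ^ 2 - 26 * m ^ 2) * A 1 + (-78 * n ^ 2 - 78 * m ^ 2) * A 3 + (312 * m * n) * A 4 = 0
      ∧
    (-1368 * m * n) * θ + (13 * n ^ 2) * A 2 + (-13 * m * n) * A 3 + (-26 * m ^ 2) * A 4 = 0 ∧
    (-145 * m * n ^ 4 - 10 * m ^ 3 * n ^ 2 + 23 * m ^ 5) * S + (-107325 * m * n ^ 4 + 223950 * m
      ^ 3 * n ^ 2 - 6213 * m ^ 5) * θ + (-260 * n ^ 5 - 520 * m ^ 2 * n ^ 3 - 260 * m ^ 4 * n) * A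
      0 + (-715 * m * n ^ 4 - 130 * m ^ 3 * n ^ 2 + 65 * m ^ 5) * A 1 + (650 * n ^ 5 - 260 * m ^ 2
      * n ^ 3 + 130 * m ^ 4 * n) * A 2 + (325 * m * n ^ 4 + 910 * m ^ 3 * n ^ 2 + 65 * m ^ 5) * A
      3 + (-5200 * m ^ 2 * n ^ 3 + 1040 * m ^ 4 * n) * A 4 = 0 ∧
    (-14 * n ^ 5) * S + (-786 * n ^ 5 + 32160 * m ^ 2 * n ^ 3 - 9240 * m ^ 4 * n) * θ + (-65 * n
      ^ 5) * A 1 + (-130 * m * n ^ 4) * A 2 + (65 * n ^ 5 + 130 * m ^ 2 * n ^ 3) * A 3 + (-260 * m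
      * n ^ 4 + 520 * m ^ 3 * n ^ 2) * A 4 = 0

abbrev U6 := MvPolynomial (Fin 6) ℤ

/-- Value of a universal polynomial. -/
def e6 (g : U6) (y : Pa A) (p z : A) : A :=
  eval₂ (Int.castRingHom A) ![p, z, y.c, y.μ, y.m, y.n] g

/-- The polynomials of the model. -/
structure Mp where
  S : U6
  ψ : U6
  G : U6
  P : U6
  Q : U6
  N : U6
  gt : U6
  At : U6
  Bt : U6

namespace Mp
variable (M : Mp) (b : ℕ) (y : Pa A) (p z : A)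

def J : A := e6 (pderiv 0 M.S) y p z * ((4 - b) * y.el p z + b * z) -
  e6 (pderiv 1 M.S) y p z * (b * z * (52 * y.n))

def op : A := 8 * e6 M.S y p z * y.el p z * e6 (pderiv 0 M.S) y p z -
  y.Λ0 (e6 M.S y p z) (y.ρ b p z) * (b * (52 * y.n))

def oz : A := 8 * e6 M.S y p z * z * y.el p z * e6 (pderiv 1 M.S) y p z -
  y.Λ0 (e6 M.S y p z) (y.ρ b p z) * ((4 - b) * y.el p z + b * z)

/-- The remainder of the second order. -/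
def W : A :=
  (y.el p z * e6 (pderiv 0 M.N) y p z - e6 M.N y p z * (52 * y.n)) * M.oz b y p z -
    (y.el p z * e6 (pderiv 1 M.N) y p z - e6 M.N y p z) * z * M.op b y p z +
  y.el p z * (e6 M.N y p z * (6 * e6 M.S y p z + y.μ) - 4 * y.el p z *
    (e6 M.gt y p z + 2 * y.c ^ 3 * y.ρ b p z * e6 M.ψ y p z ^ 2)) * M.J b y p z +
  y.el p z * (e6 M.Bt y p z * M.oz b y p z +
    (e6 M.At y p z + p * e6 M.Bt y p z) * M.op b y p z)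

end Mp

/-- The model: a cubic form that is a pull-back up to the seventh order. -/
structure Mo (b : ℕ) extends Mp where
  hb : b = 1 ∨ b = 3
  sE : ∀ {A : Type} [CommRing A] (y : Pa A) (p z : A),
    ∃ r, e6 S y p z = p + y.c * (z ^ 2 + y.n * r)
  sp : ∀ {A : Type} [CommRing A] (y : Pa A) (p z : A),
    (∃ r, e6 (pderiv 0 S) y p z = 1 + y.c * y.n * r) ∧
      ∃ r, e6 (pderiv 1 S) y p z = y.c * (2 * z + y.n * r)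
  gE : ∀ {A : Type} [CommRing A] (y : Pa A) (u v : A), ∃ r1 r2,
    e6 G y u v = gE b y.c y.m u v + y.n * (52 * b * y.c * v ^ 2 + y.m * r1 + y.n * r2)
  pE : ∀ {A : Type} [CommRing A] (y : Pa A) (u v : A),
    (∃ r, e6 P y u v = (u * v + y.c) * (4 + (4 - b) * y.m * u) + y.n * r) ∧
      ∃ r, e6 Q y u v = y.n * r
  dg : ∀ {A : Type} [CommRing A] (x : Pa A), DL 4 (e6 G (x.map C) (X 0) (X 1) : R2 A) ∧
    DL 4 (e6 P (x.map C) (X 0) (X 1) : R2 A) ∧ DL 4 (e6 Q (x.map C) (X 0) (X 1) : R2 A)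
  wt : ∀ {A : Type} [CommRing A] (τ : A) (x y : Pa A) (u v : A), Sc τ x y →
    e6 G y (τ * u) (τ * v) = τ ^ 3 * e6 G x u v ∧ e6 P y (τ * u) (τ * v) = τ ^ 2 * e6 P x u v ∧
    e6 Q y (τ * u) (τ * v) = τ ^ 2 * e6 Q x u v ∧ e6 S y u v = e6 S x u (τ * v)
  iG : ∀ {A : Type} [CommRing A] (y : Pa A) (p z zi : A), z * zi = 1 →
    z ^ 3 * e6 G y zi (p * zi) = 1 + e6 S y p z ^ 2 - y.c ^ 2 * y.ρ b p z -
      y.Λ0 (e6 S y p z) (y.ρ b p z) * (y.c ^ 2 * y.n ^ 3 * e6 ψ y p z) +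
      y.c ^ 3 * y.n ^ 6 * e6 gt y p z
  iP : ∀ {A : Type} [CommRing A] (y : Pa A) (p z zi : A), z * zi = 1 →
    z ^ 3 * e6 P y zi (p * zi) = e6 S y p z * (4 * y.el p z - b * y.m) -
      4 * y.el p z * (y.c ^ 2 * y.n ^ 3 * e6 ψ y p z) *
        (p * e6 (pderiv 0 S) y p z + z * e6 (pderiv 1 S) y p z) + y.c ^ 3 * y.n ^ 6 * e6 At y p z
  iQ : ∀ {A : Type} [CommRing A] (y : Pa A) (p z zi : A), z * zi = 1 →
    z ^ 3 * e6 Q y zi (p * zi) =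
      4 * y.el p z * (y.c ^ 2 * y.n ^ 3 * e6 ψ y p z) * e6 (pderiv 0 S) y p z -
        b * (52 * y.n) * e6 S y p z + y.c ^ 3 * y.n ^ 6 * e6 Bt y p z
  iW : ∀ {A : Type} [CommRing A] (y : Pa A) (p z : A), ∃ r1 r2, toMp.W b y p z =
    y.n * (16 * 13 ^ 7 * rz b p z y.m (52 * y.n) + y.c * r1 + y.μ * r2)

/-- The normal form with parameters `y` in the coordinates `u`, `v`. -/
def omF {b : ℕ} (M : Mo b) (y : Pa (R2 A)) (u v : R2 A) : Fm A :=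
  fm (4 * y.l u v) (e6 M.G y u v + y.κ * u ^ 2 + y.g * u) -
    fm (3 * (b : R2 A) * (e6 M.G y u v + y.κ * u ^ 2 + y.g * u)) (y.l u v) +
    fm (y.μ * e6 M.P y u v) u + fm (y.μ * e6 M.Q y u v) v +
    fm (y.ν * (b : R2 A) * u * v ^ 2) (y.l u v) - fm (4 * y.ν * y.l u v * v ^ 2) u +
    fm (y.s0 * u + y.s2 * u ^ 3) v + d1 (q4 y.q u v)

def Om {b : ℕ} (M : Mo b) (x : Pa A) : Fm A := omF M (x.map C) (X 0) (X 1)

def af (a b c : A) : R2 A := C a + C b * X 0 + C c * X 1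

def pa (y : Fin 20 → A) : Pa A :=
  ⟨y 6, y 7, y 8, y 9, y 10, y 11, y 12, y 13, y 14, ![y 15, y 16, y 17, y 18, y 19]⟩

/-- The family with twenty parameters. -/
def uO {b : ℕ} (M : Mo b) (y : Fin 20 → A) : Fm A :=
  pb (af (y 0) (y 1) (y 2)) (af (y 3) (y 4) (y 5)) (Om M (pa y))

def y0 (c : A) (i : Fin 20) : A := if i = 1 ∨ i = 5 then 1 else if i = 6 then c else 0

/-- The curve `(u, v)` is tangent to the form. -/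
def Fo (φ : A →+* B) (w : Fm A) (V : B → B) (u v : B) : Prop :=
  eval₂ φ ![u, v] w.1 * V v = eval₂ φ ![u, v] w.2 * V u

/-- The equation of the form in the chart at infinity. -/
def HS {b : ℕ} (M : Mo b) (V : A → A) (y : Pa A) (p z zi g d : A) : Prop :=
  4 * z * y.el p z * V (z ^ 3 * e6 M.G y zi (p * zi) + g) -
    3 * (z ^ 3 * e6 M.G y zi (p * zi) + g) * ((4 - b) * y.el p z * V z + b * z * V (y.el p z)) +
    y.μ * (z ^ 3 * e6 M.Q y zi (p * zi) * z * V p -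
      (z ^ 3 * e6 M.P y zi (p * zi) + p * (z ^ 3 * e6 M.Q y zi (p * zi))) * V z) +
    y.ν * p ^ 2 * ((4 - b) * y.el p z * V z + b * z * V (y.el p z)) + z * y.el p z * d = 0

/-- The quartic part is `a'` plus a multiple of the fourth power of the line. -/
def Sp (y : Pa A) (ax : A) (a' : Fin 5 → A) : Prop :=
  ∀ i, y.q i = a' i + 45 * ax * m4 y.m (52 * y.n) i

/-- Binomial coefficients. -/
def bq (e : ℚ) : ℕ → ℚ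
  | 0 => 1
  | i + 1 => bq e i * (e - i) / (i + 1)

end

end Pool.Agent.MP_05b4bd_ag.XO
end

section
namespace Pool.Agent.MP_05b4bd_ag.XO

open PowerSeries LaurentSeries HC
open ES hiding Gen Ob Inf
open ES.U (TM Cr hom)
open PC3 (Fm fm d1 DF sub2 pb mapF Van CenK)
open RV (fa fb Frm Good Rho Fac Dk In Cg ExoK SymK RRc Ob NoF)

noncomputable section

variable {k L : Type} [Field k] [Field L]

/-- The parameters reduce to those of the normal form. -/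
structure Sm (c : k) (x : Pa k⟦X⟧) : Prop where
  c : cc x.c = c
  μ : X ∣ x.μ
  m : X ∣ x.m
  n : X ∣ x.n
  κ : X ∣ x.κ
  g : X ∣ x.g
  ν : X ∣ x.ν
  s0 : X ∣ x.s0
  s2 : X ∣ x.s2
  q : ∀ i, X ∣ x.q i

/-- The quantities seen in the small disc. -/
def Zl (j : ℕ) (y : Pa k⟦X⟧) (ax : k⟦X⟧) (a' : Fin 5 → k⟦X⟧) : Prop :=
  X ^ j ∣ y.μ * ax ∧ X ^ j ∣ y.ν * ax ∧ X ^ j ∣ y.s2 ∧ (∀ i, X ^ j ∣ a' i) ∧
    X ^ j ∣ y.μ * y.c ^ 3 * y.n ^ 7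

/-- The quantities seen in the annulus. -/
def Ol (j : ℕ) (x : Pa k⟦X⟧) : Prop :=
  X ^ j ∣ x.μ * x.κ ∧ X ^ j ∣ x.μ * x.g ∧ X ^ j ∣ x.ν ∧ X ^ j ∣ x.s0

/-- The function field of `z ^ 3 = 1 + s ^ 2` with `D = d / ds`. -/
structure Xd (κ : k →+* L) (D : L →+ L) (s z : L) : Prop where
  der : IsDer D
  con : ∀ c, D (κ c) = 0
  ds : D s = 1
  cub : z ^ 3 = 1 + s ^ 2
  gb : gf κ s z = ⊤
  cst : Cst κ D

def sD (θ : L) (D : L →+ L) : L →+ L := (AddMonoidHom.mulLeft θ).comp D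

def Ex {A : Type} [CommRing A] (D : A →+ A) (u : A) : Prop := ∃ v, D v = u

/-- A least first integral in every frame. -/
def Gx (κ : k →+* L) (D : L →+ L) (s z : L) (w : Fm k⟦X⟧) (n α : ℕ) : Prop :=
  ∀ x y : AA L, c00 x = z⁻¹ → c00 y = s * z⁻¹ → Good κ (sD (-3 * z ^ 2) D) (fa κ 3 w.1 w.2 x y)
    (fb κ (sD (-3 * z ^ 2) D) 3 w.1 w.2 x y) n α

/-- Constants in the two rings of series. -/
def iA (κ : k →+* L) : k⟦X⟧ →+* AA L := (C : L⟦X⟧ →+* AA L).comp (map κ)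

def iK (κ : k →+* L) : k⟦X⟧ →+* TT L := map ((cL L).comp κ)

/-- The level curve `f = W ^ (-3)` in the chart: `z = W ζ`. -/
structure Cn (κ : k →+* L) (s z : L) (c : k) (ζ : L⟦X⟧) : Prop where
  z0 : cc ζ = z
  cu : ζ ^ 3 = C (1 + s ^ 2) - C (κ c ^ 2) * X ^ 4 * ζ ^ 4

/-- The frame adapted to the model. -/
structure Cf {b : ℕ} (M : Mo b) (κ : k →+* L) (s z : L) (c : k) (x : Pa k⟦X⟧) (p : AA L)
    (ζ ζi : L⟦X⟧) : Prop extends Cn κ s z c ζ where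
  inv : ζ * ζi = 1
  p0 : c00 p = s
  eq : e6 M.S (x.map (iA κ)) p (X * map C ζ) = CC s

def ca (κ : k →+* L) (w : Fm k⟦X⟧) (p : AA L) (ζi : L⟦X⟧) : AA L :=
  fa κ 3 w.1 w.2 (map C ζi) (p * map C ζi)

def cb (κ : k →+* L) (D : L →+ L) (w : Fm k⟦X⟧) (p : AA L) (ζi : L⟦X⟧) : AA L :=
  fb κ D 3 w.1 w.2 (map C ζi) (p * map C ζi)

/-- What the first integral gives. -/
structure Pp (κ : k →+* L) (D : L →+ L) (a b : AA L) (α β : ℕ) (ω : k) (ρ B u : AA L) (w : L⟦X⟧)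
    (vb : TT L) (σ : k⟦X⟧) (Φ : AA L →+* TT L) (φ : L⸨X⸩ →+* TT L) : Prop where
  sum : α + β = 4
  nd : ¬ a ∣ X * b
  ra : red a = -(((3 : ℕ) : L⟦X⟧) * X)
  rb : red b = 0
  rho : Rho D a b ρ B 4
  fac : Fac ρ u w α β
  hv : iT a * vb = iT b
  dk : Dk D vb (map κ σ) ρ Φ φ
  s0 : cc σ = 0
  s1 : coeff 1 σ = ω

/-- The position of the second branch. -/
structure Fd (D : L →+ L) (a b : AA L) (α β : ℕ) (w : L⟦X⟧) (e : ℕ) : Prop where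
  e1 : 1 ≤ e
  ord : OrdIs e w
  da : X ^ e ∣ cc a
  db : X ^ e ∣ cc b
  ea : 4 * coeff e (cc a) = 3 * α * coeff e w
  eb : 4 * coeff e (cc b) = 3 * β * D (coeff e w)

/-- Polynomials in `1 / w`. -/
def iX (L : Type) [Field L] : Polynomial L →+* L⸨X⸩ :=
  Polynomial.eval₂RingHom (cL L) (wL L (-1))

/-- The small disc: `W = t ^ e / w`. -/
def zm (e : ℕ) : AA L →+* TT L := ES.ev (map (cL L)) (X ^ e * C (wL L (-1)))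

def rP (a b : ℕ) (n : L) : Polynomial L := Polynomial.X ^ a * (Polynomial.X + Polynomial.C n) ^ b

def jP (a : ℕ) (n : L) : Polynomial L := 4 * Polynomial.X + Polynomial.C (a * n)

def Dp (D : L →+ L) (y y1 : Polynomial L) : Prop := ∀ i, y1.coeff i = D (y.coeff i)

/-- The limit field in the small disc, modulo functions on the quotient. -/
def Vp (D : L →+ L) (a b : ℕ) (n : L) (y y1 Γ : Polynomial L) : Polynomial L :=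
  jP a n * y1 - Polynomial.C (b * D n) * Polynomial.X * Polynomial.derivative y -
    jP a n * Γ.comp (rP a b n)

/-- The equation of the first variation in the small disc. -/
def Zeq (b : ℕ) (κ : k →+* L) (D : L →+ L) (s z n : L) (m m1 : k) (a : Fin 5 → k)
    (S θ x1 x2 : k) : Prop := ∃ y y1 Γ : Polynomial L, Dp D y y1 ∧
  Polynomial.C (9 * z ^ 9) * (Polynomial.X + Polynomial.C n) ^ 2 * Vp D (4 - b) b n y y1 Γ =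
    rP (4 - b) b n * Tz b (fun i => Polynomial.C (κ (a i))) (Polynomial.C (κ S))
      (Polynomial.C (κ θ)) (Polynomial.C (κ x1)) (Polynomial.C (κ x2)) (Polynomial.C (κ m))
      (Polynomial.C (κ m1)) (Polynomial.C s) (Polynomial.C z * Polynomial.X)

/-- The data in the small disc. -/
structure Zd {b : ℕ} (M : Mo b) (κ : k →+* L) (D : L →+ L) (s z : L) (y : Pa k⟦X⟧) (n u : L)
    (vb p z' zi ρ : TT L) : Prop where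
  inv : z' * zi = 1
  mp : In (iX L).range p
  mz : In (iX L).range z'
  mρ : In (iX L).range ρ
  p0 : cc p = cL L s
  z0 : cc z' = cL L z * wL L (-1)
  eq : e6 M.S (y.map (iK κ)) p z' = C (cL L s)
  fo : Fo (iK κ) (Om M y) (VT D vb) zi (p * zi)
  v0 : cc vb * iX L (jP (4 - b) n) = -cL L (b * D n)
  n0 : n ≠ 0
  nz : n * z = κ (cc y.m) + κ (52 * cc y.n) * s
  u0 : u ≠ 0
  r0 : cc ρ = iX L (Polynomial.C u * rP (4 - b) b n)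
  ap : ∀ N : ℕ, ∃ P : Polynomial L⟦X⟧, X ^ N ∣ VT D vb ρ - P.eval₂ (map (cL L)) ρ

/-- A deck transformation in the annulus. -/
structure Dt (κ : k →+* L) (D : L →+ L) (ω : k) (vb : TT L) (σ : k⟦X⟧) (φ : L⸨X⸩ →+* TT L) :
    Prop where
  v0 : cc vb = 0
  prim : IsPrimitiveRoot ω 4
  s0 : cc σ = 0
  s1 : coeff 1 σ = ω
  fix : ∀ r : L⟦X⟧, hat φ (map (cL L) r) = map (cL L) r
  red : ∀ c, cc (φ (coeL L c)) = coeL L (sb (map κ σ) c)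
  der : ∀ c, cwL D (cc (φ c)) = cc (φ (cwL D c))
  vt : ∀ z, VT D vb (hat φ z) = hat φ (VT D vb z)

/-- The data in the annulus. -/
structure Ad {b : ℕ} (M : Mo b) (κ : k →+* L) (D : L →+ L) (s : L) (x : Pa k⟦X⟧) (ζ : L⟦X⟧)
    (vb p zi : TT L) : Prop where
  inv : C (coeL L (X * ζ)) * zi = 1
  eq : e6 M.S (x.map (iK κ)) p (C (coeL L (X * ζ))) = C (cL L s)
  fo : Fo (iK κ) (Om M x) (VT D vb) zi (p * zi)

/-- The first variation in the annulus. -/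
def dO (D : L →+ L) (s c : L) (z : L⸨X⸩) (S ν K G : L) : L⸨X⸩ :=
  cL L S * z ^ 2 * cwL D ((cL L s - cL L c * z ^ 2) / z) +
    4 * cL L ν * ((cL L s - cL L c * z ^ 2) ^ 2 - cL L s ^ 2) * cwL D z / z +
    4 * (cL L K * z + cL L G * z ^ 2) / (3 * (1 + cL L s ^ 2) + cL L c ^ 2 * z ^ 4)

/-- The reversible case or the exceptional case. -/
def Rx (d : ℕ) (f : R2 k) (w : Fm k⟦X⟧) : Prop :=
  (∃ a b, 1 ≤ a ∧ 1 ≤ b ∧ a.Coprime b ∧ SymK d (a + b) f ∧ RRc d a b w) ∨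
    d = 3 ∧ ExoK f ∧ Xc w

end

/-! ### Statements: components -/

def UnxStmt : Prop := ∀ b : ℕ, (∀ ω : Form, ω ∈ EX b ↔ HX b ω) ∧
  (∀ (A B : Type) [CommRing A] [CommRing B] (φ : A →+* B) (w : Fm A), HX b w → HX b (mapF φ w)) ∧
  (∀ (A : Type) [CommRing A] (w : Fm A) (s t : R2 A), DL 2 s → DL 2 t → HX b w →
    HX b (pb s t w)) ∧
  (∀ (A : Type) [CommRing A] (w : Fm A), b ≤ 3 → HX b w → DF 4 w) ∧ Irred (EX b) ∧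
  ∀ (A : Type) [CommRing A] [Algebra ℂ A] (w : Fm A), HX b w → Van (EX b) w

def VanxStmt : Prop :=
  (∀ (A : Type) [CommRing A] [Algebra ℂ A] (w : Fm A), Xc w →
    ∃ W, (W ∈ UM.Wl 3 ∨ W = EX 1 ∨ W = EX 3) ∧ Van W w) ∧
  (∀ (A : Type) [CommRing A] (w : Fm A) (s t : R2 A), DL 2 s → DL 2 t → Xc w → Xc (pb s t w)) ∧
  (∀ (A B : Type) [CommRing A] [CommRing B] (φ : A →+* B) (w : Fm A), Function.Injective φ →
    Xc (mapF φ w) → Xc w) ∧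
  ∀ (b : ℕ) (f : Poly), Exo f → dform f ∈ EX b

def CenxStmt : Prop := ∀ (b : ℕ) (c m μ : ℂ) (u v : Poly) (z : Fin 2 → ℂ),
  MvPolynomial.eval z u ≠ 0 → MvPolynomial.eval z (1 + MvPolynomial.C m * u) ≠ 0 →
  MvPolynomial.eval z (3 * (u ^ 4 + (u * v + MvPolynomial.C c) ^ 2) +
    MvPolynomial.C μ * (u * v + MvPolynomial.C c) * u ^ 2 +
    MvPolynomial.C c ^ 2 * (1 + MvPolynomial.C m * u) ^ b) ≠ 0 →
  MvPolynomial.eval z (exF b c m μ u v).1 = 0 → MvPolynomial.eval z (exF b c m μ u v).2 = 0 →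
  MvPolynomial.eval z (jac (exF b c m μ u v)) ≠ 0 → IsCenter (exF b c m μ u v) z

def MexStmt : Prop := ∀ b, b = 1 ∨ b = 3 → EX b ⊆ M 3

def Sx1Stmt : Prop := ∀ b, b = 1 ∨ b = 3 → (∀ W ∈ UM.Wl 3, ¬ W ⊆ zcl (EX b)) ∧
  ¬ RR 3 1 1 ⊆ zcl (EX b) ∧ ¬ EX (4 - b) ⊆ zcl (EX b)

def Sx2Stmt : Prop := ∀ b, b = 1 ∨ b = 3 → ∀ W ∈ UM.Wl 3, ¬ EX b ⊆ zcl W

def Sx3Stmt : Prop := ∀ b, b = 1 ∨ b = 3 → ¬ EX b ⊆ zcl (RR 3 1 1)

/-! ### Statements: normal form, frames, parameters -/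

def XnfStmt : Prop := ∀ (k : Type) [Field k] [CharZero k] [IsAlgClosed k] (f : R2 k), TM 3 f →
  ExoK f → ∃ (u v : R2 k) (c e δ : k), DL 2 u ∧ DL 2 v ∧ δ ≠ 0 ∧ br u v = MvPolynomial.C δ ∧
    c ≠ 0 ∧ f = sub2 u v (f0 c) + MvPolynomial.C e

def NatStmt : Prop := ∀ (k L : Type) [Field k] [Field L] (κ : k →+* L) (D : L →+ L) (d : ℕ)
  (w : Fm k⟦X⟧) (s t : R2 k⟦X⟧) (x y : AA L), IsDer D → (∀ c, D (κ c) = 0) → DF (d + 1) w →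
  DL 2 s → DL 2 t →
  fa κ d (pb s t w).1 (pb s t w).2 x y =
    fa κ d w.1 w.2 (hev (iA κ) 1 s x y X) (hev (iA κ) 1 t x y X) ∧
  fb κ D d (pb s t w).1 (pb s t w).2 x y =
    fb κ D d w.1 w.2 (hev (iA κ) 1 s x y X) (hev (iA κ) 1 t x y X)

def GscStmt : Prop := ∀ (k L : Type) [Field k] [Field L] (κ : k →+* L) (D : L →+ L) (θ : L),
  θ ≠ 0 → (∀ a b n α, Good κ D a b n α → Good κ (sD θ D) a (CC θ * b) n α) ∧
  (∀ a b ρ B n, Rho D a b ρ B n → Rho (sD θ D) a (CC θ * b) ρ (CC θ * B) n) ∧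
  ∀ d P Q x y, fb κ (sD θ D) d P Q x y = CC θ * fb κ D d P Q x y

def Frm2Stmt : Prop := ∀ (k L : Type) [Field k] [CharZero k] [Field L] (d : ℕ) (f : R2 k)
  (w : Fm k⟦X⟧) (κ : k →+* L) (D : L →+ L) (x y x' y' : AA L) (n α : ℕ), 1 ≤ d → DL (d + 1) f →
  mapF cc w = d1 f → Curve κ D (hc d f) (c00 x) (c00 y) → c00 x' = c00 x → c00 y' = c00 y →
  Good κ D (fa κ d w.1 w.2 x y) (fb κ D d w.1 w.2 x y) n α →
  Good κ D (fa κ d w.1 w.2 x' y') (fb κ D d w.1 w.2 x' y') n α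

def XfrStmt : Prop := ∀ (k L : Type) [Field k] [CharZero k] [Field L] (κ : k →+* L) (c : k)
  (n α : ℕ),
  (∀ (D : L →+ L) (f u v : R2 k) (e δ : k) (w : Fm k⟦X⟧) (x y : AA L), DL 2 u → DL 2 v → δ ≠ 0 →
    br u v = MvPolynomial.C δ → f = sub2 u v (f0 c) + MvPolynomial.C e → DF 4 w →
    mapF cc w = d1 f → Frm κ D 3 f x y → Good κ D (fa κ 3 w.1 w.2 x y) (fb κ D 3 w.1 w.2 x y) n α →
    ∃ (w0 : Fm k⟦X⟧) (D' : L →+ L) (s z : L), DF 4 w0 ∧ mapF cc w0 = d1 (f0 c) ∧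
      w = pb (MvPolynomial.map C u) (MvPolynomial.map C v) w0 ∧ Xd κ D' s z ∧
      Gx κ D' s z w0 n α) ∧
  ∀ (D : L →+ L) (s z : L) (u v : R2 k⟦X⟧) (w : Fm k⟦X⟧), Xd κ D s z → DL 2 u → DL 2 v →
    MvPolynomial.map cc u = MvPolynomial.X 0 → MvPolynomial.map cc v = MvPolynomial.X 1 → DF 4 w →
    mapF cc w = d1 (f0 c) → Gx κ D s z (pb u v w) n α → Gx κ D s z w n α

/-- The implicit function theorem for families of forms. -/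
def IftStmt : Prop := ∀ (k σ : Type) [Field k] (d : ℕ) (U : Fm (MvPolynomial σ k)) (x0 : σ → k)
  (w : Fm k⟦X⟧), DF d U → DF d w → mapF cc w = mapF (MvPolynomial.eval x0) U →
  (∀ r : Fm k, DF d r → ∃ h : σ → k,
    Cg 2 (mapF (MvPolynomial.eval₂Hom C fun i => C (x0 i) + X * C (h i)) U)
      (mapF C (mapF (MvPolynomial.eval x0) U) + (MvPolynomial.C X : R2 k⟦X⟧) • mapF C r)) →
  ∃ x : σ → k⟦X⟧, (∀ i, cc (x i) = x0 i) ∧ w = mapF (MvPolynomial.eval₂Hom C x) U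

/-- Functoriality and degree of the normal form. -/
def OmStmt : Prop := ∀ (b : ℕ) (M : Mo b) (A : Type) [CommRing A],
  (∀ (B : Type) [CommRing B] (φ : A →+* B) (x : Pa A), mapF φ (Om M x) = Om M (x.map φ)) ∧
  (∀ x : Pa A, DF 4 (Om M x)) ∧
  (∀ c : A, Om M ⟨c, 0, 0, 0, 0, 0, 0, 0, 0, fun _ => 0⟩ = (4 : R2 A) • d1 (f0 c)) ∧
  ∀ (τ : A) (x y : Pa A), Sc τ x y →
    pb (MvPolynomial.C τ * MvPolynomial.X 0) (MvPolynomial.C τ * MvPolynomial.X 1) (Om M y) =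
      (MvPolynomial.C (τ ^ 3) : R2 A) • Om M x

def JacStmt : Prop := ∀ (b : ℕ) (M : Mo b) (k : Type) [Field k] [CharZero k] (c : k) (r : Fm k),
  DF 4 r → ∃ h : Fin 20 → k, Cg 2 (uO M fun i => C (y0 c i) + X * C (h i))
    (mapF C ((4 : R2 k) • d1 (f0 c)) + (MvPolynomial.C X : R2 k⟦X⟧) • mapF C r)

def XifStmt : Prop := ∀ (b : ℕ) (M : Mo b) (k : Type) [Field k] [CharZero k] (c : k)
  (w : Fm k⟦X⟧), DF 4 w → mapF cc w = d1 (f0 c) → ∃ (u v : R2 k⟦X⟧) (x : Pa k⟦X⟧) (w' : Fm k⟦X⟧),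
    DL 2 u ∧ DL 2 v ∧ MvPolynomial.map cc u = MvPolynomial.X 0 ∧
    MvPolynomial.map cc v = MvPolynomial.X 1 ∧ Sm c x ∧ DF 4 w' ∧ mapF cc w' = d1 (f0 c) ∧
    (4 : R2 k⟦X⟧) • w' = Om M x ∧ w = pb u v w'

def CfrStmt : Prop := ∀ (b : ℕ) (M : Mo b) (k L : Type) [Field k] [CharZero k] [Field L]
  (κ : k →+* L) (D : L →+ L) (s z : L) (c : k) (x : Pa k⟦X⟧), Xd κ D s z → Sm c x →
  ∃ p ζ ζi, Cf M κ s z c x p ζ ζi

/-- The rotation of the adapted frame. -/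
def EtxStmt : Prop := ∀ (b : ℕ) (M : Mo b) (k L : Type) [Field k] [CharZero k] [IsAlgClosed k]
  [Field L] (κ : k →+* L) (D : L →+ L) (s z : L) (c : k) (x : Pa k⟦X⟧) (p : AA L) (ζ ζi : L⟦X⟧)
  (ξ : k), Xd κ D s z → Sm c x → Cf M κ s z c x p ζ ζi → ξ ^ 3 = 1 →
  ∃ η : L →+* L, (∀ c, η (κ c) = κ c) ∧
    (∀ c, sD (-3 * z ^ 2) D (η c) = κ ξ ^ 2 * η (sD (-3 * z ^ 2) D c)) ∧
    ∀ w, rescale (C (κ ξ)) (mA η (ca κ w p ζi)) = CC (κ ξ) * ca κ w p ζi ∧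
      CC (κ ξ) * rescale (C (κ ξ)) (mA η (cb κ (sD (-3 * z ^ 2) D) w p ζi)) =
        cb κ (sD (-3 * z ^ 2) D) w p ζi

def PipeStmt : Prop := ∀ (b : ℕ) (M : Mo b) (k L : Type) [Field k] [CharZero k] [IsAlgClosed k]
  [Field L] (κ : k →+* L) (D : L →+ L) (s z : L) (c : k) (x : Pa k⟦X⟧) (p : AA L) (ζ ζi : L⟦X⟧)
  (w : Fm k⟦X⟧) (α : ℕ) (ω : k), Xd κ D s z → Sm c x → Cf M κ s z c x p ζ ζi →
  mapF cc w = d1 (f0 c) → Gx κ D s z w 4 α → IsPrimitiveRoot ω 4 →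
  ∃ β ρ B u w1 vb σ Φ φ, Pp κ D (ca κ w p ζi) (cb κ D w p ζi) α β ω ρ B u w1 vb σ Φ φ

def FoldStmt : Prop := ∀ (L : Type) [Field L] [CharZero L] (D : L →+ L) (a b ρ B u : AA L)
  (w : L⟦X⟧) (α β : ℕ), IsDer D → α + β = 4 → ¬ a ∣ X * b →
  red a = -(((3 : ℕ) : L⟦X⟧) * X) → red b = 0 → Rho D a b ρ B 4 → Fac ρ u w α β →
  ∃ e, Fd D a b α β w e

def LeadStmt : Prop := ∀ (b : ℕ) (M : Mo b) (k L : Type) [Field k] [CharZero k] [IsAlgClosed k]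
  [Field L] (κ : k →+* L) (D : L →+ L) (s z : L) (c : k) (x : Pa k⟦X⟧) (p : AA L) (ζ ζi : L⟦X⟧)
  (w : Fm k⟦X⟧) (w1 : L⟦X⟧) (e : ℕ), Xd κ D s z → Sm c x → Cf M κ s z c x p ζ ζi →
  (4 : R2 k⟦X⟧) • w = Om M x → Fd D (ca κ w p ζi) (cb κ D w p ζi) (4 - b) b w1 e →
  X ^ e ∣ x.m ∧ X ^ e ∣ x.n ∧ X ^ (e + 1) ∣ x.s2 ∧ (∀ i, X ^ (e + 1) ∣ x.q i) ∧
    -coeff e w1 * z = κ (coeff e x.m) + κ (52 * coeff e x.n) * s

/-! ### Statements: the function field -/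

def LstStmt : Prop := ∀ (k L : Type) [Field k] [CharZero k] [Field L] (κ : k →+* L) (D : L →+ L)
  (s z : L), Xd κ D s z →
  (∀ A0 A1 A2 : Polynomial k, A0.eval₂ κ s + A1.eval₂ κ s * z + A2.eval₂ κ s * z ^ 2 = 0 →
    A0 = 0 ∧ A1 = 0 ∧ A2 = 0) ∧
  ∀ u, ∃ B A0 A1 A2 : Polynomial k, B ≠ 0 ∧
    B.eval₂ κ s * u = A0.eval₂ κ s + A1.eval₂ κ s * z + A2.eval₂ κ s * z ^ 2

def RatStmt : Prop := ∀ (k : Type) [Field k] [CharZero k] [IsAlgClosed k] (A B : Polynomial k)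
  (i : ℕ) (γ δ : k), B ≠ 0 → i ≤ 2 → (i ≠ 0 → δ = 0) →
  3 * (1 + Polynomial.X ^ 2) * (A.derivative * B - A * B.derivative) +
    2 * (i : Polynomial k) * Polynomial.X * A * B = (Polynomial.C γ + Polynomial.C δ * Polynomial.X) * B ^ 2 →
  γ = 0 ∧ δ = 0

/-- Four independent classes. -/
def NexStmt : Prop := ∀ (k L : Type) [Field k] [CharZero k] [IsAlgClosed k] [Field L]
  (κ : k →+* L) (D : L →+ L) (s z : L), Xd κ D s z → z ≠ 0 ∧ D z = 2 * s / (3 * z ^ 2) ∧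
  (∀ α β γ δ : k, Ex D (κ α / z ^ 2 + κ β / z + (κ γ + κ δ * s) / z ^ 3) →
    α = 0 ∧ β = 0 ∧ γ = 0 ∧ δ = 0) ∧
  ∀ (m m1 : k) (n : L), n ≠ 0 → n * z = κ m + κ m1 * s → D n ≠ 0

/-! ### Statements: the model -/

def MoStmt (b : ℕ) : Prop := Nonempty (Mo b)

def DictStmt : Prop := ∀ (k L T : Type) [Field k] [Field L] [CommRing T] [IsDomain T]
  (κ : k →+* L) (D : L →+ L) (Θ : AA L →+* T) (φ : k⟦X⟧ →+* T) (V : T →+ T) (w w' : Fm k⟦X⟧)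
  (τ : k⟦X⟧) (x y : AA L) (Wt Wi : T), IsDer V → DF 4 w → DF 4 w' →
  pb (MvPolynomial.C τ * MvPolynomial.X 0) (MvPolynomial.C τ * MvPolynomial.X 1) w' =
    (MvPolynomial.C (τ ^ 3) : R2 k⟦X⟧) • w →
  (∀ r, Θ (iA κ r) = φ r) → φ τ ≠ 0 → V (φ τ) = 0 → Θ X = φ τ * Wt → Wt * Wi = 1 →
  Θ (fa κ 3 w.1 w.2 x y) ≠ 0 →
  (∀ c, Θ (fa κ 3 w.1 w.2 x y) * V (Θ c) =
    Θ (fa κ 3 w.1 w.2 x y * cw (cw D) c - X * fb κ D 3 w.1 w.2 x y * dX _ c)) →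
  cw (cw D) (X : AA L) = 0 → Fo φ w' V (Θ x * Wi) (Θ y * Wi)

def FormStmt : Prop := ∀ (b : ℕ) (M : Mo b) (R T : Type) [CommRing R] [CommRing T] (φ : R →+* T)
  (V : T →+ T) (x : Pa R) (a' : Fin 5 → T) (p z zi Ξ d : T), IsDer V → (∀ r, V (φ r) = 0) →
  z * zi = 1 → Fo φ (Om M x) V zi (p * zi) →
  4 * (x.map φ).l zi (p * zi) * V Ξ - 3 * b * Ξ * V ((x.map φ).l zi (p * zi)) =
    V (q4 (x.map φ).q zi (p * zi) - q4 a' zi (p * zi)) →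
  d * (x.map φ).l zi (p * zi) =
    z ^ 3 * ((φ x.s0 * zi + φ x.s2 * zi ^ 3) * V (p * zi) + V (q4 a' zi (p * zi))) →
  HS M V (x.map φ) p z zi (φ x.κ * z + φ x.g * z ^ 2 + z ^ 3 * Ξ) d

/-- The first normalisation. -/
def NrmStmt : Prop := ∀ (K : Type) [Field K] [CharZero K] (S : Subring K) (q r ψ g : K⟦X⟧),
  (∀ a : ℚ, (a : K) ∈ S) → In S q → In S r → In S ψ → In S g → cc (q + r) ≠ 0 →
  (cc (q + r))⁻¹ ∈ S → X ∣ ψ → X ∣ g → ∃ x e1 e2 e3 e4 e5 : K⟦X⟧, In S x ∧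
    (1 + x) ^ 3 * (q - 3 * r + 3 * (g - (q + r) * ψ)) + 3 * r * (1 + x) ^ 4 = q ∧
    x = e1 * ψ + e2 * g ∧ (q + r) * (3 * (1 + x) ^ 3 * ψ - ((1 + x) ^ 3 - 1)) =
      3 * g + 6 * r * ψ ^ 2 + e3 * ψ ^ 3 + e4 * ψ * g + e5 * g ^ 2

/-- The form is a pull-back up to an explicit error. -/
def ModStmt : Prop := ∀ (b : ℕ) (M : Mo b) (K : Type) [Field K] [CharZero K] (S : Subring K)
  (V : K⟦X⟧ →+ K⟦X⟧) (y : Pa K⟦X⟧) (p z zi s g d : K⟦X⟧) (j : ℕ), IsDer V → V X = 0 →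
  V y.c = 0 → V y.μ = 0 → V y.m = 0 → V y.n = 0 → V y.ν = 0 → z * zi = 1 → e6 M.S y p z = s →
  V s = 1 → cc (y.el p z) ≠ 0 → cc (M.J b y p z) ≠ 0 → cc (y.Λ s (y.ρ b p z)) ≠ 0 →
  HS M V y p z zi g d → X ∣ y.c * y.n → X ∣ y.μ → X ∣ y.ν → X ∣ g → 1 ≤ j → X ^ j ∣ d →
  X ^ j ∣ y.μ * g → X ^ j ∣ y.ν * g → X ^ j ∣ y.ν * y.c → X ^ j ∣ y.μ * y.c ^ 3 * y.n ^ 7 →
  (∀ a : ℚ, (a : K) ∈ S) → In S p → In S z → In S y.c → In S y.μ → In S y.m → In S y.n →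
  In S y.ν → In S g → (cc (y.Λ s (y.ρ b p z)))⁻¹ ∈ S →
  ∃ ρ d' r : K⟦X⟧, In S ρ ∧ X ∣ ρ - y.ρ b p z ∧ 8 * s * ρ - y.Λ s ρ * V ρ + X ^ j * d' * ρ = 0 ∧
    X ^ (j + 1) ∣ y.el p z ^ 2 * M.J b y p z * (y.Λ s (y.ρ b p z) * (X ^ j * d' - d) -
      8 * s * y.ν * (p ^ 2 - s ^ 2) - 4 * (y.μ - 2 * y.ν * s) * g) +
      y.μ * y.c ^ 3 * y.n ^ 7 * (16 * 13 ^ 7 * rz b p z y.m (52 * y.n) + y.c * r)

/-! ### Statements: the small disc -/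

def ZmStmt : Prop := ∀ (L : Type) [Field L] (D : L →+ L) (e : ℕ), 1 ≤ e → IsDer D →
  (∀ c : L⟦X⟧, zm e (C c) = map (cL L) c) ∧ zm e (X : AA L) = X ^ e * C (wL L (-1)) ∧
  (∀ c : AA L, In (iX L).range (zm e c)) ∧ (∀ c : AA L, cc (zm e c) = cL L (c00 c)) ∧
  (∀ c : AA L, cw (cwL D) (zm e c) = zm e (cw (cw D) c)) ∧
  (∀ c : AA L, cw (thL L) (zm e c) = -zm e (X * dX _ c)) ∧
  (∀ c : AA L, X ^ e ∣ cc c → ∃ c', zm e c = X ^ e * c' ∧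
    cc c' = cL L (coeff e (cc c)) + cL L (co2 0 1 c) * wL L (-1)) ∧
  ∀ (ρ B : AA L) (r : TT L) (m N : ℕ), 1 ≤ m → cc ρ = 0 → cc B = 0 → zm e ρ = X ^ m * r →
    ∃ (P : Polynomial L⟦X⟧) (g : TT L),
      zm e (sb ρ B) = X ^ m * (P.eval₂ (map (cL L)) r + X ^ N * g)

def ZsetStmt : Prop := ∀ (b : ℕ) (M : Mo b) (k L : Type) [Field k] [CharZero k] [Field L]
  (κ : k →+* L) (D : L →+ L) (s z : L) (c : k) (x y : Pa k⟦X⟧) (p : AA L) (ζ ζi : L⟦X⟧)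
  (w : Fm k⟦X⟧) (ρ B u : AA L) (w1 : L⟦X⟧) (e : ℕ), Xd κ D s z → Cf M κ s z c x p ζ ζi →
  (4 : R2 k⟦X⟧) • w = Om M x → red (ca κ w p ζi) = -(((3 : ℕ) : L⟦X⟧) * X) →
  red (cb κ D w p ζi) = 0 → Rho D (ca κ w p ζi) (cb κ D w p ζi) ρ B 4 → Fac ρ u w1 (4 - b) b →
  Fd D (ca κ w p ζi) (cb κ D w p ζi) (4 - b) b w1 e → Sc (X ^ e) x y →
  -coeff e w1 * z = κ (cc y.m) + κ (52 * cc y.n) * s →
  ∃ n u0 vb p' z' zi ρ', Zd M κ D s z y n u0 vb p' z' zi ρ'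

/-- Residues along the leaves of the limit field. -/
def SlotStmt : Prop := ∀ (L : Type) [Field L] [CharZero L] (D : L →+ L) (a b N : ℕ) (n : L)
  (y y1 Γ T : Polynomial L) (K : ℤ), IsDer D → a + b = 4 → ¬ 4 ∣ K → T.natDegree < N →
  Dp D y y1 → (Polynomial.X + Polynomial.C n) ^ 2 * Vp D a b n y y1 Γ = rP a b n * T →
  Ex D (∑ i ∈ Finset.range N, if K + 3 ≤ i then T.coeff i *
    (bq (-3 - b * K / 4) (i - 3 - K).toNat : L) * n ^ (i - 3 - K).toNat else 0)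

/-- Polynomial solutions. -/
def ZpolyStmt : Prop := ∀ (k L : Type) [Field k] [CharZero k] [Field L] (κ : k →+* L)
  (D : L →+ L) (b : ℕ) (n : L) (β : k) (y y1 Γ : Polynomial L), IsDer D → (∀ c, D (κ c) = 0) →
  Cst κ D → D n ≠ 0 → b = 1 ∨ b = 3 → Dp D y y1 →
  Vp D (4 - b) b n y y1 Γ = Polynomial.C (κ β * D n) * rP (4 - b) b n →
  β = 0 ∧ ∃ G : Polynomial L, y = G.comp (rP (4 - b) b n)

def ZindStmt : Prop := ∀ (L : Type) [Field L] [CharZero L] (D : L →+ L) (a b j : ℕ)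
  (n z s u : L) (vb ρ ρ2 d : TT L) (q c : L⟦X⟧), IsDer D → a + b = 4 →
  (∀ y y1 Γ : Polynomial L, Dp D y y1 → Vp D a b n y y1 Γ = 0 →
    ∃ G : Polynomial L, y = G.comp (rP a b n)) →
  z ≠ 0 → u ≠ 0 → 3 * z ^ 3 * D (z ^ 4) = 8 * s * z ^ 4 →
  cc vb * iX L (jP a n) = -cL L (b * D n) → In (iX L).range ρ → In (iX L).range ρ2 →
  cc ρ = iX L (Polynomial.C u * rP a b n) → cc ρ2 = iX L (Polynomial.C (z ^ 4) * rP a b n) →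
  (∀ N : ℕ, ∃ P : Polynomial L⟦X⟧, X ^ N ∣ VT D vb ρ - P.eval₂ (map (cL L)) ρ) →
  cc q = 3 * z ^ 3 → X ∣ c → 1 ≤ j →
  8 * C (cL L s) * ρ2 - (map (cL L) q + map (cL L) c * ρ2) * VT D vb ρ2 + X ^ j * d * ρ2 = 0 →
  ∃ y y1 Γ : Polynomial L, Dp D y y1 ∧
    iX L (Polynomial.C (3 * z ^ 3) * Vp D a b n y y1 Γ) = iX L (jP a n * rP a b n) * cc d

def ZslStmt : Prop := ∀ (b : ℕ) (k L : Type) [Field k] [CharZero k] [IsAlgClosed k] [Field L]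
  (κ : k →+* L) (D : L →+ L) (s z n : L) (m m1 : k) (a : Fin 5 → k) (S θ x1 x2 : k),
  b = 1 ∨ b = 3 → Xd κ D s z → n * z = κ m + κ m1 * s → Zeq b κ D s z n m m1 a S θ x1 x2 →
  x1 = 0 ∧ x2 = 0 ∧ zl b m m1 S θ a

def ZlinStmt : Prop := ∀ (b : ℕ) (k : Type) [Field k] [CharZero k] (m n S θ : k) (a : Fin 5 → k),
  m ≠ 0 ∨ n ≠ 0 → zl b m n S θ a →
  S = 0 ∧ θ = 0 ∧ ∃ α β, ∀ i, a i = α * m4 m n i + β * mF m n i

def ZlogStmt : Prop := ∀ (b : ℕ) (k L : Type) [Field k] [CharZero k] [IsAlgClosed k] [Field L]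
  (κ : k →+* L) (D : L →+ L) (s z n : L) (m m1 α β : k), b = 1 ∨ b = 3 → Xd κ D s z → n ≠ 0 →
  n * z = κ m + κ m1 * s →
  Zeq b κ D s z n m m1 (fun i => α * m4 m m1 i + β * mF m m1 i) 0 0 0 0 → β = 0

/-- The equation of the first variation holds. -/
def ZvarStmt : Prop := ∀ (b : ℕ) (M : Mo b) (k L : Type) [Field k] [CharZero k] [IsAlgClosed k]
  [Field L] (κ : k →+* L) (D : L →+ L) (s z n u : L) (c : k) (x y : Pa k⟦X⟧) (ax : k⟦X⟧)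
  (a' : Fin 5 → k⟦X⟧) (vb p z' zi ρ : TT L) (e j : ℕ), Xd κ D s z →
  Zd M κ D s z y n u vb p z' zi ρ → Sm c x → 1 ≤ e → Sc (X ^ e) x y → Sp y ax a' → X ∣ ax →
  1 ≤ j → Zl j y ax a' → Ol j x →
  Zeq b κ D s z n (cc y.m) (52 * cc y.n) (fun i => coeff j (a' i)) (coeff j y.s2)
    (16 * 13 ^ 7 * coeff j (y.μ * y.c ^ 3 * y.n ^ 7)) (coeff j (y.μ * ax)) (coeff j (y.ν * ax))

def ZmainStmt : Prop := ∀ (b : ℕ) (M : Mo b) (k L : Type) [Field k] [CharZero k] [IsAlgClosed k]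
  [Field L] (κ : k →+* L) (D : L →+ L) (s z n u : L) (c p0 : k) (x y : Pa k⟦X⟧) (ax : k⟦X⟧)
  (a' : Fin 5 → k⟦X⟧) (vb p z' zi ρ : TT L) (e j : ℕ), Xd κ D s z →
  Zd M κ D s z y n u vb p z' zi ρ → Sm c x → 1 ≤ e → Sc (X ^ e) x y → Sp y ax a' → X ∣ ax →
  cc y.m + 52 * cc y.n * p0 ≠ 0 → q4 a' 1 (C p0) = 0 → 1 ≤ j → Zl j y ax a' → Ol j x →
  Zl (j + 1) y ax a'

/-- The scaled parameters. -/
def SplStmt : Prop := ∀ (k : Type) [Field k] [CharZero k] (c : k) (x : Pa k⟦X⟧) (e : ℕ), Sm c x →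
  X ^ e ∣ x.m → X ^ e ∣ x.n → X ^ (e + 1) ∣ x.s2 → (∀ i, X ^ (e + 1) ∣ x.q i) →
  coeff e x.m ≠ 0 ∨ coeff e x.n ≠ 0 → ∃ (y : Pa k⟦X⟧) (ax : k⟦X⟧) (a' : Fin 5 → k⟦X⟧) (p0 : k),
    Sc (X ^ e) x y ∧ Sp y ax a' ∧ X ∣ ax ∧ cc y.m + 52 * cc y.n * p0 ≠ 0 ∧ q4 a' 1 (C p0) = 0 ∧
    Zl 1 y ax a' ∧ Ol 1 x ∧ cc y.m = coeff e x.m ∧ cc y.n = coeff e x.n

/-! ### Statements: the annulus -/

def XiStmt : Prop := ∀ (K : Type) [Field K] [CharZero K] (V : K⟦X⟧ →+ K⟦X⟧) (τ y : K⟦X⟧) (b : ℕ),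
  IsDer V → X ∣ τ → V τ = 0 →
  ∃ Ξ, 4 * (1 + τ * y) * V Ξ - 3 * b * Ξ * V (1 + τ * y) = V (y ^ 4)

def OsetStmt : Prop := ∀ (b : ℕ) (M : Mo b) (k L : Type) [Field k] [CharZero k] [Field L]
  (κ : k →+* L) (D : L →+ L) (s z : L) (c : k) (x : Pa k⟦X⟧) (p : AA L) (ζ ζi : L⟦X⟧)
  (w : Fm k⟦X⟧) (α β : ℕ) (ω : k) (ρ B u : AA L) (w1 : L⟦X⟧) (vb : TT L) (σ : k⟦X⟧)
  (Φ : AA L →+* TT L) (φ : L⸨X⸩ →+* TT L), Xd κ D s z → Cf M κ s z c x p ζ ζi →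
  (4 : R2 k⟦X⟧) • w = Om M x → IsPrimitiveRoot ω 4 →
  Pp κ D (ca κ w p ζi) (cb κ D w p ζi) α β ω ρ B u w1 vb σ Φ φ →
  Dt κ D ω vb σ φ ∧ ∃ p' zi, Ad M κ D s x ζ vb p' zi

def O0Stmt : Prop := ∀ (k L : Type) [Field k] [CharZero k] [IsAlgClosed k] [Field L]
  (κ : k →+* L) (D : L →+ L) (s z : L) (c ω μ S ν : k) (ζ : L⟦X⟧) (σ : k⟦X⟧)
  (φ : L⸨X⸩ →+* L⸨X⸩) (Ξ : L⸨X⸩), Xd κ D s z → c ≠ 0 → Cn κ s z c ζ → IsPrimitiveRoot ω 4 →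
  cc σ = 0 → coeff 1 σ = ω → (∀ r, φ (coeL L r) = coeL L (sb (map κ σ) r)) →
  (∀ r, cwL D (φ r) = φ (cwL D r)) →
  Ξ = (cL L (κ μ - 2 * κ ν * s) - 3 / 4 * dO D s (κ c) (coeL L (X * ζ)) (κ S) (κ ν) 0 0) /
    coeL L (X * ζ) ^ 3 →
  Ex (cwL D) (cL L (κ ω⁻¹) * φ Ξ - dh 3 (cL L (κ ω⁻¹) * φ (wL L (-3))) * Ξ) →
  S = 0 ∧ ν = 0 ∧ (μ ≠ 0 → σ = C ω * X)

def O1Stmt : Prop := ∀ (k L : Type) [Field k] [CharZero k] [IsAlgClosed k] [Field L]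
  (κ : k →+* L) (D : L →+ L) (s z : L) (c ω μ S ν K G : k) (ζ : L⟦X⟧) (φ : L⸨X⸩ →+* L⸨X⸩)
  (η : L⸨X⸩), Xd κ D s z → c ≠ 0 → μ ≠ 0 → Cn κ s z c ζ → IsPrimitiveRoot ω 4 →
  (∀ r, φ (coeL L r) = coeL L (sb (map κ (C ω * X)) r)) → (∀ r, cwL D (φ r) = φ (cwL D r)) →
  cwL D η = 0 →
  Ex (cwL D) (cL L (κ μ) * (η / (3 * (1 + cL L s ^ 2) + cL L (κ c) ^ 2 * coeL L (X * ζ) ^ 4) -
      dh 3 η / (3 * coeL L (X * ζ) ^ 3)) -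
    3 / 4 * (φ (dO D s (κ c) (coeL L (X * ζ)) (κ S) (κ ν) (κ K) (κ G)) -
      dO D s (κ c) (coeL L (X * ζ)) (κ S) (κ ν) (κ K) (κ G)) / coeL L (X * ζ) ^ 3) →
  S = 0 ∧ ν = 0 ∧ K = 0 ∧ G = 0 ∧ η = 0

def OindStmt : Prop := ∀ (k L : Type) [Field k] [CharZero k] [IsAlgClosed k] [Field L]
  (κ : k →+* L) (D : L →+ L) (s z : L) (c0 ω S K G : k) (ζ : L⟦X⟧) (σ μ ν c : k⟦X⟧)
  (φ : L⸨X⸩ →+* TT L) (vb z' d : TT L) (j : ℕ), Xd κ D s z → c0 ≠ 0 → Cn κ s z c0 ζ →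
  Dt κ D ω vb σ φ → cc c = c0 → X ∣ μ → 1 ≤ j → X ^ j ∣ ν → cc z' = coeL L (X * ζ) →
  8 * C (cL L s) * z' - 4 * (3 * (1 + C (cL L s) ^ 2) + iK κ μ * C (cL L s) -
    iK κ ν * C (cL L s) ^ 2 + iK κ c ^ 2 * z' ^ 4) * VT D vb z' + X ^ j * d * z' = 0 →
  cc d = dO D s (κ c0) (coeL L (X * ζ)) (κ S) (κ (coeff j ν)) (κ K) (κ G) →
  (X ^ j ∣ μ → K = 0 ∧ G = 0) → S = 0 ∧ coeff j ν = 0 ∧ K = 0 ∧ G = 0

def OmainStmt : Prop := ∀ (b : ℕ) (M : Mo b) (k L : Type) [Field k] [CharZero k] [IsAlgClosed k]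
  [Field L] (κ : k →+* L) (D : L →+ L) (s z : L) (c ω : k) (x y : Pa k⟦X⟧) (ax σ : k⟦X⟧)
  (a' : Fin 5 → k⟦X⟧) (ζ : L⟦X⟧) (φ : L⸨X⸩ →+* TT L) (vb p zi : TT L) (e j : ℕ), Xd κ D s z →
  c ≠ 0 → Cn κ s z c ζ → Dt κ D ω vb σ φ → Ad M κ D s x ζ vb p zi → Sm c x → 1 ≤ e →
  Sc (X ^ e) x y → Sp y ax a' → 1 ≤ j → Zl j y ax a' → Ol j x → Ol (j + 1) x

/-! ### Statements: conclusion -/

def FinStmt : Prop := ∀ (b : ℕ) (M : Mo b) (k : Type) [Field k] [CharZero k] [IsAlgClosed k]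
  (c : k) (x y : Pa k⟦X⟧) (ax : k⟦X⟧) (a' : Fin 5 → k⟦X⟧) (w : Fm k⟦X⟧) (e : ℕ), c ≠ 0 → Sm c x →
  Sc (X ^ e) x y → Sp y ax a' → (4 : R2 k⟦X⟧) • w = Om M x →
  (∀ j, Zl j y ax a' ∧ Ol j x) → Xc w

def XmainStmt : Prop := ∀ (k L : Type) [Field k] [CharZero k] [IsAlgClosed k] [Field L]
  (κ : k →+* L) (D : L →+ L) (f : R2 k) (w : Fm k⟦X⟧) (x y : AA L) (α : ℕ), TM 3 f → ExoK f →
  DF 4 w → mapF cc w = d1 f → Frm κ D 3 f x y →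
  Good κ D (fa κ 3 w.1 w.2 x y) (fb κ D 3 w.1 w.2 x y) 4 α → Xc w

def RigxStmt : Prop := ∀ (k : Type) [Field k] [CharZero k] (d : ℕ) (o : Ob k d), 3 ≤ d →
  ¬ NoF d o.f o.P o.Q → Rx d o.f (o.P, o.Q)

def CorxStmt : Prop := ∀ (k : Type) [Field k] [CharZero k] [IsAlgClosed k] (d : ℕ) (f : R2 k)
  (w : Fm k⟦X⟧) (p : Fin 2 → k⸨X⸩), 3 ≤ d → TM d f → DF (d + 1) w → mapF cc w = d1 f →
  CenK w p → (∀ (Ω : Type) [Field Ω] [CharZero Ω] [IsAlgClosed Ω] (ψ : k⸨X⸩ →+* Ω),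
    UM.Fam d (mapF ψ (mapF (coeL k) w))) ∨ Rx d f w

/-- The full list of families. -/
def Wx (d : ℕ) (f : Poly) : Set (Set Form) :=
  {W | W ∈ RV.Wr d f ∨ d = 3 ∧ Exo f ∧ (W = EX 1 ∨ W = EX 3)}

def MinxStmt : Prop := ∀ (d : ℕ) (f : Poly), 3 ≤ d → TM d f →
  ∀ q ∈ (II (Cen d)).minimalPrimes,
    (∀ R : Co, MvPolynomial.rename Sum.inl R ∈ q → Pool.Agent.MP_05b4bd_ag.ev R (dform f) = 0) →
    ∃ W ∈ Wx d f, ∀ R : Co, (∀ ω ∈ W, Pool.Agent.MP_05b4bd_ag.ev R ω = 0) →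
      MvPolynomial.rename Sum.inl R ∈ q

end Pool.Agent.MP_05b4bd_ag.XO
end
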