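import Pool.Agent.MP_05b4bd_ag.ex.Bas

/-! The induction on the order in the small disc. -/

namespace Pool.Agent.MP_05b4bd_ag.XO

open PowerSeries LaurentSeries HC
open ES hiding Gen Ob Inf
open RV (In)

namespace Zind

variable {L : Type} [Field L]

theorem iX_C (a : L) : iX L (Polynomial.C a) = cL L a := by
  simp only [iX, Polynomial.coe_eval₂RingHom, Polynomial.eval₂_C]

theorem iX_mon (n : ℕ) (a : L) :
    iX L (Polynomial.monomial n a) = cL L a * wL L (-(n : ℤ)) := by
  simp only [iX, Polynomial.coe_eval₂RingHom, Polynomial.eval₂_monomial, wL_pow, mul_neg, mul_one]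

theorem cw_iX {D : L →+ L} (y : Polynomial L) :
    ∃ y1, Dp D y y1 ∧ cwL D (iX L y) = iX L y1 := by
  induction y using Polynomial.induction_on' with
  | add p q hp hq =>
    obtain ⟨p1, a1, a2⟩ := hp
    obtain ⟨q1, b1, b2⟩ := hq
    refine ⟨p1 + q1, fun i => ?_, ?_⟩
    · rw [Polynomial.coeff_add, Polynomial.coeff_add, map_add, a1, b1]
    · rw [map_add, map_add, map_add, a2, b2]
  | monomial n a =>
    refine ⟨Polynomial.monomial n (D a), fun i => ?_, ?_⟩
    · rw [Polynomial.coeff_monomial, Polynomial.coeff_monomial]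
      split_ifs
      · rfl
      · exact (map_zero D).symm
    · ext m
      rw [iX_mon, iX_mon, coeff_cwL, coeff_cL_mul, coeff_cL_mul, coeff_wL]
      split_ifs <;> simp

theorem th_iX (y : Polynomial L) :
    thL L (iX L y) = -iX L (Polynomial.X * Polynomial.derivative y) := by
  induction y using Polynomial.induction_on' with
  | add p q hp hq => rw [map_add, map_add, hp, hq, map_add, mul_add, map_add, neg_add]
  | monomial n a =>
    have e : Polynomial.X * Polynomial.derivative (Polynomial.monomial n a) =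
        Polynomial.monomial n (a * n) := by
      rw [Polynomial.derivative_monomial]
      cases n with
      | zero => simp
      | succ n => rw [Polynomial.X_mul_monomial, Nat.add_sub_cancel]
    ext m
    rw [e, iX_mon, iX_mon, coeff_thL, HahnSeries.coeff_neg, coeff_cL_mul, coeff_cL_mul, coeff_wL]
    split_ifs with h
    · rw [h]
      push_cast
      ring
    · simp

/-- Evaluation at `ρ`. -/
noncomputable def ep (ρ : TT L) : Polynomial L⟦X⟧ →+* TT L :=
  Polynomial.eval₂RingHom (map (cL L)) ρ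

theorem ep_C (ρ : TT L) (r : L⟦X⟧) : ep ρ (Polynomial.C r) = map (cL L) r := by
  simp only [ep, Polynomial.coe_eval₂RingHom, Polynomial.eval₂_C]

theorem ep_X (ρ : TT L) : ep ρ Polynomial.X = ρ := by
  simp only [ep, Polynomial.coe_eval₂RingHom, Polynomial.eval₂_X]

theorem cc_map (r : L⟦X⟧) : cc (map (cL L) r) = cL L (cc r) := by
  rw [← coeff_zero_eq_constantCoeff_apply, coeff_map, coeff_zero_eq_constantCoeff_apply]

theorem cc_ep {ρ : TT L} {S : Polynomial L} (h : cc ρ = iX L S) (P : Polynomial L⟦X⟧) :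
    cc (ep ρ P) = iX L ((P.map cc).comp S) := by
  induction P using Polynomial.induction_on with
  | C r => rw [ep_C, cc_map, Polynomial.map_C, Polynomial.C_comp, iX_C]
  | add p q hp hq =>
    rw [map_add, map_add, hp, hq, Polynomial.map_add, Polynomial.add_comp, map_add]
  | monomial n r ih =>
    rw [pow_succ, ← mul_assoc]
    generalize Polynomial.C r * Polynomial.X ^ n = Q at ih
    rw [map_mul, map_mul, ih, ep_X, h, Polynomial.map_mul, Polynomial.mul_comp,
      Polynomial.map_X, Polynomial.X_comp, map_mul]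

theorem vt_ep {D : L →+ L} (hD : IsDer D) {vb ρ : TT L} {N : ℕ}
    (h : ∃ P : Polynomial L⟦X⟧, X ^ N ∣ VT D vb ρ - ep ρ P) (P : Polynomial L⟦X⟧) :
    ∃ P', X ^ N ∣ VA D vb (ep ρ P) - ep ρ P' := by
  obtain ⟨P0, h0⟩ := h
  induction P using Polynomial.induction_on with
  | C r =>
    exact ⟨Polynomial.C (cw D r), by rw [ep_C, ep_C, coe_VA, VT_cL, sub_self]; exact dvd_zero _⟩
  | add p q hp hq =>
    obtain ⟨p1, a⟩ := hp
    obtain ⟨q1, b⟩ := hq
    refine ⟨p1 + q1, ?_⟩
    rw [map_add, map_add, map_add, add_sub_add_comm]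
    exact dvd_add a b
  | monomial n r ih =>
    obtain ⟨p1, a⟩ := ih
    refine ⟨p1 * Polynomial.X + Polynomial.C r * Polynomial.X ^ n * P0, ?_⟩
    rw [pow_succ, ← mul_assoc, map_mul, isDer_VA hD vb, map_add, map_mul (ep ρ) p1,
      map_mul (ep ρ) _ P0, ep_X, add_sub_add_comm, ← sub_mul, ← mul_sub]
    exact dvd_add (a.mul_right _) (Dvd.dvd.mul_left h0 _)

theorem div_ep {ρ : TT L} {S : Polynomial L} (h : cc ρ = iX L S) (hS : S.natDegree ≠ 0) (i : ℕ)
    (P : Polynomial L⟦X⟧) (hP : X ^ i ∣ ep ρ P) : ∃ P', ep ρ P = X ^ i * ep ρ P' := by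
  induction i with
  | zero => exact ⟨P, by rw [pow_zero, one_mul]⟩
  | succ i ih =>
    obtain ⟨P1, h1⟩ := ih ((pow_dvd_pow X i.le_succ).trans hP)
    rw [h1, pow_succ, mul_dvd_mul_iff_left (pow_ne_zero i X_ne_zero), X_dvd_iff] at hP
    have h2 := cc_ep h P1
    rw [show cc (ep ρ P1) = 0 from hP, eq_comm, map_eq_zero_iff _ iX_inj,
      Polynomial.comp_eq_zero_iff] at h2
    have h3 : P1.map cc = 0 := h2.resolve_right fun e => hS (by rw [e.2, Polynomial.natDegree_C])
    obtain ⟨P2, h4⟩ : Polynomial.C X ∣ P1 := (Polynomial.C_dvd_iff_dvd_coeff _ _).2 fun m => by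
      have := congrArg (fun p => Polynomial.coeff p m) h3
      simp only [Polynomial.coeff_map, Polynomial.coeff_zero] at this
      exact X_dvd_iff.2 this
    exact ⟨P2, by rw [h1, h4, map_mul, ep_C, map_X, pow_succ, mul_assoc]⟩

theorem in_ep {ρ : TT L} (h : In (iX L).range ρ) (P : Polynomial L⟦X⟧) :
    In (iX L).range (ep ρ P) := by
  rw [in_iff] at h ⊢
  have hc : ∀ r : L⟦X⟧, map (cL L) r ∈ (map (iX L).range.subtype).range := fun r =>
    (in_iff _ _).1 fun n => by
      rw [coeff_map]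
      exact ⟨_, iX_C _⟩
  induction P using Polynomial.induction_on with
  | C r => rw [ep_C]; exact hc r
  | add p q hp hq => rw [map_add]; exact add_mem hp hq
  | monomial n r ih => rw [pow_succ, ← mul_assoc, map_mul, ep_X]; exact mul_mem ih h

theorem deg_rP (a b : ℕ) (n u : L) (hu : u ≠ 0) (h : a + b = 4) :
    (Polynomial.C u * rP a b n).natDegree ≠ 0 := by
  rw [Polynomial.natDegree_C_mul hu, rP,
    (Polynomial.monic_X.pow a).natDegree_mul ((Polynomial.monic_X_add_C n).pow b),
    Polynomial.natDegree_X_pow, (Polynomial.monic_X_add_C n).natDegree_pow,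
    Polynomial.natDegree_X_add_C]
  omega

end Zind

open Zind in
theorem zindS : ZindStmt := by
  intro L _ _ D a b j n z s u vb ρ ρ2 d q c hD hab hpol hz hu hDz hvb hρ hρ2 h0 h2 hap hq hc hj heq
  have hS := deg_rP a b n u hu hab
  have hV := isDer_VA hD vb
  have key : ∀ (i m : ℕ) (P : Polynomial L⟦X⟧) (w : TT L), i + m = j → ρ2 = ep ρ P + X ^ i * w →
      ∃ y y1 Γ : Polynomial L, Dp D y y1 ∧ cc w = iX L (Polynomial.C (z ^ 4) * y) ∧
        iX L (Polynomial.C (3 * z ^ 3) * Vp D a b n y y1 Γ) =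
          iX L (jP a n * rP a b n) * (cc (X ^ m : TT L) * cc d) := by
    intro i m P w him hP
    obtain ⟨P', h, hh⟩ := vt_ep hD (hap (i + 1)) P
    have hVX : VA D vb (X ^ i * w) = X ^ i * VA D vb w :=
      hV.const_mul (by rw [hV.pow, coe_VA, VT_X hD, mul_zero]) w
    have hV2 : VT D vb ρ2 = VA D vb (ep ρ P) + X ^ i * VA D vb w := by
      rw [← coe_VA, hP, map_add, hVX]
    have e1 : ep ρ (8 * Polynomial.C (C s) * P - (Polynomial.C q + Polynomial.C c * P) * P') =
        X ^ i * (X * (map (cL L) q + map (cL L) c * ep ρ P) * h - 8 * C (cL L s) * w +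
          map (cL L) c * w * VA D vb (ep ρ P) +
          (map (cL L) q + map (cL L) c * ρ2) * VA D vb w - X ^ m * d * ρ2) := by
      simp only [map_sub, map_mul, map_add, map_ofNat, ep_C, map_C]
      rw [hV2, ← him] at heq
      linear_combination heq - (8 * C (cL L s) - map (cL L) c * VA D vb (ep ρ P)) * hP +
        (map (cL L) q + map (cL L) c * ep ρ P) * hh
    obtain ⟨E1, hE⟩ := div_ep h0 hS i _ ⟨_, e1⟩
    have e2 := congrArg cc (mul_left_cancel₀ (pow_ne_zero i X_ne_zero) (hE.symm.trans e1))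
    have hc0 : cc c = 0 := X_dvd_iff.1 hc
    have hw : cc w ∈ (iX L).range := by
      have e : coeff i ρ2 - coeff i (ep ρ P) = cc w := by
        rw [hP, map_add, add_sub_cancel_left, ← coeff_zero_eq_constantCoeff_apply]
        simpa only [zero_add] using coeff_X_pow_mul w i 0
      rw [← e]
      exact sub_mem (hρ2 i) (in_ep hρ P i)
    obtain ⟨Y, hY⟩ := hw
    have hz4 : z ^ 4 ≠ 0 := pow_ne_zero 4 hz
    have hy : cc w = iX L (Polynomial.C (z ^ 4) * (Polynomial.C (z ^ 4)⁻¹ * Y)) := by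
      rw [← mul_assoc, ← Polynomial.C_mul, mul_inv_cancel₀ hz4, Polynomial.C_1, one_mul, hY]
    generalize Polynomial.C (z ^ 4)⁻¹ * Y = y at hy
    obtain ⟨y1, hy1, hy2⟩ := cw_iX (D := D) y
    have h37 : (3 * z ^ 7) ≠ 0 := mul_ne_zero three_ne_zero (pow_ne_zero 7 hz)
    refine ⟨y, y1, Polynomial.C (3 * z ^ 7)⁻¹ *
      (E1.map cc).comp (Polynomial.C u * Polynomial.X), hy1, hy, ?_⟩
    have e3 : cc (VA D vb w) = cL L (D (z ^ 4)) * iX L y + cL L (z ^ 4) * iX L y1 +
        cc vb * (cL L (z ^ 4) * iX L (Polynomial.X * Polynomial.derivative y)) := by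
      rw [coe_VA, cc_VT', hy, map_mul, iX_C, hD.coefL, isDer_thL, cwL_cL, thL_cL, hy2, th_iX]
      ring
    rw [cc_ep h0] at e2
    simp only [map_sub, map_add, map_mul, cc_map, hc0, hq, map_zero, zero_mul, constantCoeff_X,
      constantCoeff_C, map_ofNat, e3, h2, hy, iX_C, add_zero, map_pow] at e2
    have e4 := congrArg (cL L) hDz
    have e5 := congrArg (cL L) (mul_inv_cancel₀ h37)
    have e6 : cL L z ≠ 0 := fun e => hz (cL_inj (e.trans (map_zero _).symm))
    simp only [map_mul, map_pow, map_ofNat, map_one] at e4 e5 hvb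
    simp only [Vp, Polynomial.mul_comp, Polynomial.C_comp, Polynomial.comp_assoc,
      Polynomial.X_comp, map_sub, map_mul, iX_C, map_pow, map_ofNat, constantCoeff_X]
    apply mul_left_cancel₀ (pow_ne_zero 4 e6)
    linear_combination (-(iX L (jP a n) * iX L ((E1.map cc).comp (Polynomial.C u * rP a b n)))) *
      e5 - iX L (jP a n) * e2 - iX L (jP a n) * iX L y * e4 - 3 * cL L z ^ 7 *
      (iX L Polynomial.X * iX L (Polynomial.derivative y)) * hvb
  have ind : ∀ i : ℕ, 1 ≤ i → i ≤ j → ∃ (P : Polynomial L⟦X⟧) (w : TT L),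
      ρ2 = ep ρ P + X ^ i * w := by
    intro i hi
    induction i, hi using Nat.le_induction with
    | base =>
      intro _
      obtain ⟨w, hw⟩ : X ∣ ρ2 - ep ρ (Polynomial.C (C (z ^ 4 * u⁻¹)) * Polynomial.X) := by
        rw [X_dvd_iff, map_sub, map_mul, map_mul, ep_C, ep_X, cc_map, constantCoeff_C]
        change cc ρ2 - _ * cc ρ = 0
        rw [h2, h0, ← iX_C, ← map_mul, ← mul_assoc, ← Polynomial.C_mul,
          inv_mul_cancel_right₀ hu, sub_self]
      exact ⟨_, w, by rw [pow_one, ← hw, add_sub_cancel]⟩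
    | succ i hi ih =>
      intro hij
      obtain ⟨P, w, hP⟩ := ih (by omega)
      obtain ⟨y, y1, Γ, h1, h3, h4⟩ := key i (j - i) P w (by omega) hP
      rw [cc_X_pow (by omega), zero_mul, mul_zero, map_eq_zero_iff _ iX_inj, mul_eq_zero,
        Polynomial.C_eq_zero] at h4
      obtain ⟨G, hG⟩ := hpol y y1 Γ h1
        (h4.resolve_left (mul_ne_zero three_ne_zero (pow_ne_zero 3 hz)))
      obtain ⟨w', hw⟩ : X ∣ w - ep ρ ((Polynomial.C (z ^ 4) *
          G.comp (Polynomial.C u⁻¹ * Polynomial.X)).map C) := by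
        rw [X_dvd_iff, map_sub]
        change cc w - cc _ = 0
        rw [cc_ep h0, Polynomial.map_map, constantCoeff_comp_C, Polynomial.map_id, h3, hG,
          Polynomial.mul_comp, Polynomial.C_comp, Polynomial.comp_assoc, Polynomial.mul_comp,
          Polynomial.C_comp, Polynomial.X_comp, ← mul_assoc, ← Polynomial.C_mul,
          inv_mul_cancel₀ hu, Polynomial.C_1, one_mul, sub_self]
      refine ⟨P + Polynomial.C (X ^ i) * (Polynomial.C (z ^ 4) *
          G.comp (Polynomial.C u⁻¹ * Polynomial.X)).map C, w', ?_⟩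
      rw [map_add, map_mul, ep_C, map_pow, map_X]
      linear_combination hP + X ^ i * hw
  obtain ⟨P, w, hP⟩ := ind j hj le_rfl
  obtain ⟨y, y1, Γ, h1, -, h4⟩ := key j 0 P w rfl hP
  rw [pow_zero, map_one, one_mul] at h4
  exact ⟨y, y1, Γ, h1, h4⟩

end Pool.Agent.MP_05b4bd_ag.XO
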